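import Mathlib
import Pool.Graph.R_seed8.H373R2.T7.Fund
import Pool.Graph.R_pool_sql_team_seeded_efc1946e.K1H89.PL.A14
import Pool.Graph.R_pool_sql_team_seeded_efc1946e.K1H89.PL.A7

/-! The fundamental lemma of the sieve with a very small error, for the zeros modulo primes of a sequence. -/

set_option autoImplicit false

namespace Pool.Agent.H77.BV

open Finset
open Pool.Agent.K1H89.PL
open Pool.Agent.H373R2.T7 (JJ JJ_lt JJ_le JJ_small)

/-- divisibility by `p` is periodic modulo `p` -/
def Per (F : ℕ → ℤ) : Prop := ∀ p : ℕ, p.Prime → ∀ x, ((p : ℤ) ∣ F (x + p) ↔ (p : ℤ) ∣ F x)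

/-- number of zeros modulo `p` -/
def om (F : ℕ → ℤ) (p : ℕ) : ℕ := ((range p).filter (fun t : ℕ => (p : ℤ) ∣ F t)).card

lemma crt_prod (R : ℕ → ℕ → Prop) (S : Finset ℕ) (hS : ∀ p ∈ S, p.Prime)
    (hR : ∀ p ∈ S, ∀ x, R p (x + p) ↔ R p x) :
    (∀ x, (∀ p ∈ S, R p (x + ∏ p ∈ S, p)) ↔ ∀ p ∈ S, R p x) ∧
    (open Classical in ((range (∏ p ∈ S, p)).filter (fun x => ∀ p ∈ S, R p x)).card =
      ∏ p ∈ S, ((range p).filter (R p)).card) := by
  classical
  have hper : ∀ p ∈ S, ∀ k x, R p (x + k * p) ↔ R p x := by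
    intro p hp k
    induction k with
    | zero => intro x; simp
    | succ k ih =>
      intro x
      have e : x + (k + 1) * p = (x + k * p) + p := by ring
      rw [e, hR p hp, ih]
  constructor
  · intro x
    apply forall_congr'
    intro p
    apply forall_congr'
    intro hp
    obtain ⟨k, hk⟩ := dvd_prod_of_mem (fun p => p) hp
    rw [hk, mul_comm]
    exact hper p hp k x
  · induction S using Finset.induction_on with
    | empty => simp
    | insert q S hq ih =>
      have hS' : ∀ p ∈ S, p.Prime := fun p hp => hS p (mem_insert_of_mem hp)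
      have hR' : ∀ p ∈ S, ∀ x, R p (x + p) ↔ R p x := fun p hp => hR p (mem_insert_of_mem hp)
      have ih' := ih hS' hR' (fun p hp => hper p (mem_insert_of_mem hp))
      rw [prod_insert hq, prod_insert hq, ← ih']
      have hqp := hS q (mem_insert_self _ _)
      have hcop : q.Coprime (∏ p ∈ S, p) := by
        apply Nat.Coprime.prod_right
        intro p hp
        rw [Nat.coprime_primes hqp (hS' p hp)]
        rintro rfl
        exact hq hp
      have h := crt_count q (∏ p ∈ S, p) hqp.one_le (prod_pos fun p hp => (hS' p hp).pos) hcop (R q)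
        (fun x => ∀ p ∈ S, R p x) (hR q (mem_insert_self _ _)) (by
          intro x
          apply forall_congr'
          intro p
          apply forall_congr'
          intro hp
          obtain ⟨k, hk⟩ := dvd_prod_of_mem (fun p => p) hp
          rw [hk, mul_comm]
          exact hper p (mem_insert_of_mem hp) k x)
      rw [← h]
      congr 1
      apply filter_congr
      intro x _
      simp only [mem_insert, forall_eq_or_imp]

open Classical in
lemma cnt_prod (R : ℕ → ℕ → Prop) (S : Finset ℕ) (hS : ∀ p ∈ S, p.Prime)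
    (hR : ∀ p ∈ S, ∀ x, R p (x + p) ↔ R p x) (a l : ℕ) :
    |(((Ioc a (a + l)).filter (fun x => ∀ p ∈ S, R p x)).card : ℝ) -
      l * ∏ p ∈ S, ((((range p).filter (R p)).card : ℝ) / p)| ≤ ((∏ p ∈ S, p : ℕ) : ℝ) := by
  obtain ⟨h1, h2⟩ := crt_prod R S hS hR
  have hpos : 1 ≤ ∏ p ∈ S, p := prod_pos fun p hp => (hS p hp).pos
  have h3 := interval_count (fun x => ∀ p ∈ S, R p x) (∏ p ∈ S, p) hpos h1 a l
  rw [h2] at h3
  rw [prod_div_distrib]
  push_cast at h3 ⊢
  exact h3

lemma om_zero_or (F : ℕ → ℤ) (p : ℕ) (h : om F p = p) : ∀ x < p, (p : ℤ) ∣ F x := by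
  unfold om at h
  have h2 : (range p).filter (fun t : ℕ => (p : ℤ) ∣ F t) = range p := by
    apply eq_of_subset_of_card_le (filter_subset _ _)
    rw [h, card_range]
  intro x hx
  have : x ∈ (range p).filter (fun t : ℕ => (p : ℤ) ∣ F t) := by rw [h2]; exact mem_range.2 hx
  exact (mem_filter.1 this).2

lemma om_le (F : ℕ → ℤ) (p : ℕ) : om F p ≤ p := by
  unfold om
  exact (card_filter_le _ _).trans (by rw [card_range])

lemma per_all {F : ℕ → ℤ} (hF : Per F) {p : ℕ} (hp : p.Prime) (h : om F p = p) : ∀ x, (p : ℤ) ∣ F x := by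
  intro x
  induction x using Nat.strong_induction_on with
  | _ x ih =>
    rcases lt_or_ge x p with hx | hx
    · exact om_zero_or F p h x hx
    · have h1 := ih (x - p) (by have := hp.pos; omega)
      have h2 := (hF p hp (x - p)).2 h1
      rwa [Nat.sub_add_cancel hx] at h2

/-- the fundamental lemma in the raw form -/
lemma fl_raw (κ : ℕ) : ∃ C0 : ℕ, 1 ≤ C0 ∧ ∀ (b J z : ℕ), C0 ≤ b → z ≤ 2 ^ 2 ^ J →
    ∀ F : ℕ → ℤ, Per F → (∀ p : ℕ, p.Prime → p ≤ z → om F p = p ∨ om F p ≤ κ) → ∀ a l : ℕ,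
    |(((Ioc a (a + l)).filter (fun x => ∀ p ∈ prN z, ¬ (p : ℤ) ∣ F x)).card : ℝ) -
      l * ∏ p ∈ prN z, (1 - (om F p : ℝ) / p)| ≤
      (1 / 2 : ℝ) ^ b * l + ((J : ℝ) + 2) * ((∏ p ∈ prN C0, p : ℕ) * (((2 ^ 2 ^ J) ^ (C0 * b) : ℕ) : ℝ) ^ 2) := by
  classical
  obtain ⟨C0, hC0, hfl⟩ := Pool.Agent.H20R2.fLem (max κ 1)
  refine ⟨C0, hC0, fun b J z hb hz F hF hκ a l => ?_⟩
  set D' : ℕ := (2 ^ 2 ^ J) ^ (C0 * b) with hD'
  by_cases hex : ∃ p ∈ prN z, om F p = p
  · obtain ⟨p, hp, hpo⟩ := hex
    have hpp := (mem_prN.1 hp).2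
    have h1 : (Ioc a (a + l)).filter (fun x => ∀ p ∈ prN z, ¬ (p : ℤ) ∣ F x) = ∅ := by
      rw [filter_eq_empty_iff]
      intro x _ h
      exact h p hp (per_all hF hpp hpo x)
    have h2 : ∏ p ∈ prN z, (1 - (om F p : ℝ) / p) = 0 := by
      apply prod_eq_zero hp
      rw [hpo, div_self (by exact_mod_cast hpp.ne_zero), sub_self]
    rw [h1, h2]
    simp only [card_empty, Nat.cast_zero, mul_zero, sub_zero, abs_zero]
    positivity
  · push Not at hex
    set S0 := (prN z).filter (fun p => p ≤ C0) with hS0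
    set P := (prN z).filter (fun p => C0 < p) with hP
    have hSP : prN z = S0 ∪ P := by
      rw [hS0, hP, ← filter_or]
      ext p
      rw [mem_filter]
      refine ⟨fun h => ⟨h, le_or_gt _ _⟩, fun h => h.1⟩
    have hdis : Disjoint S0 P := by
      rw [hS0, hP]
      apply disjoint_filter.2
      intro p _ h1 h2
      omega
    have hg : ∀ p ∈ P, 0 ≤ (om F p : ℝ) / p ∧ (om F p : ℝ) / p ≤ (max κ 1 : ℕ) / ((p : ℝ) - 1) := by
      intro p hp
      rw [hP, mem_filter] at hp
      obtain ⟨hpz, hpp⟩ := mem_prN.1 hp.1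
      have h1 : om F p ≤ κ := (hκ p hpp hpz).resolve_left (hex p hp.1)
      have hp2 : (2 : ℝ) ≤ p := by exact_mod_cast hpp.two_le
      refine ⟨by positivity, ?_⟩
      have h2 : (om F p : ℝ) ≤ (max κ 1 : ℕ) := by exact_mod_cast h1.trans (le_max_left _ _)
      calc (om F p : ℝ) / p ≤ (om F p : ℝ) / ((p : ℝ) - 1) := by
            apply div_le_div_of_nonneg_left (Nat.cast_nonneg _) (by linarith) (by linarith)
        _ ≤ _ := by
            apply div_le_div_of_nonneg_right h2 (by linarith)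
    have hg1 : ∀ p ∈ prN z, 0 ≤ 1 - (om F p : ℝ) / p ∧ 1 - (om F p : ℝ) / p ≤ 1 := by
      intro p hp
      have hpp := (mem_prN.1 hp).2
      have hp0 : (0 : ℝ) < p := by exact_mod_cast hpp.pos
      have h1 : (om F p : ℝ) ≤ p := by exact_mod_cast om_le F p
      constructor
      · rw [sub_nonneg, div_le_one hp0]; exact h1
      · have : 0 ≤ (om F p : ℝ) / p := by positivity
        linarith
    set P0 : ℕ := ∏ p ∈ S0, p with hP0
    have hS0p : ∀ p ∈ S0, p.Prime := fun p hp => (mem_prN.1 (mem_filter.1 hp).1).2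
    have hPp : ∀ p ∈ P, p.Prime := fun p hp => (mem_prN.1 (mem_filter.1 hp).1).2
    have hP0pos : 0 < P0 := prod_pos fun p hp => (hS0p p hp).pos
    have hP0le : P0 ≤ ∏ p ∈ prN C0, p := by
      apply prod_le_prod_of_subset_of_one_le'
      · intro p hp
        rw [hS0, mem_filter] at hp
        exact mem_prN.2 ⟨hp.2, hS0p p (by rw [hS0, mem_filter]; exact hp)⟩
      · intro p hp _
        exact (mem_prN.1 hp).2.one_le
    set Ω := (Ioc a (a + l)).filter (fun x => ∀ p ∈ S0, ¬ (p : ℤ) ∣ F x) with hΩ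
    set A0 : ℝ := l * ∏ p ∈ S0, (1 - (om F p : ℝ) / p) with hA0
    have hA00 : 0 ≤ A0 := mul_nonneg (Nat.cast_nonneg _) (prod_nonneg fun p hp => (hg1 p (mem_filter.1 hp).1).1)
    -- local counts
    have hcompl : ∀ p : ℕ, p.Prime → ((((range p).filter (fun x : ℕ => ¬ (p : ℤ) ∣ F x)).card : ℝ) / p) = 1 - (om F p : ℝ) / p := by
      intro p hp
      have hp0 : (p : ℝ) ≠ 0 := by exact_mod_cast hp.ne_zero
      have h1 := card_filter_add_card_filter_not (s := range p) (fun x : ℕ => (p : ℤ) ∣ F x)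
      rw [card_range] at h1
      have h2 : (om F p : ℝ) + (((range p).filter (fun x : ℕ => ¬ (p : ℤ) ∣ F x)).card : ℝ) = p := by
        unfold om
        exact_mod_cast h1
      rw [eq_sub_iff_add_eq, ← add_div, add_comm, h2, div_self hp0]
    obtain ⟨hit, hhit⟩ : ∃ hit : ℕ → ℕ → Prop, hit = fun (p m : ℕ) => (p : ℤ) ∣ F m := ⟨_, rfl⟩
    have hh : ∀ p m : ℕ, hit p m ↔ (p : ℤ) ∣ F m := by
      intro p m
      rw [hhit]
    have herr : ∀ T ⊆ P, ∏ p ∈ T, p ≤ (2 ^ 2 ^ J) ^ (C0 * b) →
        |∑ m ∈ Ω.filter (fun m => ∀ p ∈ T, hit p m), (1 : ℝ) - A0 * ∏ p ∈ T, ((om F p : ℝ) / p)| ≤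
          ((P0 * ∏ p ∈ T, p : ℕ) : ℝ) := by
      intro T hT _
      have hTp : ∀ p ∈ T, p.Prime := fun p hp => hPp p (hT hp)
      have hdT : Disjoint S0 T := disjoint_of_subset_right hT hdis
      obtain ⟨R, hRd⟩ : ∃ R : ℕ → ℕ → Prop, R = fun (p x : ℕ) => if p ∈ T then (p : ℤ) ∣ F x else ¬ (p : ℤ) ∣ F x := ⟨_, rfl⟩
      have h1 := cnt_prod R (S0 ∪ T) (by
        intro p hp
        rcases mem_union.1 hp with h | h
        · exact hS0p p h
        · exact hTp p h) (by
        intro p hp x
        have hpp : p.Prime := by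
          rcases mem_union.1 hp with h | h
          · exact hS0p p h
          · exact hTp p h
        rw [hRd]
        simp only
        split_ifs
        · exact hF p hpp x
        · exact not_congr (hF p hpp x)) a l
      rw [prod_union hdT, prod_union hdT] at h1
      have e1 : ∏ p ∈ S0, ((((range p).filter (R p)).card : ℝ) / p) = ∏ p ∈ S0, (1 - (om F p : ℝ) / p) := by
        apply prod_congr rfl
        intro p hp
        rw [← hcompl p (hS0p p hp)]
        congr 2
        congr 1
        apply filter_congr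
        intro x _
        rw [hRd]
        simp only
        rw [if_neg (disjoint_left.1 hdT hp)]
      have e2 : ∏ p ∈ T, ((((range p).filter (R p)).card : ℝ) / p) = ∏ p ∈ T, ((om F p : ℝ) / p) := by
        apply prod_congr rfl
        intro p hp
        unfold om
        congr 2
        congr 1
        apply filter_congr
        intro x _
        rw [hRd]
        simp only
        rw [if_pos hp]
      rw [e1, e2] at h1
      have e3 : (Ioc a (a + l)).filter (fun x => ∀ p ∈ S0 ∪ T, R p x) =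
          Ω.filter (fun m => ∀ p ∈ T, hit p m) := by
        ext x
        simp only [hΩ, mem_filter, and_assoc]
        apply and_congr_right
        intro _
        rw [hRd]
        simp only [hh]
        constructor
        · intro h
          constructor
          · intro p hp
            have := h p (mem_union_left _ hp)
            rwa [if_neg (disjoint_left.1 hdT hp)] at this
          · intro p hp
            have := h p (mem_union_right _ hp)
            rwa [if_pos hp] at this
        · rintro ⟨h2, h3⟩ p hp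
          rcases mem_union.1 hp with h | h
          · rw [if_neg (disjoint_left.1 hdT h)]
            exact h2 p h
          · rw [if_pos h]
            exact h3 p h
      rw [e3] at h1
      rw [sum_const, nsmul_eq_mul, mul_one]
      refine le_trans (le_of_eq ?_) (h1.trans (le_of_eq ?_))
      · rw [hA0]
        congr 1
        ring
      · rw [hP0]
    have hmain := hfl b J C0 P (fun p => (om F p : ℝ) / p) hb le_rfl (by
      intro p hp
      refine ⟨hPp p hp, (mem_filter.1 hp).2, ?_⟩
      exact (mem_prN.1 (mem_filter.1 hp).1).1.trans hz) hg Ω (fun _ => 1) hit A0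
      (fun T => ((P0 * ∏ p ∈ T, p : ℕ) : ℝ)) (fun _ _ => zero_le_one) hA00 herr
    have e4 : Ω.filter (fun m => ∀ p ∈ P, ¬ hit p m) = (Ioc a (a + l)).filter (fun x => ∀ p ∈ prN z, ¬ (p : ℤ) ∣ F x) := by
      ext x
      simp only [hΩ, mem_filter, hh, hSP, mem_union, or_imp, forall_and, and_assoc]
    rw [e4, sum_const, nsmul_eq_mul, mul_one] at hmain
    have e5 : A0 * ∏ p ∈ P, (1 - (om F p : ℝ) / p) = l * ∏ p ∈ prN z, (1 - (om F p : ℝ) / p) := by
      rw [hSP, prod_union hdis, hA0]
      ring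
    rw [e5] at hmain
    refine hmain.trans (add_le_add ?_ ?_)
    · apply mul_le_mul_of_nonneg_left _ (by positivity)
      have : ∏ p ∈ prN z, (1 - (om F p : ℝ) / p) ≤ 1 := prod_le_one (fun p hp => (hg1 p hp).1) (fun p hp => (hg1 p hp).2)
      have hl : (0 : ℝ) ≤ l := Nat.cast_nonneg _
      nlinarith
    · apply mul_le_mul_of_nonneg_left _ (by positivity)
      have hbd : ∀ T ∈ P.powerset.filter (fun T : Finset ℕ => ∏ p ∈ T, p ≤ D'), ((P0 * ∏ p ∈ T, p : ℕ) : ℝ) ≤
          (∏ p ∈ prN C0, p : ℕ) * (D' : ℝ) := by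
        intro T hT
        rw [mem_filter] at hT
        push_cast
        have h1 : (P0 : ℝ) ≤ ((∏ p ∈ prN C0, p : ℕ) : ℝ) := by exact_mod_cast hP0le
        have h2 : ((∏ p ∈ T, p : ℕ) : ℝ) ≤ D' := by exact_mod_cast hT.2
        push_cast at h1 h2
        gcongr
      have hcard : (P.powerset.filter (fun T : Finset ℕ => ∏ p ∈ T, p ≤ D')).card ≤ D' := by
        have hinj : Set.InjOn (fun T : Finset ℕ => ∏ p ∈ T, p) (P.powerset.filter (fun T : Finset ℕ => ∏ p ∈ T, p ≤ D') : Set (Finset ℕ)) := by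
          intro T hT T' hT' h
          rw [mem_coe, mem_filter, mem_powerset] at hT hT'
          have h1 := Nat.primeFactors_prod (s := T) (fun p hp => hPp p (hT.1 hp))
          have h2 := Nat.primeFactors_prod (s := T') (fun p hp => hPp p (hT'.1 hp))
          rw [← h1, ← h2]
          exact congrArg _ h
        have := card_le_card_of_injOn (s := P.powerset.filter (fun T : Finset ℕ => ∏ p ∈ T, p ≤ D')) (t := Icc 1 D')
          (fun T : Finset ℕ => ∏ p ∈ T, p) (by
            intro T hT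
            rw [mem_coe, mem_filter, mem_powerset] at hT
            rw [mem_coe, mem_Icc]
            exact ⟨prod_pos fun p hp => (hPp p (hT.1 hp)).pos, hT.2⟩) hinj
        simpa using this
      calc ∑ T ∈ P.powerset.filter (fun T : Finset ℕ => ∏ p ∈ T, p ≤ D'), ((P0 * ∏ p ∈ T, p : ℕ) : ℝ)
          ≤ ∑ _T ∈ P.powerset.filter (fun T : Finset ℕ => ∏ p ∈ T, p ≤ D'), ((∏ p ∈ prN C0, p : ℕ) * (D' : ℝ)) := sum_le_sum hbd
        _ = ((P.powerset.filter (fun T : Finset ℕ => ∏ p ∈ T, p ≤ D')).card : ℝ) * ((∏ p ∈ prN C0, p : ℕ) * (D' : ℝ)) := by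
            rw [sum_const, nsmul_eq_mul]
        _ ≤ (D' : ℝ) * ((∏ p ∈ prN C0, p : ℕ) * (D' : ℝ)) := by
            gcongr
        _ = _ := by ring

end Pool.Agent.H77.BV
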