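import Mathlib
import Pool.Agent.H77.BV.FL

/-! The fundamental lemma of the sieve with a very small error: the choice of the parameters. -/

set_option autoImplicit false

namespace Pool.Agent.H77.BV

open Finset
open Pool.Agent.K1H89.PL
open Pool.Agent.K1H89.Ev (evN ev_pow)
open Pool.Agent.H373R2.T7 (JJ JJ_lt JJ_le JJ_small)

/-- the fundamental lemma with a small error -/
theorem fl (κ A B : ℕ) : ∃ H0 : ℕ, ∀ H : ℕ, H0 ≤ H → ∀ z : ℕ, (z : ℝ) ≤ Real.log H ^ B →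
    ∀ F : ℕ → ℤ, Per F → (∀ p : ℕ, p.Prime → p ≤ z → om F p = p ∨ om F p ≤ κ) → ∀ a l : ℕ,
    (H : ℝ) ^ (1 / 20 : ℝ) ≤ l →
    |(((Ioc a (a + l)).filter (fun x => ∀ p ∈ prN z, ¬ (p : ℤ) ∣ F x)).card : ℝ) -
      l * ∏ p ∈ prN z, (1 - (om F p : ℝ) / p)| ≤ l / Real.log H ^ A := by
  obtain ⟨C0, hC0, hraw⟩ := fl_raw κ
  set P0 : ℕ := ∏ p ∈ prN C0, p with hP0
  have hP01 : 1 ≤ P0 := prod_pos fun p hp => (mem_prN.1 hp).2.pos
  obtain ⟨K, hK⟩ : ∃ K : ℝ, K = 2 + (B + 1) + Real.log P0 + 4 * (B + 1) * C0 * (C0 + 2 + 2 * (A + 1)) + A := ⟨_, rfl⟩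
  obtain ⟨H1, h1⟩ := evN _ ((Real.tendsto_log_atTop.eventually (ev_pow 2 (20 * K) 1 one_pos)).and
    (Real.tendsto_log_atTop.eventually_ge_atTop 4))
  refine ⟨max H1 1, fun H hH z hz F hF hκ a l hl => ?_⟩
  obtain ⟨h2, h3⟩ := h1 H (by omega)
  rw [Real.rpow_one] at h2
  set L := Real.log H with hL
  have hL0 : 0 < L := by linarith
  have hL1 : 1 ≤ L := by linarith
  have hH0 : (0 : ℝ) < H := by
    have : 1 ≤ H := by omega
    exact_mod_cast this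
  set ℓ := Real.log L with hℓ
  have hℓ1 : 1 ≤ ℓ := by
    rw [hℓ, Real.le_log_iff_exp_le hL0]
    have := Real.exp_one_lt_d9
    linarith
  set y := max z 4 with hy
  have hyL : (y : ℝ) ≤ L ^ (B + 1) := by
    rw [hy]
    push_cast
    apply max_le
    · exact hz.trans (pow_le_pow_right₀ hL1 (by omega))
    · calc (4 : ℝ) ≤ L := h3
        _ = L ^ 1 := (pow_one L).symm
        _ ≤ L ^ (B + 1) := pow_le_pow_right₀ hL1 (by omega)
  have hy4 : 4 ≤ y := le_max_right _ _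
  set b := C0 + ⌈((A : ℝ) + 1) * ℓ / Real.log 2⌉₊ + 1 with hb
  have hlog2 : (1 : ℝ) / 2 < Real.log 2 := by have := Real.log_two_gt_d9; linarith
  have hbge : ((A : ℝ) + 1) * ℓ / Real.log 2 + 1 ≤ b := by
    rw [hb]
    push_cast
    have := Nat.le_ceil (((A : ℝ) + 1) * ℓ / Real.log 2)
    have h0 : (0 : ℝ) ≤ C0 := Nat.cast_nonneg _
    linarith
  have hble : (b : ℝ) ≤ C0 + 2 + 2 * (A + 1) * ℓ := by
    rw [hb]
    push_cast
    have h0 : 0 ≤ ((A : ℝ) + 1) * ℓ / Real.log 2 := by positivity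
    have := Nat.ceil_lt_add_one h0
    have h1 : ((A : ℝ) + 1) * ℓ / Real.log 2 ≤ 2 * (A + 1) * ℓ := by
      rw [div_le_iff₀ (by linarith)]
      have : 0 ≤ ((A : ℝ) + 1) * ℓ := by positivity
      nlinarith
    linarith
  have hpow2 : (1 / 2 : ℝ) ^ b ≤ 1 / (2 * L ^ A) := by
    rw [one_div_pow]
    apply one_div_le_one_div_of_le (by positivity)
    have h4 : Real.log (2 * L ^ A) ≤ Real.log ((2 : ℝ) ^ b) := by
      rw [Real.log_mul (by norm_num) (by positivity), Real.log_pow, Real.log_pow, ← hℓ]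
      have h5 : (((A : ℝ) + 1) * ℓ / Real.log 2 + 1) * Real.log 2 ≤ b * Real.log 2 := by
        gcongr
      rw [add_mul, div_mul_cancel₀ _ (by linarith : Real.log 2 ≠ 0)] at h5
      nlinarith
    exact (Real.log_le_log_iff (by positivity) (by positivity)).1 h4
  have hmain := hraw b (JJ y) z (by omega) ((le_max_left z 4).trans (JJ_lt y).le) F hF hκ a l
  refine hmain.trans ?_
  have hl0 : (0 : ℝ) ≤ l := Nat.cast_nonneg _
  have e1 : (1 / 2 : ℝ) ^ b * l ≤ l / L ^ A / 2 := by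
    calc (1 / 2 : ℝ) ^ b * l ≤ 1 / (2 * L ^ A) * l := by gcongr
      _ = l / L ^ A / 2 := by field_simp
  have e2 : ((JJ y : ℝ) + 2) * ((P0 : ℝ) * (((2 ^ 2 ^ JJ y) ^ (C0 * b) : ℕ) : ℝ) ^ 2) ≤ l / L ^ A / 2 := by
    have hJ : ((JJ y : ℝ) + 2) ≤ 2 * L ^ (B + 1) := by
      have := JJ_small y (by omega)
      have h4 : ((JJ y + 2 : ℕ) : ℝ) ≤ ((2 * y : ℕ) : ℝ) := by exact_mod_cast this
      push_cast at h4
      linarith
    have hD : (((2 ^ 2 ^ JJ y) ^ (C0 * b) : ℕ) : ℝ) ^ 2 ≤ L ^ (4 * (B + 1) * C0 * b) := by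
      have h4 : ((2 ^ 2 ^ JJ y : ℕ) : ℝ) ≤ (y : ℝ) ^ 2 := by exact_mod_cast JJ_le y (by omega)
      have h5 : ((2 ^ 2 ^ JJ y : ℕ) : ℝ) ≤ L ^ (2 * (B + 1)) := by
        refine h4.trans ?_
        calc (y : ℝ) ^ 2 ≤ (L ^ (B + 1)) ^ 2 := by gcongr
          _ = L ^ (2 * (B + 1)) := by rw [← pow_mul]; ring_nf
      calc (((2 ^ 2 ^ JJ y) ^ (C0 * b) : ℕ) : ℝ) ^ 2 = (((2 ^ 2 ^ JJ y : ℕ) : ℝ) ^ (C0 * b)) ^ 2 := by push_cast; ring
        _ ≤ ((L ^ (2 * (B + 1))) ^ (C0 * b)) ^ 2 := by gcongr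
        _ = L ^ (4 * (B + 1) * C0 * b) := by
            rw [← pow_mul, ← pow_mul]
            congr 1
            ring
    have hfin : 2 * L ^ (B + 1) * (P0 * L ^ (4 * (B + 1) * C0 * b)) * (2 * L ^ A) ≤ (H : ℝ) ^ (1 / 20 : ℝ) := by
      have hP0r : (1 : ℝ) ≤ P0 := by exact_mod_cast hP01
      have hposx : 0 < 2 * L ^ (B + 1) * (P0 * L ^ (4 * (B + 1) * C0 * b)) * (2 * L ^ A) := by positivity
      rw [← Real.log_le_log_iff hposx (by positivity), Real.log_rpow hH0, ← hL,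
        Real.log_mul (by positivity) (by positivity), Real.log_mul (by positivity) (by positivity),
        Real.log_mul (by positivity) (by positivity), Real.log_mul (by positivity) (by positivity),
        Real.log_mul (by positivity) (by positivity), Real.log_pow, Real.log_pow, Real.log_pow, ← hℓ]
      have hlog2' : Real.log 2 ≤ 1 := by have := Real.log_two_lt_d9; linarith
      have hlp : 0 ≤ Real.log P0 := Real.log_nonneg hP0r
      have hb0 : (0 : ℝ) ≤ b := Nat.cast_nonneg _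
      push_cast
      have hB0 : (0 : ℝ) ≤ B := Nat.cast_nonneg _
      have hA0 : (0 : ℝ) ≤ A := Nat.cast_nonneg _
      have hC00 : (0 : ℝ) ≤ C0 := Nat.cast_nonneg _
      have hℓsq : ℓ ≤ ℓ ^ 2 := by nlinarith
      have hone : 1 ≤ ℓ ^ 2 := by nlinarith
      have s1 : 4 * ((B : ℝ) + 1) * C0 * b * ℓ ≤ 4 * (B + 1) * C0 * (C0 + 2 + 2 * (A + 1)) * ℓ ^ 2 := by
        have : (b : ℝ) * ℓ ≤ (C0 + 2 + 2 * (A + 1)) * ℓ ^ 2 := by
          calc (b : ℝ) * ℓ ≤ (C0 + 2 + 2 * (A + 1) * ℓ) * ℓ := by gcongr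
            _ = (C0 + 2) * ℓ + 2 * (A + 1) * ℓ ^ 2 := by ring
            _ ≤ (C0 + 2) * ℓ ^ 2 + 2 * (A + 1) * ℓ ^ 2 := by gcongr
            _ = (C0 + 2 + 2 * (A + 1)) * ℓ ^ 2 := by ring
        calc 4 * ((B : ℝ) + 1) * C0 * b * ℓ = 4 * (B + 1) * C0 * (b * ℓ) := by ring
          _ ≤ 4 * (B + 1) * C0 * ((C0 + 2 + 2 * (A + 1)) * ℓ ^ 2) := by gcongr
          _ = _ := by ring
      have s2 : ((B : ℝ) + 1) * ℓ ≤ (B + 1) * ℓ ^ 2 := by gcongr
      have s3 : (A : ℝ) * ℓ ≤ A * ℓ ^ 2 := by gcongr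
      have s4 : Real.log P0 ≤ Real.log P0 * ℓ ^ 2 := le_mul_of_one_le_right hlp hone
      have s5 : K * ℓ ^ 2 ≤ L / 20 := by linarith
      rw [hK] at s5
      linarith
    calc ((JJ y : ℝ) + 2) * ((P0 : ℝ) * (((2 ^ 2 ^ JJ y) ^ (C0 * b) : ℕ) : ℝ) ^ 2)
        ≤ 2 * L ^ (B + 1) * (P0 * L ^ (4 * (B + 1) * C0 * b)) := by gcongr
      _ ≤ l / (2 * L ^ A) := by
          rw [le_div_iff₀ (by positivity)]
          exact hfin.trans hl
      _ = l / L ^ A / 2 := by field_simp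
  linarith

end Pool.Agent.H77.BV
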