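import Mathlib
import Pool.Agent.H77.BV.FL2
import Pool.Graph.R_pool_sql_team_seeded_efc1946e.K1H89.PL.A1
import Pool.Graph.R_pool_sql_team_seeded_efc1946e.K1H89.PL.A6

/-! Primes and rough numbers in progressions. -/

set_option autoImplicit false

namespace Pool.Agent.H77.BV

open Finset
open Pool.Agent.K1H89.PL
open Pool.Agent.K1H89.Ev (evN ev_pow)

/-- `∏ (1 - 1/p)⁻¹` over the primes `p ≤ z` dividing `R` -/
noncomputable def hz (z : ℕ) (R : ℤ) : ℝ := ∏ p ∈ (prN z).filter (fun p : ℕ => (p : ℤ) ∣ R), (1 - 1 / (p : ℝ))⁻¹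

open Classical in
/-- the sieve weight for the primes `p ≤ z` dividing `R` -/
noncomputable def yw (z : ℕ) (R x : ℤ) : ℝ := if ∀ p ∈ prN z, (p : ℤ) ∣ R → ¬ (p : ℤ) ∣ x then hz z R else 0

lemma one_le_pr {ι : Type} (s : Finset ι) (f : ι → ℝ) (hf : ∀ i ∈ s, 1 ≤ f i) : 1 ≤ ∏ i ∈ s, f i := by
  calc (1 : ℝ) = ∏ _i ∈ s, (1 : ℝ) := by simp
    _ ≤ ∏ i ∈ s, f i := prod_le_prod (fun _ _ => zero_le_one) hf

lemma pr_sub_le {ι : Type} (s t : Finset ι) (f : ι → ℝ) (h : s ⊆ t) (hf : ∀ i ∈ t, 1 ≤ f i) :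
    ∏ i ∈ s, f i ≤ ∏ i ∈ t, f i := by
  classical
  rw [← prod_sdiff h]
  apply le_mul_of_one_le_left
  · exact zero_le_one.trans (one_le_pr s f fun i hi => hf i (h hi))
  · exact one_le_pr _ f fun i hi => hf i (mem_sdiff.1 hi).1

lemma one_le_inv {p : ℕ} (hp : p.Prime) : 1 ≤ (1 - 1 / (p : ℝ))⁻¹ := by
  have hp2 : (2 : ℝ) ≤ p := by exact_mod_cast hp.two_le
  have h1 : 1 / (p : ℝ) ≤ 1 / 2 := by apply one_div_le_one_div_of_le (by norm_num) hp2
  have h2 : 0 < 1 / (p : ℝ) := by positivity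
  rw [one_le_inv₀ (by linarith)]
  linarith

lemma hz_ge_one (z : ℕ) (R : ℤ) : 1 ≤ hz z R := by
  unfold hz
  apply one_le_pr
  intro p hp
  exact one_le_inv (mem_prN.1 (mem_filter.1 hp).1).2

lemma hz_zero (z : ℕ) : hz z 0 = MP z := by
  unfold hz MP
  rw [filter_true_of_mem (fun p _ => dvd_zero _)]
  apply prod_congr rfl
  intro p _
  rw [one_div]

lemma hz_le (z : ℕ) (R : ℤ) : hz z R ≤ MP z := by
  rw [← hz_zero]
  unfold hz
  apply pr_sub_le
  · intro p hp
    rw [mem_filter] at hp ⊢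
    exact ⟨hp.1, dvd_zero _⟩
  · intro p hp
    exact one_le_inv (mem_prN.1 (mem_filter.1 hp).1).2

lemma MP_ge_one (z : ℕ) : 1 ≤ MP z := by rw [← hz_zero]; exact hz_ge_one z 0

lemma yw_nonneg (z : ℕ) (R x : ℤ) : 0 ≤ yw z R x := by
  unfold yw
  split_ifs
  · exact zero_le_one.trans (hz_ge_one _ _)
  · exact le_rfl

lemma yw_le (z : ℕ) (R x : ℤ) : yw z R x ≤ MP z := by
  unfold yw
  split_ifs
  · exact hz_le _ _
  · exact zero_le_one.trans (MP_ge_one z)

lemma yw_add (z : ℕ) (R x c : ℤ) : yw z R (x + c * R) = yw z R x := by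
  unfold yw
  congr 1
  apply propext
  apply forall_congr'
  intro p
  apply forall_congr'
  intro _
  apply forall_congr'
  intro hp
  rw [Int.dvd_add_left (hp.mul_left c)]

lemma yw_neg (z : ℕ) (R x : ℤ) : yw z (-R) x = yw z R (-x) := by
  unfold yw hz
  simp only [dvd_neg]

/-- rough numbers in progressions -/
theorem apY (A B : ℕ) : ∃ H0 : ℕ, ∀ H : ℕ, H0 ≤ H → ∀ z : ℕ, (z : ℝ) ≤ Real.log H ^ B → ∀ (V R : ℤ) (M : ℕ),
    (H : ℝ) ^ (1 / 20 : ℝ) ≤ M →
    |∑ t ∈ range M, yw z 0 (V + R * t) - M * yw z R V| ≤ M / Real.log H ^ A := by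
  classical
  obtain ⟨K, hK1, hK⟩ := mert
  obtain ⟨H1, h1⟩ := fl 1 (A + 1) B
  obtain ⟨H2, h2⟩ := evN _ ((Real.tendsto_log_atTop.eventually (ev_pow 1 (K * B) 1 one_pos)).and
    (Real.tendsto_log_atTop.eventually_ge_atTop (max 4 (K * 4))))
  refine ⟨max H1 H2, fun H hH z hz V R M hM => ?_⟩
  obtain ⟨h3, h4⟩ := h2 H (by omega)
  set L := Real.log H with hL
  have hL4 : 4 ≤ L := (le_max_left _ _).trans h4
  have hL0 : 0 < L := by linarith
  have hMP : MP z ≤ L := by
    rcases lt_or_ge z 2 with hz2 | hz2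
    · have : MP z ≤ MP 2 := by
        rw [← hz_zero, ← hz_zero]
        unfold Pool.Agent.H77.BV.hz
        apply pr_sub_le
        · intro p hp
          rw [mem_filter, mem_prN] at hp ⊢
          exact ⟨⟨by omega, hp.1.2⟩, hp.2⟩
        · intro p hp
          exact one_le_inv (mem_prN.1 (mem_filter.1 hp).1).2
      have h5 := hK 2 le_rfl
      have h6 : K * Real.log (2 : ℕ) ≤ K * 4 := by
        apply mul_le_mul_of_nonneg_left _ (by linarith)
        have := Real.log_two_lt_d9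
        push_cast
        linarith
      exact (this.trans h5).trans (h6.trans ((le_max_right _ _).trans h4))
    · have h5 := hK z hz2
      have hz0 : (0 : ℝ) < z := by exact_mod_cast (by omega : 0 < z)
      have h6 : Real.log z ≤ B * Real.log L := by
        have := Real.log_le_log hz0 hz
        rwa [Real.log_pow] at this
      calc MP z ≤ K * Real.log z := h5
        _ ≤ K * (B * Real.log L) := by gcongr
        _ = K * B * Real.log L ^ 1 := by ring
        _ ≤ L ^ (1 : ℝ) := h3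
        _ = L := Real.rpow_one L
  obtain ⟨F, hF⟩ : ∃ F : ℕ → ℤ, F = fun x : ℕ => V + R * ((x : ℤ) - 1) := ⟨_, rfl⟩
  have hper : Per F := by
    intro p _ x
    rw [hF]
    simp only
    have : V + R * (((x + p : ℕ) : ℤ) - 1) = V + R * ((x : ℤ) - 1) + R * p := by push_cast; ring
    rw [this, Int.dvd_add_left (dvd_mul_left _ _)]
  have hom : ∀ p : ℕ, p.Prime → ((p : ℤ) ∣ R → om F p = if (p : ℤ) ∣ V then p else 0) ∧ (¬ (p : ℤ) ∣ R → om F p = 1) := by
    intro p hp
    constructor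
    · intro hpR
      unfold om
      have : ∀ t : ℕ, (p : ℤ) ∣ F t ↔ (p : ℤ) ∣ V := by
        intro t
        rw [hF]
        simp only
        rw [Int.dvd_add_left (hpR.mul_right _)]
      simp only [this]
      split_ifs with h
      · simp [h]
      · simp [h]
    · intro hpR
      unfold om
      have := Fact.mk hp
      rw [card_eq_one]
      have hR0 : ((R : ℤ) : ZMod p) ≠ 0 := by
        rw [Ne, ZMod.intCast_zmod_eq_zero_iff_dvd]
        exact hpR
      set t0 : ZMod p := 1 - (V : ZMod p) / (R : ZMod p) with ht0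
      refine ⟨t0.val, ?_⟩
      ext x
      rw [mem_filter, mem_range, mem_singleton, hF]
      simp only
      rw [← ZMod.intCast_zmod_eq_zero_iff_dvd]
      push_cast
      constructor
      · rintro ⟨h1, h2⟩
        have h3 : (x : ZMod p) = t0 := by
          rw [ht0]
          field_simp
          linear_combination h2
        rw [← h3, ZMod.val_cast_of_lt h1]
      · intro h
        refine ⟨by rw [h]; exact ZMod.val_lt _, ?_⟩
        have h3 : (x : ZMod p) = t0 := by rw [h, ZMod.natCast_zmod_val]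
        rw [h3, ht0]
        field_simp
        ring
  have h5 := h1 H (by omega) z hz F hper (by
    intro p hp _
    by_cases hpR : (p : ℤ) ∣ R
    · rw [(hom p hp).1 hpR]
      split_ifs
      · left; rfl
      · right; omega
    · right
      rw [(hom p hp).2 hpR]) 0 M hM
  rw [zero_add] at h5
  have e1 : ∑ t ∈ range M, yw z 0 (V + R * t) =
      MP z * (((Ioc 0 M).filter (fun x => ∀ p ∈ prN z, ¬ (p : ℤ) ∣ F x)).card : ℝ) := by
    rw [card_filter]
    push_cast
    rw [mul_sum]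
    apply sum_bij (fun t _ => t + 1)
    · intro t ht
      rw [mem_Ioc]
      have := mem_range.1 ht
      omega
    · intro a _ b _ h
      omega
    · intro b hb
      rw [mem_Ioc] at hb
      exact ⟨b - 1, mem_range.2 (by omega), by omega⟩
    · intro t _
      unfold yw
      rw [hz_zero, hF]
      simp only [dvd_zero, forall_true_left]
      push_cast
      rw [add_sub_cancel_right]
      split_ifs <;> simp
  have e2 : MP z * ∏ p ∈ prN z, (1 - (om F p : ℝ) / p) = yw z R V := by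
    unfold yw
    split_ifs with h
    · unfold MP Pool.Agent.H77.BV.hz
      rw [← prod_mul_distrib]
      rw [prod_filter]
      apply prod_congr rfl
      intro p hp
      have hpp := (mem_prN.1 hp).2
      split_ifs with hpR
      · rw [(hom p hpp).1 hpR, if_neg (h p hp hpR)]
        simp
      · rw [(hom p hpp).2 hpR]
        have h1 := one_le_inv hpp
        have h2 : (1 - (p : ℝ)⁻¹) ≠ 0 := by
          rw [← one_div]
          intro h0
          rw [h0] at h1
          norm_num at h1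
        push_cast
        rw [one_div, inv_mul_cancel₀ h2]
    · push Not at h
      obtain ⟨p, hp, hpR, hpV⟩ := h
      have hpp := (mem_prN.1 hp).2
      rw [prod_eq_zero hp, mul_zero]
      rw [(hom p hpp).1 hpR, if_pos hpV, div_self (by exact_mod_cast hpp.ne_zero), sub_self]
  rw [e1, ← e2]
  have e3 : MP z * (((Ioc 0 M).filter (fun x => ∀ p ∈ prN z, ¬ (p : ℤ) ∣ F x)).card : ℝ) -
      M * (MP z * ∏ p ∈ prN z, (1 - (om F p : ℝ) / p)) =
      MP z * ((((Ioc 0 M).filter (fun x => ∀ p ∈ prN z, ¬ (p : ℤ) ∣ F x)).card : ℝ) -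
        M * ∏ p ∈ prN z, (1 - (om F p : ℝ) / p)) := by ring
  have hMP0 : 0 ≤ MP z := zero_le_one.trans (MP_ge_one z)
  rw [e3, abs_mul, abs_of_nonneg hMP0]
  calc MP z * _ ≤ L * (M / L ^ (A + 1)) := mul_le_mul hMP h5 (abs_nonneg _) hL0.le
    _ = M / L ^ A := by
      rw [pow_succ]
      field_simp

/-- primes in progressions -/
theorem apX (A B : ℕ) : ∃ H0 : ℕ, ∀ H : ℕ, H0 ≤ H → ∀ z : ℕ, ∀ (V R : ℤ) (M : ℕ), R ≠ 0 →
    (∀ p : ℕ, p.Prime → (p : ℤ) ∣ R → p ≤ z) → |(R : ℝ)| ≤ Real.log H ^ B →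
    |(V : ℝ)| ≤ H * Real.log H ^ B → |(V : ℝ) + R * M| ≤ H * Real.log H ^ B →
    |∑ t ∈ range M, th (V + R * t) - M * yw z R V| ≤ H / Real.log H ^ A := by
  classical
  obtain ⟨H1, h1⟩ := one_dim A B
  refine ⟨H1, fun H hH z V R M hR hRz hRB hV1 hV2 => ?_⟩
  -- the case of positive `R`
  have pos : ∀ (q : ℕ) (V : ℤ), 1 ≤ q → (∀ p : ℕ, p.Prime → (p : ℤ) ∣ (q : ℤ) → p ≤ z) → (q : ℝ) ≤ Real.log H ^ B →
      |(V : ℝ)| ≤ H * Real.log H ^ B → |(V : ℝ) + q * M| ≤ H * Real.log H ^ B →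
      |∑ t ∈ range M, th (V + q * t) - M * yw z q V| ≤ H / Real.log H ^ A := by
    intro q V hq hqz hqB hV1 hV2
    have h2 := h1 H hH q hq hqB V M hV1 hV2
    have e1 : (prN z).filter (fun p : ℕ => (p : ℤ) ∣ (q : ℤ)) = q.primeFactors := by
      ext p
      rw [mem_filter, mem_prN, Nat.mem_primeFactors]
      constructor
      · rintro ⟨⟨_, h4⟩, h5⟩
        exact ⟨h4, Int.natCast_dvd_natCast.1 h5, by omega⟩
      · rintro ⟨h4, h5, _⟩
        have h6 := Int.natCast_dvd_natCast.2 h5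
        exact ⟨⟨hqz p h4 h6, h4⟩, h6⟩
    have e2 : (q : ℝ) / (Nat.totient q : ℝ) = hz z q := by
      have := rho_prod hq
      unfold rho at this
      rw [this]
      unfold Pool.Agent.H77.BV.hz
      rw [e1]
      apply prod_congr rfl
      intro p hp
      have hp2 : (2 : ℝ) ≤ p := by exact_mod_cast (Nat.prime_of_mem_primeFactors hp).two_le
      have h3 : (p : ℝ) - 1 ≠ 0 := by linarith
      have h4 : (p : ℝ) ≠ 0 := by linarith
      rw [one_sub_div h4, inv_div]
    have e3 : IsCoprime V (q : ℤ) ↔ ∀ p ∈ prN z, (p : ℤ) ∣ (q : ℤ) → ¬ (p : ℤ) ∣ V := by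
      constructor
      · intro h p hp hpq hpV
        have h3 := h.isUnit_of_dvd' hpV hpq
        have := (mem_prN.1 hp).2.one_lt
        rw [Int.isUnit_iff] at h3
        omega
      · intro h
        rw [Int.isCoprime_iff_gcd_eq_one]
        by_contra hne
        obtain ⟨p, hp, hpd⟩ := Nat.exists_prime_and_dvd hne
        have h3 : (p : ℤ) ∣ V := (Int.natCast_dvd_natCast.2 hpd).trans (Int.gcd_dvd_left _ _)
        have h4 : (p : ℤ) ∣ (q : ℤ) := (Int.natCast_dvd_natCast.2 hpd).trans (Int.gcd_dvd_right _ _)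
        exact h p (mem_prN.2 ⟨hqz p hp h4, hp⟩) h4 h3
    have e4 : (if IsCoprime V (q : ℤ) then (q : ℝ) / (Nat.totient q : ℝ) * M else 0) = M * yw z q V := by
      unfold yw
      rw [e2]
      by_cases hc : IsCoprime V (q : ℤ)
      · rw [if_pos hc, if_pos (e3.1 hc)]
        ring
      · rw [if_neg hc, if_neg (fun h => hc (e3.2 h)), mul_zero]
    rw [e4] at h2
    exact h2
  rcases lt_or_gt_of_ne hR with hneg | hpos
  · obtain ⟨q, hq⟩ : ∃ q : ℕ, R = -(q : ℤ) := ⟨R.natAbs, by omega⟩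
    have hq1 : 1 ≤ q := by omega
    have h2 := pos q (-V) hq1 (by
      intro p hp h
      apply hRz p hp
      rw [hq]
      exact h.neg_right) (by
      rw [hq] at hRB
      push_cast at hRB
      rwa [abs_neg, Nat.abs_cast] at hRB) (by
      push_cast
      rwa [abs_neg]) (by
      rw [hq] at hV2
      push_cast at hV2 ⊢
      have e : -(V : ℝ) + q * M = -((V : ℝ) + -q * M) := by ring
      rw [e, abs_neg]
      exact hV2)
    rw [hq, yw_neg]
    refine le_trans (le_of_eq ?_) h2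
    congr 2
    apply sum_congr rfl
    intro t _
    rw [← th_neg]
    congr 1
    ring
  · obtain ⟨q, hq⟩ : ∃ q : ℕ, R = (q : ℤ) := ⟨R.natAbs, by omega⟩
    subst hq
    have hq1 : 1 ≤ q := by exact_mod_cast hpos
    refine pos q V hq1 hRz ?_ hV1 ?_
    · push_cast at hRB
      rwa [Nat.abs_cast] at hRB
    · push_cast at hV2
      exact hV2

end Pool.Agent.H77.BV
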