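import Mathlib
import Pool.Graph.R_pool_sql_team_seeded_efc1946e.K1H89.PL.B9

/-! Averages over shifts: the abstract lemma, families, shifts attached to polynomials vanishing at given points. -/

set_option autoImplicit false

namespace Pool.Agent.H77.BV

open Finset Polynomial
open Pool.Agent.K1H89.PL

/-- the abstract lemma -/
lemma shift_one {V : Type} [AddCommGroup V] [DecidableEq V] (Ω : Finset V) (u : V) (β Λ : ℝ) (Φ : V → ℝ)
    (hbad : ((Ω.filter (fun a => ¬ (a + u ∈ Ω))).card : ℝ) ≤ β * Ω.card)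
    (h1 : ∀ a ∈ Ω, |Φ a| ≤ Λ) (h2 : ∀ a ∈ Ω, |Φ (a + u)| ≤ Λ) :
    |∑ a ∈ Ω, Φ (a + u) - ∑ a ∈ Ω, Φ a| ≤ 2 * Λ * β * Ω.card := by
  classical
  rcases Ω.eq_empty_or_nonempty with he | hne
  · subst he; simp
  have hΛ : 0 ≤ Λ := by obtain ⟨b, hb⟩ := hne; exact (abs_nonneg _).trans (h1 b hb)
  have e1 := sum_filter_add_sum_filter_not Ω (fun a => a + u ∈ Ω) (fun a => Φ (a + u))
  have e2 := sum_filter_add_sum_filter_not Ω (fun a => a - u ∈ Ω) (fun a => Φ a)
  have e3 : ∑ a ∈ Ω.filter (fun a => a + u ∈ Ω), Φ (a + u) = ∑ a ∈ Ω.filter (fun a => a - u ∈ Ω), Φ a := by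
    apply sum_bij' (fun a _ => a + u) (fun a _ => a - u)
    · intro a ha
      rw [mem_filter] at ha ⊢
      exact ⟨ha.2, by rw [add_sub_cancel_right]; exact ha.1⟩
    · intro a ha
      rw [mem_filter] at ha ⊢
      exact ⟨ha.2, by rw [sub_add_cancel]; exact ha.1⟩
    · intro a _
      exact add_sub_cancel_right a u
    · intro a _
      exact sub_add_cancel a u
    · intro a _
      rfl
  have e4 : (Ω.filter (fun a => a + u ∈ Ω)).card = (Ω.filter (fun a => a - u ∈ Ω)).card := by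
    apply card_bij' (fun a _ => a + u) (fun a _ => a - u)
    · intro a ha
      rw [mem_filter] at ha ⊢
      exact ⟨ha.2, by rw [add_sub_cancel_right]; exact ha.1⟩
    · intro a ha
      rw [mem_filter] at ha ⊢
      exact ⟨ha.2, by rw [sub_add_cancel]; exact ha.1⟩
    · intro a _
      exact add_sub_cancel_right a u
    · intro a _
      exact sub_add_cancel a u
  have e5 : (Ω.filter (fun a => ¬ (a - u ∈ Ω))).card = (Ω.filter (fun a => ¬ (a + u ∈ Ω))).card := by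
    have h3 := card_filter_add_card_filter_not (s := Ω) (fun a => a + u ∈ Ω)
    have h4 := card_filter_add_card_filter_not (s := Ω) (fun a => a - u ∈ Ω)
    omega
  have f1 : |∑ a ∈ Ω.filter (fun a => ¬ (a + u ∈ Ω)), Φ (a + u)| ≤ Λ * (β * Ω.card) := by
    calc _ ≤ ∑ a ∈ Ω.filter (fun a => ¬ (a + u ∈ Ω)), |Φ (a + u)| := abs_sum_le_sum_abs _ _
      _ ≤ ∑ a ∈ Ω.filter (fun a => ¬ (a + u ∈ Ω)), Λ := sum_le_sum fun a ha => h2 a (mem_filter.1 ha).1
      _ = Λ * ((Ω.filter (fun a => ¬ (a + u ∈ Ω))).card : ℝ) := by rw [sum_const, nsmul_eq_mul]; ring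
      _ ≤ _ := mul_le_mul_of_nonneg_left hbad hΛ
  have f2 : |∑ a ∈ Ω.filter (fun a => ¬ (a - u ∈ Ω)), Φ a| ≤ Λ * (β * Ω.card) := by
    calc _ ≤ ∑ a ∈ Ω.filter (fun a => ¬ (a - u ∈ Ω)), |Φ a| := abs_sum_le_sum_abs _ _
      _ ≤ ∑ a ∈ Ω.filter (fun a => ¬ (a - u ∈ Ω)), Λ := sum_le_sum fun a ha => h1 a (mem_filter.1 ha).1
      _ = Λ * ((Ω.filter (fun a => ¬ (a - u ∈ Ω))).card : ℝ) := by rw [sum_const, nsmul_eq_mul]; ring
      _ ≤ _ := by rw [e5]; exact mul_le_mul_of_nonneg_left hbad hΛ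
  rw [← e1, ← e2, e3]
  rw [abs_le] at f1 f2 ⊢
  constructor <;> linarith

lemma avg_shift {V : Type} [AddCommGroup V] [DecidableEq V] (Ω : Finset V) (u : ℕ → V) (M : ℕ) (hM : 1 ≤ M)
    (β Λ Γ e : ℝ) (F Fb G : V → ℝ)
    (hbad : ∀ t < M, ((Ω.filter (fun a => ¬ (a + u t ∈ Ω))).card : ℝ) ≤ β * Ω.card)
    (hG : ∀ t < M, ∀ a ∈ Ω, G (a + u t) = G a)
    (hF1 : ∀ a ∈ Ω, |F a| ≤ Λ) (hF2 : ∀ t < M, ∀ a ∈ Ω, |F (a + u t)| ≤ Λ)
    (hGΓ : ∀ a ∈ Ω, |G a| ≤ Γ)
    (hav : ∀ a ∈ Ω, |∑ t ∈ range M, F (a + u t) - M * Fb a| ≤ M * e) :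
    |∑ a ∈ Ω, F a * G a - ∑ a ∈ Ω, Fb a * G a| ≤ Γ * (e + 2 * Λ * β) * Ω.card := by
  classical
  rcases Ω.eq_empty_or_nonempty with he | hne
  · subst he; simp
  have hM0 : (0 : ℝ) < M := by exact_mod_cast hM
  have hΓ : 0 ≤ Γ := by obtain ⟨b, hb⟩ := hne; exact (abs_nonneg _).trans (hGΓ b hb)
  have hΛ : 0 ≤ Λ := by obtain ⟨b, hb⟩ := hne; exact (abs_nonneg _).trans (hF1 b hb)
  set S0 := ∑ a ∈ Ω, F a * G a with hS0
  have h1 : ∀ t < M, |∑ a ∈ Ω, F (a + u t) * G a - S0| ≤ 2 * (Λ * Γ) * β * Ω.card := by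
    intro t ht
    have h := shift_one Ω (u t) β (Λ * Γ) (fun a => F a * G a) (hbad t ht) (by
      intro a ha
      rw [abs_mul]
      exact mul_le_mul (hF1 a ha) (hGΓ a ha) (abs_nonneg _) hΛ) (by
      intro a ha
      rw [abs_mul, hG t ht a ha]
      exact mul_le_mul (hF2 t ht a ha) (hGΓ a ha) (abs_nonneg _) hΛ)
    have e : ∑ a ∈ Ω, F (a + u t) * G (a + u t) = ∑ a ∈ Ω, F (a + u t) * G a := by
      apply sum_congr rfl
      intro a ha
      rw [hG t ht a ha]
    rw [e] at h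
    exact h
  have h2 : |∑ t ∈ range M, ∑ a ∈ Ω, F (a + u t) * G a - M * S0| ≤ M * (2 * (Λ * Γ) * β * Ω.card) := by
    have e : ∑ t ∈ range M, ∑ a ∈ Ω, F (a + u t) * G a - M * S0 = ∑ t ∈ range M, (∑ a ∈ Ω, F (a + u t) * G a - S0) := by
      rw [sum_sub_distrib, sum_const, card_range, nsmul_eq_mul]
    rw [e]
    calc _ ≤ ∑ t ∈ range M, |∑ a ∈ Ω, F (a + u t) * G a - S0| := abs_sum_le_sum_abs _ _
      _ ≤ ∑ _t ∈ range M, (2 * (Λ * Γ) * β * Ω.card) := sum_le_sum fun t ht => h1 t (mem_range.1 ht)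
      _ = _ := by rw [sum_const, card_range, nsmul_eq_mul]
  have h3 : |∑ t ∈ range M, ∑ a ∈ Ω, F (a + u t) * G a - M * ∑ a ∈ Ω, Fb a * G a| ≤ (M * e * Γ) * Ω.card := by
    have e' : ∑ t ∈ range M, ∑ a ∈ Ω, F (a + u t) * G a - M * ∑ a ∈ Ω, Fb a * G a =
        ∑ a ∈ Ω, (∑ t ∈ range M, F (a + u t) - M * Fb a) * G a := by
      rw [sum_comm, mul_sum, ← sum_sub_distrib]
      apply sum_congr rfl
      intro a _
      rw [← sum_mul]
      ring
    rw [e']
    calc _ ≤ ∑ a ∈ Ω, |(∑ t ∈ range M, F (a + u t) - M * Fb a) * G a| := abs_sum_le_sum_abs _ _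
      _ ≤ ∑ _a ∈ Ω, (M * e * Γ) := by
          apply sum_le_sum
          intro a ha
          rw [abs_mul]
          exact mul_le_mul (hav a ha) (hGΓ a ha) (abs_nonneg _) ((abs_nonneg _).trans (hav a ha))
      _ = _ := by rw [sum_const, nsmul_eq_mul]; ring
  have h4 : |M * (S0 - ∑ a ∈ Ω, Fb a * G a)| ≤ M * (Γ * (e + 2 * Λ * β) * Ω.card) := by
    rw [abs_le] at h2 h3 ⊢
    constructor <;> nlinarith
  rw [abs_mul, abs_of_pos hM0] at h4
  exact le_of_mul_le_mul_left h4 hM0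

/-! ### families -/

lemma fam_bad {s d : ℕ} (H W : ℕ) (g : Fin s → Fin (d + 1) → ℤ) (u : Fin s → Fin (d + 1) → ℤ) (U : ℝ) (hW : 1 ≤ W)
    (hWH : W ≤ H) (hu : ∀ i j, |((u i j : ℤ) : ℝ)| ≤ U) (hWu : ∀ i j, (W : ℤ) ∣ u i j) :
    (((fam H W g).filter (fun a => ¬ (a + u ∈ fam H W g))).card : ℝ) ≤
      (s * (((d : ℝ) + 1) * ((U + W) / H))) * (fam H W g).card := by
  classical
  have hsub : (fam H W g).filter (fun a => ¬ (a + u ∈ fam H W g)) ⊆
      univ.biUnion (fun i : Fin s => Fintype.piFinset (Function.update (fun i => box d H W (g i)) i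
        ((box d H W (g i)).filter (fun x => ¬ (x + u i ∈ box d H W (g i)))))) := by
    intro a ha
    rw [mem_filter] at ha
    obtain ⟨ha1, ha2⟩ := ha
    unfold fam at ha1 ha2
    rw [Fintype.mem_piFinset] at ha1 ha2
    push Not at ha2
    obtain ⟨i, hi⟩ := ha2
    rw [mem_biUnion]
    refine ⟨i, mem_univ _, ?_⟩
    rw [Fintype.mem_piFinset]
    intro j
    by_cases hij : j = i
    · subst hij
      rw [Function.update_self, mem_filter]
      exact ⟨ha1 j, hi⟩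
    · rw [Function.update_of_ne hij]
      exact ha1 j
  have hcard : ∀ i : Fin s, ((Fintype.piFinset (Function.update (fun i => box d H W (g i)) i
        ((box d H W (g i)).filter (fun x => ¬ (x + u i ∈ box d H W (g i)))))).card : ℝ) ≤
        (((d : ℝ) + 1) * ((U + W) / H)) * (fam H W g).card := by
    intro i
    unfold fam
    rw [Fintype.card_piFinset, Fintype.card_piFinset, ← mul_prod_erase univ _ (mem_univ i),
      ← mul_prod_erase univ (fun i => (box d H W (g i)).card) (mem_univ i)]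
    have e : ∏ j ∈ univ.erase i, (Function.update (fun i => box d H W (g i)) i
        ((box d H W (g i)).filter (fun x => ¬ (x + u i ∈ box d H W (g i)))) j).card =
        ∏ j ∈ univ.erase i, (box d H W (g j)).card := by
      apply prod_congr rfl
      intro j hj
      rw [Function.update_of_ne (ne_of_mem_erase hj)]
    rw [e, Function.update_self]
    push_cast
    rw [← mul_assoc]
    have h1 := card_bad d H W (g i) (u i) U hW hWH (hu i) (hWu i)
    gcongr
  calc (((fam H W g).filter (fun a => ¬ (a + u ∈ fam H W g))).card : ℝ)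
      ≤ ((univ.biUnion (fun i : Fin s => Fintype.piFinset (Function.update (fun i => box d H W (g i)) i
        ((box d H W (g i)).filter (fun x => ¬ (x + u i ∈ box d H W (g i))))))).card : ℝ) := by
        exact_mod_cast card_le_card hsub
    _ ≤ ∑ i : Fin s, ((Fintype.piFinset (Function.update (fun i => box d H W (g i)) i
        ((box d H W (g i)).filter (fun x => ¬ (x + u i ∈ box d H W (g i)))))).card : ℝ) := by
        exact_mod_cast card_biUnion_le
    _ ≤ ∑ _i : Fin s, (((d : ℝ) + 1) * ((U + W) / H)) * (fam H W g).card := sum_le_sum fun i _ => hcard i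
    _ = _ := by
        rw [sum_const, card_univ, Fintype.card_fin, nsmul_eq_mul]
        ring

/-- the polynomial with the zeros `T` -/
noncomputable def SP (T : Finset ℕ) : ℤ[X] := ∏ b ∈ T, (X - C (b : ℤ))

lemma SP_eval (T : Finset ℕ) (x : ℤ) : (SP T).eval x = ∏ b ∈ T, (x - b) := by
  unfold SP
  rw [eval_prod]
  apply prod_congr rfl
  intro b _
  simp

lemma SP_deg (T : Finset ℕ) : (SP T).natDegree = T.card := by
  unfold SP
  rw [natDegree_prod_of_monic _ _ (fun l _ => monic_X_sub_C _)]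
  simp only [natDegree_X_sub_C, sum_const, smul_eq_mul, mul_one]

lemma SP_coeff (T : Finset ℕ) (N : ℝ) (hN : 0 ≤ N) (hx : ∀ b ∈ T, (b : ℝ) ≤ N) (m : ℕ) :
    |(((SP T).coeff m : ℤ) : ℝ)| ≤ (1 + N) ^ T.card := by
  have := coeff_prod_le T (fun b => b) N hN hx m
  unfold SP
  exact this

/-- the shift of the component `i` by `c * SP T` -/
noncomputable def shv {s d : ℕ} (T : Finset ℕ) (i : Fin s) (c : ℤ) : Fin s → Fin (d + 1) → ℤ :=
  fun i' j => if i' = i then c * (SP T).coeff j else 0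

/-- the values of the system -/
def val {s d : ℕ} (v : Fin s → ℕ → ℤ) (a : Fin s → Fin (d + 1) → ℤ) (i : Fin s) (n : ℕ) : ℤ := pv (v i) (a i) n

lemma val_shv {s d : ℕ} (v : Fin s → ℕ → ℤ) (a : Fin s → Fin (d + 1) → ℤ) (T : Finset ℕ) (hT : T.card ≤ d)
    (i : Fin s) (c : ℤ) (i' : Fin s) (n : ℕ) :
    val v (a + shv T i c) i' n = val v a i' n + if i' = i then c * (SP T).eval (n : ℤ) else 0 := by
  unfold val pv shv
  simp only [Pi.add_apply, add_mul, sum_add_distrib]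
  rw [add_assoc]
  congr 2
  split_ifs with h
  · rw [eval_eq_sum_range' (n := d + 1) (by rw [SP_deg]; omega),
      ← Fin.sum_univ_eq_sum_range (fun j => (SP T).coeff j * (n : ℤ) ^ j), mul_sum]
    apply sum_congr rfl
    intro j _
    ring
  · simp

lemma val_shv_mem {s d : ℕ} (v : Fin s → ℕ → ℤ) (a : Fin s → Fin (d + 1) → ℤ) (T : Finset ℕ) (hT : T.card ≤ d)
    (i : Fin s) (c : ℤ) (i' : Fin s) (n : ℕ) (hn : n ∈ T) : val v (a + shv T i c) i' n = val v a i' n := by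
  rw [val_shv v a T hT, SP_eval, prod_eq_zero hn (sub_self _)]
  simp

end Pool.Agent.H77.BV
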