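import Mathlib
import Pool.Agent.H77.BV.Av
import Pool.Agent.H77.BV.Ap

/-! The replacement of one factor. -/

set_option autoImplicit false

namespace Pool.Agent.H77.BV

open Finset Polynomial
open Pool.Agent.K1H89.PL
open Pool.Agent.K1H89.Ev (evN ev_pow)

/-- a function of the coefficients which does not change if multiples of `W * SP T` are added -/
def Inv {s d : ℕ} (W : ℕ) (T : Finset ℕ) (G : (Fin s → Fin (d + 1) → ℤ) → ℝ) : Prop :=
  ∀ a i, ∀ t : ℕ, G (a + shv T i ((W : ℤ) * t)) = G a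

/-- the core: one component -/
lemma sg_core {s d : ℕ} (H W : ℕ) (g : Fin s → Fin (d + 1) → ℤ) (hW : 1 ≤ W) (hWH : W ≤ H) (v : Fin s → ℕ → ℤ)
    (T : Finset ℕ) (hT : T.card ≤ d) (N : ℝ) (hN : 0 ≤ N) (hTN : ∀ b ∈ T, (b : ℝ) ≤ N) (i : Fin s) (n M : ℕ) (hM : 1 ≤ M)
    (F Fb : ℤ → ℝ) (Λ Γ e : ℝ) (G : (Fin s → Fin (d + 1) → ℤ) → ℝ)
    (hG : ∀ a, ∀ t : ℕ, G (a + shv T i ((W : ℤ) * t)) = G a)
    (hGΓ : ∀ a ∈ fam H W g, |G a| ≤ Γ)
    (hF : ∀ a ∈ fam H W g, ∀ t : ℕ, t ≤ M → |F (val v a i n + (W * (SP T).eval (n : ℤ)) * t)| ≤ Λ)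
    (hav : ∀ a ∈ fam H W g, |∑ t ∈ range M, F (val v a i n + (W * (SP T).eval (n : ℤ)) * t) - M * Fb (val v a i n)| ≤ M * e) :
    |∑ a ∈ fam H W g, F (val v a i n) * G a - ∑ a ∈ fam H W g, Fb (val v a i n) * G a| ≤
      Γ * (e + 2 * Λ * (s * (((d : ℝ) + 1) * ((W * M * (1 + N) ^ T.card + W) / H)))) * (fam H W g).card := by
  have hval : ∀ a : Fin s → Fin (d + 1) → ℤ, ∀ t : ℕ, val v (a + shv T i ((W : ℤ) * t)) i n =
      val v a i n + (W * (SP T).eval (n : ℤ)) * t := by
    intro a t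
    rw [val_shv v a T hT, if_pos rfl]
    ring
  apply avg_shift (fam H W g) (fun t => shv T i ((W : ℤ) * t)) M hM _ Λ Γ e (fun a => F (val v a i n))
    (fun a => Fb (val v a i n)) G
  · intro t ht
    apply fam_bad H W g (shv T i ((W : ℤ) * t)) (W * M * (1 + N) ^ T.card) hW hWH
    · intro i' j
      unfold shv
      split_ifs
      · push_cast
        rw [abs_mul, abs_mul, Nat.abs_cast, Nat.abs_cast]
        have h1 := SP_coeff T N hN hTN j
        have h2 : (t : ℝ) ≤ M := by exact_mod_cast ht.le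
        gcongr
      · rw [Int.cast_zero, abs_zero]
        positivity
    · intro i' j
      unfold shv
      split_ifs
      · exact (dvd_mul_right _ _).mul_right _
      · exact dvd_zero _
  · intro t _ a _
    exact hG a t
  · intro a ha
    have := hF a ha 0 (Nat.zero_le _)
    simpa using this
  · intro t ht a ha
    simp only [hval]
    exact hF a ha t ht.le
  · exact hGΓ
  · intro a ha
    simp only [hval]
    exact hav a ha

/-- values are bounded -/
lemma val_le {s d : ℕ} {H W : ℕ} {g : Fin s → Fin (d + 1) → ℤ} {v : Fin s → ℕ → ℤ} {a : Fin s → Fin (d + 1) → ℤ}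
    (ha : a ∈ fam H W g) (i : Fin s) (n : ℕ) (N P : ℝ) (hN : 1 ≤ N) (hn : (n : ℝ) ≤ N) (hv : |((v i n : ℤ) : ℝ)| ≤ P) :
    |((val v a i n : ℤ) : ℝ)| ≤ P + (d + 1) * (H * N ^ d) := by
  unfold fam at ha
  rw [Fintype.mem_piFinset] at ha
  exact pv_bound (v i) (a i) H n N P hN hn hv (mem_box_abs (ha i))

/-- the product of the logarithmic weights -/
noncomputable def Xn {s d : ℕ} (v : Fin s → ℕ → ℤ) (a : Fin s → Fin (d + 1) → ℤ) (n : ℕ) : ℝ := ∏ i, th (val v a i n)

/-- the product of the sieve weights -/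
noncomputable def Yn {s d : ℕ} (z : ℕ) (v : Fin s → ℕ → ℤ) (a : Fin s → Fin (d + 1) → ℤ) (n : ℕ) : ℝ :=
  ∏ i, yw z 0 (val v a i n)

lemma MP_small (B : ℕ) : ∃ H0 : ℕ, ∀ H : ℕ, H0 ≤ H → ∀ z : ℕ, (z : ℝ) ≤ Real.log H ^ B → MP z ≤ Real.log H := by
  obtain ⟨K, hK1, hK⟩ := mert
  obtain ⟨H2, h2⟩ := evN _ ((Real.tendsto_log_atTop.eventually (ev_pow 1 (K * B) 1 one_pos)).and
    (Real.tendsto_log_atTop.eventually_ge_atTop (max 4 (K * 4))))
  refine ⟨H2, fun H hH z hz => ?_⟩
  obtain ⟨h3, h4⟩ := h2 H (by omega)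
  set L := Real.log H with hL
  have hL4 : 4 ≤ L := (le_max_left _ _).trans h4
  rcases lt_or_ge z 2 with hz2 | hz2
  · have : MP z ≤ MP 2 := by
      rw [← hz_zero, ← hz_zero]
      unfold Pool.Agent.H77.BV.hz
      apply pr_sub_le
      · intro p hp
        rw [mem_filter, mem_prN] at hp ⊢
        exact ⟨⟨by omega, hp.1.2⟩, hp.2⟩
      · intro p hp
        exact one_le_inv (mem_prN.1 (mem_filter.1 hp).1).2
    have h5 := hK 2 le_rfl
    have h6 : K * Real.log (2 : ℕ) ≤ K * 4 := by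
      apply mul_le_mul_of_nonneg_left _ (by linarith)
      have := Real.log_two_lt_d9
      push_cast
      linarith
    exact (this.trans h5).trans (h6.trans ((le_max_right _ _).trans h4))
  · have h5 := hK z hz2
    have hz0 : (0 : ℝ) < z := by exact_mod_cast (by omega : 0 < z)
    have h6 : Real.log z ≤ B * Real.log L := by
      have := Real.log_le_log hz0 hz
      rwa [Real.log_pow] at this
    calc MP z ≤ K * Real.log z := h5
      _ ≤ K * (B * Real.log L) := by gcongr
      _ = K * B * Real.log L ^ 1 := by ring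
      _ ≤ L ^ (1 : ℝ) := h3
      _ = L := Real.rpow_one L

/-- the telescoping argument -/
lemma tele {s d : ℕ} (Ω : Finset (Fin s → Fin (d + 1) → ℤ)) (x y : Fin s → (Fin s → Fin (d + 1) → ℤ) → ℝ) (ε : ℝ)
    (G : (Fin s → Fin (d + 1) → ℤ) → ℝ)
    (h : ∀ (S : Finset (Fin s)) (i : Fin s), i ∉ S →
      |∑ a ∈ Ω, x i a * ((∏ j ∈ S, x j a) * (∏ j ∈ univ \ insert i S, y j a) * G a) -
        ∑ a ∈ Ω, y i a * ((∏ j ∈ S, x j a) * (∏ j ∈ univ \ insert i S, y j a) * G a)| ≤ ε) :
    |∑ a ∈ Ω, (∏ j, x j a - ∏ j, y j a) * G a| ≤ s * ε := by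
  classical
  have key : ∀ S : Finset (Fin s), |∑ a ∈ Ω, ((∏ j ∈ S, x j a) * (∏ j ∈ univ \ S, y j a) - ∏ j, y j a) * G a| ≤ S.card * ε := by
    intro S
    induction S using Finset.induction_on with
    | empty => simp
    | insert i S hi ih =>
      rw [card_insert_of_notMem hi]
      have e : ∑ a ∈ Ω, ((∏ j ∈ insert i S, x j a) * (∏ j ∈ univ \ insert i S, y j a) - ∏ j, y j a) * G a =
          (∑ a ∈ Ω, x i a * ((∏ j ∈ S, x j a) * (∏ j ∈ univ \ insert i S, y j a) * G a) -
            ∑ a ∈ Ω, y i a * ((∏ j ∈ S, x j a) * (∏ j ∈ univ \ insert i S, y j a) * G a)) +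
          ∑ a ∈ Ω, ((∏ j ∈ S, x j a) * (∏ j ∈ univ \ S, y j a) - ∏ j, y j a) * G a := by
        rw [← sum_sub_distrib, ← sum_add_distrib]
        apply sum_congr rfl
        intro a _
        rw [prod_insert hi]
        have h2 : univ \ S = insert i (univ \ insert i S) := by
          ext j
          simp only [mem_sdiff, mem_univ, true_and, mem_insert, not_or]
          constructor
          · intro hj
            by_cases hji : j = i
            · left; exact hji
            · right; exact ⟨hji, hj⟩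
          · rintro (rfl | ⟨_, hj⟩)
            · exact hi
            · exact hj
        rw [h2, prod_insert (by simp)]
        ring
      rw [e]
      refine (abs_add_le _ _).trans ?_
      have h1 := h S i hi
      push_cast
      linarith
  have h3 := key univ
  simp only [sdiff_self, bot_eq_empty, prod_empty, mul_one, card_univ, Fintype.card_fin] at h3
  exact h3

end Pool.Agent.H77.BV
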