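import Mathlib
import Pool.Agent.H77.BV.Sg

/-! The replacement of one factor: the two theorems. -/

set_option autoImplicit false

namespace Pool.Agent.H77.BV

open Finset Polynomial
open Pool.Agent.K1H89.PL
open Pool.Agent.K1H89.Ev (evN ev_pow)

lemma val_other {s d : ℕ} (v : Fin s → ℕ → ℤ) (a : Fin s → Fin (d + 1) → ℤ) (T : Finset ℕ) (hT : T.card ≤ d)
    (i : Fin s) (c : ℤ) (j : Fin s) (hj : j ≠ i) (n : ℕ) : val v (a + shv T i c) j n = val v a j n := by
  rw [val_shv v a T hT, if_neg hj, add_zero]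

/-- if the other points are not changed, `Xn` may be replaced by `Yn` -/
theorem singles (s d A B : ℕ) : ∃ H0 : ℕ, ∀ H : ℕ, H0 ≤ H → ∀ z W : ℕ, (z : ℝ) ≤ Real.log H ^ B → 1 ≤ W →
    (W : ℝ) ≤ Real.log H ^ B → (∀ p : ℕ, p.Prime → p ∣ W → p ≤ z) → ∀ v : Fin s → ℕ → ℤ,
    (∀ i, ∀ n : ℕ, n ≤ z → |((v i n : ℤ) : ℝ)| ≤ H * Real.log H ^ B) → ∀ g : Fin s → Fin (d + 1) → ℤ,
    ∀ T : Finset ℕ, T.card ≤ d → (∀ b ∈ T, b ≤ z) → ∀ n : ℕ, n ≤ z → n ∉ T →
    ∀ G : (Fin s → Fin (d + 1) → ℤ) → ℝ, Inv W T G → (∀ a ∈ fam H W g, |G a| ≤ Real.log H ^ B) →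
    |∑ a ∈ fam H W g, (Xn v a n - Yn z v a n) * G a| ≤ (fam H W g).card / Real.log H ^ A := by
  classical
  obtain ⟨c, hc⟩ : ∃ c, c = 2 * s + B + A + 8 := ⟨_, rfl⟩
  obtain ⟨B1, hB1⟩ : ∃ e, e = B + (B + 1) * d + c := ⟨_, rfl⟩
  obtain ⟨A1, hA1⟩ : ∃ e, e = B1 + c := ⟨_, rfl⟩
  obtain ⟨B2, hB2⟩ : ∃ e, e = B + B * d + 2 := ⟨_, rfl⟩
  obtain ⟨H1, h1⟩ := apX A1 B2
  obtain ⟨H2, h2⟩ := apY A1 B
  obtain ⟨H3, h3⟩ := MP_small B
  obtain ⟨H4, h4⟩ := evN _ (Real.tendsto_log_atTop.eventually_ge_atTop (max 4 (s * ((d : ℝ) + 1) + d + 3)))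
  obtain ⟨H5, h5⟩ := evN _ (ev_pow (B1 + B2 + c + B) 2 (9 / 10) (by norm_num))
  refine ⟨max (max H1 H2) (max (max H3 H4) (max H5 1)), fun H hH z W hz hW1 hWB hWz v hv g T hT hTz n hn hnT G hG hGB => ?_⟩
  have hc1 := h4 H (by omega)
  have hc2 := h5 H (by omega)
  have hMP := h3 H (by omega) z hz
  set L := Real.log H with hL
  have hL4 : 4 ≤ L := (le_max_left _ _).trans hc1
  have hLs : s * ((d : ℝ) + 1) + d + 3 ≤ L := (le_max_right _ _).trans hc1
  have hL1 : 1 ≤ L := by linarith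
  have hL0 : 0 < L := by linarith
  have hH1 : (1 : ℝ) ≤ H := by
    have : 1 ≤ H := by omega
    exact_mod_cast this
  have hH0 : (0 : ℝ) < H := by linarith
  have pw : ∀ {a b : ℕ}, a ≤ b → L ^ a ≤ L ^ b := fun h => pow_le_pow_right₀ hL1 h
  have p0 : ∀ a : ℕ, 0 < L ^ a := fun a => by positivity
  have hs0 : (0 : ℝ) ≤ s := Nat.cast_nonneg _
  have hd0 : (0 : ℝ) ≤ d := Nat.cast_nonneg _
  have hsd0 : 0 ≤ s * ((d : ℝ) + 1) := by positivity
  have hsL : s * ((d : ℝ) + 1) ≤ L := by linarith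
  have hsL' : (s : ℝ) ≤ L := by nlinarith
  have hdL : (d : ℝ) + 2 ≤ L := by nlinarith
  -- `H ^ (9/10)` is large
  have hH910 : 2 * L ^ (B1 + B2 + c + B) ≤ (H : ℝ) ^ (9 / 10 : ℝ) := hc2
  have hrpow : (H : ℝ) ^ (9 / 10 : ℝ) * (H : ℝ) ^ (1 / 20 : ℝ) ≤ H := by
    rw [← Real.rpow_add hH0]
    calc (H : ℝ) ^ (9 / 10 + 1 / 20 : ℝ) ≤ (H : ℝ) ^ (1 : ℝ) := Real.rpow_le_rpow_of_exponent_le hH1 (by norm_num)
      _ = H := Real.rpow_one _
  have h120 : (1 : ℝ) ≤ (H : ℝ) ^ (1 / 20 : ℝ) := Real.one_le_rpow hH1 (by norm_num)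
  have hbig : 2 * L ^ (B1 + B2 + c + B) * (H : ℝ) ^ (1 / 20 : ℝ) ≤ H :=
    (mul_le_mul_of_nonneg_right hH910 (by linarith)).trans hrpow
  have hbig' : 2 * L ^ (B1 + B2 + c + B) ≤ H := by
    refine le_trans ?_ hbig
    have := p0 (B1 + B2 + c + B)
    nlinarith
  have hWH : W ≤ H := by
    have : (W : ℝ) ≤ H := by
      calc (W : ℝ) ≤ L ^ B := hWB
        _ ≤ L ^ (B1 + B2 + c + B) := pw (by omega)
        _ ≤ H := by linarith [p0 (B1 + B2 + c + B)]
    exact_mod_cast this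
  -- M
  obtain ⟨M, hM⟩ : ∃ M : ℕ, M = ⌊(H : ℝ) / L ^ B1⌋₊ := ⟨_, rfl⟩
  have hM2 : 2 * (H : ℝ) ^ (1 / 20 : ℝ) ≤ H / L ^ B1 := by
    rw [le_div_iff₀ (p0 B1)]
    calc 2 * (H : ℝ) ^ (1 / 20 : ℝ) * L ^ B1 ≤ 2 * (H : ℝ) ^ (1 / 20 : ℝ) * L ^ (B1 + B2 + c + B) := by
          gcongr 2 * (H : ℝ) ^ (1 / 20 : ℝ) * ?_
          exact pw (by omega)
      _ = 2 * L ^ (B1 + B2 + c + B) * (H : ℝ) ^ (1 / 20 : ℝ) := by ring
      _ ≤ H := hbig
  have hMle : (M : ℝ) ≤ H / L ^ B1 := by rw [hM]; exact Nat.floor_le (by positivity)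
  have hMge : (H : ℝ) / L ^ B1 / 2 ≤ M := by
    have := Nat.lt_floor_add_one ((H : ℝ) / L ^ B1)
    rw [← hM] at this
    linarith
  have hM120 : (H : ℝ) ^ (1 / 20 : ℝ) ≤ M := by linarith
  have hM1 : 1 ≤ M := by
    have : (1 : ℝ) ≤ M := h120.trans hM120
    exact_mod_cast this
  have hM0 : (0 : ℝ) < M := by exact_mod_cast hM1
  -- the modulus
  set R : ℤ := W * (SP T).eval (n : ℤ) with hR
  have hR0 : R ≠ 0 := by
    rw [hR, SP_eval]
    apply mul_ne_zero (by exact_mod_cast (by omega : W ≠ 0))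
    rw [prod_ne_zero_iff]
    intro b hb h0
    apply hnT
    have : n = b := by
      have : (n : ℤ) = b := by linarith
      exact_mod_cast this
    rw [this]
    exact hb
  have hRp : ∀ p : ℕ, p.Prime → (p : ℤ) ∣ R → p ≤ z := by
    intro p hp hpR
    rw [hR, SP_eval] at hpR
    have hpI : Prime (p : ℤ) := Nat.prime_iff_prime_int.1 hp
    rcases hpI.dvd_or_dvd hpR with h | h
    · exact hWz p hp (Int.natCast_dvd_natCast.1 h)
    · obtain ⟨b, hb, hpb⟩ := (hpI.dvd_finsetProd_iff _).1 h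
      have hne : (n : ℤ) - b ≠ 0 := by
        intro h0
        apply hnT
        have : n = b := by
          have : (n : ℤ) = b := by linarith
          exact_mod_cast this
        rw [this]
        exact hb
      have h6 := Int.natAbs_le_of_dvd_ne_zero hpb hne
      have h7 := hTz b hb
      omega
  have hdiff : ∀ b ∈ T, |(n : ℝ) - b| ≤ L ^ B := by
    intro b hb
    have h6 : (n : ℝ) ≤ L ^ B := le_trans (by exact_mod_cast hn) hz
    have h7 : (b : ℝ) ≤ L ^ B := le_trans (by exact_mod_cast hTz b hb) hz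
    have h8 : (0 : ℝ) ≤ n := Nat.cast_nonneg _
    have h9 : (0 : ℝ) ≤ b := Nat.cast_nonneg _
    rw [abs_le]
    constructor <;> linarith
  have hRle : |(R : ℝ)| ≤ L ^ (B + B * d) := by
    rw [hR, SP_eval]
    push_cast
    rw [abs_mul, Nat.abs_cast, abs_prod]
    calc (W : ℝ) * ∏ b ∈ T, |(n : ℝ) - b| ≤ L ^ B * ∏ _b ∈ T, L ^ B := by
          gcongr with b hb
          exact hdiff b hb
      _ = L ^ B * (L ^ B) ^ T.card := by rw [prod_const]
      _ ≤ L ^ B * (L ^ B) ^ d := by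
          gcongr
          exact one_le_pow₀ hL1
      _ = L ^ (B + B * d) := by rw [← pow_mul, ← pow_add]
  have hvalb : ∀ a ∈ fam H W g, ∀ i, |((val v a i n : ℤ) : ℝ)| ≤ H * L ^ (B + B * d + 1) := by
    intro a ha i
    have h6 := val_le ha i n (L ^ B) (H * L ^ B) (one_le_pow₀ hL1) (le_trans (by exact_mod_cast hn) hz) (hv i n hn)
    refine h6.trans ?_
    rw [← pow_mul]
    calc (H : ℝ) * L ^ B + (d + 1) * (H * L ^ (B * d)) ≤ H * L ^ (B + B * d) + (d + 1) * (H * L ^ (B + B * d)) := by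
          gcongr
          · exact Nat.le_add_right _ _
          · exact Nat.le_add_left _ _
      _ = H * L ^ (B + B * d) * (d + 2) := by ring
      _ ≤ H * L ^ (B + B * d) * L := by gcongr
      _ = H * L ^ (B + B * d + 1) := by rw [pow_succ]; ring
  have hshift : ∀ a ∈ fam H W g, ∀ i, ∀ t : ℕ, t ≤ M → |((val v a i n : ℤ) : ℝ) + R * t| ≤ H * L ^ B2 := by
    intro a ha i t ht
    refine (abs_add_le _ _).trans ?_
    have h6 := hvalb a ha i
    have h7 : |(R : ℝ) * t| ≤ H := by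
      rw [abs_mul, Nat.abs_cast]
      have ht' : (t : ℝ) ≤ M := by exact_mod_cast ht
      calc |(R : ℝ)| * t ≤ L ^ (B + B * d) * (H / L ^ B1) := by
            gcongr
            exact ht'.trans hMle
        _ ≤ L ^ B1 * (H / L ^ B1) := by
            gcongr
            rw [hB1]
            nlinarith
        _ = H := by field_simp
    calc |((val v a i n : ℤ) : ℝ)| + |(R : ℝ) * t| ≤ H * L ^ (B + B * d + 1) + H := add_le_add h6 h7
      _ ≤ H * L ^ (B + B * d + 1) * 2 := by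
          have : 1 ≤ L ^ (B + B * d + 1) := one_le_pow₀ hL1
          nlinarith
      _ ≤ H * L ^ (B + B * d + 1) * L := by gcongr; linarith
      _ = H * L ^ B2 := by rw [hB2, pow_succ L (B + B * d + 1)]; ring
  -- bounds for the weights
  have hX2 : (1 : ℝ) ≤ H * L ^ B2 := by
    have := one_le_pow₀ hL1 (n := B2)
    nlinarith
  have hthL : ∀ x : ℤ, |(x : ℝ)| ≤ H * L ^ B2 → |th x| ≤ L ^ 2 := by
    intro x hx
    rw [abs_of_nonneg (th_nonneg x)]
    refine (th_le_log hX2 hx).trans ?_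
    have hXH : (H : ℝ) * L ^ B2 ≤ (H : ℝ) ^ 2 := by
      rw [pow_two]
      gcongr
      calc L ^ B2 ≤ L ^ (B1 + B2 + c + B) := pw (by omega)
        _ ≤ H := by linarith [p0 (B1 + B2 + c + B)]
    have := Real.log_le_log (by positivity) hXH
    rw [Real.log_pow] at this
    push_cast at this
    nlinarith
  have hywL : ∀ R' x : ℤ, |yw z R' x| ≤ L ^ 2 := by
    intro R' x
    rw [abs_of_nonneg (yw_nonneg z R' x)]
    refine (yw_le z R' x).trans (hMP.trans ?_)
    nlinarith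
  -- the error
  set β : ℝ := s * (((d : ℝ) + 1) * ((W * M * (1 + L ^ B) ^ T.card + W) / H)) with hβ
  have hβ0 : 0 ≤ β := by positivity
  have hβle : β ≤ 2 / L ^ (c - 1) := by
    have e2 : (1 + L ^ B) ^ T.card ≤ L ^ ((B + 1) * d) := by
      calc (1 + L ^ B) ^ T.card ≤ (L ^ (B + 1)) ^ T.card := by
            apply pow_le_pow_left₀ (by positivity)
            rw [pow_succ]
            have := one_le_pow₀ hL1 (n := B)
            nlinarith
        _ ≤ (L ^ (B + 1)) ^ d := pow_le_pow_right₀ (one_le_pow₀ hL1) hT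
        _ = L ^ ((B + 1) * d) := by rw [← pow_mul]
    have e3 : (W * M * (1 + L ^ B) ^ T.card + W) / H ≤ 2 / L ^ c := by
      rw [add_div]
      have e4 : (W : ℝ) * M * (1 + L ^ B) ^ T.card / H ≤ 1 / L ^ c := by
        rw [div_le_iff₀ hH0]
        calc (W : ℝ) * M * (1 + L ^ B) ^ T.card ≤ L ^ B * (H / L ^ B1) * L ^ ((B + 1) * d) := by gcongr
          _ = 1 / L ^ c * H := by
              rw [hB1, pow_add L (B + (B + 1) * d) c, pow_add L B ((B + 1) * d)]
              field_simp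
      have e5 : (W : ℝ) / H ≤ 1 / L ^ c := by
        rw [div_le_div_iff₀ hH0 (p0 c)]
        calc (W : ℝ) * L ^ c ≤ L ^ B * L ^ c := by gcongr
          _ = L ^ (B + c) := by rw [pow_add]
          _ ≤ L ^ (B1 + B2 + c + B) := pw (by omega)
          _ ≤ 1 * H := by linarith [p0 (B1 + B2 + c + B)]
      calc _ ≤ 1 / L ^ c + 1 / L ^ c := add_le_add e4 e5
        _ = 2 / L ^ c := by ring
    calc β = s * ((d : ℝ) + 1) * ((W * M * (1 + L ^ B) ^ T.card + W) / H) := by rw [hβ]; ring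
      _ ≤ L * (2 / L ^ c) := by gcongr
      _ = 2 / L ^ (c - 1) := by
          have : c = c - 1 + 1 := by omega
          conv_lhs => rw [this, pow_succ]
          field_simp
  obtain ⟨Γ, hΓ⟩ : ∃ Γ : ℝ, Γ = (L ^ 2) ^ s * L ^ B := ⟨_, rfl⟩
  have hΓ0 : 0 ≤ Γ := by rw [hΓ]; positivity
  have htot : s * (2 * (Γ * (2 / L ^ c + 2 * L ^ 2 * β))) ≤ 1 / L ^ A := by
    have e1 : 2 / L ^ c ≤ 2 / L ^ (c - 3) := by
      apply div_le_div_of_nonneg_left (by norm_num) (p0 _) (pw (by omega))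
    have e2 : 2 * L ^ 2 * β ≤ 4 / L ^ (c - 3) := by
      calc 2 * L ^ 2 * β ≤ 2 * L ^ 2 * (2 / L ^ (c - 1)) := by gcongr
        _ = 4 / L ^ (c - 3) := by
            have : c - 1 = c - 3 + 2 := by omega
            rw [this, pow_add]
            field_simp
            ring
    calc s * (2 * (Γ * (2 / L ^ c + 2 * L ^ 2 * β))) ≤ L * (2 * (Γ * (2 / L ^ (c - 3) + 4 / L ^ (c - 3)))) := by
          gcongr
      _ = 12 * (L * Γ) / L ^ (c - 3) := by ring
      _ = 12 * L ^ (2 * s + B + 1) / L ^ (c - 3) := by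
          rw [hΓ, ← pow_mul]
          congr 2
          rw [← pow_add, ← pow_succ']
      _ ≤ L ^ 2 * L ^ (2 * s + B + 1) / L ^ (c - 3) := by
          gcongr
          nlinarith
      _ = L ^ (2 * s + B + 3) / L ^ (2 * s + B + 5 + A) := by
          rw [← pow_add]
          congr 2
          · omega
          · omega
      _ ≤ 1 / L ^ A := by
          rw [div_le_div_iff₀ (p0 _) (p0 _), one_mul, ← pow_add]
          exact pw (by omega)
  -- telescoping
  have htele := tele (fam H W g) (fun i a => th (val v a i n)) (fun i a => yw z 0 (val v a i n))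
    (2 * (Γ * (2 / L ^ c + 2 * L ^ 2 * β)) * (fam H W g).card) G (by
    intro S i hi
    set G' : (Fin s → Fin (d + 1) → ℤ) → ℝ := fun a => (∏ j ∈ S, th (val v a j n)) *
      (∏ j ∈ univ \ insert i S, yw z 0 (val v a j n)) * G a with hG'
    have hinv : ∀ a, ∀ t : ℕ, G' (a + shv T i ((W : ℤ) * t)) = G' a := by
      intro a t
      rw [hG']
      simp only
      rw [hG a i t]
      congr 2
      · apply prod_congr rfl
        intro j hj
        rw [val_other v a T hT i _ j (by rintro rfl; exact hi hj)]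
      · apply prod_congr rfl
        intro j hj
        rw [val_other v a T hT i _ j (by
          rintro rfl
          rw [mem_sdiff] at hj
          exact hj.2 (mem_insert_self _ _))]
    have hL2 : 1 ≤ L ^ 2 := one_le_pow₀ hL1
    have hbd : ∀ a ∈ fam H W g, |G' a| ≤ Γ := by
      intro a ha
      rw [hG']
      simp only
      rw [abs_mul, abs_mul, hΓ, abs_prod, abs_prod]
      have hv0 : ∀ j, |((val v a j n : ℤ) : ℝ)| ≤ H * L ^ B2 := fun j => (hvalb a ha j).trans (by
        gcongr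
        omega)
      have e1 : ∏ j ∈ S, |th (val v a j n)| ≤ (L ^ 2) ^ S.card := by
        rw [← prod_const]
        exact prod_le_prod (fun _ _ => abs_nonneg _) fun j _ => hthL _ (hv0 j)
      have e2 : ∏ j ∈ univ \ insert i S, |yw z 0 (val v a j n)| ≤ (L ^ 2) ^ (univ \ insert i S).card := by
        rw [← prod_const]
        exact prod_le_prod (fun _ _ => abs_nonneg _) fun j _ => hywL _ _
      have e3 : S.card + (univ \ insert i S).card ≤ s := by
        have h6 := card_sdiff_add_card_eq_card (subset_univ (insert i S))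
        rw [card_insert_of_notMem hi, card_univ, Fintype.card_fin] at h6
        omega
      calc _ ≤ (L ^ 2) ^ S.card * (L ^ 2) ^ (univ \ insert i S).card * L ^ B := by
            gcongr
            exact hGB a ha
        _ = (L ^ 2) ^ (S.card + (univ \ insert i S).card) * L ^ B := by rw [pow_add]
        _ ≤ (L ^ 2) ^ s * L ^ B := by gcongr
    have hcard0 : (0 : ℝ) ≤ (fam H W g).card := Nat.cast_nonneg _
    have c1 := sg_core H W g hW1 hWH v T hT (L ^ B) (p0 B).le (fun b hb => le_trans (by exact_mod_cast hTz b hb) hz)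
      i n M hM1 th (yw z R) (L ^ 2) Γ (2 / L ^ c) G' hinv hbd (by
        intro a ha t ht
        apply hthL
        have := hshift a ha i t ht
        rw [hR] at this
        push_cast at this ⊢
        exact this) (by
        intro a ha
        have h6 := h1 H (by omega) z (val v a i n) R M hR0 hRp (hRle.trans (pw (by omega))) ((hvalb a ha i).trans (by
          gcongr
          omega)) (hshift a ha i M le_rfl)
        refine h6.trans ?_
        rw [← hL, hA1, pow_add]
        have h7 : (H : ℝ) / L ^ B1 ≤ 2 * M := by linarith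
        calc (H : ℝ) / (L ^ B1 * L ^ c) = (H / L ^ B1) / L ^ c := by rw [div_div]
          _ ≤ 2 * M / L ^ c := by gcongr
          _ = M * (2 / L ^ c) := by ring)
    have c2 := sg_core H W g hW1 hWH v T hT (L ^ B) (p0 B).le (fun b hb => le_trans (by exact_mod_cast hTz b hb) hz)
      i n M hM1 (yw z 0) (yw z R) (L ^ 2) Γ (2 / L ^ c) G' hinv hbd (by
        intro a ha t ht
        apply hywL) (by
        intro a ha
        have h6 := h2 H (by omega) z hz (val v a i n) R M hM120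
        refine h6.trans ?_
        rw [← hL, hA1, pow_add]
        calc (M : ℝ) / (L ^ B1 * L ^ c) ≤ M / (1 * L ^ c) := by
              gcongr
              exact one_le_pow₀ hL1
          _ ≤ M * (2 / L ^ c) := by
              rw [one_mul, mul_div_assoc']
              gcongr
              linarith)
    rw [← hβ] at c1 c2
    have e1 : ∑ a ∈ fam H W g, th (val v a i n) * ((∏ j ∈ S, th (val v a j n)) *
        (∏ j ∈ univ \ insert i S, yw z 0 (val v a j n)) * G a) - ∑ a ∈ fam H W g, yw z 0 (val v a i n) *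
        ((∏ j ∈ S, th (val v a j n)) * (∏ j ∈ univ \ insert i S, yw z 0 (val v a j n)) * G a) =
        (∑ a ∈ fam H W g, th (val v a i n) * G' a - ∑ a ∈ fam H W g, yw z R (val v a i n) * G' a) -
        (∑ a ∈ fam H W g, yw z 0 (val v a i n) * G' a - ∑ a ∈ fam H W g, yw z R (val v a i n) * G' a) := by
      rw [hG']
      ring
    rw [e1]
    refine (abs_sub _ _).trans ?_
    linarith)
  have e0 : ∑ a ∈ fam H W g, (Xn v a n - Yn z v a n) * G a =
      ∑ a ∈ fam H W g, (∏ j, th (val v a j n) - ∏ j, yw z 0 (val v a j n)) * G a := rfl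
  rw [e0]
  refine htele.trans ?_
  calc (s : ℝ) * (2 * (Γ * (2 / L ^ c + 2 * L ^ 2 * β)) * (fam H W g).card)
      = (s * (2 * (Γ * (2 / L ^ c + 2 * L ^ 2 * β)))) * (fam H W g).card := by ring
    _ ≤ 1 / L ^ A * (fam H W g).card := by gcongr
    _ = (fam H W g).card / L ^ A := by ring

end Pool.Agent.H77.BV
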