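import Mathlib
import Pool.Agent.H77.BV.Sg2

/-! The sieve weights: the replacement of one factor, with far away points. -/

set_option autoImplicit false

namespace Pool.Agent.H77.BV

open Finset Polynomial
open Pool.Agent.K1H89.PL
open Pool.Agent.K1H89.Ev (evN ev_pow)

/-- the shift for the sieve weights -/
theorem yshift (s d A B : ℕ) : ∃ H0 : ℕ, ∀ H : ℕ, H0 ≤ H → ∀ z W : ℕ, (z : ℝ) ≤ Real.log H ^ B → 1 ≤ W →
    (W : ℝ) ≤ Real.log H ^ B → ∀ v : Fin s → ℕ → ℤ, ∀ g : Fin s → Fin (d + 1) → ℤ,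
    ∀ T : Finset ℕ, T.card ≤ d → T.card ≤ 1 → (∀ b ∈ T, (b : ℝ) ≤ (H : ℝ) ^ (1 / 10 : ℝ)) → ∀ n : ℕ,
    ∀ G : (Fin s → Fin (d + 1) → ℤ) → ℝ, Inv W T G → (∀ a ∈ fam H W g, |G a| ≤ Real.log H ^ B) →
    |∑ a ∈ fam H W g, (Yn z v a n - ∏ i, yw z (W * (SP T).eval (n : ℤ)) (val v a i n)) * G a| ≤
      (fam H W g).card / Real.log H ^ A := by
  classical
  obtain ⟨c, hc⟩ : ∃ c, c = s + B + A + 8 := ⟨_, rfl⟩
  obtain ⟨H2, h2⟩ := apY c B
  obtain ⟨H3, h3⟩ := MP_small B
  obtain ⟨H4, h4⟩ := evN _ (Real.tendsto_log_atTop.eventually_ge_atTop (max 4 (s * ((d : ℝ) + 1) + d + 3)))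
  obtain ⟨H5, h5⟩ := evN _ (ev_pow (c + B) 8 (1 / 10) (by norm_num))
  refine ⟨max (max H2 16) (max (max H3 H4) (max H5 1)), fun H hH z W hz hW1 hWB v g T hT hT1 hTz n G hG hGB => ?_⟩
  have hc1 := h4 H (by omega)
  have hc2 := h5 H (by omega)
  have hMP := h3 H (by omega) z hz
  set L := Real.log H with hL
  have hL4 : 4 ≤ L := (le_max_left _ _).trans hc1
  have hLs : s * ((d : ℝ) + 1) + d + 3 ≤ L := (le_max_right _ _).trans hc1
  have hL1 : 1 ≤ L := by linarith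
  have hL0 : 0 < L := by linarith
  have hH1 : (1 : ℝ) ≤ H := by
    have : 1 ≤ H := by omega
    exact_mod_cast this
  have hH0 : (0 : ℝ) < H := by linarith
  have pw : ∀ {a b : ℕ}, a ≤ b → L ^ a ≤ L ^ b := fun h => pow_le_pow_right₀ hL1 h
  have p0 : ∀ a : ℕ, 0 < L ^ a := fun a => by positivity
  have hs0 : (0 : ℝ) ≤ s := Nat.cast_nonneg _
  have hd0 : (0 : ℝ) ≤ d := Nat.cast_nonneg _
  have hsd0 : 0 ≤ s * ((d : ℝ) + 1) := by positivity
  have hsL : s * ((d : ℝ) + 1) ≤ L := by linarith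
  have hsL' : (s : ℝ) ≤ L := by nlinarith
  obtain ⟨N, hN⟩ : ∃ N : ℝ, N = (H : ℝ) ^ (1 / 10 : ℝ) := ⟨_, rfl⟩
  have hN1 : 1 ≤ N := by rw [hN]; exact Real.one_le_rpow hH1 (by norm_num)
  rw [← hN] at hc2 hTz
  -- powers of `H`
  have hsqrt : (H : ℝ) ^ (1 / 2 : ℝ) * N * N ≤ H := by
    rw [hN, ← Real.rpow_add hH0, ← Real.rpow_add hH0]
    calc (H : ℝ) ^ (1 / 2 + 1 / 10 + 1 / 10 : ℝ) ≤ (H : ℝ) ^ (1 : ℝ) := Real.rpow_le_rpow_of_exponent_le hH1 (by norm_num)
      _ = H := Real.rpow_one _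
  have hs1 : (1 : ℝ) ≤ (H : ℝ) ^ (1 / 2 : ℝ) := Real.one_le_rpow hH1 (by norm_num)
  have hNH : N ≤ H := by
    nlinarith [mul_le_mul_of_nonneg_right hs1 (by linarith : (0 : ℝ) ≤ N)]
  have hWH : W ≤ H := by
    have : (W : ℝ) ≤ H := by
      calc (W : ℝ) ≤ L ^ B := hWB
        _ ≤ L ^ (c + B) := pw (by omega)
        _ ≤ N := by linarith [p0 (c + B)]
        _ ≤ H := hNH
    exact_mod_cast this
  obtain ⟨M, hM⟩ : ∃ M : ℕ, M = ⌊(H : ℝ) ^ (1 / 2 : ℝ)⌋₊ := ⟨_, rfl⟩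
  have hMle : (M : ℝ) ≤ (H : ℝ) ^ (1 / 2 : ℝ) := by rw [hM]; exact Nat.floor_le (by positivity)
  have hMge : (H : ℝ) ^ (1 / 20 : ℝ) ≤ M := by
    have h6 := Nat.lt_floor_add_one ((H : ℝ) ^ (1 / 2 : ℝ))
    rw [← hM] at h6
    have h7 : (H : ℝ) ^ (1 / 2 : ℝ) = (H : ℝ) ^ (1 / 20 : ℝ) * (H : ℝ) ^ (9 / 20 : ℝ) := by
      rw [← Real.rpow_add hH0]
      norm_num
    have h8 : (2 : ℝ) ≤ (H : ℝ) ^ (9 / 20 : ℝ) := by
      have h9 : (16 : ℝ) ≤ H := by
        have : 16 ≤ H := by omega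
        exact_mod_cast this
      calc (2 : ℝ) = (16 : ℝ) ^ (1 / 4 : ℝ) := by
            rw [show (16 : ℝ) = 2 ^ (4 : ℝ) by norm_num, ← Real.rpow_mul (by norm_num)]
            norm_num
        _ ≤ (16 : ℝ) ^ (9 / 20 : ℝ) := Real.rpow_le_rpow_of_exponent_le (by norm_num) (by norm_num)
        _ ≤ (H : ℝ) ^ (9 / 20 : ℝ) := Real.rpow_le_rpow (by norm_num) h9 (by norm_num)
    have h10 : (1 : ℝ) ≤ (H : ℝ) ^ (1 / 20 : ℝ) := Real.one_le_rpow hH1 (by norm_num)
    nlinarith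
  have hM1 : 1 ≤ M := by
    have : (1 : ℝ) ≤ M := (Real.one_le_rpow hH1 (by norm_num)).trans hMge
    exact_mod_cast this
  have hM0 : (0 : ℝ) < M := by exact_mod_cast hM1
  set R : ℤ := W * (SP T).eval (n : ℤ) with hR
  have hywL : ∀ R' x : ℤ, |yw z R' x| ≤ L := by
    intro R' x
    rw [abs_of_nonneg (yw_nonneg z R' x)]
    exact (yw_le z R' x).trans hMP
  -- the error
  set β : ℝ := s * (((d : ℝ) + 1) * ((W * M * (1 + N) ^ T.card + W) / H)) with hβ
  have hβ0 : 0 ≤ β := by positivity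
  have hβle : β ≤ 1 / L ^ (c - 1) := by
    have e2 : (1 + N) ^ T.card ≤ 2 * N := by
      calc (1 + N) ^ T.card ≤ (1 + N) ^ 1 := pow_le_pow_right₀ (by linarith) hT1
        _ ≤ 2 * N := by rw [pow_one]; linarith
    have e3 : (W * M * (1 + N) ^ T.card + W) / H ≤ 1 / L ^ c := by
      rw [div_le_div_iff₀ hH0 (p0 c)]
      have e4 : (W : ℝ) * M * (1 + N) ^ T.card + W ≤ L ^ B * (4 * ((H : ℝ) ^ (1 / 2 : ℝ) * N)) := by
        have e5 : (W : ℝ) * M * (1 + N) ^ T.card ≤ L ^ B * (H : ℝ) ^ (1 / 2 : ℝ) * (2 * N) := by gcongr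
        have e6 : (W : ℝ) ≤ L ^ B * ((H : ℝ) ^ (1 / 2 : ℝ) * N) := by
          have : (1 : ℝ) ≤ (H : ℝ) ^ (1 / 2 : ℝ) * N := by nlinarith
          have := p0 B
          nlinarith
        have : 0 ≤ L ^ B * ((H : ℝ) ^ (1 / 2 : ℝ) * N) := by positivity
        linarith
      calc ((W : ℝ) * M * (1 + N) ^ T.card + W) * L ^ c ≤ L ^ B * (4 * ((H : ℝ) ^ (1 / 2 : ℝ) * N)) * L ^ c := by gcongr
        _ = (4 * L ^ (c + B)) * ((H : ℝ) ^ (1 / 2 : ℝ) * N) := by rw [pow_add]; ring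
        _ ≤ N * ((H : ℝ) ^ (1 / 2 : ℝ) * N) := by
            gcongr
            linarith [p0 (c + B)]
        _ = (H : ℝ) ^ (1 / 2 : ℝ) * N * N := by ring
        _ ≤ 1 * H := by linarith
    calc β = s * ((d : ℝ) + 1) * ((W * M * (1 + N) ^ T.card + W) / H) := by rw [hβ]; ring
      _ ≤ L * (1 / L ^ c) := by gcongr
      _ = 1 / L ^ (c - 1) := by
          have : c = c - 1 + 1 := by omega
          conv_lhs => rw [this, pow_succ]
          field_simp
  obtain ⟨Γ, hΓ⟩ : ∃ Γ : ℝ, Γ = L ^ s * L ^ B := ⟨_, rfl⟩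
  have hΓ0 : 0 ≤ Γ := by rw [hΓ]; positivity
  have htot : s * (Γ * (1 / L ^ c + 2 * L * β)) ≤ 1 / L ^ A := by
    have e1 : 1 / L ^ c ≤ 1 / L ^ (c - 2) := by
      apply div_le_div_of_nonneg_left (by norm_num) (p0 _) (pw (by omega))
    have e2 : 2 * L * β ≤ 2 / L ^ (c - 2) := by
      calc 2 * L * β ≤ 2 * L * (1 / L ^ (c - 1)) := by gcongr
        _ = 2 / L ^ (c - 2) := by
            have : c - 1 = c - 2 + 1 := by omega
            rw [this, pow_succ]
            field_simp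
    calc s * (Γ * (1 / L ^ c + 2 * L * β)) ≤ L * (Γ * (1 / L ^ (c - 2) + 2 / L ^ (c - 2))) := by
          gcongr
      _ = 3 * (L * Γ) / L ^ (c - 2) := by ring
      _ = 3 * L ^ (s + B + 1) / L ^ (c - 2) := by
          rw [hΓ]
          congr 2
          rw [← pow_add, ← pow_succ']
      _ ≤ L * L ^ (s + B + 1) / L ^ (c - 2) := by
          gcongr
          linarith
      _ = L ^ (s + B + 2) / L ^ (s + B + 6 + A) := by
          rw [← pow_succ']
          congr 2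
          omega
      _ ≤ 1 / L ^ A := by
          rw [div_le_div_iff₀ (p0 _) (p0 _), one_mul, ← pow_add]
          exact pw (by omega)
  have htele := tele (fam H W g) (fun i a => yw z 0 (val v a i n)) (fun i a => yw z R (val v a i n))
    (Γ * (1 / L ^ c + 2 * L * β) * (fam H W g).card) G (by
    intro S i hi
    set G' : (Fin s → Fin (d + 1) → ℤ) → ℝ := fun a => (∏ j ∈ S, yw z 0 (val v a j n)) *
      (∏ j ∈ univ \ insert i S, yw z R (val v a j n)) * G a with hG'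
    have hinv : ∀ a, ∀ t : ℕ, G' (a + shv T i ((W : ℤ) * t)) = G' a := by
      intro a t
      rw [hG']
      simp only
      rw [hG a i t]
      congr 2
      · apply prod_congr rfl
        intro j hj
        rw [val_other v a T hT i _ j (by rintro rfl; exact hi hj)]
      · apply prod_congr rfl
        intro j hj
        rw [val_other v a T hT i _ j (by
          rintro rfl
          rw [mem_sdiff] at hj
          exact hj.2 (mem_insert_self _ _))]
    have hbd : ∀ a ∈ fam H W g, |G' a| ≤ Γ := by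
      intro a ha
      rw [hG']
      simp only
      rw [abs_mul, abs_mul, hΓ, abs_prod, abs_prod]
      have e1 : ∏ j ∈ S, |yw z 0 (val v a j n)| ≤ L ^ S.card := by
        rw [← prod_const]
        exact prod_le_prod (fun _ _ => abs_nonneg _) fun j _ => hywL _ _
      have e2 : ∏ j ∈ univ \ insert i S, |yw z R (val v a j n)| ≤ L ^ (univ \ insert i S).card := by
        rw [← prod_const]
        exact prod_le_prod (fun _ _ => abs_nonneg _) fun j _ => hywL _ _
      have e3 : S.card + (univ \ insert i S).card ≤ s := by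
        have h6 := card_sdiff_add_card_eq_card (subset_univ (insert i S))
        rw [card_insert_of_notMem hi, card_univ, Fintype.card_fin] at h6
        omega
      calc _ ≤ L ^ S.card * L ^ (univ \ insert i S).card * L ^ B := by
            gcongr
            exact hGB a ha
        _ = L ^ (S.card + (univ \ insert i S).card) * L ^ B := by rw [pow_add]
        _ ≤ L ^ s * L ^ B := by gcongr
    have c2 := sg_core H W g hW1 hWH v T hT N (by linarith) hTz
      i n M hM1 (yw z 0) (yw z R) L Γ (1 / L ^ c) G' hinv hbd (by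
        intro a ha t ht
        apply hywL) (by
        intro a ha
        have h6 := h2 H (by omega) z hz (val v a i n) R M hMge
        refine h6.trans (le_of_eq ?_)
        rw [← hL]
        ring)
    rw [← hβ] at c2
    have e1 : ∑ a ∈ fam H W g, yw z 0 (val v a i n) * ((∏ j ∈ S, yw z 0 (val v a j n)) *
        (∏ j ∈ univ \ insert i S, yw z R (val v a j n)) * G a) - ∑ a ∈ fam H W g, yw z R (val v a i n) *
        ((∏ j ∈ S, yw z 0 (val v a j n)) * (∏ j ∈ univ \ insert i S, yw z R (val v a j n)) * G a) =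
        ∑ a ∈ fam H W g, yw z 0 (val v a i n) * G' a - ∑ a ∈ fam H W g, yw z R (val v a i n) * G' a := by
      rw [hG']
    rw [e1]
    exact c2)
  have e0 : ∑ a ∈ fam H W g, (Yn z v a n - ∏ i, yw z R (val v a i n)) * G a =
      ∑ a ∈ fam H W g, (∏ j, yw z 0 (val v a j n) - ∏ j, yw z R (val v a j n)) * G a := rfl
  rw [e0]
  refine htele.trans ?_
  calc (s : ℝ) * (Γ * (1 / L ^ c + 2 * L * β) * (fam H W g).card)
      = (s * (Γ * (1 / L ^ c + 2 * L * β))) * (fam H W g).card := by ring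
    _ ≤ 1 / L ^ A * (fam H W g).card := by gcongr
    _ = (fam H W g).card / L ^ A := by ring

end Pool.Agent.H77.BV
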