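import Mathlib
import Pool.Agent.H77.BV.Sg3

/-! The two point function of the sieve weights, and quadratic forms. -/

set_option autoImplicit false

namespace Pool.Agent.H77.BV

open Finset Polynomial
open Pool.Agent.K1H89.PL
open Pool.Agent.K1H89.Ev (evN ev_pow)

/-- `n - m` divides `v n - v m` -/
def Pol {s : ℕ} (v : Fin s → ℕ → ℤ) : Prop := ∀ i, ∀ n m : ℕ, ((n : ℤ) - m) ∣ v i n - v i m

lemma val_diff {s d : ℕ} {v : Fin s → ℕ → ℤ} (hv : Pol v) (a : Fin s → Fin (d + 1) → ℤ) (i : Fin s) (n m : ℕ) :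
    ((n : ℤ) - m) ∣ val v a i n - val v a i m := by
  unfold val pv
  have e : v i n + ∑ j, a i j * (n : ℤ) ^ (j : ℕ) - (v i m + ∑ j, a i j * (m : ℤ) ^ (j : ℕ)) =
      (v i n - v i m) + ∑ j : Fin (d + 1), a i j * ((n : ℤ) ^ (j : ℕ) - (m : ℤ) ^ (j : ℕ)) := by
    simp only [mul_sub, sum_sub_distrib]
    ring
  rw [e]
  apply dvd_add (hv i n m)
  apply dvd_sum
  intro j _
  exact (sub_dvd_pow_sub_pow _ _ _).mul_left _

/-- the expectation of `Yn` in a class modulo `W` -/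
noncomputable def yg {s d : ℕ} (z W : ℕ) (v : Fin s → ℕ → ℤ) (g : Fin s → Fin (d + 1) → ℤ) (n : ℕ) : ℝ :=
  ∏ i, yw z W (val v g i n)

/-- the primes up to `z` not dividing `W` -/
def Qp (z W : ℕ) : Finset ℕ := (prN z).filter (fun p => ¬ p ∣ W)

/-- the correlation -/
noncomputable def hh (z W : ℕ) (k : ℤ) : ℝ := ∏ p ∈ (Qp z W).filter (fun p : ℕ => (p : ℤ) ∣ k), (1 - 1 / (p : ℝ))⁻¹

lemma hz_mul (z W : ℕ) (k : ℤ) : hz z (W * k) = hz z W * hh z W k := by
  classical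
  unfold Pool.Agent.H77.BV.hz hh Qp
  rw [filter_filter, ← prod_union]
  · apply prod_congr _ fun _ _ => rfl
    ext p
    simp only [mem_filter, mem_union]
    constructor
    · rintro ⟨h1, h2⟩
      have hp : Prime (p : ℤ) := Nat.prime_iff_prime_int.1 (mem_prN.1 h1).2
      by_cases h3 : (p : ℤ) ∣ W
      · left; exact ⟨h1, h3⟩
      · right
        refine ⟨h1, fun h => h3 (Int.natCast_dvd_natCast.2 h), ?_⟩
        exact (hp.dvd_or_dvd h2).resolve_left h3
    · rintro (⟨h1, h2⟩ | ⟨h1, _, h2⟩)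
      · exact ⟨h1, h2.mul_right _⟩
      · exact ⟨h1, h2.mul_left _⟩
  · apply disjoint_filter.2
    intro p _ h1 h2
    exact h2.1 (Int.natCast_dvd_natCast.1 h1)

lemma hh_ge_one (z W : ℕ) (k : ℤ) : 1 ≤ hh z W k := by
  unfold hh Qp
  apply one_le_pr
  intro p hp
  exact one_le_inv (mem_prN.1 (mem_filter.1 (mem_filter.1 hp).1).1).2

lemma hh_le (z W : ℕ) (k : ℤ) : hh z W k ≤ MP z := by
  have h1 := hz_mul z W k
  have h2 := hz_ge_one z W
  have h3 := hh_ge_one z W k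
  have h4 := hz_le z (W * k)
  nlinarith

lemma hh_zero (z W : ℕ) : hz z W * hh z W 0 = MP z := by
  rw [← hz_mul, mul_zero, hz_zero]

lemma val_congr {s d : ℕ} {H W : ℕ} {g a : Fin s → Fin (d + 1) → ℤ} (ha : a ∈ fam H W g) (v : Fin s → ℕ → ℤ)
    (i : Fin s) (n : ℕ) : val v a i n ≡ val v g i n [ZMOD W] := by
  unfold fam at ha
  rw [Fintype.mem_piFinset] at ha
  exact pv_congr (ha i) (v i) n

lemma yw_congr (z W : ℕ) {x y : ℤ} (h : x ≡ y [ZMOD W]) : yw z W x = yw z W y := by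
  obtain ⟨c, hc⟩ := h.dvd
  have : y = x + c * W := by linarith
  rw [this, yw_add]

lemma yg_eq {s d : ℕ} {H W : ℕ} {g a : Fin s → Fin (d + 1) → ℤ} (ha : a ∈ fam H W g) (z : ℕ) (v : Fin s → ℕ → ℤ) (n : ℕ) :
    ∏ i, yw z W (val v a i n) = yg z W v g n := by
  unfold yg
  apply prod_congr rfl
  intro i _
  exact yw_congr z W (val_congr ha v i n)

lemma yg_nonneg {s d : ℕ} (z W : ℕ) (v : Fin s → ℕ → ℤ) (g : Fin s → Fin (d + 1) → ℤ) (n : ℕ) : 0 ≤ yg z W v g n :=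
  prod_nonneg fun _ _ => yw_nonneg _ _ _

lemma yw_sq (z : ℕ) (R x : ℤ) : yw z R x ^ 2 = hz z R * yw z R x := by
  unfold yw
  split_ifs <;> ring

lemma yg_sq {s d : ℕ} (z W : ℕ) (v : Fin s → ℕ → ℤ) (g : Fin s → Fin (d + 1) → ℤ) (n : ℕ) :
    yg z W v g n ^ 2 = hz z W ^ s * yg z W v g n := by
  unfold yg
  rw [← prod_pow]
  simp only [yw_sq]
  rw [prod_mul_distrib, prod_const, card_univ, Fintype.card_fin]

lemma Yn_nonneg {s d : ℕ} (z : ℕ) (v : Fin s → ℕ → ℤ) (a : Fin s → Fin (d + 1) → ℤ) (n : ℕ) : 0 ≤ Yn z v a n :=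
  prod_nonneg fun _ _ => yw_nonneg _ _ _

lemma Yn_le {s d : ℕ} (z : ℕ) (v : Fin s → ℕ → ℤ) (a : Fin s → Fin (d + 1) → ℤ) (n : ℕ) : Yn z v a n ≤ MP z ^ s := by
  unfold Yn
  calc ∏ i, yw z 0 (val v a i n) ≤ ∏ _i : Fin s, MP z := prod_le_prod (fun _ _ => yw_nonneg _ _ _) fun i _ => yw_le _ _ _
    _ = MP z ^ s := by rw [prod_const, card_univ, Fintype.card_fin]

lemma Yn_sq {s d : ℕ} (z : ℕ) (v : Fin s → ℕ → ℤ) (a : Fin s → Fin (d + 1) → ℤ) (n : ℕ) :
    Yn z v a n ^ 2 = MP z ^ s * Yn z v a n := by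
  unfold Yn
  rw [← prod_pow]
  simp only [yw_sq, hz_zero]
  rw [prod_mul_distrib, prod_const, card_univ, Fintype.card_fin]

lemma yg_le {s d : ℕ} (z W : ℕ) (v : Fin s → ℕ → ℤ) (g : Fin s → Fin (d + 1) → ℤ) (n : ℕ) : yg z W v g n ≤ MP z ^ s := by
  unfold yg
  calc ∏ i, yw z W (val v g i n) ≤ ∏ _i : Fin s, MP z := prod_le_prod (fun _ _ => yw_nonneg _ _ _) fun i _ => yw_le _ _ _
    _ = MP z ^ s := by rw [prod_const, card_univ, Fintype.card_fin]

lemma pair_id {s d : ℕ} {H W : ℕ} {g a : Fin s → Fin (d + 1) → ℤ} (ha : a ∈ fam H W g) (z : ℕ) {v : Fin s → ℕ → ℤ}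
    (hv : Pol v) (n m : ℕ) :
    (∏ i, yw z (W * ((n : ℤ) - m)) (val v a i n)) * Yn z v a m = hh z W ((n : ℤ) - m) ^ s * yg z W v g n * Yn z v a m := by
  classical
  rw [← yg_eq ha]
  unfold Yn
  have e : hh z W ((n : ℤ) - m) ^ s = ∏ _i : Fin s, hh z W ((n : ℤ) - m) := by
    rw [prod_const, card_univ, Fintype.card_fin]
  rw [e, ← prod_mul_distrib, ← prod_mul_distrib, ← prod_mul_distrib]
  apply prod_congr rfl
  intro i _
  by_cases h0 : ∀ p ∈ prN z, (p : ℤ) ∣ 0 → ¬ (p : ℤ) ∣ val v a i m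
  · have h1 : ∀ p ∈ prN z, (p : ℤ) ∣ ((n : ℤ) - m) → ¬ (p : ℤ) ∣ val v a i n := by
      intro p hp hpd hpn
      apply h0 p hp (dvd_zero _)
      have h2 := hpd.trans (val_diff hv a i n m)
      have h3 := dvd_sub hpn h2
      rwa [sub_sub_cancel] at h3
    congr 1
    unfold yw
    rw [hz_mul]
    have h2 : (∀ p ∈ prN z, (p : ℤ) ∣ (W : ℤ) * ((n : ℤ) - m) → ¬ (p : ℤ) ∣ val v a i n) ↔
        (∀ p ∈ prN z, (p : ℤ) ∣ (W : ℤ) → ¬ (p : ℤ) ∣ val v a i n) := by
      constructor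
      · intro h p hp hpW
        exact h p hp (hpW.mul_right _)
      · intro h p hp hpW
        have hpp : Prime (p : ℤ) := Nat.prime_iff_prime_int.1 (mem_prN.1 hp).2
        rcases hpp.dvd_or_dvd hpW with h3 | h3
        · exact h p hp h3
        · exact h1 p hp h3
    by_cases h3 : ∀ p ∈ prN z, (p : ℤ) ∣ (W : ℤ) → ¬ (p : ℤ) ∣ val v a i n
    · rw [if_pos h3, if_pos (h2.2 h3)]
      ring
    · rw [if_neg h3, if_neg (fun h => h3 (h2.1 h))]
      ring
  · have h1 : yw z 0 (val v a i m) = 0 := by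
      unfold yw
      rw [if_neg h0]
    rw [h1, mul_zero, mul_zero]

/-- the one point function -/
theorem one_pt (s d A B : ℕ) : ∃ H0 : ℕ, ∀ H : ℕ, H0 ≤ H → ∀ z W : ℕ, (z : ℝ) ≤ Real.log H ^ B → 1 ≤ W →
    (W : ℝ) ≤ Real.log H ^ B → ∀ v : Fin s → ℕ → ℤ, ∀ g : Fin s → Fin (d + 1) → ℤ, ∀ n : ℕ,
    |∑ a ∈ fam H W g, Yn z v a n - yg z W v g n * (fam H W g).card| ≤ (fam H W g).card / Real.log H ^ A := by
  classical
  obtain ⟨H1, h1⟩ := yshift s d A B
  obtain ⟨H4, h4⟩ := evN _ (Real.tendsto_log_atTop.eventually_ge_atTop 1)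
  refine ⟨max H1 H4, fun H hH z W hz hW1 hWB v g n => ?_⟩
  have hL := h4 H (by omega)
  have h := h1 H (by omega) z W hz hW1 hWB v g ∅ (by simp) (by simp) (by simp) n (fun _ => 1) (fun _ _ _ => rfl)
    (fun _ _ => by rw [abs_one]; exact one_le_pow₀ hL)
  refine le_trans (le_of_eq ?_) h
  congr 1
  simp only [mul_one]
  rw [sum_sub_distrib]
  congr 1
  have e : ∀ a ∈ fam H W g, ∏ i, yw z (W * (SP ∅).eval (n : ℤ)) (val v a i n) = yg z W v g n := by
    intro a ha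
    rw [← yg_eq ha, SP_eval, prod_empty, mul_one]
  rw [sum_congr rfl e, sum_const, nsmul_eq_mul]
  ring

/-- the two point function -/
theorem two_pt (s d A B : ℕ) (hd : 1 ≤ d) : ∃ H0 : ℕ, ∀ H : ℕ, H0 ≤ H → ∀ z W : ℕ, (z : ℝ) ≤ Real.log H ^ B → 1 ≤ W →
    (W : ℝ) ≤ Real.log H ^ B → ∀ v : Fin s → ℕ → ℤ, Pol v → ∀ g : Fin s → Fin (d + 1) → ℤ, ∀ n m : ℕ,
    (m : ℝ) ≤ (H : ℝ) ^ (1 / 10 : ℝ) →
    |∑ a ∈ fam H W g, Yn z v a n * Yn z v a m -
      hh z W ((n : ℤ) - m) ^ s * (yg z W v g n * yg z W v g m) * (fam H W g).card| ≤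
        (fam H W g).card / Real.log H ^ A := by
  classical
  obtain ⟨H1, h1⟩ := yshift s d (A + 1) (B + s)
  obtain ⟨H2, h2⟩ := one_pt s d (A + 1 + 2 * s) B
  obtain ⟨H3, h3⟩ := MP_small B
  obtain ⟨H4, h4⟩ := evN _ (Real.tendsto_log_atTop.eventually_ge_atTop 2)
  refine ⟨max (max H1 H2) (max H3 H4), fun H hH z W hz hW1 hWB v hv g n m hm => ?_⟩
  have hL2 := h4 H (by omega)
  have hMP := h3 H (by omega) z hz
  have hMP1 := MP_ge_one z
  set L := Real.log H with hL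
  have hL1 : 1 ≤ L := by linarith
  have hL0 : 0 < L := by linarith
  have p0 : ∀ a : ℕ, 0 < L ^ a := fun a => by positivity
  have hc0 : (0 : ℝ) ≤ (fam H W g).card := Nat.cast_nonneg _
  have hone := h2 H (by omega) z W hz hW1 hWB v g
  rw [← hL] at hone
  have hyg1 : yg z W v g n ≤ L ^ s := (yg_le z W v g n).trans (pow_le_pow_left₀ (by linarith) hMP s)
  have hyg0 := yg_nonneg z W v g n
  have hMPs : MP z ^ s ≤ L ^ s := pow_le_pow_left₀ (by linarith) hMP s
  rcases eq_or_ne n m with hnm | hnm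
  · subst hnm
    rw [sub_self]
    have e1 : ∑ a ∈ fam H W g, Yn z v a n * Yn z v a n = MP z ^ s * ∑ a ∈ fam H W g, Yn z v a n := by
      rw [mul_sum]
      apply sum_congr rfl
      intro a _
      rw [← Yn_sq, sq]
    have e2 : hh z W 0 ^ s * (yg z W v g n * yg z W v g n) = MP z ^ s * yg z W v g n := by
      rw [← sq (yg z W v g n), yg_sq, ← hh_zero z W, mul_pow]
      ring
    rw [e1, e2, mul_assoc, ← mul_sub, abs_mul, abs_of_nonneg (by positivity : 0 ≤ MP z ^ s)]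
    calc MP z ^ s * |∑ a ∈ fam H W g, Yn z v a n - yg z W v g n * (fam H W g).card|
        ≤ L ^ s * ((fam H W g).card / L ^ (A + 1 + 2 * s)) := mul_le_mul hMPs (hone n) (abs_nonneg _) (by positivity)
      _ ≤ L ^ s * ((fam H W g).card / L ^ (A + s)) := by
          apply mul_le_mul_of_nonneg_left _ (p0 s).le
          exact div_le_div_of_nonneg_left hc0 (p0 _) (pow_le_pow_right₀ hL1 (by omega))
      _ = (fam H W g).card / L ^ A := by
          rw [pow_add]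
          field_simp
  · have h := h1 H (by omega) z W (hz.trans (pow_le_pow_right₀ hL1 (by omega))) hW1
      (hWB.trans (pow_le_pow_right₀ hL1 (by omega))) v g {m} (by simpa using hd) (by simp) (by
        intro b hb
        rw [mem_singleton] at hb
        rw [hb]
        exact hm) n (fun a => Yn z v a m) (by
        intro a i t
        unfold Yn
        apply prod_congr rfl
        intro j _
        rw [val_shv_mem v a {m} (by simpa using hd) i _ j m (mem_singleton_self m)]) (by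
        intro a _
        rw [abs_of_nonneg (Yn_nonneg z v a m)]
        calc Yn z v a m ≤ MP z ^ s := Yn_le z v a m
          _ ≤ L ^ s := hMPs
          _ ≤ L ^ (B + s) := pow_le_pow_right₀ hL1 (by omega))
    rw [← hL] at h
    have e1 : ∑ a ∈ fam H W g, (Yn z v a n - ∏ i, yw z (W * (SP {m}).eval (n : ℤ)) (val v a i n)) * Yn z v a m =
        ∑ a ∈ fam H W g, Yn z v a n * Yn z v a m -
          hh z W ((n : ℤ) - m) ^ s * yg z W v g n * ∑ a ∈ fam H W g, Yn z v a m := by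
      rw [mul_sum, ← sum_sub_distrib]
      apply sum_congr rfl
      intro a ha
      rw [SP_eval, prod_singleton, sub_mul, pair_id ha z hv n m]
    rw [e1] at h
    have h5 := hone m
    have hhh : hh z W ((n : ℤ) - m) ^ s ≤ L ^ s := pow_le_pow_left₀ (zero_le_one.trans (hh_ge_one _ _ _)) ((hh_le _ _ _).trans hMP) s
    have hhh0 : 0 ≤ hh z W ((n : ℤ) - m) ^ s := pow_nonneg (zero_le_one.trans (hh_ge_one _ _ _)) _
    have e2 : |hh z W ((n : ℤ) - m) ^ s * yg z W v g n * (∑ a ∈ fam H W g, Yn z v a m - yg z W v g m * (fam H W g).card)| ≤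
        (fam H W g).card / L ^ (A + 1) := by
      rw [abs_mul, abs_of_nonneg (mul_nonneg hhh0 hyg0)]
      calc hh z W ((n : ℤ) - m) ^ s * yg z W v g n * |∑ a ∈ fam H W g, Yn z v a m - yg z W v g m * (fam H W g).card|
          ≤ L ^ s * L ^ s * ((fam H W g).card / L ^ (A + 1 + 2 * s)) := by gcongr
        _ = (fam H W g).card / L ^ (A + 1) := by
            rw [pow_add L (A + 1) (2 * s), two_mul, pow_add L s s]
            field_simp
    have e3 : ∑ a ∈ fam H W g, Yn z v a n * Yn z v a m -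
        hh z W ((n : ℤ) - m) ^ s * (yg z W v g n * yg z W v g m) * (fam H W g).card =
        (∑ a ∈ fam H W g, Yn z v a n * Yn z v a m -
          hh z W ((n : ℤ) - m) ^ s * yg z W v g n * ∑ a ∈ fam H W g, Yn z v a m) +
        hh z W ((n : ℤ) - m) ^ s * yg z W v g n * (∑ a ∈ fam H W g, Yn z v a m - yg z W v g m * (fam H W g).card) := by
      ring
    rw [e3]
    refine (abs_add_le _ _).trans ((add_le_add h e2).trans ?_)
    have e4 : (fam H W g).card / L ^ (A + 1) = (fam H W g).card / L ^ A / L := by rw [pow_succ, div_div]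
    rw [e4]
    have e5 : (fam H W g).card / L ^ A / L ≤ (fam H W g).card / L ^ A / 2 := by
      gcongr
    linarith

end Pool.Agent.H77.BV
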