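import Mathlib
import Pool.Agent.H77.BV.Pr

/-! Quadratic forms in the sieve weights. -/

set_option autoImplicit false

namespace Pool.Agent.H77.BV

open Finset Polynomial
open Pool.Agent.K1H89.PL
open Pool.Agent.K1H89.Ev (evN ev_pow)

/-- `(1 - 1/p)^(-s) - 1` -/
noncomputable def lam (s p : ℕ) : ℝ := ((1 - 1 / (p : ℝ))⁻¹) ^ s - 1

lemma lam_nonneg (s : ℕ) {p : ℕ} (hp : p.Prime) : 0 ≤ lam s p := by
  unfold lam
  have := one_le_pow₀ (one_le_inv hp) (n := s)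
  linarith

/-- the product of `lam` -/
noncomputable def lamS (s : ℕ) (S : Finset ℕ) : ℝ := ∏ p ∈ S, lam s p

lemma Qp_prime {z W p : ℕ} (hp : p ∈ Qp z W) : p.Prime := (mem_prN.1 (mem_filter.1 hp).1).2

lemma lamS_nonneg (s : ℕ) {z W : ℕ} {S : Finset ℕ} (hS : S ∈ (Qp z W).powerset) : 0 ≤ lamS s S :=
  prod_nonneg fun _ hp => lam_nonneg s (Qp_prime (mem_powerset.1 hS hp))

lemma prod_dvd_iff {z W : ℕ} {S : Finset ℕ} (hS : S ⊆ Qp z W) (k : ℤ) :
    ((∏ p ∈ S, p : ℕ) : ℤ) ∣ k ↔ ∀ p ∈ S, (p : ℤ) ∣ k := by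
  constructor
  · intro h p hp
    refine dvd_trans ?_ h
    exact Int.natCast_dvd_natCast.2 (dvd_prod_of_mem _ hp)
  · intro h
    push_cast
    apply Finset.prod_dvd_of_coprime
    · intro p hp q hq hpq
      have h1 := Qp_prime (hS hp)
      have h2 := Qp_prime (hS hq)
      exact Nat.isCoprime_iff_coprime.2 ((Nat.coprime_primes h1 h2).2 hpq)
    · exact h

lemma hh_expand (s z W : ℕ) (k : ℤ) :
    hh z W k ^ s = ∑ S ∈ (Qp z W).powerset, lamS s S * (if ((∏ p ∈ S, p : ℕ) : ℤ) ∣ k then 1 else 0) := by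
  classical
  unfold hh
  rw [← prod_pow, prod_filter]
  have e1 : ∏ p ∈ Qp z W, (if (p : ℤ) ∣ k then ((1 - 1 / (p : ℝ))⁻¹) ^ s else 1) =
      ∏ p ∈ Qp z W, (1 + lam s p * (if (p : ℤ) ∣ k then 1 else 0)) := by
    apply prod_congr rfl
    intro p _
    unfold lam
    split_ifs
    · ring
    · ring
  rw [e1, prod_one_add]
  apply sum_congr rfl
  intro S hS
  rw [mem_powerset] at hS
  unfold lamS
  rw [prod_mul_distrib]
  congr 1
  by_cases h : ((∏ p ∈ S, p : ℕ) : ℤ) ∣ k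
  · rw [if_pos h]
    apply prod_eq_one
    intro p hp
    rw [if_pos ((prod_dvd_iff hS k).1 h p hp)]
  · rw [if_neg h]
    have h2 : ¬ ∀ p ∈ S, (p : ℤ) ∣ k := fun h3 => h ((prod_dvd_iff hS k).2 h3)
    push Not at h2
    obtain ⟨p, hp, hpk⟩ := h2
    apply prod_eq_zero hp
    rw [if_neg hpk]

lemma lam_sum (s z W : ℕ) : ∑ S ∈ (Qp z W).powerset, lamS s S = hh z W 0 ^ s := by
  rw [hh_expand]
  apply sum_congr rfl
  intro S _
  rw [if_pos (dvd_zero _), mul_one]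

lemma res_sq (J : Finset ℕ) (w : ℕ → ℝ) (q : ℕ) (hq : 1 ≤ q) :
    ∑ n ∈ J, ∑ m ∈ J, w n * w m * (if (q : ℤ) ∣ (n : ℤ) - m then 1 else 0) =
      ∑ r ∈ range q, (∑ n ∈ J.filter (fun n => n % q = r), w n) ^ 2 := by
  classical
  have e1 : ∀ n m : ℕ, (if (q : ℤ) ∣ (n : ℤ) - m then (1 : ℝ) else 0) =
      ∑ r ∈ range q, (if n % q = r then 1 else 0) * (if m % q = r then 1 else 0) := by
    intro n m
    have h1 : (q : ℤ) ∣ (n : ℤ) - m ↔ n % q = m % q := by
      rw [← Nat.modEq_iff_dvd (a := m) (b := n)]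
      exact ⟨fun h => h.symm, fun h => h.symm⟩
    have hlt : n % q < q := Nat.mod_lt _ hq
    by_cases h : n % q = m % q
    · rw [if_pos (h1.2 h), sum_eq_single (n % q)]
      · rw [if_pos rfl, if_pos h.symm, mul_one]
      · intro r _ hr
        rw [if_neg (fun h' => hr h'.symm), zero_mul]
      · intro h'
        exact absurd (mem_range.2 hlt) h'
    · rw [if_neg (fun h' => h (h1.1 h'))]
      symm
      apply sum_eq_zero
      intro r _
      by_cases h2 : n % q = r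
      · rw [if_neg (fun h3 : m % q = r => h (h2.trans h3.symm)), mul_zero]
      · rw [if_neg h2, zero_mul]
  simp only [e1]
  have e2 : ∀ r, (∑ n ∈ J.filter (fun n => n % q = r), w n) ^ 2 =
      ∑ n ∈ J, ∑ m ∈ J, w n * w m * ((if n % q = r then 1 else 0) * (if m % q = r then 1 else 0)) := by
    intro r
    rw [sum_filter, sq, sum_mul_sum]
    apply sum_congr rfl
    intro n _
    apply sum_congr rfl
    intro m _
    split_ifs <;> ring
  simp only [e2, mul_sum]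
  rw [sum_comm' (s := range q) (t := fun _ => J) (t' := J) (s' := fun _ => range q) (by simp)]
  apply sum_congr rfl
  intro n _
  rw [sum_comm]

/-- the quadratic form -/
noncomputable def QF (s z W : ℕ) (J : Finset ℕ) (w : ℕ → ℝ) : ℝ :=
  ∑ S ∈ (Qp z W).powerset, lamS s S * ∑ r ∈ range (∏ p ∈ S, p), (∑ n ∈ J.filter (fun n => n % (∏ p ∈ S, p) = r), w n) ^ 2

lemma QF_eq (s z W : ℕ) (J : Finset ℕ) (w : ℕ → ℝ) :
    ∑ n ∈ J, ∑ m ∈ J, w n * w m * hh z W ((n : ℤ) - m) ^ s = QF s z W J w := by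
  classical
  unfold QF
  simp only [hh_expand]
  have e1 : ∀ S ∈ (Qp z W).powerset, lamS s S * ∑ r ∈ range (∏ p ∈ S, p), (∑ n ∈ J.filter (fun n => n % (∏ p ∈ S, p) = r), w n) ^ 2 =
      ∑ n ∈ J, ∑ m ∈ J, w n * w m * (lamS s S * (if ((∏ p ∈ S, p : ℕ) : ℤ) ∣ (n : ℤ) - m then 1 else 0)) := by
    intro S hS
    rw [← res_sq J w (∏ p ∈ S, p) (prod_pos fun p hp => (Qp_prime (mem_powerset.1 hS hp)).pos), mul_sum]
    apply sum_congr rfl
    intro n _
    rw [mul_sum]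
    apply sum_congr rfl
    intro m _
    ring
  rw [sum_congr rfl e1]
  symm
  rw [sum_comm]
  apply sum_congr rfl
  intro n _
  rw [sum_comm]
  apply sum_congr rfl
  intro m _
  rw [mul_sum]

/-- the second moment of a linear form in the sieve weights -/
theorem quad (s d A B : ℕ) (hd : 1 ≤ d) : ∃ H0 : ℕ, ∀ H : ℕ, H0 ≤ H → ∀ z W : ℕ, (z : ℝ) ≤ Real.log H ^ B → 1 ≤ W →
    (W : ℝ) ≤ Real.log H ^ B → ∀ v : Fin s → ℕ → ℤ, Pol v → ∀ g : Fin s → Fin (d + 1) → ℤ, ∀ J : Finset ℕ,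
    (∀ m ∈ J, (m : ℝ) ≤ (H : ℝ) ^ (1 / 10 : ℝ)) → ∀ c : ℕ → ℝ,
    |∑ a ∈ fam H W g, (∑ n ∈ J, c n * Yn z v a n) ^ 2 - QF s z W J (fun n => c n * yg z W v g n) * (fam H W g).card| ≤
        (∑ n ∈ J, |c n|) ^ 2 * ((fam H W g).card / Real.log H ^ A) := by
  classical
  obtain ⟨H1, h1⟩ := two_pt s d A B hd
  refine ⟨H1, fun H hH z W hz hW1 hWB v hv g J hJ c => ?_⟩
  rw [← QF_eq]
  have e1 : ∑ a ∈ fam H W g, (∑ n ∈ J, c n * Yn z v a n) ^ 2 - (∑ n ∈ J, ∑ m ∈ J, (c n * yg z W v g n) * (c m * yg z W v g m) *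
      hh z W ((n : ℤ) - m) ^ s) * (fam H W g).card =
      ∑ n ∈ J, ∑ m ∈ J, c n * c m * (∑ a ∈ fam H W g, Yn z v a n * Yn z v a m -
        hh z W ((n : ℤ) - m) ^ s * (yg z W v g n * yg z W v g m) * (fam H W g).card) := by
    have e2 : ∑ a ∈ fam H W g, (∑ n ∈ J, c n * Yn z v a n) ^ 2 =
        ∑ n ∈ J, ∑ m ∈ J, c n * c m * ∑ a ∈ fam H W g, Yn z v a n * Yn z v a m := by
      have : ∀ a : Fin s → Fin (d + 1) → ℤ, (∑ n ∈ J, c n * Yn z v a n) ^ 2 = ∑ n ∈ J, ∑ m ∈ J, c n * c m * (Yn z v a n * Yn z v a m) := by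
        intro a
        rw [sq, sum_mul_sum]
        apply sum_congr rfl
        intro n _
        apply sum_congr rfl
        intro m _
        ring
      simp only [this]
      rw [sum_comm]
      apply sum_congr rfl
      intro n _
      rw [sum_comm]
      apply sum_congr rfl
      intro m _
      rw [mul_sum]
    rw [e2, sum_mul, ← sum_sub_distrib]
    apply sum_congr rfl
    intro n _
    rw [sum_mul, ← sum_sub_distrib]
    apply sum_congr rfl
    intro m _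
    ring
  rw [e1]
  calc _ ≤ ∑ n ∈ J, ∑ m ∈ J, |c n| * |c m| * ((fam H W g).card / Real.log H ^ A) := by
        refine (abs_sum_le_sum_abs _ _).trans (sum_le_sum fun n _ => (abs_sum_le_sum_abs _ _).trans (sum_le_sum fun m hm => ?_))
        rw [abs_mul, abs_mul]
        exact mul_le_mul_of_nonneg_left (h1 H (by omega) z W hz hW1 hWB v hv g n m (hJ m hm)) (by positivity)
    _ = (∑ n ∈ J, |c n|) ^ 2 * ((fam H W g).card / Real.log H ^ A) := by
        rw [sq, sum_mul_sum, sum_mul]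
        apply sum_congr rfl
        intro n _
        rw [sum_mul]

/-- the simple bound -/
lemma QF_le (s z W : ℕ) (J : Finset ℕ) (w : ℕ → ℝ) (K : ℝ)
    (hK : ∀ q : ℕ, 1 ≤ q → ∀ r, |∑ n ∈ J.filter (fun n => n % q = r), w n| ≤ K) :
    QF s z W J w ≤ K * (∑ n ∈ J, |w n|) * hh z W 0 ^ s := by
  classical
  unfold QF
  rw [← lam_sum, mul_sum]
  apply sum_le_sum
  intro S hS
  rw [mul_comm]
  apply mul_le_mul_of_nonneg_right _ (lamS_nonneg s hS)
  have hq : 1 ≤ ∏ p ∈ S, p := prod_pos fun p hp => (Qp_prime (mem_powerset.1 hS hp)).pos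
  calc ∑ r ∈ range (∏ p ∈ S, p), (∑ n ∈ J.filter (fun n => n % (∏ p ∈ S, p) = r), w n) ^ 2
      ≤ ∑ r ∈ range (∏ p ∈ S, p), K * ∑ n ∈ J.filter (fun n => n % (∏ p ∈ S, p) = r), |w n| := by
        apply sum_le_sum
        intro r _
        rw [← sq_abs, sq]
        have h1 := hK _ hq r
        exact mul_le_mul h1 (abs_sum_le_sum_abs _ _) (abs_nonneg _) ((abs_nonneg _).trans h1)
    _ = K * ∑ n ∈ J, |w n| := by
        rw [← mul_sum]
        congr 1
        apply sum_fiberwise_of_maps_to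
        intro n _
        exact mem_range.2 (Nat.mod_lt _ hq)

end Pool.Agent.H77.BV
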