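import Mathlib
import Pool.Agent.H77.BV.Qf

/-! The constant of Bateman and Horn as a mean value of the sieve weights. -/

set_option autoImplicit false

namespace Pool.Agent.H77.BV

open Finset Polynomial
open Pool.Agent.K1H89.PL
open Pool.Agent.K1H89.Ev (evN ev_pow)

/-- the fixed parts of the values -/
def vh {s : ℕ} (h : Fin s → ℤ[X]) : Fin s → ℕ → ℤ := fun i n => (h i).eval (n : ℤ)

lemma pol_vh {s : ℕ} (h : Fin s → ℤ[X]) : Pol (vh h) := by
  intro i n m
  exact sub_dvd_eval_sub _ _ _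

/-- the `i`-th polynomial -/
noncomputable def fp {s d : ℕ} (h : Fin s → ℤ[X]) (a : Fin s → Fin (d + 1) → ℤ) (i : Fin s) : ℤ[X] :=
  h i + ∑ j : Fin (d + 1), C (a i j) * X ^ (j : ℕ)

lemma fp_eval {s d : ℕ} (h : Fin s → ℤ[X]) (a : Fin s → Fin (d + 1) → ℤ) (i : Fin s) (n : ℕ) :
    (fp h a i).eval (n : ℤ) = val (vh h) a i n := by
  unfold fp val vh pv
  rw [eval_add, eval_finsetSum]
  congr 1
  apply sum_congr rfl
  intro j _
  simp

lemma fp_deg {s d : ℕ} (h : Fin s → ℤ[X]) (a : Fin s → Fin (d + 1) → ℤ) (i : Fin s) (D : ℕ) (hD : ∀ i, (h i).natDegree ≤ D)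
    (hd : d ≤ D) : (fp h a i).natDegree ≤ D := by
  unfold fp
  refine (natDegree_add_le _ _).trans (max_le (hD i) ?_)
  apply natDegree_sum_le_of_forall_le
  intro j _
  refine (natDegree_C_mul_X_pow_le _ _).trans ?_
  have := j.2
  omega

/-- the product of the values -/
def Fa {s d : ℕ} (v : Fin s → ℕ → ℤ) (a : Fin s → Fin (d + 1) → ℤ) (n : ℕ) : ℤ := ∏ i, val v a i n

lemma roots_le (f : ℤ[X]) (p : ℕ) (hp : p.Prime) :
    (∀ n : ℕ, (p : ℤ) ∣ f.eval (n : ℤ)) ∨ ((range p).filter (fun t : ℕ => (p : ℤ) ∣ f.eval (t : ℤ))).card ≤ f.natDegree := by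
  classical
  have := Fact.mk hp
  have key : ∀ n : ℕ, (p : ℤ) ∣ f.eval (n : ℤ) ↔ (f.map (Int.castRingHom (ZMod p))).eval (n : ZMod p) = 0 := by
    intro n
    rw [← ZMod.intCast_zmod_eq_zero_iff_dvd]
    have := eval_intCast_map (Int.castRingHom (ZMod p)) f (n : ℤ)
    simp only [Int.cast_natCast, eq_intCast] at this
    rw [this]
  by_cases h0 : f.map (Int.castRingHom (ZMod p)) = 0
  · left
    intro n
    rw [key, h0, eval_zero]
  · right
    calc ((range p).filter (fun t : ℕ => (p : ℤ) ∣ f.eval (t : ℤ))).card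
        ≤ (f.map (Int.castRingHom (ZMod p))).roots.toFinset.card := by
          apply card_le_card_of_injOn (fun t : ℕ => (t : ZMod p))
          · intro t ht
            rw [mem_coe, mem_filter] at ht
            rw [mem_coe, Multiset.mem_toFinset, mem_roots h0]
            exact (key t).1 ht.2
          · intro t ht t' ht' h
            rw [mem_coe, mem_filter, mem_range] at ht ht'
            have h1 := congrArg ZMod.val h
            simp only at h1
            rwa [ZMod.val_cast_of_lt ht.1, ZMod.val_cast_of_lt ht'.1] at h1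
      _ ≤ Multiset.card (f.map (Int.castRingHom (ZMod p))).roots := Multiset.toFinset_card_le _
      _ ≤ (f.map (Int.castRingHom (ZMod p))).natDegree := card_roots' _
      _ ≤ f.natDegree := natDegree_map_le

lemma Fa_per {s d : ℕ} {v : Fin s → ℕ → ℤ} (hv : Pol v) (a : Fin s → Fin (d + 1) → ℤ) : Per (Fa v a) := by
  intro p hp x
  have hpI : Prime (p : ℤ) := Nat.prime_iff_prime_int.1 hp
  unfold Fa
  rw [hpI.dvd_finsetProd_iff, hpI.dvd_finsetProd_iff]
  apply exists_congr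
  intro i
  apply and_congr_right
  intro _
  have h1 := val_diff hv a i (x + p) x
  have h2 : (p : ℤ) ∣ val v a i (x + p) - val v a i x := by
    refine dvd_trans ?_ h1
    push_cast
    rw [add_sub_cancel_left]
  constructor
  · intro h
    have := dvd_sub h h2
    rwa [sub_sub_cancel] at this
  · intro h
    have := dvd_add h h2
    rwa [add_sub_cancel] at this

lemma om_Fa {s d : ℕ} (h : Fin s → ℤ[X]) (a : Fin s → Fin (d + 1) → ℤ) (D : ℕ) (hD : ∀ i, (h i).natDegree ≤ D)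
    (hd : d ≤ D) (p : ℕ) (hp : p.Prime) : om (Fa (vh h) a) p = p ∨ om (Fa (vh h) a) p ≤ s * D := by
  classical
  have hpI : Prime (p : ℤ) := Nat.prime_iff_prime_int.1 hp
  by_cases hex : ∃ i, ∀ n : ℕ, (p : ℤ) ∣ (fp h a i).eval (n : ℤ)
  · left
    obtain ⟨i, hi⟩ := hex
    unfold om
    rw [filter_true_of_mem, card_range]
    intro t _
    unfold Fa
    rw [← mul_prod_erase univ _ (mem_univ i)]
    apply Dvd.dvd.mul_right
    rw [← fp_eval]
    exact hi t
  · right
    push Not at hex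
    unfold om
    calc ((range p).filter (fun t : ℕ => (p : ℤ) ∣ Fa (vh h) a t)).card
        ≤ (univ.biUnion fun i => (range p).filter (fun t : ℕ => (p : ℤ) ∣ (fp h a i).eval (t : ℤ))).card := by
          apply card_le_card
          intro t ht
          rw [mem_filter] at ht
          unfold Fa at ht
          rw [hpI.dvd_finsetProd_iff] at ht
          obtain ⟨h1, i, _, hi⟩ := ht
          rw [mem_biUnion]
          refine ⟨i, mem_univ _, ?_⟩
          rw [mem_filter, fp_eval]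
          exact ⟨h1, hi⟩
      _ ≤ ∑ i, ((range p).filter (fun t : ℕ => (p : ℤ) ∣ (fp h a i).eval (t : ℤ))).card := card_biUnion_le
      _ ≤ ∑ _i : Fin s, D := by
          apply sum_le_sum
          intro i _
          rcases roots_le (fp h a i) p hp with h1 | h1
          · obtain ⟨n, hn⟩ := hex i
            exact absurd (h1 n) hn
          · exact h1.trans (fp_deg h a i D hD hd)
      _ = s * D := by rw [sum_const, card_univ, Fintype.card_fin, smul_eq_mul]

/-- the constant -/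
noncomputable def Cc {s d : ℕ} (z : ℕ) (v : Fin s → ℕ → ℤ) (a : Fin s → Fin (d + 1) → ℤ) : ℝ :=
  MP z ^ s * ∏ p ∈ prN z, (1 - (om (Fa v a) p : ℝ) / p)

lemma Cc_nonneg {s d : ℕ} (z : ℕ) (v : Fin s → ℕ → ℤ) (a : Fin s → Fin (d + 1) → ℤ) : 0 ≤ Cc z v a := by
  unfold Cc
  apply mul_nonneg (pow_nonneg (zero_le_one.trans (MP_ge_one z)) _)
  apply prod_nonneg
  intro p hp
  have hp0 : (0 : ℝ) < p := by exact_mod_cast (mem_prN.1 hp).2.pos
  rw [sub_nonneg, div_le_one hp0]
  exact_mod_cast om_le _ p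

lemma Cc_le {s d : ℕ} (z : ℕ) (v : Fin s → ℕ → ℤ) (a : Fin s → Fin (d + 1) → ℤ) : Cc z v a ≤ MP z ^ s := by
  unfold Cc
  apply mul_le_of_le_one_right (pow_nonneg (zero_le_one.trans (MP_ge_one z)) _)
  apply prod_le_one
  · intro p hp
    have hp0 : (0 : ℝ) < p := by exact_mod_cast (mem_prN.1 hp).2.pos
    rw [sub_nonneg, div_le_one hp0]
    exact_mod_cast om_le _ p
  · intro p hp
    have : (0 : ℝ) ≤ (om (Fa v a) p : ℝ) / p := by positivity
    linarith

lemma Yn_eq {s d : ℕ} (z : ℕ) (v : Fin s → ℕ → ℤ) (a : Fin s → Fin (d + 1) → ℤ) (n : ℕ) :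
    Yn z v a n = if ∀ p ∈ prN z, ¬ (p : ℤ) ∣ Fa v a n then MP z ^ s else 0 := by
  classical
  unfold Yn Fa
  by_cases h : ∀ p ∈ prN z, ¬ (p : ℤ) ∣ ∏ i, val v a i n
  · rw [if_pos h]
    have : ∀ i ∈ (univ : Finset (Fin s)), yw z 0 (val v a i n) = MP z := by
      intro i _
      unfold yw
      rw [if_pos, hz_zero]
      intro p hp _ hd
      exact h p hp (hd.trans (dvd_prod_of_mem _ (mem_univ i)))
    rw [prod_congr rfl this, prod_const, card_univ, Fintype.card_fin]
  · rw [if_neg h]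
    push Not at h
    obtain ⟨p, hp, hpd⟩ := h
    have hpI : Prime (p : ℤ) := Nat.prime_iff_prime_int.1 (mem_prN.1 hp).2
    rw [hpI.dvd_finsetProd_iff] at hpd
    obtain ⟨i, _, hi⟩ := hpd
    apply prod_eq_zero (mem_univ i)
    unfold yw
    rw [if_neg]
    intro h2
    exact h2 p hp (dvd_zero _) hi

/-- the constant is close to the mean value of the sieve weights -/
theorem Cc_mean (s d D A B : ℕ) (hd : d ≤ D) : ∃ H0 : ℕ, ∀ H : ℕ, H0 ≤ H → ∀ z : ℕ, (z : ℝ) ≤ Real.log H ^ B →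
    ∀ h : Fin s → ℤ[X], (∀ i, (h i).natDegree ≤ D) → ∀ a : Fin s → Fin (d + 1) → ℤ, ∀ N : ℕ, (H : ℝ) ^ (1 / 20 : ℝ) ≤ N →
    |∑ n ∈ Ioc 0 N, Yn z (vh h) a n - N * Cc z (vh h) a| ≤ N / Real.log H ^ A := by
  classical
  obtain ⟨H1, h1⟩ := fl (s * D) (A + s) B
  obtain ⟨H3, h3⟩ := MP_small B
  obtain ⟨H4, h4⟩ := evN _ (Real.tendsto_log_atTop.eventually_ge_atTop 1)
  refine ⟨max H1 (max H3 H4), fun H hH z hz h hD a N hN => ?_⟩
  have hL1 := h4 H (by omega)
  have hMP := h3 H (by omega) z hz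
  have hMP1 := MP_ge_one z
  have h5 := h1 H (by omega) z hz (Fa (vh h) a) (Fa_per (pol_vh h) a) (fun p hp _ => om_Fa h a D hD hd p hp) 0 N hN
  rw [zero_add] at h5
  set L := Real.log H with hL
  have e1 : ∑ n ∈ Ioc 0 N, Yn z (vh h) a n =
      MP z ^ s * (((Ioc 0 N).filter (fun x => ∀ p ∈ prN z, ¬ (p : ℤ) ∣ Fa (vh h) a x)).card : ℝ) := by
    rw [card_filter]
    push_cast
    rw [mul_sum]
    apply sum_congr rfl
    intro n _
    rw [Yn_eq]
    split_ifs <;> simp
  rw [e1]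
  unfold Cc
  have e2 : MP z ^ s * (((Ioc 0 N).filter (fun x => ∀ p ∈ prN z, ¬ (p : ℤ) ∣ Fa (vh h) a x)).card : ℝ) -
      N * (MP z ^ s * ∏ p ∈ prN z, (1 - (om (Fa (vh h) a) p : ℝ) / p)) =
      MP z ^ s * ((((Ioc 0 N).filter (fun x => ∀ p ∈ prN z, ¬ (p : ℤ) ∣ Fa (vh h) a x)).card : ℝ) -
      N * ∏ p ∈ prN z, (1 - (om (Fa (vh h) a) p : ℝ) / p)) := by ring
  rw [e2, abs_mul, abs_of_nonneg (by positivity)]
  calc MP z ^ s * _ ≤ L ^ s * (N / L ^ (A + s)) := by
        apply mul_le_mul _ h5 (abs_nonneg _) (by positivity)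
        exact pow_le_pow_left₀ (by linarith) hMP s
    _ = N / L ^ A := by
        rw [pow_add]
        field_simp

end Pool.Agent.H77.BV
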