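import Mathlib

/-! Moments and the normal law, for functions on finite sets. -/

set_option autoImplicit false

namespace Pool.Agent.H77.BV

open Finset Filter Topology MeasureTheory ProbabilityTheory

/-- the moments of the normal law -/
noncomputable def mm (k : ℕ) : ℝ := if Even k then (k.factorial : ℝ) / (2 ^ (k / 2) * (k / 2).factorial) else 0

/-- the remainder of the exponential series at `i u` -/
noncomputable def rem (n : ℕ) (u : ℝ) : ℂ :=
  Complex.exp (u * Complex.I) - ∑ j ∈ range n, (u * Complex.I) ^ j / (j.factorial : ℂ)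

theorem hasDerivAt_rem (n : ℕ) (u : ℝ) :
    HasDerivAt (fun u : ℝ => rem (n + 1) u) (Complex.I * rem n u) u := by
  unfold rem
  have h1 : HasDerivAt (fun u : ℝ => (u : ℂ) * Complex.I) Complex.I u := by
    have := (Complex.ofRealCLM.hasDerivAt (x := u)).mul_const Complex.I
    simpa using this
  have h2 : HasDerivAt (fun u : ℝ => Complex.exp (u * Complex.I))
      (Complex.exp (u * Complex.I) * Complex.I) u := h1.cexp
  have h3 : HasDerivAt (fun u : ℝ => ∑ j ∈ range (n + 1), (u * Complex.I) ^ j / (j.factorial : ℂ))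
      (∑ j ∈ range (n + 1), (j * (u * Complex.I) ^ (j - 1) * Complex.I) / (j.factorial : ℂ)) u := by
    apply HasDerivAt.fun_sum
    intro j _
    exact (h1.pow j).div_const _
  refine (h2.fun_sub h3).congr_deriv ?_
  symm
  rw [Finset.sum_range_succ']
  simp only [Nat.cast_zero, zero_mul, zero_div, add_zero, Nat.add_sub_cancel]
  rw [mul_sub, Finset.mul_sum, mul_comm Complex.I]
  congr 1
  refine Finset.sum_congr rfl fun j _ => ?_
  rw [Nat.factorial_succ]
  have : ((j.factorial : ℕ) : ℂ) ≠ 0 := by exact_mod_cast Nat.factorial_ne_zero j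
  have h5 : ((j + 1 : ℕ) : ℂ) ≠ 0 := by exact_mod_cast Nat.succ_ne_zero j
  push_cast at h5 ⊢
  field_simp

theorem rem_zero (n : ℕ) : rem (n + 1) 0 = 0 := by
  unfold rem
  rw [Finset.sum_range_succ']
  simp

theorem rem_le_pos (n : ℕ) : ∀ u : ℝ, 0 ≤ u → ‖rem n u‖ ≤ u ^ n / n.factorial := by
  induction n with
  | zero =>
    intro u _
    unfold rem
    simp [Complex.norm_exp_ofReal_mul_I]
  | succ n ih =>
    intro u hu
    have hB : ∀ x : ℝ, HasDerivAt (fun x : ℝ => x ^ (n + 1) / ((n + 1).factorial : ℝ))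
        (x ^ n / (n.factorial : ℝ)) x := by
      intro x
      refine ((hasDerivAt_pow (n + 1) x).div_const (((n + 1).factorial : ℕ) : ℝ)).congr_deriv ?_
      rw [Nat.factorial_succ]
      have : ((n.factorial : ℕ) : ℝ) ≠ 0 := by exact_mod_cast Nat.factorial_ne_zero n
      push_cast
      field_simp
    have h2 := image_norm_le_of_norm_deriv_right_le_deriv_boundary (a := 0) (b := u)
      (f := fun u : ℝ => rem (n + 1) u) (f' := fun u => Complex.I * rem n u)
      (fun x _ => (hasDerivAt_rem n x).continuousAt.continuousWithinAt)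
      (fun x _ => (hasDerivAt_rem n x).hasDerivWithinAt)
      (B := fun x : ℝ => x ^ (n + 1) / ((n + 1).factorial : ℝ))
      (B' := fun x => x ^ n / (n.factorial : ℝ)) (by
        rw [rem_zero]
        simp) hB (fun x hx => by
        rw [norm_mul, Complex.norm_I, one_mul]
        exact ih x hx.1)
    exact h2 ⟨hu, le_rfl⟩

theorem rem_le (n : ℕ) (u : ℝ) : ‖rem n u‖ ≤ |u| ^ n / n.factorial := by
  rcases le_total 0 u with h | h
  · rw [abs_of_nonneg h]
    exact rem_le_pos n u h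
  · rw [abs_of_nonpos h]
    have h1 := rem_le_pos n (-u) (by linarith)
    have h2 : rem n (-u) = (starRingEnd ℂ) (rem n u) := by
      unfold rem
      rw [map_sub, map_sum, ← Complex.exp_conj]
      congr 1
      · congr 1
        simp
      · refine Finset.sum_congr rfl fun j _ => ?_
        rw [map_div₀, map_pow]
        simp
    rw [h2, Complex.norm_conj] at h1
    exact h1

/-- the law of a function on a finite set -/
noncomputable def law {Ω : Type} (S : Finset Ω) (f : Ω → ℝ) : Measure ℝ :=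
  ∑ c ∈ S, ENNReal.ofReal (1 / (S.card : ℝ)) • Measure.dirac (f c)

theorem law_apply {Ω : Type} (S : Finset Ω) (f : Ω → ℝ) (T : Set ℝ) (hT : MeasurableSet T)
    [DecidablePred fun c => f c ∈ T] :
    law S f T = ENNReal.ofReal ((S.filter (fun c => f c ∈ T)).card / (S.card : ℝ)) := by
  classical
  unfold law
  rw [Measure.finsetSum_apply]
  have h1 : ∀ c ∈ S, (ENNReal.ofReal (1 / (S.card : ℝ)) • Measure.dirac (f c)) T =
      ENNReal.ofReal (if f c ∈ T then 1 / (S.card : ℝ) else 0) := by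
    intro c _
    rw [Measure.smul_apply, Measure.dirac_apply' _ hT, smul_eq_mul]
    by_cases h : f c ∈ T
    · simp [h]
    · simp [h]
  rw [Finset.sum_congr rfl h1, ← ENNReal.ofReal_sum_of_nonneg (fun c _ => by positivity)]
  congr 1
  rw [Finset.sum_ite, Finset.sum_const_zero, add_zero, Finset.sum_const, nsmul_eq_mul]
  ring

theorem law_prob {Ω : Type} (S : Finset Ω) (hS : S.Nonempty) (f : Ω → ℝ) : IsProbabilityMeasure (law S f) := by
  classical
  constructor
  rw [law_apply S f Set.univ MeasurableSet.univ]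
  have : (S.filter (fun c => f c ∈ Set.univ)) = S := by simp
  have h0 : (S.card : ℝ) ≠ 0 := by exact_mod_cast (Finset.card_pos.2 hS).ne'
  rw [this, div_self h0, ENNReal.ofReal_one]

theorem law_char {Ω : Type} (S : Finset Ω) (f : Ω → ℝ) (t : ℝ) :
    charFun (law S f) t = (∑ c ∈ S, Complex.exp ((t * f c : ℝ) * Complex.I)) / (S.card : ℂ) := by
  rw [charFun_apply_real]
  unfold law
  rw [integral_finsetSum_measure]
  · rw [Finset.sum_div]
    refine Finset.sum_congr rfl fun c _ => ?_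
    rw [integral_smul_measure, integral_dirac, ENNReal.toReal_ofReal (by positivity)]
    rw [Complex.real_smul]
    push_cast
    ring
  · intro c _
    apply Integrable.smul_measure _ ENNReal.ofReal_ne_top
    exact integrable_dirac (by simp [enorm_lt_top])

/-- the expansion of the characteristic function -/
theorem char_mom {Ω : Type} (S : Finset Ω) (hS : S.Nonempty) (f : Ω → ℝ) (t : ℝ) (m : ℕ) :
    ‖charFun (law S f) t - ∑ j ∈ range (2 * m), ((t : ℂ) * Complex.I) ^ j / (j.factorial : ℂ) *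
      (((∑ a ∈ S, f a ^ j) / S.card : ℝ) : ℂ)‖ ≤
      |t| ^ (2 * m) / ((2 * m).factorial : ℝ) * ((∑ a ∈ S, f a ^ (2 * m)) / S.card) := by
  have h0 : (0 : ℝ) < S.card := by exact_mod_cast Finset.card_pos.2 hS
  have h0' : (S.card : ℂ) ≠ 0 := by exact_mod_cast h0.ne'
  have e1 : charFun (law S f) t - ∑ j ∈ range (2 * m), ((t : ℂ) * Complex.I) ^ j / (j.factorial : ℂ) *
      (((∑ a ∈ S, f a ^ j) / S.card : ℝ) : ℂ) = (∑ a ∈ S, rem (2 * m) (t * f a)) / (S.card : ℂ) := by
    rw [law_char, eq_div_iff h0', sub_mul, div_mul_cancel₀ _ h0']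
    unfold rem
    rw [Finset.sum_sub_distrib]
    congr 1
    · rw [Finset.sum_comm, Finset.sum_mul]
      apply Finset.sum_congr rfl
      intro j _
      push_cast
      rw [mul_assoc, div_mul_cancel₀ _ h0', Finset.mul_sum]
      apply Finset.sum_congr rfl
      intro a _
      ring
  rw [e1, norm_div, Complex.norm_natCast, mul_div_assoc', div_le_div_iff_of_pos_right h0]
  refine (norm_sum_le _ _).trans ?_
  rw [Finset.mul_sum]
  apply Finset.sum_le_sum
  intro a _
  refine (rem_le (2 * m) (t * f a)).trans (le_of_eq ?_)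
  rw [abs_mul, mul_pow, pow_mul |f a|, sq_abs, ← pow_mul]
  ring

lemma mm_even (m : ℕ) : mm (2 * m) = ((2 * m).factorial : ℝ) / (2 ^ m * m.factorial) := by
  unfold mm
  rw [if_pos (even_two_mul m), Nat.mul_div_cancel_left m (by norm_num)]

lemma mm_odd (m : ℕ) : mm (2 * m + 1) = 0 := by
  unfold mm
  rw [if_neg]
  simp

lemma mm_sum (t : ℝ) (m : ℕ) : ∑ j ∈ range (2 * m), ((t : ℂ) * Complex.I) ^ j / (j.factorial : ℂ) * ((mm j : ℝ) : ℂ) =
    ((∑ l ∈ range m, (-(t ^ 2 / 2)) ^ l / (l.factorial : ℝ) : ℝ) : ℂ) := by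
  induction m with
  | zero => simp
  | succ m ih =>
    rw [show 2 * (m + 1) = 2 * m + 1 + 1 by ring, Finset.sum_range_succ, Finset.sum_range_succ, ih, mm_odd, mm_even,
      Finset.sum_range_succ]
    push_cast
    rw [mul_zero, add_zero]
    congr 1
    rw [mul_pow, pow_mul Complex.I, Complex.I_sq, pow_mul (t : ℂ)]
    have h1 : (((2 * m).factorial : ℕ) : ℂ) ≠ 0 := by exact_mod_cast Nat.factorial_ne_zero _
    have h2 : ((m.factorial : ℕ) : ℂ) ≠ 0 := by exact_mod_cast Nat.factorial_ne_zero _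
    rw [neg_div', neg_eq_neg_one_mul, mul_div_assoc, mul_pow, div_pow]
    field_simp
    rw [neg_pow ((t : ℂ) ^ 2), one_pow]
    ring

/-- the characteristic functions converge -/
theorem char_close (t : ℝ) {ε : ℝ} (hε : 0 < ε) : ∃ k₀ : ℕ, ∃ δ : ℝ, 0 < δ ∧ ∀ (Ω : Type) (S : Finset Ω), S.Nonempty →
    ∀ f : Ω → ℝ, (∀ k ≤ k₀, |(∑ a ∈ S, f a ^ k) / S.card - mm k| ≤ δ) →
    ‖charFun (law S f) t - ((Real.exp (-(t ^ 2 / 2)) : ℝ) : ℂ)‖ ≤ ε := by
  -- the number of moments
  have h1 : Tendsto (fun m : ℕ => (t ^ 2 / 2) ^ m / (m.factorial : ℝ)) atTop (𝓝 0) := FloorSemiring.tendsto_pow_div_factorial_atTop _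
  have h2 : Tendsto (fun m : ℕ => ∑ l ∈ range m, (-(t ^ 2 / 2)) ^ l / (l.factorial : ℝ)) atTop (𝓝 (Real.exp (-(t ^ 2 / 2)))) := by
    have := (NormedSpace.expSeries_div_hasSum_exp (𝔸 := ℝ) (-(t ^ 2 / 2))).tendsto_sum_nat
    rwa [← congrFun Real.exp_eq_exp_ℝ] at this
  rw [Metric.tendsto_atTop] at h1 h2
  obtain ⟨m1, hm1⟩ := h1 (ε / 4) (by positivity)
  obtain ⟨m2, hm2⟩ := h2 (ε / 4) (by positivity)
  obtain ⟨m, hm⟩ : ∃ m, m = max m1 m2 := ⟨_, rfl⟩
  have h3 := hm1 m (by omega)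
  have h4 := hm2 m (by omega)
  rw [Real.dist_eq, sub_zero, abs_of_nonneg (by positivity)] at h3
  rw [Real.dist_eq] at h4
  obtain ⟨Q, hQ⟩ : ∃ Q : ℝ, Q = ∑ j ∈ range (2 * m + 1), |t| ^ j / (j.factorial : ℝ) := ⟨_, rfl⟩
  have hQ0 : 0 ≤ Q := by rw [hQ]; exact Finset.sum_nonneg fun j _ => by positivity
  refine ⟨2 * m, ε / (4 * (Q + 1)), by positivity, fun Ω S hS f hf => ?_⟩
  obtain ⟨δ, hδ⟩ : ∃ δ, δ = ε / (4 * (Q + 1)) := ⟨_, rfl⟩
  rw [← hδ] at hf
  have hδ0 : 0 < δ := by rw [hδ]; positivity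
  have hδQ : δ * Q ≤ ε / 4 := by
    rw [hδ, div_mul_eq_mul_div, div_le_div_iff₀ (by positivity) (by norm_num)]
    nlinarith
  have h5 := char_mom S hS f t m
  have h6 : ‖∑ j ∈ range (2 * m), ((t : ℂ) * Complex.I) ^ j / (j.factorial : ℂ) * (((∑ a ∈ S, f a ^ j) / S.card : ℝ) : ℂ) -
      ∑ j ∈ range (2 * m), ((t : ℂ) * Complex.I) ^ j / (j.factorial : ℂ) * ((mm j : ℝ) : ℂ)‖ ≤
      δ * ∑ j ∈ range (2 * m), |t| ^ j / (j.factorial : ℝ) := by
    rw [← Finset.sum_sub_distrib, Finset.mul_sum]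
    refine (norm_sum_le _ _).trans (Finset.sum_le_sum fun j hj => ?_)
    rw [Finset.mem_range] at hj
    rw [← mul_sub, ← Complex.ofReal_sub, norm_mul, norm_div, norm_pow, norm_mul, Complex.norm_I, mul_one, Complex.norm_natCast,
      Complex.norm_real, Complex.norm_real, Real.norm_eq_abs, Real.norm_eq_abs, mul_comm]
    exact mul_le_mul_of_nonneg_right (hf j (by omega)) (by positivity)
  rw [mm_sum] at h6
  have h7 : |t| ^ (2 * m) / ((2 * m).factorial : ℝ) * ((∑ a ∈ S, f a ^ (2 * m)) / S.card) ≤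
      ε / 4 + δ * (|t| ^ (2 * m) / ((2 * m).factorial : ℝ)) := by
    have h8 : (∑ a ∈ S, f a ^ (2 * m)) / S.card ≤ mm (2 * m) + δ := by
      have := (abs_le.1 (hf (2 * m) le_rfl)).2
      linarith
    calc |t| ^ (2 * m) / ((2 * m).factorial : ℝ) * ((∑ a ∈ S, f a ^ (2 * m)) / S.card)
        ≤ |t| ^ (2 * m) / ((2 * m).factorial : ℝ) * (mm (2 * m) + δ) := by gcongr
      _ = (t ^ 2 / 2) ^ m / (m.factorial : ℝ) + δ * (|t| ^ (2 * m) / ((2 * m).factorial : ℝ)) := by
          rw [mm_even, pow_mul |t|, sq_abs, div_pow]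
          have h1 : (((2 * m).factorial : ℕ) : ℝ) ≠ 0 := by exact_mod_cast Nat.factorial_ne_zero _
          have h2 : ((m.factorial : ℕ) : ℝ) ≠ 0 := by exact_mod_cast Nat.factorial_ne_zero _
          field_simp
      _ ≤ ε / 4 + δ * (|t| ^ (2 * m) / ((2 * m).factorial : ℝ)) := by linarith
  have h9 : δ * ∑ j ∈ range (2 * m), |t| ^ j / (j.factorial : ℝ) + δ * (|t| ^ (2 * m) / ((2 * m).factorial : ℝ)) = δ * Q := by
    rw [hQ, Finset.sum_range_succ, mul_add]
  have h10 : ‖((∑ l ∈ range m, (-(t ^ 2 / 2)) ^ l / (l.factorial : ℝ) : ℝ) : ℂ) - ((Real.exp (-(t ^ 2 / 2)) : ℝ) : ℂ)‖ ≤ ε / 4 := by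
    rw [← Complex.ofReal_sub, Complex.norm_real, Real.norm_eq_abs]
    exact h4.le
  set x1 := charFun (law S f) t
  set x2 := ∑ j ∈ range (2 * m), ((t : ℂ) * Complex.I) ^ j / (j.factorial : ℂ) * (((∑ a ∈ S, f a ^ j) / S.card : ℝ) : ℂ)
  set x3 := ((∑ l ∈ range m, (-(t ^ 2 / 2)) ^ l / (l.factorial : ℝ) : ℝ) : ℂ)
  set x4 := ((Real.exp (-(t ^ 2 / 2)) : ℝ) : ℂ)
  have e : x1 - x4 = (x1 - x2) + (x2 - x3) + (x3 - x4) := by ring
  rw [e]
  refine (norm_add₃_le).trans ?_
  linarith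

open Classical in
/-- **Moments and the distribution function.** -/
theorem mom_law (u : ℝ) {ε : ℝ} (hε : 0 < ε) : ∃ k₀ : ℕ, ∃ δ : ℝ, 0 < δ ∧ ∀ (Ω : Type) (S : Finset Ω), S.Nonempty →
    ∀ f : Ω → ℝ, (∀ k ≤ k₀, |(∑ a ∈ S, f a ^ k) / S.card - mm k| ≤ δ) →
    |((S.filter (fun a => f a ≤ u)).card : ℝ) / S.card - (gaussianReal 0 1).real (Set.Iic u)| ≤ ε := by
  by_contra hcon
  push Not at hcon
  choose Ω S hS f h1 h2 using fun j : ℕ => hcon j (1 / ((j : ℝ) + 1)) (by positivity)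
  have hreal : ∀ j, (law (S j) (f j)).real (Set.Iic u) = (((S j).filter (fun a => f j a ≤ u)).card : ℝ) / (S j).card := by
    intro j
    unfold Measure.real
    rw [law_apply (S j) (f j) (Set.Iic u) measurableSet_Iic, ENNReal.toReal_ofReal (by positivity)]
    simp only [Set.mem_Iic]
  set μ : ℕ → ProbabilityMeasure ℝ := fun j => ⟨law (S j) (f j), law_prob _ (hS j) _⟩ with hμ
  set ν' : ProbabilityMeasure ℝ := ⟨gaussianReal 0 1, inferInstance⟩ with hν
  have hconv : Tendsto μ atTop (𝓝 ν') := by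
    rw [ProbabilityMeasure.tendsto_iff_tendsto_charFun]
    intro t
    rw [hν]
    change Tendsto (fun j => charFun (law (S j) (f j)) t) atTop (𝓝 (charFun (gaussianReal 0 1) t))
    rw [Metric.tendsto_atTop]
    intro e he
    obtain ⟨k, δ, hδ, hk⟩ := char_close t (half_pos he)
    obtain ⟨K, hK⟩ := exists_nat_gt (1 / δ)
    refine ⟨max k K, fun j hj => ?_⟩
    rw [dist_eq_norm, charFun_gaussianReal]
    have e1 : Complex.exp ((t : ℂ) * ((0 : ℝ) : ℂ) * Complex.I - (((1 : NNReal) : ℝ) : ℂ) * t ^ 2 / 2) =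
        ((Real.exp (-(t ^ 2 / 2)) : ℝ) : ℂ) := by
      push_cast
      congr 1
      ring
    have e2 := hk (Ω j) (S j) (hS j) (f j) (fun k' hk' => (h1 j k' (by omega)).trans (by
      have hj2 : (K : ℝ) ≤ j := by exact_mod_cast (le_max_right _ _).trans hj
      rw [div_le_iff₀ (by positivity)]
      rw [div_lt_iff₀ hδ] at hK
      nlinarith))
    rw [← e1] at e2
    exact lt_of_le_of_lt e2 (by linarith)
  have hfr : (ν' : Measure ℝ) (frontier (Set.Iic u)) = 0 := by
    rw [frontier_Iic]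
    have := nullSingletonClass_gaussianReal (μ := 0) (v := 1) one_ne_zero
    exact measure_singleton (μ := gaussianReal 0 1) u
  have h4 := ProbabilityMeasure.tendsto_measure_of_null_frontier_of_tendsto' hconv hfr
  have h5 : Tendsto (fun j => (law (S j) (f j)).real (Set.Iic u)) atTop
      (𝓝 ((gaussianReal 0 1).real (Set.Iic u))) :=
    (ENNReal.tendsto_toReal (measure_ne_top _ _)).comp h4
  rw [Metric.tendsto_atTop] at h5
  obtain ⟨N, hN⟩ := h5 ε hε
  have h6 := hN N le_rfl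
  rw [Real.dist_eq, hreal] at h6
  have h7 := h2 N
  linarith

end Pool.Agent.H77.BV
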