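import Mathlib
import Pool.Agent.H77.BV.Ml

/-! The expansion of a power of a sum. -/

set_option autoImplicit false

namespace Pool.Agent.H77.BV

open Finset

/-- the support -/
def sp (I : Finset ℕ) (κ : ℕ → ℕ) : Finset ℕ := I.filter (fun n => κ n ≠ 0)

lemma sp_sub (I : Finset ℕ) (κ : ℕ → ℕ) : sp I κ ⊆ I := filter_subset _ _

lemma prod_sp (I : Finset ℕ) (κ : ℕ → ℕ) (x : ℕ → ℝ) : ∏ n ∈ I, x n ^ κ n = ∏ n ∈ sp I κ, x n ^ κ n := by
  symm
  apply prod_subset (sp_sub I κ)
  intro n hn h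
  unfold sp at h
  rw [mem_filter, not_and, not_not] at h
  rw [h hn, pow_zero]

lemma sum_sp (I : Finset ℕ) (κ : ℕ → ℕ) : ∑ n ∈ I, κ n = ∑ n ∈ sp I κ, κ n := by
  symm
  apply sum_subset (sp_sub I κ)
  intro n hn h
  unfold sp at h
  rw [mem_filter, not_and, not_not] at h
  exact h hn

/-- the multinomial coefficients with a given support -/
lemma fiber_le (I A : Finset ℕ) (hA : A ⊆ I) (k : ℕ) :
    ∑ κ ∈ (piAntidiag I k).filter (fun κ => sp I κ = A), (Nat.multinomial I κ : ℝ) ≤ (A.card : ℝ) ^ k := by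
  have h1 := sum_pow_eq_sum_piAntidiag A (fun _ => (1 : ℝ)) k
  simp only [one_pow, prod_const_one, mul_one, sum_const, nsmul_eq_mul] at h1
  rw [h1]
  have hzero : ∀ κ ∈ (piAntidiag I k).filter (fun κ => sp I κ = A), ∀ n, n ∉ A → κ n = 0 := by
    intro κ hκ n hn
    rw [mem_filter, mem_piAntidiag] at hκ
    by_contra h
    apply hn
    rw [← hκ.2]
    unfold sp
    rw [mem_filter]
    exact ⟨hκ.1.2 n h, h⟩
  have e : ∑ κ ∈ (piAntidiag I k).filter (fun κ => sp I κ = A), (Nat.multinomial I κ : ℝ) =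
      ∑ κ ∈ (piAntidiag I k).filter (fun κ => sp I κ = A), (Nat.multinomial A κ : ℝ) := by
    apply sum_congr rfl
    intro κ hκ
    congr 1
    symm
    apply Nat.multinomial_congr_of_sdiff hA
    · intro n hn
      exact hzero κ hκ n (mem_sdiff.1 hn).2
    · intro n _
      rfl
  rw [e]
  apply sum_le_sum_of_subset_of_nonneg
  · intro κ hκ
    have hz := hzero κ hκ
    rw [mem_filter, mem_piAntidiag] at hκ
    rw [mem_piAntidiag]
    constructor
    · have h2 := hκ.1.1
      rw [sum_sp, hκ.2] at h2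
      exact h2
    · intro n hn
      by_contra h
      exact hn (hz n h)
  · intro κ _ _
    positivity

/-- the function with the value `m` on `A` -/
def cst (m : ℕ) (A : Finset ℕ) : ℕ → ℕ := fun n => if n ∈ A then m else 0

lemma top_mult (m : ℕ) (I A : Finset ℕ) (hA : A ⊆ I) :
    (Nat.multinomial I (cst m A) : ℝ) = ((m * A.card).factorial : ℝ) / (m.factorial : ℝ) ^ A.card := by
  have h1 := Nat.multinomial_spec I (cst m A)
  have h2 : ∑ i ∈ I, cst m A i = m * A.card := by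
    unfold cst
    rw [sum_ite_mem, inter_eq_right.2 hA, sum_const, smul_eq_mul, mul_comm]
  have h3 : ∏ i ∈ I, (cst m A i).factorial = m.factorial ^ A.card := by
    have : ∀ i ∈ I, (cst m A i).factorial = if i ∈ A then m.factorial else 1 := by
      intro i _
      unfold cst
      split_ifs
      · rfl
      · simp
    rw [prod_congr rfl this, prod_ite_mem, inter_eq_right.2 hA, prod_const]
  rw [h2, h3] at h1
  have h4 : (m.factorial : ℝ) ^ A.card ≠ 0 := by positivity
  rw [eq_div_iff h4, mul_comm]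
  exact_mod_cast h1

/-- the terms with the maximal number of points -/
lemma top_sum (m r : ℕ) (hm : 1 ≤ m) (I : Finset ℕ) (x : ℕ → ℝ) :
    ∑ κ ∈ (piAntidiag I (m * r)).filter (fun κ => (∀ n ∈ I, κ n = 0 ∨ m ≤ κ n) ∧ (sp I κ).card = r),
      (Nat.multinomial I κ : ℝ) * ∏ n ∈ I, x n ^ κ n =
    ((m * r).factorial : ℝ) / (m.factorial : ℝ) ^ r * ∑ A ∈ powersetCard r I, ∏ n ∈ A, x n ^ m := by
  have hkey : ∀ κ ∈ (piAntidiag I (m * r)).filter (fun κ => (∀ n ∈ I, κ n = 0 ∨ m ≤ κ n) ∧ (sp I κ).card = r),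
      cst m (sp I κ) = κ := by
    intro κ hκ
    rw [mem_filter, mem_piAntidiag] at hκ
    obtain ⟨⟨h1, h2⟩, h3, h4⟩ := hκ
    have h5 : ∀ n ∈ sp I κ, m ≤ κ n := by
      intro n hn
      unfold sp at hn
      rw [mem_filter] at hn
      rcases h3 n hn.1 with h | h
      · exact absurd h hn.2
      · exact h
    have h6 : ∑ n ∈ sp I κ, m = ∑ n ∈ sp I κ, κ n := by
      rw [← sum_sp]
      have h7 : ∑ n ∈ I, κ n = m * r := h1
      rw [h7, sum_const, smul_eq_mul, h4, mul_comm]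
    have h8 := (sum_eq_sum_iff_of_le h5).1 h6
    funext n
    unfold cst
    split_ifs with h
    · exact h8 n h
    · by_contra h9
      apply h
      unfold sp
      rw [mem_filter]
      exact ⟨h2 n (fun h => h9 h.symm), fun h => h9 h.symm⟩
  have hsp : ∀ A ∈ powersetCard r I, sp I (cst m A) = A := by
    intro A hA
    rw [mem_powersetCard] at hA
    ext n
    unfold sp cst
    rw [mem_filter]
    constructor
    · rintro ⟨h1, h2⟩
      by_contra h
      rw [if_neg h] at h2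
      exact h2 rfl
    · intro h
      rw [if_pos h]
      exact ⟨hA.1 h, by omega⟩
  rw [mul_sum]
  refine sum_bij' (fun κ _ => sp I κ) (fun A _ => cst m A) ?_ ?_ ?_ ?_ ?_
  · intro κ hκ
    rw [mem_filter] at hκ
    rw [mem_powersetCard]
    exact ⟨sp_sub I κ, hκ.2.2⟩
  · intro A hA
    have h0 := hsp A hA
    rw [mem_powersetCard] at hA
    rw [mem_filter, mem_piAntidiag, h0]
    refine ⟨⟨?_, ?_⟩, ?_, hA.2⟩
    · change ∑ i ∈ I, cst m A i = m * r
      unfold cst
      rw [sum_ite_mem, inter_eq_right.2 hA.1, sum_const, smul_eq_mul, mul_comm, hA.2]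
    · intro n hn
      unfold cst at hn
      by_contra h
      rw [if_neg (fun h' => h (hA.1 h'))] at hn
      exact hn rfl
    · intro n _
      unfold cst
      split_ifs
      · right; exact le_rfl
      · left; rfl
  · intro κ hκ
    exact hkey κ hκ
  · intro A hA
    exact hsp A hA
  · intro κ hκ
    have h1 := hkey κ hκ
    rw [mem_filter] at hκ
    have h2 := top_mult m I (sp I κ) (sp_sub I κ)
    rw [h1, hκ.2.2] at h2
    rw [h2]
    congr 1
    rw [prod_sp]
    apply prod_congr rfl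
    intro n hn
    have h3 := congrFun h1 n
    unfold cst at h3
    rw [if_pos hn] at h3
    rw [← h3]

/-- **the expansion of a power** -/
lemma pow_exp (I : Finset ℕ) (k : ℕ) (x : ℕ → ℝ) (U : ℝ) (hU : 0 ≤ U) (hx : ∀ n ∈ I, |x n| ≤ U) :
    |(∑ n ∈ I, x n) ^ k -
      (if Even k then (k.factorial : ℝ) / 2 ^ (k / 2) * ∑ A ∈ powersetCard (k / 2) I, ∏ n ∈ A, x n ^ 2 else 0) -
      ∑ κ ∈ (piAntidiag I k).filter (fun κ => ∃ n ∈ I, κ n = 1), (Nat.multinomial I κ : ℝ) * ∏ n ∈ I, x n ^ κ n| ≤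
    ∑ r ∈ range ((k + 1) / 2), (k : ℝ) ^ k * U ^ (k - 2 * r) * ∑ A ∈ powersetCard r I, ∏ n ∈ A, x n ^ 2 := by
  obtain ⟨T, hT⟩ : ∃ T : (ℕ → ℕ) → ℝ, T = fun κ => (Nat.multinomial I κ : ℝ) * ∏ n ∈ I, x n ^ κ n := ⟨_, rfl⟩
  have hTκ : ∀ κ, (Nat.multinomial I κ : ℝ) * ∏ n ∈ I, x n ^ κ n = T κ := fun κ => by rw [hT]
  simp only [hTκ]
  have h0 : (∑ n ∈ I, x n) ^ k = ∑ κ ∈ piAntidiag I k, T κ := by
    rw [sum_pow_eq_sum_piAntidiag, hT]
  obtain ⟨Q, hQ⟩ : ∃ Q, Q = (piAntidiag I k).filter (fun κ => ¬ ∃ n ∈ I, κ n = 1) := ⟨_, rfl⟩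
  have hQm : ∀ κ ∈ Q, κ ∈ piAntidiag I k ∧ (∀ n ∈ I, κ n = 0 ∨ 2 ≤ κ n) ∧ 2 * (sp I κ).card ≤ k := by
    intro κ hκ
    rw [hQ, mem_filter] at hκ
    obtain ⟨h1, h2⟩ := hκ
    push Not at h2
    have h3 : ∀ n ∈ I, κ n = 0 ∨ 2 ≤ κ n := by
      intro n hn
      have := h2 n hn
      omega
    refine ⟨h1, h3, ?_⟩
    rw [mem_piAntidiag] at h1
    have h4 : ∑ n ∈ I, κ n = k := h1.1
    rw [sum_sp] at h4
    rw [← h4, mul_comm, ← smul_eq_mul, ← sum_const]
    apply sum_le_sum
    intro n hn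
    unfold sp at hn
    rw [mem_filter] at hn
    rcases h3 n hn.1 with h | h
    · exact absurd h hn.2
    · exact h
  have h1 : ∑ κ ∈ piAntidiag I k, T κ = ∑ κ ∈ (piAntidiag I k).filter (fun κ => ∃ n ∈ I, κ n = 1), T κ + ∑ κ ∈ Q, T κ := by
    rw [hQ, sum_filter_add_sum_filter_not]
  have h2 : ∑ κ ∈ Q, T κ = ∑ κ ∈ Q.filter (fun κ => 2 * (sp I κ).card = k), T κ +
      ∑ κ ∈ Q.filter (fun κ => ¬ 2 * (sp I κ).card = k), T κ := by
    rw [sum_filter_add_sum_filter_not]
  have h3 : ∑ κ ∈ Q.filter (fun κ => 2 * (sp I κ).card = k), T κ =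
      (if Even k then (k.factorial : ℝ) / 2 ^ (k / 2) * ∑ A ∈ powersetCard (k / 2) I, ∏ n ∈ A, x n ^ 2 else 0) := by
    split_ifs with hk
    · obtain ⟨r, hr⟩ := hk
      have hr2 : k = 2 * r := by omega
      have hk2 : k / 2 = r := by omega
      have ht := top_sum 2 r (by norm_num) I x
      rw [hk2, hr2]
      have e : ((2 : ℕ).factorial : ℝ) = 2 := by norm_num [Nat.factorial]
      rw [e] at ht
      rw [← ht, hT]
      apply sum_congr _ (fun _ _ => rfl)
      ext κ
      rw [mem_filter, mem_filter]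
      constructor
      · rintro ⟨h4, h5⟩
        obtain ⟨h6, h7, h8⟩ := hQm κ h4
        rw [hr2] at h6
        exact ⟨h6, h7, by omega⟩
      · rintro ⟨h4, h5, h6⟩
        refine ⟨?_, by omega⟩
        rw [hQ, mem_filter]
        rw [← hr2] at h4
        refine ⟨h4, ?_⟩
        rintro ⟨n, hn, h7⟩
        have := h5 n hn
        omega
    · apply sum_eq_zero
      intro κ hκ
      rw [mem_filter] at hκ
      exact absurd ⟨(sp I κ).card, by omega⟩ hk
  have h4 : |∑ κ ∈ Q.filter (fun κ => ¬ 2 * (sp I κ).card = k), T κ| ≤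
      ∑ r ∈ range ((k + 1) / 2), (k : ℝ) ^ k * U ^ (k - 2 * r) * ∑ A ∈ powersetCard r I, ∏ n ∈ A, x n ^ 2 := by
    refine (abs_sum_le_sum_abs _ _).trans ?_
    have h5 : ∀ κ ∈ Q.filter (fun κ => ¬ 2 * (sp I κ).card = k), |T κ| ≤
        (Nat.multinomial I κ : ℝ) * (U ^ (k - 2 * (sp I κ).card) * ∏ n ∈ sp I κ, x n ^ 2) := by
      intro κ hκ
      rw [mem_filter] at hκ
      obtain ⟨h6, h7, h8⟩ := hQm κ hκ.1
      rw [hT]
      simp only
      rw [abs_mul, Nat.abs_cast, prod_sp, abs_prod]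
      apply mul_le_mul_of_nonneg_left _ (Nat.cast_nonneg _)
      rw [mem_piAntidiag] at h6
      have h9 : ∑ n ∈ I, κ n = k := h6.1
      rw [sum_sp] at h9
      have h10 : ∀ n ∈ sp I κ, 2 ≤ κ n := by
        intro n hn
        unfold sp at hn
        rw [mem_filter] at hn
        rcases h7 n hn.1 with h | h
        · exact absurd h hn.2
        · exact h
      have h11 : k - 2 * (sp I κ).card = ∑ n ∈ sp I κ, (κ n - 2) := by
        have h12 : ∑ n ∈ sp I κ, (κ n - 2) + ∑ n ∈ sp I κ, 2 = ∑ n ∈ sp I κ, κ n := by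
          rw [← sum_add_distrib]
          apply sum_congr rfl
          intro n hn
          have := h10 n hn
          omega
        rw [sum_const, smul_eq_mul] at h12
        omega
      rw [h11, ← prod_pow_eq_pow_sum, ← prod_mul_distrib]
      apply prod_le_prod (fun _ _ => abs_nonneg _)
      intro n hn
      have h13 := h10 n hn
      have h14 := hx n (sp_sub I κ hn)
      rw [abs_pow, ← sq_abs (x n)]
      calc |x n| ^ κ n = |x n| ^ (κ n - 2) * |x n| ^ 2 := by rw [← pow_add]; congr 1; omega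
        _ ≤ U ^ (κ n - 2) * |x n| ^ 2 := by gcongr
    refine (sum_le_sum h5).trans ?_
    -- the fibers
    obtain ⟨P, hP⟩ : ∃ P, P = (range ((k + 1) / 2)).biUnion (fun r => powersetCard r I) := ⟨_, rfl⟩
    have hmap : ∀ κ ∈ Q.filter (fun κ => ¬ 2 * (sp I κ).card = k), sp I κ ∈ P := by
      intro κ hκ
      rw [mem_filter] at hκ
      obtain ⟨h6, h7, h8⟩ := hQm κ hκ.1
      rw [hP, mem_biUnion]
      refine ⟨(sp I κ).card, ?_, ?_⟩
      · rw [mem_range]
        have := hκ.2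
        omega
      · rw [mem_powersetCard]
        exact ⟨sp_sub I κ, rfl⟩
    rw [← sum_fiberwise_of_maps_to hmap]
    have h6 : ∀ A ∈ P, ∑ κ ∈ (Q.filter (fun κ => ¬ 2 * (sp I κ).card = k)).filter (fun κ => sp I κ = A),
        (Nat.multinomial I κ : ℝ) * (U ^ (k - 2 * (sp I κ).card) * ∏ n ∈ sp I κ, x n ^ 2) ≤
        (k : ℝ) ^ k * U ^ (k - 2 * A.card) * ∏ n ∈ A, x n ^ 2 := by
      intro A hA
      rw [hP, mem_biUnion] at hA
      obtain ⟨r, hr, hA⟩ := hA
      rw [mem_range] at hr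
      rw [mem_powersetCard] at hA
      have hnn : 0 ≤ U ^ (k - 2 * A.card) * ∏ n ∈ A, x n ^ 2 :=
        mul_nonneg (pow_nonneg hU _) (prod_nonneg fun _ _ => sq_nonneg _)
      calc ∑ κ ∈ (Q.filter (fun κ => ¬ 2 * (sp I κ).card = k)).filter (fun κ => sp I κ = A),
            (Nat.multinomial I κ : ℝ) * (U ^ (k - 2 * (sp I κ).card) * ∏ n ∈ sp I κ, x n ^ 2)
          = (∑ κ ∈ (Q.filter (fun κ => ¬ 2 * (sp I κ).card = k)).filter (fun κ => sp I κ = A), (Nat.multinomial I κ : ℝ)) *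
            (U ^ (k - 2 * A.card) * ∏ n ∈ A, x n ^ 2) := by
            rw [sum_mul]
            apply sum_congr rfl
            intro κ hκ
            rw [mem_filter] at hκ
            rw [hκ.2]
        _ ≤ (A.card : ℝ) ^ k * (U ^ (k - 2 * A.card) * ∏ n ∈ A, x n ^ 2) := by
            apply mul_le_mul_of_nonneg_right _ hnn
            refine le_trans ?_ (fiber_le I A hA.1 k)
            apply sum_le_sum_of_subset_of_nonneg
            · intro κ hκ
              rw [mem_filter, mem_filter] at hκ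
              rw [mem_filter]
              exact ⟨(hQm κ hκ.1.1).1, hκ.2⟩
            · intro κ _ _
              positivity
        _ ≤ (k : ℝ) ^ k * (U ^ (k - 2 * A.card) * ∏ n ∈ A, x n ^ 2) := by
            apply mul_le_mul_of_nonneg_right _ hnn
            apply pow_le_pow_left₀ (Nat.cast_nonneg _)
            have : A.card ≤ k := by omega
            exact_mod_cast this
        _ = (k : ℝ) ^ k * U ^ (k - 2 * A.card) * ∏ n ∈ A, x n ^ 2 := by ring
    refine (sum_le_sum h6).trans ?_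
    rw [hP, sum_biUnion]
    · apply sum_le_sum
      intro r _
      rw [mul_sum]
      apply sum_le_sum
      intro A hA
      rw [(mem_powersetCard.1 hA).2]
    · intro i _ j _ hij
      exact pairwise_disjoint_powersetCard I hij
  rw [h0, h1, h2, h3]
  have e : ∀ a b c : ℝ, a + (b + c) - b - a = c := fun a b c => by ring
  rw [e]
  exact h4

/-- elementary symmetric functions -/
lemma esymm_near (I : Finset ℕ) (r : ℕ) (y : ℕ → ℝ) (hy0 : ∀ n, 0 ≤ y n) (hy1 : ∀ n, y n ≤ 1) :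
    |(r.factorial : ℝ) * ∑ A ∈ powersetCard r I, ∏ n ∈ A, y n - (∑ n ∈ I, y n) ^ r| ≤ (r : ℝ) ^ r * (r * (1 + I.card : ℝ) ^ (r - 1)) := by
  obtain ⟨T, hT⟩ : ∃ T : (ℕ → ℕ) → ℝ, T = fun κ => (Nat.multinomial I κ : ℝ) * ∏ n ∈ I, y n ^ κ n := ⟨_, rfl⟩
  have h0 : (∑ n ∈ I, y n) ^ r = ∑ κ ∈ piAntidiag I r, T κ := by
    rw [sum_pow_eq_sum_piAntidiag, hT]
  have ht := top_sum 1 r le_rfl I y
  simp only [one_mul, Nat.factorial_one, Nat.cast_one, one_pow, div_one, pow_one] at ht
  have hcard : ∀ κ ∈ piAntidiag I r, (sp I κ).card ≤ r := by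
    intro κ hκ
    rw [mem_piAntidiag] at hκ
    have h4 : ∑ n ∈ I, κ n = r := hκ.1
    rw [sum_sp] at h4
    calc (sp I κ).card = ∑ n ∈ sp I κ, 1 := by rw [card_eq_sum_ones]
      _ ≤ ∑ n ∈ sp I κ, κ n := by
          apply sum_le_sum
          intro n hn
          unfold sp at hn
          rw [mem_filter] at hn
          omega
      _ = r := h4
  have h1 : ∑ κ ∈ piAntidiag I r, T κ = ∑ κ ∈ (piAntidiag I r).filter (fun κ => (sp I κ).card = r), T κ +
      ∑ κ ∈ (piAntidiag I r).filter (fun κ => ¬ (sp I κ).card = r), T κ := by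
    rw [sum_filter_add_sum_filter_not]
  have h2 : ∑ κ ∈ (piAntidiag I r).filter (fun κ => (sp I κ).card = r), T κ =
      (r.factorial : ℝ) * ∑ A ∈ powersetCard r I, ∏ n ∈ A, y n := by
    rw [← ht, hT]
    apply sum_congr _ (fun _ _ => rfl)
    ext κ
    rw [mem_filter, mem_filter]
    constructor
    · rintro ⟨h3, h4⟩
      exact ⟨h3, fun n _ => by omega, h4⟩
    · rintro ⟨h3, _, h4⟩
      exact ⟨h3, h4⟩
  have hT0 : ∀ κ, 0 ≤ T κ := by
    intro κ
    rw [hT]
    exact mul_nonneg (Nat.cast_nonneg _) (prod_nonneg fun n _ => pow_nonneg (hy0 n) _)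
  rw [h0, h1, h2, sub_add_cancel_left, abs_neg, abs_of_nonneg (sum_nonneg fun κ _ => hT0 κ)]
  have h5 : ∀ κ ∈ (piAntidiag I r).filter (fun κ => ¬ (sp I κ).card = r), T κ ≤ (Nat.multinomial I κ : ℝ) := by
    intro κ _
    rw [hT]
    simp only
    apply mul_le_of_le_one_right (Nat.cast_nonneg _)
    exact prod_le_one (fun n _ => pow_nonneg (hy0 n) _) (fun n _ => pow_le_one₀ (hy0 n) (hy1 n))
  refine (sum_le_sum h5).trans ?_
  obtain ⟨P, hP⟩ : ∃ P, P = (range r).biUnion (fun r => powersetCard r I) := ⟨_, rfl⟩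
  have hmap : ∀ κ ∈ (piAntidiag I r).filter (fun κ => ¬ (sp I κ).card = r), sp I κ ∈ P := by
    intro κ hκ
    rw [mem_filter] at hκ
    have := hcard κ hκ.1
    rw [hP, mem_biUnion]
    exact ⟨(sp I κ).card, by rw [mem_range]; omega, by rw [mem_powersetCard]; exact ⟨sp_sub I κ, rfl⟩⟩
  rw [← sum_fiberwise_of_maps_to hmap]
  have h6 : ∀ A ∈ P, ∑ κ ∈ ((piAntidiag I r).filter (fun κ => ¬ (sp I κ).card = r)).filter (fun κ => sp I κ = A),
      (Nat.multinomial I κ : ℝ) ≤ (r : ℝ) ^ r := by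
    intro A hA
    rw [hP, mem_biUnion] at hA
    obtain ⟨r', hr, hA⟩ := hA
    rw [mem_range] at hr
    rw [mem_powersetCard] at hA
    calc ∑ κ ∈ ((piAntidiag I r).filter (fun κ => ¬ (sp I κ).card = r)).filter (fun κ => sp I κ = A), (Nat.multinomial I κ : ℝ)
        ≤ (A.card : ℝ) ^ r := by
          refine le_trans ?_ (fiber_le I A hA.1 r)
          apply sum_le_sum_of_subset_of_nonneg
          · intro κ hκ
            rw [mem_filter, mem_filter] at hκ
            rw [mem_filter]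
            exact ⟨hκ.1.1, hκ.2⟩
          · intro κ _ _
            positivity
      _ ≤ (r : ℝ) ^ r := by
          apply pow_le_pow_left₀ (Nat.cast_nonneg _)
          have : A.card ≤ r := by omega
          exact_mod_cast this
  refine (sum_le_sum h6).trans ?_
  rw [sum_const, nsmul_eq_mul, mul_comm]
  apply mul_le_mul_of_nonneg_left _ (by positivity)
  have h7 : P.card ≤ ∑ j ∈ range r, (powersetCard j I).card := by rw [hP]; exact card_biUnion_le
  calc (P.card : ℝ) ≤ ∑ j ∈ range r, ((powersetCard j I).card : ℝ) := by exact_mod_cast h7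
    _ ≤ ∑ _j ∈ range r, (1 + I.card : ℝ) ^ (r - 1) := by
        apply sum_le_sum
        intro j hj
        rw [mem_range] at hj
        rw [card_powersetCard]
        calc ((I.card.choose j : ℕ) : ℝ) ≤ (I.card : ℝ) ^ j := by exact_mod_cast Nat.choose_le_pow _ _
          _ ≤ (1 + I.card : ℝ) ^ j := by gcongr; linarith
          _ ≤ (1 + I.card : ℝ) ^ (r - 1) := by
              apply pow_le_pow_right₀ _ (by omega)
              have : (0 : ℝ) ≤ I.card := Nat.cast_nonneg _
              linarith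
    _ = r * (1 + I.card : ℝ) ^ (r - 1) := by rw [sum_const, card_range, nsmul_eq_mul]

end Pool.Agent.H77.BV
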