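import Mathlib
import Pool.Agent.H77.BV.Cc

/-! The sieve weights have a small second moment about the constant. -/

set_option autoImplicit false

namespace Pool.Agent.H77.BV

open Finset Polynomial
open Pool.Agent.K1H89.PL
open Pool.Agent.K1H89.Ev (evN ev_pow)

/-- residue classes in intervals -/
lemma card_res (α β q r : ℕ) (hq : 1 ≤ q) (hαβ : α ≤ β) (hr : r < q) :
    |(((Ioc α β).filter (fun n => n % q = r)).card : ℝ) - ((β : ℝ) - α) / q| ≤ 1 := by
  have h := card_ioc (α : ℤ) (β : ℤ) (r : ℤ) q hq (by exact_mod_cast hαβ)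
  have e : ((Ioc α β).filter (fun n => n % q = r)).card = ((Ioc (α : ℤ) β).filter (fun x => x ≡ r [ZMOD q])).card := by
    refine card_bij (fun (n : ℕ) _ => ((n : ℕ) : ℤ)) ?_ ?_ ?_
    · intro n hn
      rw [mem_filter, mem_Ioc] at hn
      rw [mem_filter, mem_Ioc]
      refine ⟨⟨by exact_mod_cast hn.1.1, by exact_mod_cast hn.1.2⟩, ?_⟩
      rw [Int.natCast_modEq_iff]
      unfold Nat.ModEq
      rw [hn.2, Nat.mod_eq_of_lt hr]
    · intro n _ m _ h
      exact_mod_cast h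
    · intro x hx
      rw [mem_filter, mem_Ioc] at hx
      refine ⟨x.toNat, ?_, by omega⟩
      rw [mem_filter, mem_Ioc]
      refine ⟨by omega, ?_⟩
      have h1 : ((x.toNat : ℕ) : ℤ) ≡ r [ZMOD q] := by
        rw [Int.toNat_of_nonneg (by omega)]
        exact hx.2
      rw [Int.natCast_modEq_iff] at h1
      unfold Nat.ModEq at h1
      rw [h1, Nat.mod_eq_of_lt hr]
  rw [e]
  rw [Int.cast_natCast, Int.cast_natCast] at h
  exact h

/-- the total variation -/
noncomputable def TV (b : ℕ → ℝ) (α β : ℕ) : ℝ := ∑ n ∈ Ioc α β, |b (n + 1) - b n|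

lemma TV_nonneg (b : ℕ → ℝ) (α β : ℕ) : 0 ≤ TV b α β := sum_nonneg fun _ _ => abs_nonneg _

/-- Abel summation -/
lemma abel (b e : ℕ → ℝ) (α β : ℕ) (hαβ : α ≤ β) (hb : ∀ n, |b n| ≤ 1) (hE : ∀ m, α ≤ m → |∑ n ∈ Ioc α m, e n| ≤ 1) :
    |∑ n ∈ Ioc α β, b n * e n| ≤ 1 + TV b α β := by
  have key : ∀ m, α ≤ m → ∑ n ∈ Ioc α m, b n * e n = b (m + 1) * (∑ n ∈ Ioc α m, e n) -
      ∑ n ∈ Ioc α m, (b (n + 1) - b n) * ∑ k ∈ Ioc α n, e k := by
    intro m hm
    induction m, hm using Nat.le_induction with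
    | base => simp
    | succ m hm ih =>
      rw [sum_Ioc_succ_top hm, sum_Ioc_succ_top hm, sum_Ioc_succ_top hm, sum_Ioc_succ_top hm, ih]
      ring
  rw [key β hαβ]
  refine (abs_sub _ _).trans ?_
  have h1 : |b (β + 1) * ∑ n ∈ Ioc α β, e n| ≤ 1 := by
    rw [abs_mul]
    calc |b (β + 1)| * |∑ n ∈ Ioc α β, e n| ≤ 1 * 1 := mul_le_mul (hb _) (hE β hαβ) (abs_nonneg _) zero_le_one
      _ = 1 := one_mul 1
  have h2 : |∑ n ∈ Ioc α β, (b (n + 1) - b n) * ∑ k ∈ Ioc α n, e k| ≤ TV b α β := by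
    unfold TV
    refine (abs_sum_le_sum_abs _ _).trans (sum_le_sum fun n hn => ?_)
    rw [abs_mul]
    exact mul_le_of_le_one_right (abs_nonneg _) (hE n (mem_Ioc.1 hn).1.le)
  linarith

/-- the weights in residue classes -/
lemma res_abel (b : ℕ → ℝ) (α β q r : ℕ) (hq : 1 ≤ q) (hαβ : α ≤ β) (hr : r < q) (hb : ∀ n, |b n| ≤ 1) :
    |∑ n ∈ (Ioc α β).filter (fun n => n % q = r), b n - (∑ n ∈ Ioc α β, b n) / q| ≤ 1 + TV b α β := by
  have h := abel b (fun n => (if n % q = r then 1 else 0) - 1 / (q : ℝ)) α β hαβ hb (by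
    intro m hm
    rw [sum_sub_distrib, sum_const, nsmul_eq_mul, Nat.card_Ioc, ← sum_filter, sum_const, nsmul_eq_mul, mul_one]
    have h1 := card_res α m q r hq hm hr
    refine le_trans (le_of_eq ?_) h1
    congr 2
    push_cast [hm]
    ring)
  refine le_trans (le_of_eq ?_) h
  congr 1
  rw [sum_filter, sum_div, ← sum_sub_distrib]
  apply sum_congr rfl
  intro n _
  split_ifs <;> ring

/-- **the second moment of the sieve weights about the constant** -/
theorem second (s d D A B : ℕ) (hd1 : 1 ≤ d) (hd : d ≤ D) (hAB : 2 * B + s ≤ A) : ∃ H0 : ℕ, ∀ H : ℕ, H0 ≤ H →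
    ∀ z : ℕ, (z : ℝ) ≤ Real.log H ^ B →
    ∀ h : Fin s → ℤ[X], (∀ i, (h i).natDegree ≤ D) → ∀ g : Fin s → Fin (d + 1) → ℤ,
    ∀ α β : ℕ, α ≤ β → β ≤ z → ∀ b : ℕ → ℝ, (∀ n, |b n| ≤ 1) →
    ∑ a ∈ fam H 1 g, (∑ n ∈ Ioc α β, b n * Yn z (vh h) a n - (∑ n ∈ Ioc α β, b n) * Cc z (vh h) a) ^ 2 ≤
      (4 * (TV b α β + 3) * MP z ^ s * ((β : ℝ) - α) + 1) * (fam H 1 g).card := by
  classical
  obtain ⟨H1, h1⟩ := quad s d (A + 2) B hd1
  obtain ⟨H2, h2⟩ := Cc_mean s d D (A + 2) B hd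
  obtain ⟨H3, h3⟩ := MP_small B
  obtain ⟨H4, h4⟩ := evN _ (Real.tendsto_log_atTop.eventually_ge_atTop 4)
  obtain ⟨H5, h5⟩ := evN _ (ev_pow B 2 (1 / 10) (by norm_num))
  refine ⟨max (max H1 H2) (max (max H3 H4) (max H5 (2 ^ 20))), fun H hH z hz h hD g α β hαβ hβ b hb => ?_⟩
  have hL4 := h4 H (by omega)
  have hMP := h3 H (by omega) z hz
  have hMP1 := MP_ge_one z
  have hN10 := h5 H (by omega)
  have hH1 : (1 : ℝ) ≤ H := by
    have : 1 ≤ H := by omega
    exact_mod_cast this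
  have hH0 : (0 : ℝ) < H := by linarith
  obtain ⟨N, hN⟩ : ∃ N : ℕ, N = ⌊(H : ℝ) ^ (1 / 10 : ℝ)⌋₊ := ⟨_, rfl⟩
  have hNle : (N : ℝ) ≤ (H : ℝ) ^ (1 / 10 : ℝ) := by rw [hN]; exact Nat.floor_le (by positivity)
  have hNgt : (H : ℝ) ^ (1 / 10 : ℝ) < N + 1 := by rw [hN]; exact Nat.lt_floor_add_one _
  set L := Real.log H with hL
  have hL1 : 1 ≤ L := by linarith
  have hL0 : 0 < L := by linarith
  have p0 : ∀ a : ℕ, 0 < L ^ a := fun a => by positivity
  have hNz : z ≤ N := by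
    have h6 : (z : ℝ) < N + 1 := by
      calc (z : ℝ) ≤ L ^ B := hz
        _ ≤ 2 * L ^ B := by linarith [p0 B]
        _ ≤ (H : ℝ) ^ (1 / 10 : ℝ) := hN10
        _ < N + 1 := hNgt
    have h7 : z < N + 1 := by exact_mod_cast h6
    omega
  have hN20 : (H : ℝ) ^ (1 / 20 : ℝ) ≤ N := by
    have h7 : (H : ℝ) ^ (1 / 10 : ℝ) = (H : ℝ) ^ (1 / 20 : ℝ) * (H : ℝ) ^ (1 / 20 : ℝ) := by
      rw [← Real.rpow_add hH0]
      norm_num
    have h8 : (2 : ℝ) ≤ (H : ℝ) ^ (1 / 20 : ℝ) := by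
      have h9 : ((2 : ℝ) ^ 20) ≤ H := by
        have : 2 ^ 20 ≤ H := by omega
        exact_mod_cast this
      calc (2 : ℝ) = ((2 : ℝ) ^ 20) ^ (1 / 20 : ℝ) := by
            rw [← Real.rpow_natCast, ← Real.rpow_mul (by norm_num)]
            norm_num
        _ ≤ (H : ℝ) ^ (1 / 20 : ℝ) := Real.rpow_le_rpow (by norm_num) h9 (by norm_num)
    nlinarith
  have hN1 : (1 : ℝ) ≤ N := (Real.one_le_rpow hH1 (by norm_num)).trans hN20
  have hN0 : (0 : ℝ) < N := by linarith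
  -- notation
  set v := vh h with hv
  set I := Ioc α β with hI
  set S := ∑ n ∈ I, b n with hS
  set ℓ : ℝ := (β : ℝ) - α with hℓ
  have hℓ0 : 0 ≤ ℓ := by
    rw [hℓ, sub_nonneg]
    exact_mod_cast hαβ
  have hIcard : ((I.card : ℕ) : ℝ) = ℓ := by
    rw [hI, Nat.card_Ioc, hℓ]
    push_cast [hαβ]
    ring
  have hSle : |S| ≤ ℓ := by
    rw [hS]
    refine (abs_sum_le_sum_abs _ _).trans ((sum_le_sum fun n _ => hb n).trans (le_of_eq ?_))
    rw [sum_const, nsmul_eq_mul, mul_one, hIcard]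
  have hℓN : ℓ ≤ N := by
    have h6 : (β : ℝ) ≤ N := by exact_mod_cast hβ.trans hNz
    have h7 : (0 : ℝ) ≤ α := Nat.cast_nonneg _
    linarith
  have hℓL : ℓ ≤ L ^ B := by
    have h6 : (β : ℝ) ≤ z := by exact_mod_cast hβ
    have h7 : (0 : ℝ) ≤ α := Nat.cast_nonneg _
    linarith
  have hIJ : I ⊆ Ioc 0 N := by
    intro n hn
    rw [hI, mem_Ioc] at hn
    rw [mem_Ioc]
    omega
  set c : ℕ → ℝ := fun n => (if n ∈ I then b n else 0) - S / N with hc
  have hTV := TV_nonneg b α β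
  have hcres : ∀ q : ℕ, 1 ≤ q → ∀ r, |∑ n ∈ (Ioc 0 N).filter (fun n => n % q = r), c n| ≤ TV b α β + 2 := by
    intro q hq r
    rcases lt_or_ge r q with hr | hr
    · have e1 : ∑ n ∈ (Ioc 0 N).filter (fun n => n % q = r), c n =
          ∑ n ∈ I.filter (fun n => n % q = r), b n - S / N * ((Ioc 0 N).filter (fun n => n % q = r)).card := by
        rw [hc]
        simp only
        rw [sum_sub_distrib, sum_const, nsmul_eq_mul, ← sum_filter, filter_filter]
        congr 1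
        · apply sum_congr _ fun _ _ => rfl
          ext n
          simp only [mem_filter]
          constructor
          · rintro ⟨_, h6, h7⟩
            exact ⟨h7, h6⟩
          · rintro ⟨h6, h7⟩
            exact ⟨hIJ h6, h7, h6⟩
        · ring
      rw [e1]
      have h6 := res_abel b α β q r hq hαβ hr hb
      have h7 := card_res 0 N q r hq (Nat.zero_le _) hr
      rw [← hI, ← hS] at h6
      have h8 : |S / N * (((Ioc 0 N).filter (fun n => n % q = r)).card - ((N : ℝ) - (0 : ℕ)) / q)| ≤ 1 := by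
        rw [abs_mul]
        have h9 : |S / N| ≤ 1 := by
          rw [abs_div, Nat.abs_cast, div_le_one hN0]
          exact hSle.trans hℓN
        calc _ ≤ 1 * 1 := mul_le_mul h9 h7 (abs_nonneg _) zero_le_one
          _ = 1 := one_mul 1
      have e2 : ∑ n ∈ I.filter (fun n => n % q = r), b n - S / N * ((Ioc 0 N).filter (fun n => n % q = r)).card =
          (∑ n ∈ I.filter (fun n => n % q = r), b n - S / q) -
            S / N * (((Ioc 0 N).filter (fun n => n % q = r)).card - ((N : ℝ) - (0 : ℕ)) / q) := by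
        push_cast
        field_simp
        ring
      rw [e2]
      refine (abs_sub _ _).trans ?_
      linarith
    · have e1 : (Ioc 0 N).filter (fun n => n % q = r) = ∅ := by
        rw [filter_eq_empty_iff]
        intro n _ h6
        have := Nat.mod_lt n (show 0 < q by omega)
        omega
      rw [e1, sum_empty, abs_zero]
      linarith
  have hcsum : ∑ n ∈ Ioc 0 N, |c n| ≤ 2 * ℓ := by
    calc ∑ n ∈ Ioc 0 N, |c n| ≤ ∑ n ∈ Ioc 0 N, ((if n ∈ I then 1 else 0) + ℓ / N) := by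
          apply sum_le_sum
          intro n _
          rw [hc]
          simp only
          refine (abs_sub _ _).trans (add_le_add ?_ ?_)
          · split_ifs
            · exact hb n
            · simp
          · rw [abs_div, Nat.abs_cast]
            gcongr
      _ = ℓ + ℓ := by
          rw [sum_add_distrib, ← sum_filter, sum_const, sum_const, nsmul_eq_mul, nsmul_eq_mul, mul_one, Nat.card_Ioc]
          congr 1
          · rw [← hIcard]
            congr 2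
            ext n
            rw [mem_filter]
            exact ⟨fun h => h.2, fun h => ⟨hIJ h, h⟩⟩
          · rw [Nat.sub_zero]
            field_simp
      _ = 2 * ℓ := by ring
  -- the quadratic form
  have hyg : ∀ n, yg z 1 v g n = 1 := by
    intro n
    unfold yg
    apply prod_eq_one
    intro i _
    unfold yw Pool.Agent.H77.BV.hz
    have e1 : (prN z).filter (fun p : ℕ => (p : ℤ) ∣ ((1 : ℕ) : ℤ)) = ∅ := by
      rw [filter_eq_empty_iff]
      intro p hp h6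
      have h7 := (mem_prN.1 hp).2.one_lt
      have h8 := Int.natCast_dvd_natCast.1 h6
      have h9 := Nat.dvd_one.1 h8
      omega
    rw [e1, prod_empty, if_pos]
    intro p hp h6
    exfalso
    have h7 : p ∈ (prN z).filter (fun p : ℕ => (p : ℤ) ∣ ((1 : ℕ) : ℤ)) := mem_filter.2 ⟨hp, h6⟩
    rw [e1] at h7
    exact absurd h7 (notMem_empty _)
  have hquad := h1 H (by omega) z 1 hz le_rfl (by rw [Nat.cast_one]; exact one_le_pow₀ hL1) v (pol_vh h) g (Ioc 0 N) (by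
    intro m hm
    refine le_trans ?_ hNle
    exact_mod_cast (mem_Ioc.1 hm).2) c
  simp only [hyg, mul_one] at hquad
  have hQF := QF_le s z 1 (Ioc 0 N) c (TV b α β + 2) hcres
  have hhh : hh z 1 0 ^ s ≤ MP z ^ s := pow_le_pow_left₀ (zero_le_one.trans (hh_ge_one _ _ _)) (hh_le _ _ _) s
  have hhh0 : 0 ≤ hh z 1 0 ^ s := pow_nonneg (zero_le_one.trans (hh_ge_one _ _ _)) _
  have hc0 : (0 : ℝ) ≤ (fam H 1 g).card := Nat.cast_nonneg _
  have hQ2 : QF s z 1 (Ioc 0 N) c ≤ 2 * (TV b α β + 2) * MP z ^ s * ℓ := by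
    refine hQF.trans ?_
    calc (TV b α β + 2) * (∑ n ∈ Ioc 0 N, |c n|) * hh z 1 0 ^ s ≤ (TV b α β + 2) * (2 * ℓ) * MP z ^ s := by gcongr
      _ = _ := by ring
  have hE : (∑ n ∈ Ioc 0 N, |c n|) ^ 2 * ((fam H 1 g).card / L ^ (A + 2)) ≤ 1 / 4 * (fam H 1 g).card := by
    have h6 : (∑ n ∈ Ioc 0 N, |c n|) ^ 2 ≤ 4 * L ^ A := by
      calc (∑ n ∈ Ioc 0 N, |c n|) ^ 2 ≤ (2 * L ^ B) ^ 2 := by
            apply pow_le_pow_left₀ (sum_nonneg fun _ _ => abs_nonneg _)
            linarith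
        _ = 4 * L ^ (2 * B) := by ring
        _ ≤ 4 * L ^ A := by
            gcongr
            omega
    calc (∑ n ∈ Ioc 0 N, |c n|) ^ 2 * ((fam H 1 g).card / L ^ (A + 2)) ≤ 4 * L ^ A * ((fam H 1 g).card / L ^ (A + 2)) := by gcongr
      _ = 4 / L ^ 2 * (fam H 1 g).card := by
          rw [pow_add]
          field_simp
      _ ≤ 1 / 4 * (fam H 1 g).card := by
          have h7 : 4 / L ^ 2 ≤ 1 / 4 := by
            rw [div_le_div_iff₀ (p0 2) (by norm_num)]
            nlinarith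
          exact mul_le_mul_of_nonneg_right h7 hc0
  have hsq1 : ∑ a ∈ fam H 1 g, (∑ n ∈ Ioc 0 N, c n * Yn z v a n) ^ 2 ≤
      (2 * (TV b α β + 2) * MP z ^ s * ℓ + 1 / 4) * (fam H 1 g).card := by
    have h6 := (abs_le.1 hquad).2
    have h7 : QF s z 1 (Ioc 0 N) c * (fam H 1 g).card ≤ 2 * (TV b α β + 2) * MP z ^ s * ℓ * (fam H 1 g).card := by gcongr
    linarith
  -- the mean over the long interval
  have hlong : ∀ a ∈ fam H 1 g, (∑ n ∈ I, b n * Yn z v a n - S * Cc z v a) ^ 2 ≤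
      2 * (∑ n ∈ Ioc 0 N, c n * Yn z v a n) ^ 2 + 1 / 4 := by
    intro a _
    have h6 := h2 H (by omega) z hz h hD a N hN20
    rw [← hv] at h6
    have e1 : ∑ n ∈ Ioc 0 N, c n * Yn z v a n = ∑ n ∈ I, b n * Yn z v a n - S / N * ∑ n ∈ Ioc 0 N, Yn z v a n := by
      rw [hc]
      simp only [sub_mul, ite_mul, zero_mul]
      rw [sum_sub_distrib, ← sum_filter, mul_sum]
      congr 1
      apply sum_congr _ fun _ _ => rfl
      ext n
      rw [mem_filter]
      exact ⟨fun h => h.2, fun h => ⟨hIJ h, h⟩⟩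
    have e2 : ∑ n ∈ I, b n * Yn z v a n - S * Cc z v a = ∑ n ∈ Ioc 0 N, c n * Yn z v a n +
        S / N * (∑ n ∈ Ioc 0 N, Yn z v a n - N * Cc z v a) := by
      rw [e1]
      field_simp
      ring
    have h7 : |S / N * (∑ n ∈ Ioc 0 N, Yn z v a n - N * Cc z v a)| ≤ 1 / 4 := by
      rw [abs_mul, abs_div, Nat.abs_cast]
      calc |S| / N * |∑ n ∈ Ioc 0 N, Yn z v a n - N * Cc z v a| ≤ L ^ B / N * (N / L ^ (A + 2)) := by
            gcongr
            exact hSle.trans hℓL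
        _ = L ^ B / L ^ (A + 2) := by field_simp
        _ ≤ L ^ A / L ^ (A + 2) := by
            gcongr
            omega
        _ = 1 / L ^ 2 := by
            rw [pow_add]
            field_simp
        _ ≤ 1 / 4 := by
            apply one_div_le_one_div_of_le (by norm_num)
            nlinarith
    rw [e2]
    have h8 := sq_abs (S / N * (∑ n ∈ Ioc 0 N, Yn z v a n - N * Cc z v a))
    have h9 : (S / N * (∑ n ∈ Ioc 0 N, Yn z v a n - N * Cc z v a)) ^ 2 ≤ 1 / 16 := by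
      rw [← h8]
      nlinarith [abs_nonneg (S / N * (∑ n ∈ Ioc 0 N, Yn z v a n - N * Cc z v a))]
    nlinarith [sq_nonneg (∑ n ∈ Ioc 0 N, c n * Yn z v a n - S / N * (∑ n ∈ Ioc 0 N, Yn z v a n - N * Cc z v a))]
  calc ∑ a ∈ fam H 1 g, (∑ n ∈ I, b n * Yn z v a n - S * Cc z v a) ^ 2
      ≤ ∑ a ∈ fam H 1 g, (2 * (∑ n ∈ Ioc 0 N, c n * Yn z v a n) ^ 2 + 1 / 4) := sum_le_sum hlong
    _ = 2 * ∑ a ∈ fam H 1 g, (∑ n ∈ Ioc 0 N, c n * Yn z v a n) ^ 2 + 1 / 4 * (fam H 1 g).card := by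
        rw [sum_add_distrib, ← mul_sum, sum_const, nsmul_eq_mul]
        ring
    _ ≤ 2 * ((2 * (TV b α β + 2) * MP z ^ s * ℓ + 1 / 4) * (fam H 1 g).card) + 1 / 4 * (fam H 1 g).card := by gcongr
    _ ≤ (4 * (TV b α β + 3) * MP z ^ s * ℓ + 1) * (fam H 1 g).card := by
        have h6 : 0 ≤ MP z ^ s * ℓ := by positivity
        have h7 : 2 * (2 * (TV b α β + 2) * MP z ^ s * ℓ + 1 / 4) + 1 / 4 ≤ 4 * (TV b α β + 3) * MP z ^ s * ℓ + 1 := by
          nlinarith
        calc _ = (2 * (2 * (TV b α β + 2) * MP z ^ s * ℓ + 1 / 4) + 1 / 4) * (fam H 1 g).card := by ring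
          _ ≤ _ := by gcongr

end Pool.Agent.H77.BV
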