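import Mathlib
import Pool.Agent.H77.BV.S2
import Pool.Graph.R_pool_sql_team_seeded_efc1946e.K1H89.PL.A9

/-! The squares of the logarithmic weights. -/

set_option autoImplicit false

namespace Pool.Agent.H77.BV

open Finset Polynomial
open Pool.Agent.K1H89.PL
open Pool.Agent.K1H89.Ev (evN ev_pow)

/-- counting with a condition on one component -/
lemma fam_comp {s d : ℕ} (H W : ℕ) (g : Fin s → Fin (d + 1) → ℤ) (i : Fin s) (P : (Fin (d + 1) → ℤ) → Prop) [DecidablePred P]
    (κ : ℝ) (h : (((box d H W (g i)).filter P).card : ℝ) ≤ κ * (box d H W (g i)).card) :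
    (((fam H W g).filter (fun a => P (a i))).card : ℝ) ≤ κ * (fam H W g).card := by
  classical
  have e1 : (fam H W g).filter (fun a => P (a i)) = Fintype.piFinset (Function.update (fun j => box d H W (g j)) i
        ((box d H W (g i)).filter P)) := by
    ext a
    unfold fam
    rw [mem_filter, Fintype.mem_piFinset, Fintype.mem_piFinset]
    constructor
    · rintro ⟨h1, h2⟩ j
      by_cases hj : j = i
      · subst hj
        rw [Function.update_self, mem_filter]
        exact ⟨h1 j, h2⟩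
      · rw [Function.update_of_ne hj]
        exact h1 j
    · intro h1
      have h2 := h1 i
      rw [Function.update_self, mem_filter] at h2
      refine ⟨fun j => ?_, h2.2⟩
      by_cases hj : j = i
      · subst hj
        exact h2.1
      · have h3 := h1 j
        rwa [Function.update_of_ne hj] at h3
  rw [e1]
  unfold fam
  rw [Fintype.card_piFinset, Fintype.card_piFinset, ← mul_prod_erase univ _ (mem_univ i),
    ← mul_prod_erase univ (fun i => (box d H W (g i)).card) (mem_univ i)]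
  have e : ∏ j ∈ univ.erase i, (Function.update (fun i => box d H W (g i)) i ((box d H W (g i)).filter P) j).card =
      ∏ j ∈ univ.erase i, (box d H W (g j)).card := by
    apply prod_congr rfl
    intro j hj
    rw [Function.update_of_ne (ne_of_mem_erase hj)]
  rw [e, Function.update_self]
  push_cast
  rw [← mul_assoc]
  gcongr

lemma MP_tiny (B k : ℕ) (c : ℝ) : ∃ H0 : ℕ, ∀ H : ℕ, H0 ≤ H → ∀ z : ℕ, (z : ℝ) ≤ Real.log H ^ B →
    c * MP z ^ k ≤ Real.log H := by
  obtain ⟨K, hK1, hK⟩ := mert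
  obtain ⟨H2, h2⟩ := evN _ ((Real.tendsto_log_atTop.eventually (ev_pow k (|c| * (K * (B + 1)) ^ k) 1 one_pos)).and
    (Real.tendsto_log_atTop.eventually_ge_atTop 4))
  refine ⟨H2, fun H hH z hz => ?_⟩
  obtain ⟨h3, h4⟩ := h2 H (by omega)
  rw [Real.rpow_one] at h3
  set L := Real.log H with hL
  have hL0 : 0 < L := by linarith
  have hℓ1 : 1 ≤ Real.log L := by
    rw [Real.le_log_iff_exp_le hL0]
    have := Real.exp_one_lt_d9
    linarith
  have hMP : MP z ≤ K * (B + 1) * Real.log L := by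
    rcases lt_or_ge z 2 with hz2 | hz2
    · have h5 : MP z ≤ MP 2 := by
        rw [← hz_zero, ← hz_zero]
        unfold Pool.Agent.H77.BV.hz
        apply pr_sub_le
        · intro p hp
          rw [mem_filter, mem_prN] at hp ⊢
          exact ⟨⟨by omega, hp.1.2⟩, hp.2⟩
        · intro p hp
          exact one_le_inv (mem_prN.1 (mem_filter.1 hp).1).2
      have h6 := hK 2 le_rfl
      have h7 : Real.log (2 : ℕ) ≤ 1 := by
        have := Real.log_two_lt_d9
        push_cast
        linarith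
      have h8 : K * Real.log (2 : ℕ) ≤ K * ((B + 1) * Real.log L) := by
        apply mul_le_mul_of_nonneg_left _ (by linarith)
        have : (0 : ℝ) ≤ B := Nat.cast_nonneg _
        nlinarith
      linarith
    · have h5 := hK z hz2
      have hz0 : (0 : ℝ) < z := by exact_mod_cast (by omega : 0 < z)
      have h6 : Real.log z ≤ B * Real.log L := by
        have := Real.log_le_log hz0 hz
        rwa [Real.log_pow] at this
      calc MP z ≤ K * Real.log z := h5
        _ ≤ K * (B * Real.log L) := by gcongr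
        _ ≤ K * (B + 1) * Real.log L := by nlinarith
  have hMP0 : 0 ≤ MP z := zero_le_one.trans (MP_ge_one z)
  calc c * MP z ^ k ≤ |c| * MP z ^ k := mul_le_mul_of_nonneg_right (le_abs_self c) (pow_nonneg hMP0 _)
    _ ≤ |c| * (K * (B + 1) * Real.log L) ^ k := by gcongr
    _ = |c| * (K * (B + 1)) ^ k * Real.log L ^ k := by rw [mul_pow]; ring
    _ ≤ L := h3

lemma pow_near (m : ℕ) (x η : ℝ) (hx : 0 ≤ x) (hη : 0 ≤ η) (hη1 : η ≤ 1) (h : 2 * (m : ℝ) * x ≤ η) :
    (1 + x) ^ m ≤ 1 + η ∧ 1 - η ≤ (1 - x) ^ m := by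
  have hm0 : (0 : ℝ) ≤ m := Nat.cast_nonneg _
  rcases Nat.eq_zero_or_pos m with h0 | hpos
  · subst h0
    simp only [pow_zero]
    constructor <;> linarith
  have hm1 : (1 : ℝ) ≤ m := by exact_mod_cast hpos
  have hx1 : x ≤ 1 / 2 := by nlinarith
  have h1 : 1 - m * x ≤ (1 - x) ^ m := by
    have := one_add_mul_le_pow (a := -x) (by linarith) m
    have e : (1 : ℝ) + m * -x = 1 - m * x := by ring
    have e2 : (1 : ℝ) + -x = 1 - x := by ring
    rw [e, e2] at this
    exact this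
  constructor
  · have h2 : (1 + x) ^ m * (1 - x) ^ m ≤ 1 := by
      rw [← mul_pow]
      apply pow_le_one₀ <;> nlinarith
    have h3 : 0 < 1 - m * x := by nlinarith
    have h4 : (1 + x) ^ m * (1 - m * x) ≤ 1 := (mul_le_mul_of_nonneg_left h1 (by positivity)).trans h2
    have h5 : 1 ≤ (1 + η) * (1 - m * x) := by nlinarith
    by_contra hcon
    push Not at hcon
    nlinarith
  · nlinarith

/-- the squares of the logarithmic weights count primes -/
theorem sq_count (s d B K C : ℕ) (η : ℝ) (hη : 0 < η) (hη1 : η ≤ 1) : ∃ H0 : ℕ, ∀ H : ℕ, H0 ≤ H → ∀ W : ℕ, 1 ≤ W →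
    (W : ℝ) ≤ Real.log H ^ B → ∀ v : Fin s → ℕ → ℤ,
    (∀ i, ∀ n : ℕ, (n : ℝ) ≤ Real.log H ^ B → |((v i n : ℤ) : ℝ)| ≤ H * Real.log H ^ B) →
    ∀ g : Fin s → Fin (d + 1) → ℤ, ∀ A : Finset ℕ, A.card ≤ K → (∀ n ∈ A, (n : ℝ) ≤ Real.log H ^ B) →
    |∑ a ∈ fam H W g, ∏ n ∈ A, Xn v a n ^ 2 - ((Real.log H ^ s) ^ 2) ^ A.card * (PA H W v g A * (fam H W g).card)| ≤
      η * (((Real.log H ^ s) ^ 2) ^ A.card * (PA H W v g A * (fam H W g).card)) + (fam H W g).card / Real.log H ^ C := by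
  classical
  obtain ⟨B2, hB2⟩ : ∃ e, e = B + B * d + 1 := ⟨_, rfl⟩
  obtain ⟨C1, hC1⟩ : ∃ e, e = 4 * (s * K) + 1 + C := ⟨_, rfl⟩
  obtain ⟨η', hη'⟩ : ∃ e : ℝ, e = η / (4 * (s * K) + 4) := ⟨_, rfl⟩
  have hη'0 : 0 < η' := by rw [hη']; positivity
  obtain ⟨H1, h1⟩ := evN _ ((Real.tendsto_log_atTop.eventually (ev_pow 1 ((B2 + C1 : ℝ) / η') 1 one_pos)).and
    (Real.tendsto_log_atTop.eventually_ge_atTop (max 4 (3 * ((s : ℝ) * K) + d + 3))))
  obtain ⟨H2, h2⟩ := evN _ (ev_pow (C1 + B + B2) 4 1 one_pos)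
  refine ⟨max (max H1 H2) 1, fun H hH W hW1 hWB v hv g A hA hAB => ?_⟩
  obtain ⟨h3, h4⟩ := h1 H (by omega)
  have h5 := h2 H (by omega)
  rw [Real.rpow_one] at h3 h5
  set L := Real.log H with hL
  have hL4 : 4 ≤ L := (le_max_left _ _).trans h4
  have hLK : 3 * (s * K) + d + 3 ≤ L := (le_max_right _ _).trans h4
  have hL1 : 1 ≤ L := by linarith
  have hL0 : 0 < L := by linarith
  have p0 : ∀ a : ℕ, 0 < L ^ a := fun a => by positivity
  have pw : ∀ {a b : ℕ}, a ≤ b → L ^ a ≤ L ^ b := fun h => pow_le_pow_right₀ hL1 h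
  have hH1 : (1 : ℝ) ≤ H := by
    have : 1 ≤ H := by omega
    exact_mod_cast this
  have hH0 : (0 : ℝ) < H := by linarith
  have hsK0 : (0 : ℝ) ≤ s * K := by positivity
  have hd0 : (0 : ℝ) ≤ d := Nat.cast_nonneg _
  have hlogL : (B2 + C1) * Real.log L ≤ η' * L := by
    rw [pow_one, div_mul_eq_mul_div, div_le_iff₀ hη'0] at h3
    linarith
  have hℓ0 : 0 ≤ Real.log L := Real.log_nonneg hL1
  have hWH : W ≤ H := by
    have : (W : ℝ) ≤ H := by
      calc (W : ℝ) ≤ L ^ B := hWB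
        _ ≤ L ^ (C1 + B + B2) := pw (by omega)
        _ ≤ H := by linarith [p0 (C1 + B + B2)]
    exact_mod_cast this
  obtain ⟨Y, hY⟩ : ∃ Y : ℕ, Y = ⌊(H : ℝ) / L ^ C1⌋₊ := ⟨_, rfl⟩
  have hYle : (Y : ℝ) ≤ H / L ^ C1 := by rw [hY]; exact Nat.floor_le (by positivity)
  have hYgt : (H : ℝ) / L ^ C1 < Y + 1 := by rw [hY]; exact Nat.lt_floor_add_one _
  have hc0 : (0 : ℝ) ≤ (fam H W g).card := Nat.cast_nonneg _
  -- values
  have hvalb : ∀ a ∈ fam H W g, ∀ i, ∀ n ∈ A, |((val v a i n : ℤ) : ℝ)| ≤ H * L ^ B2 := by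
    intro a ha i n hn
    have h6 := val_le ha i n (L ^ B) (H * L ^ B) (one_le_pow₀ hL1) (hAB n hn) (hv i n (hAB n hn))
    refine h6.trans ?_
    rw [← pow_mul]
    calc (H : ℝ) * L ^ B + (d + 1) * (H * L ^ (B * d)) ≤ H * L ^ (B + B * d) + (d + 1) * (H * L ^ (B + B * d)) := by
          gcongr
          · exact Nat.le_add_right _ _
          · exact Nat.le_add_left _ _
      _ = H * L ^ (B + B * d) * (d + 2) := by ring
      _ ≤ H * L ^ (B + B * d) * L := by gcongr; linarith
      _ = H * L ^ B2 := by rw [hB2, pow_succ]; ring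
  have hlogX : Real.log (H * L ^ B2) ≤ (1 + η') * L := by
    rw [Real.log_mul hH0.ne' (p0 _).ne', Real.log_pow, ← hL]
    have : (0 : ℝ) ≤ C1 := Nat.cast_nonneg _
    nlinarith
  have hX1 : (1 : ℝ) ≤ H * L ^ B2 := by
    have := one_le_pow₀ hL1 (n := B2)
    nlinarith
  have hup : ∀ a ∈ fam H W g, ∀ i, ∀ n ∈ A, th (val v a i n) ≤ (1 + η') * L := fun a ha i n hn =>
    (th_le_log hX1 (hvalb a ha i n hn)).trans hlogX
  have hη'1 : η' ≤ 1 / 4 := by
    rw [hη', div_le_iff₀ (by positivity)]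
    linarith
  have hlow : ∀ x : ℤ, ¬ |x| ≤ (Y : ℤ) → x.natAbs.Prime → (1 - η') * L ≤ th x := by
    intro x hx hp
    unfold th
    rw [if_pos hp]
    have h6 : (H : ℝ) / L ^ C1 ≤ (x.natAbs : ℝ) := by
      refine hYgt.le.trans ?_
      rw [Int.abs_eq_natAbs] at hx
      have h8 : Y + 1 ≤ x.natAbs := by omega
      exact_mod_cast h8
    have h7 := Real.log_le_log (by positivity) h6
    rw [Real.log_div hH0.ne' (p0 _).ne', Real.log_pow, ← hL] at h7
    have : (0 : ℝ) ≤ B2 := Nat.cast_nonneg _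
    nlinarith
  -- small values
  set E := (fam H W g).filter (fun a => ∃ i, ∃ n ∈ A, |val v a i n| ≤ (Y : ℤ)) with hE
  have hEcard : (E.card : ℝ) ≤ (s * K) * (3 / L ^ C1) * (fam H W g).card := by
    have hsub : E ⊆ univ.biUnion (fun i : Fin s => A.biUnion (fun n => (fam H W g).filter (fun a => |pv (v i) (a i) n| ≤ (Y : ℤ)))) := by
      intro a ha
      rw [hE, mem_filter] at ha
      obtain ⟨h6, i, n, hn, h7⟩ := ha
      rw [mem_biUnion]
      refine ⟨i, mem_univ _, ?_⟩
      rw [mem_biUnion]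
      exact ⟨n, hn, mem_filter.2 ⟨h6, h7⟩⟩
    have hone : ∀ i : Fin s, ∀ n : ℕ, (((fam H W g).filter (fun a => |pv (v i) (a i) n| ≤ (Y : ℤ))).card : ℝ) ≤
        3 / L ^ C1 * (fam H W g).card := by
      intro i n
      apply fam_comp H W g i (fun b => |pv (v i) b n| ≤ (Y : ℤ))
      refine (box_small d H W Y (g i) (v i) n hW1 hWH).trans ?_
      apply mul_le_mul_of_nonneg_right _ (Nat.cast_nonneg _)
      rw [div_le_div_iff₀ hH0 (p0 _)]
      have h6 : (2 * (Y : ℝ) + 1 + W) * L ^ C1 ≤ (2 * (H / L ^ C1) + 1 + L ^ B) * L ^ C1 := by gcongr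
      have h7 : (2 * ((H : ℝ) / L ^ C1) + 1 + L ^ B) * L ^ C1 = 2 * H + (1 + L ^ B) * L ^ C1 := by
        have h71 : (H : ℝ) / L ^ C1 * L ^ C1 = H := div_mul_cancel₀ _ (p0 _).ne'
        linear_combination 2 * h71
      have h8 : (1 + L ^ B) * L ^ C1 ≤ H := by
        calc (1 + L ^ B) * L ^ C1 ≤ (2 * L ^ B) * L ^ C1 := by
              gcongr
              linarith [one_le_pow₀ hL1 (n := B)]
          _ = 2 * L ^ (C1 + B) := by rw [pow_add]; ring
          _ ≤ 2 * L ^ (C1 + B + B2) := by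
              gcongr ?_ * ?_
              exact pw (by omega)
          _ ≤ H := by linarith [p0 (C1 + B + B2)]
      linarith
    calc (E.card : ℝ) ≤ ((univ.biUnion (fun i : Fin s => A.biUnion (fun n => (fam H W g).filter (fun a => |pv (v i) (a i) n| ≤ (Y : ℤ))))).card : ℝ) := by
          exact_mod_cast card_le_card hsub
      _ ≤ ∑ i : Fin s, ((A.biUnion (fun n => (fam H W g).filter (fun a => |pv (v i) (a i) n| ≤ (Y : ℤ)))).card : ℝ) := by
          exact_mod_cast card_biUnion_le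
      _ ≤ ∑ i : Fin s, ∑ n ∈ A, (((fam H W g).filter (fun a => |pv (v i) (a i) n| ≤ (Y : ℤ))).card : ℝ) := by
          apply sum_le_sum
          intro i _
          exact_mod_cast card_biUnion_le
      _ ≤ ∑ _i : Fin s, ∑ _n ∈ A, (3 / L ^ C1 * (fam H W g).card) := sum_le_sum fun i _ => sum_le_sum fun n _ => hone i n
      _ = (s * A.card) * (3 / L ^ C1) * (fam H W g).card := by
          rw [sum_const, sum_const, card_univ, Fintype.card_fin, nsmul_eq_mul, nsmul_eq_mul]
          ring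
      _ ≤ (s * K) * (3 / L ^ C1) * (fam H W g).card := by gcongr
  -- the main part
  obtain ⟨U, hU⟩ : ∃ U : ℝ, U = ((L ^ s) ^ 2) ^ A.card := ⟨_, rfl⟩
  have hU' : U = L ^ (2 * s * A.card) := by rw [hU, ← pow_mul, ← pow_mul]; congr 1; ring
  rw [← hU]
  have hU0 : 0 < U := by rw [hU']; exact p0 _
  have hprod : ∀ a : Fin s → Fin (d + 1) → ℤ, ∏ n ∈ A, Xn v a n ^ 2 = ∏ n ∈ A, ∏ i, th (val v a i n) ^ 2 := by
    intro a
    apply prod_congr rfl
    intro n _
    unfold Xn
    rw [prod_pow]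
  have hcst : ∀ x : ℝ, ∏ _n ∈ A, ∏ _i : Fin s, (x * L) ^ 2 = x ^ (2 * s * A.card) * U := by
    intro x
    rw [prod_const, prod_const, card_univ, Fintype.card_fin, hU', ← mul_pow, ← pow_mul, ← pow_mul]
    congr 1
    ring
  have hm : 2 * (((2 * s * A.card : ℕ) : ℝ)) * η' ≤ η := by
    have : ((2 * s * A.card : ℕ) : ℝ) ≤ 2 * (s * K) := by
      push_cast
      have h6 : (A.card : ℝ) ≤ K := by exact_mod_cast hA
      have h7 : (0 : ℝ) ≤ s := Nat.cast_nonneg _
      nlinarith
    calc 2 * (((2 * s * A.card : ℕ) : ℝ)) * η' ≤ 2 * (2 * (s * K)) * η' := by gcongr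
      _ ≤ (4 * (s * K) + 4) * η' := by nlinarith
      _ = η := by rw [hη']; field_simp
  obtain ⟨hp1, hp2⟩ := pow_near (2 * s * A.card) η' η hη'0.le hη.le hη1 hm
  set Gd := (fam H W g).filter (fun a => allp v a A) with hGd
  have hzero : ∑ a ∈ fam H W g, ∏ n ∈ A, Xn v a n ^ 2 = ∑ a ∈ Gd, ∏ n ∈ A, Xn v a n ^ 2 := by
    rw [hGd, sum_filter]
    apply sum_congr rfl
    intro a _
    split_ifs with h6
    · rfl
    · unfold allp at h6
      push Not at h6
      obtain ⟨i, n, hn, h7⟩ := h6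
      apply prod_eq_zero hn
      unfold Xn
      rw [prod_eq_zero (mem_univ i)]
      · simp
      · unfold th
        rw [if_neg]
        exact h7
  have hPA : PA H W v g A * (fam H W g).card = Gd.card := by
    unfold PA
    rcases Nat.eq_zero_or_pos (fam H W g).card with h6 | h6
    · have h7 : Gd.card = 0 := by
        have : Gd.card ≤ (fam H W g).card := card_filter_le _ _
        omega
      rw [h7, h6]
      simp
    · have h7 : ((fam H W g).card : ℝ) ≠ 0 := by exact_mod_cast h6.ne'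
      rw [div_mul_cancel₀ _ h7]
  rw [hzero, hPA]
  have hterm : ∀ a ∈ Gd, |∏ n ∈ A, Xn v a n ^ 2 - U| ≤ η * U + (if a ∈ E then L ^ (4 * (s * K)) else 0) := by
    intro a ha
    rw [hGd, mem_filter] at ha
    obtain ⟨ha1, ha2⟩ := ha
    have hx0 : 0 ≤ ∏ n ∈ A, Xn v a n ^ 2 := prod_nonneg fun _ _ => sq_nonneg _
    have hxup : ∏ n ∈ A, Xn v a n ^ 2 ≤ (1 + η) * U := by
      rw [hprod]
      calc ∏ n ∈ A, ∏ i, th (val v a i n) ^ 2 ≤ ∏ _n ∈ A, ∏ _i : Fin s, ((1 + η') * L) ^ 2 := by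
            apply prod_le_prod (fun _ _ => prod_nonneg fun _ _ => sq_nonneg _)
            intro n hn
            apply prod_le_prod (fun _ _ => sq_nonneg _)
            intro i _
            exact pow_le_pow_left₀ (th_nonneg _) (hup a ha1 i n hn) 2
        _ = (1 + η') ^ (2 * s * A.card) * U := hcst _
        _ ≤ (1 + η) * U := by gcongr
    by_cases hE1 : a ∈ E
    · rw [if_pos hE1]
      have hUle : U ≤ L ^ (4 * (s * K)) := by
        rw [hU']
        apply pw
        have : 2 * s * A.card ≤ 2 * s * K := Nat.mul_le_mul_left _ hA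
        have e : 2 * s * K = 2 * (s * K) := by ring
        omega
      rw [abs_le]
      constructor
      · have : 0 ≤ η * U := by positivity
        linarith
      · have : 0 < L ^ (4 * (s * K)) := p0 _
        linarith
    · rw [if_neg hE1, add_zero]
      have hns : ∀ i, ∀ n ∈ A, ¬ |val v a i n| ≤ (Y : ℤ) := by
        intro i n hn h6
        apply hE1
        rw [hE, mem_filter]
        exact ⟨ha1, i, n, hn, h6⟩
      have hxlow : (1 - η) * U ≤ ∏ n ∈ A, Xn v a n ^ 2 := by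
        rw [hprod]
        calc (1 - η) * U ≤ (1 - η') ^ (2 * s * A.card) * U := by gcongr
          _ = ∏ _n ∈ A, ∏ _i : Fin s, ((1 - η') * L) ^ 2 := (hcst _).symm
          _ ≤ ∏ n ∈ A, ∏ i, th (val v a i n) ^ 2 := by
              have h6 : 0 ≤ (1 - η') * L := by nlinarith
              apply prod_le_prod (fun _ _ => prod_nonneg fun _ _ => sq_nonneg _)
              intro n hn
              apply prod_le_prod (fun _ _ => sq_nonneg _)
              intro i _
              exact pow_le_pow_left₀ h6 (hlow _ (hns i n hn) (ha2 i n hn)) 2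
      rw [abs_le]
      constructor <;> linarith
  have e1 : ∑ a ∈ Gd, ∏ n ∈ A, Xn v a n ^ 2 - U * Gd.card = ∑ a ∈ Gd, (∏ n ∈ A, Xn v a n ^ 2 - U) := by
    rw [sum_sub_distrib, sum_const, nsmul_eq_mul]
    ring
  rw [e1]
  refine (abs_sum_le_sum_abs _ _).trans ((sum_le_sum hterm).trans ?_)
  rw [sum_add_distrib, sum_const, nsmul_eq_mul, ← sum_filter, sum_const, nsmul_eq_mul]
  have h6 : (((Gd.filter (fun a => a ∈ E)).card : ℕ) : ℝ) ≤ E.card := by
    exact_mod_cast card_le_card (fun a ha => (mem_filter.1 ha).2)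
  have h7 : (((Gd.filter (fun a => a ∈ E)).card : ℕ) : ℝ) * L ^ (4 * (s * K)) ≤ (fam H W g).card / L ^ C := by
    calc (((Gd.filter (fun a => a ∈ E)).card : ℕ) : ℝ) * L ^ (4 * (s * K))
        ≤ ((s * K) * (3 / L ^ C1) * (fam H W g).card) * L ^ (4 * (s * K)) := by
          gcongr
          exact h6.trans hEcard
      _ = (3 * (s * K)) * L ^ (4 * (s * K)) * (fam H W g).card / L ^ C1 := by ring
      _ ≤ L * L ^ (4 * (s * K)) * (fam H W g).card / L ^ C1 := by
          gcongr
          linarith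
      _ = (fam H W g).card / L ^ C := by
          rw [hC1, pow_add L (4 * (s * K) + 1) C, pow_succ]
          field_simp
  linarith

end Pool.Agent.H77.BV
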