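import Mathlib
import Pool.Agent.H77.BV.Pm

/-! The squares of the differences between the logarithmic weights and the sieve weights. -/

set_option autoImplicit false

namespace Pool.Agent.H77.BV

open Finset Polynomial
open Pool.Agent.K1H89.PL
open Pool.Agent.K1H89.Ev (evN ev_pow)

/-- the difference of the weights -/
noncomputable def Dn {s d : ℕ} (z : ℕ) (v : Fin s → ℕ → ℤ) (a : Fin s → Fin (d + 1) → ℤ) (n : ℕ) : ℝ :=
  Xn v a n - Yn z v a n

lemma Xn_nonneg {s d : ℕ} (v : Fin s → ℕ → ℤ) (a : Fin s → Fin (d + 1) → ℤ) (n : ℕ) : 0 ≤ Xn v a n :=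
  prod_nonneg fun _ _ => th_nonneg _

lemma dif_prime {A : Finset ℕ} {z p : ℕ} (hA : ∀ n ∈ A, n ≤ z) (hp : p.Prime) (h : p ∣ dif A) : p ≤ z := by
  unfold dif at h
  obtain ⟨b, hb, h1⟩ := (hp.prime.dvd_finsetProd_iff _).1 h
  obtain ⟨a, ha, h2⟩ := (hp.prime.dvd_finsetProd_iff _).1 h1
  rw [mem_filter] at ha
  have := Nat.le_of_dvd (by omega) h2
  have := hA b hb
  omega

lemma GG_MP {W z : ℕ} {A : Finset ℕ} (hA : ∀ n ∈ A, n ≤ z) (C : ℕ) : GG W (dif A) C ≤ MP z ^ C := by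
  refine le_trans ?_ (prod_lin_le z C)
  unfold GG
  apply pr_sub_le
  · intro p hp
    have h := pf_prime hp
    rw [mem_prN]
    exact ⟨dif_prime hA h.1 h.2.1, h.1⟩
  · intro p hp
    have : (0 : ℝ) ≤ C / p := by positivity
    linarith

lemma rho_MP {W z : ℕ} (hW : 1 ≤ W) (hp : ∀ p : ℕ, p.Prime → p ∣ W → p ≤ z) : rho W ≤ MP z := by
  rw [rho_prod hW]
  have e : ∏ p ∈ W.primeFactors, ((p : ℝ) / (p - 1)) = ∏ p ∈ W.primeFactors, (1 - (p : ℝ)⁻¹)⁻¹ := by
    apply prod_congr rfl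
    intro p h
    have h1 : (1 : ℝ) < p := by exact_mod_cast (Nat.prime_of_mem_primeFactors h).one_lt
    have h2 : (p : ℝ) - 1 ≠ 0 := by linarith
    have h3 : (p : ℝ) ≠ 0 := by linarith
    rw [eq_comm, inv_eq_iff_eq_inv, inv_div]
    field_simp
  rw [e]
  unfold MP
  apply pr_sub_le
  · intro p h
    have h1 := Nat.prime_of_mem_primeFactors h
    rw [mem_prN]
    exact ⟨hp p h1 (Nat.dvd_of_mem_primeFactors h), h1⟩
  · intro p h
    have := one_le_inv (mem_prN.1 h).2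
    rwa [one_div] at this

lemma diff_prod (X Y : ℕ → ℝ) (y U : ℝ) (hy : 1 ≤ y) (hX : ∀ n, 0 ≤ X n) (hY : ∀ n, 0 ≤ Y n) (hYy : ∀ n, Y n ≤ y)
    (A : Finset ℕ) (hXU : ∀ n ∈ A, 1 + X n ≤ U) :
    |∏ n ∈ A, (X n - Y n) ^ 2 - ∏ n ∈ A, X n ^ 2| ≤ A.card * (2 * y ^ (2 * A.card) * U ^ (A.card - 1)) * ∏ n ∈ A, (1 + X n) := by
  classical
  induction A using Finset.induction_on with
  | empty => simp
  | insert m A hm ih =>
    have ih' := ih (fun n hn => hXU n (mem_insert_of_mem hn))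
    have hU := hXU m (mem_insert_self _ _)
    have hU1 : 1 ≤ U := by linarith [hX m]
    have hX1 := hX m
    have hY1 := hY m
    have hY2 := hYy m
    have hy2 : 1 ≤ y ^ 2 := one_le_pow₀ hy
    rw [prod_insert hm, prod_insert hm, prod_insert hm, card_insert_of_notMem hm]
    set P := ∏ n ∈ A, (1 + X n) with hP
    have hP0 : 0 ≤ P := prod_nonneg fun n _ => by linarith [hX n]
    have hsq : ∏ n ∈ A, X n ^ 2 ≤ U ^ A.card * P := by
      rw [hP, ← prod_const, ← prod_mul_distrib]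
      apply prod_le_prod (fun _ _ => sq_nonneg _)
      intro n hn
      have h1 := hXU n (mem_insert_of_mem hn)
      have h2 := hX n
      nlinarith
    have hsq0 : 0 ≤ ∏ n ∈ A, X n ^ 2 := prod_nonneg fun _ _ => sq_nonneg _
    have h1 : (X m - Y m) ^ 2 ≤ y ^ 2 * (U * (1 + X m)) := by
      have h3 : |X m - Y m| ≤ y * (1 + X m) := by
        rw [abs_le]
        constructor <;> nlinarith
      calc (X m - Y m) ^ 2 = |X m - Y m| ^ 2 := (sq_abs _).symm
        _ ≤ (y * (1 + X m)) ^ 2 := pow_le_pow_left₀ (abs_nonneg _) h3 2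
        _ = y ^ 2 * ((1 + X m) * (1 + X m)) := by ring
        _ ≤ y ^ 2 * (U * (1 + X m)) := by gcongr
    have h2 : |(X m - Y m) ^ 2 - X m ^ 2| ≤ 2 * y ^ 2 * (1 + X m) := by
      have e : (X m - Y m) ^ 2 - X m ^ 2 = Y m * (Y m - 2 * X m) := by ring
      rw [e, abs_mul, abs_of_nonneg hY1]
      have h3 : |Y m - 2 * X m| ≤ 2 * y * (1 + X m) := by
        rw [abs_le]
        constructor <;> nlinarith
      calc Y m * |Y m - 2 * X m| ≤ y * (2 * y * (1 + X m)) := by gcongr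
        _ = 2 * y ^ 2 * (1 + X m) := by ring
    have e : (X m - Y m) ^ 2 * ∏ n ∈ A, (X n - Y n) ^ 2 - X m ^ 2 * ∏ n ∈ A, X n ^ 2 =
        (X m - Y m) ^ 2 * (∏ n ∈ A, (X n - Y n) ^ 2 - ∏ n ∈ A, X n ^ 2) + ((X m - Y m) ^ 2 - X m ^ 2) * ∏ n ∈ A, X n ^ 2 := by ring
    rw [e]
    refine (abs_add_le _ _).trans ?_
    rw [abs_mul, abs_mul, abs_of_nonneg (sq_nonneg (X m - Y m)), abs_of_nonneg hsq0]
    have hyA : 1 ≤ y ^ (2 * A.card) := one_le_pow₀ hy
    have hXm : 0 ≤ 1 + X m := by linarith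
    have hUA : (A.card : ℝ) * (U * U ^ (A.card - 1)) = A.card * U ^ A.card := by
      rcases Nat.eq_zero_or_pos A.card with h0 | h0
      · rw [h0]; simp
      · rw [← pow_succ']
        congr 2
        omega
    calc (X m - Y m) ^ 2 * |∏ n ∈ A, (X n - Y n) ^ 2 - ∏ n ∈ A, X n ^ 2| + |(X m - Y m) ^ 2 - X m ^ 2| * ∏ n ∈ A, X n ^ 2
        ≤ y ^ 2 * (U * (1 + X m)) * (A.card * (2 * y ^ (2 * A.card) * U ^ (A.card - 1)) * P) +
          2 * y ^ 2 * (1 + X m) * (U ^ A.card * P) := by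
          apply add_le_add
          · exact mul_le_mul h1 ih' (abs_nonneg _) (by positivity)
          · exact mul_le_mul h2 hsq hsq0 (by positivity)
      _ = (A.card * (U * U ^ (A.card - 1))) * (2 * y ^ 2 * y ^ (2 * A.card) * ((1 + X m) * P)) +
          1 * (2 * y ^ 2 * (1 + X m) * (U ^ A.card * P)) := by ring
      _ ≤ (A.card * U ^ A.card) * (2 * y ^ 2 * y ^ (2 * A.card) * ((1 + X m) * P)) +
          y ^ (2 * A.card) * (2 * y ^ 2 * (1 + X m) * (U ^ A.card * P)) := by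
          rw [hUA]
          gcongr
      _ = ((A.card + 1 : ℕ) : ℝ) * (2 * y ^ (2 * (A.card + 1)) * U ^ (A.card + 1 - 1)) * ((1 + X m) * P) := by
          push_cast
          rw [show 2 * (A.card + 1) = 2 + 2 * A.card by ring, pow_add]
          try rw [Nat.add_sub_cancel]
          ring

/-- the values and the weights are bounded -/
lemma Xn_bd (s d B : ℕ) : ∃ H0 : ℕ, ∀ H : ℕ, H0 ≤ H → ∀ W : ℕ, ∀ v : Fin s → ℕ → ℤ,
    ∀ g : Fin s → Fin (d + 1) → ℤ, ∀ a ∈ fam H W g, ∀ n : ℕ, (n : ℝ) ≤ Real.log H ^ B →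
    (∀ i, |((v i n : ℤ) : ℝ)| ≤ H * Real.log H ^ B) → Xn v a n ≤ (2 * Real.log H) ^ s := by
  obtain ⟨B2, hB2⟩ : ∃ e, e = B + B * d + 1 := ⟨_, rfl⟩
  obtain ⟨H1, h1⟩ := evN _ (Real.tendsto_log_atTop.eventually_ge_atTop (max 1 ((d : ℝ) + 2)))
  obtain ⟨H2, h2⟩ := evN _ (ev_pow B2 1 1 one_pos)
  refine ⟨max (max H1 H2) 1, fun H hH W v g a ha n hn hv => ?_⟩
  have h4 := h1 H (by omega)
  have h5 := h2 H (by omega)
  rw [Real.rpow_one, one_mul] at h5
  set L := Real.log H with hL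
  have hL1 : 1 ≤ L := (le_max_left _ _).trans h4
  have hLd : (d : ℝ) + 2 ≤ L := (le_max_right _ _).trans h4
  have hL0 : 0 < L := by linarith
  have hH1 : (1 : ℝ) ≤ H := by
    have : 1 ≤ H := by omega
    exact_mod_cast this
  have hH0 : (0 : ℝ) < H := by linarith
  have p0 : ∀ a : ℕ, 0 < L ^ a := fun a => by positivity
  have hval : ∀ i, |((val v a i n : ℤ) : ℝ)| ≤ H * L ^ B2 := by
    intro i
    have h6 := val_le ha i n (L ^ B) (H * L ^ B) (one_le_pow₀ hL1) hn (hv i)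
    refine h6.trans ?_
    rw [← pow_mul]
    have pw : ∀ {a b : ℕ}, a ≤ b → L ^ a ≤ L ^ b := fun h => pow_le_pow_right₀ hL1 h
    calc (H : ℝ) * L ^ B + (d + 1) * (H * L ^ (B * d)) ≤ H * L ^ (B + B * d) + (d + 1) * (H * L ^ (B + B * d)) := by
          gcongr ?_ + ?_
          · exact mul_le_mul_of_nonneg_left (pw (Nat.le_add_right _ _)) hH0.le
          · exact mul_le_mul_of_nonneg_left (mul_le_mul_of_nonneg_left (pw (Nat.le_add_left _ _)) hH0.le) (by positivity)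
      _ = H * L ^ (B + B * d) * (d + 2) := by ring
      _ ≤ H * L ^ (B + B * d) * L := by gcongr
      _ = H * L ^ B2 := by rw [hB2, pow_succ]; ring
  unfold Xn
  have e : (2 * L) ^ s = ∏ _i : Fin s, (2 * L) := by rw [prod_const, card_univ, Fintype.card_fin]
  rw [e]
  apply prod_le_prod (fun _ _ => th_nonneg _)
  intro i _
  refine (th_le_log (by nlinarith [one_le_pow₀ hL1 (n := B2)]) (hval i)).trans ?_
  rw [Real.log_mul hH0.ne' (p0 _).ne', ← hL]
  have h7 : Real.log (L ^ B2) ≤ L := Real.log_le_log (p0 _) h5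
  linarith

/-- the average of `∏ (1 + X_n)` -/
theorem one_add (s d B : ℕ) : ∃ H0 : ℕ, ∀ H : ℕ, H0 ≤ H → ∀ z W : ℕ, (z : ℝ) ≤ Real.log H ^ B → 1 ≤ W →
    (W : ℝ) ≤ Real.log H ^ B → (∀ p : ℕ, p.Prime → p ∣ W → p ≤ z) → ∀ v : Fin s → ℕ → ℤ,
    (∀ i, ∀ n : ℕ, (n : ℝ) ≤ Real.log H ^ B → |((v i n : ℤ) : ℝ)| ≤ H * Real.log H ^ B) →
    ∀ g : Fin s → Fin (d + 1) → ℤ, ∀ A : Finset ℕ, A.card ≤ d + 1 → (∀ n ∈ A, n ≤ z) →
    ∑ a ∈ fam H W g, ∏ n ∈ A, (1 + Xn v a n) ≤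
      (2 ^ (d + 2) * 2 ^ (s * (d + 1)) * MP z ^ (s * (d + 1) + (1 + 3 ^ (d + 1)) ^ (2 * s))) * (fam H W g).card := by
  classical
  obtain ⟨H1, h1⟩ := famP s d B 1 one_pos le_rfl
  obtain ⟨H2, h2⟩ := Xn_bd s d B
  obtain ⟨H3, h3⟩ := evN _ (Real.tendsto_log_atTop.eventually_ge_atTop 1)
  refine ⟨max H1 (max H2 H3), fun H hH z W hz hW1 hWB hWz v hv g A hA hAz => ?_⟩
  have hL1 := h3 H (by omega)
  have hfam := h1 H (by omega) W hW1 hWB v hv g
  have hbd := h2 H (by omega) W v g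
  set L := Real.log H with hL
  have hL0 : 0 < L := by linarith
  have hMP1 : 1 ≤ MP z := MP_ge_one z
  obtain ⟨C0, hC0⟩ : ∃ C0 : ℕ, C0 = (1 + 3 ^ (d + 1)) ^ (2 * s) := ⟨_, rfl⟩
  have hC0' : ((1 : ℝ) + 3 ^ (d + 1)) ^ (2 * s) = C0 := by rw [hC0]; push_cast; ring
  have hF0 : (0 : ℝ) ≤ (fam H W g).card := Nat.cast_nonneg _
  have hzn : ∀ n ∈ A, (n : ℝ) ≤ L ^ B := fun n hn => le_trans (by exact_mod_cast hAz n hn) hz
  have hone : ∀ A' ∈ A.powerset, ∑ a ∈ fam H W g, ∏ n ∈ A', Xn v a n ≤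
      2 ^ (s * (d + 1)) * (2 * MP z ^ (s * (d + 1) + C0)) * (fam H W g).card := by
    intro A' hA'
    rw [mem_powerset] at hA'
    have hc : A'.card ≤ d + 1 := (card_le_card hA').trans hA
    have h4 := hfam A' hc (fun n hn => hzn n (hA' hn))
    rw [hC0'] at h4
    have hGG := GG_MP (W := W) (fun n hn => hAz n (hA' hn)) C0
    have hρ := rho_MP hW1 hWz
    have hρ1 : 1 ≤ rho W := rho_ge hW1
    have hR : 0 ≤ (rho W ^ s) ^ A'.card := by positivity
    have h5 : (L ^ s) ^ A'.card * PA H W v g A' ≤ 2 * MP z ^ (s * (d + 1) + C0) := by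
      have h6 : (L ^ s) ^ A'.card * PA H W v g A' ≤ (rho W ^ s) ^ A'.card * (2 * GG W (dif A') C0) := by
        have h7 := (abs_le.1 h4).2
        have h8 : (if ∀ n ∈ A', okn v g W n then (rho W ^ s) ^ A'.card else 0) ≤ (rho W ^ s) ^ A'.card := by
          split_ifs
          · exact le_rfl
          · exact hR
        nlinarith
      refine h6.trans ?_
      calc (rho W ^ s) ^ A'.card * (2 * GG W (dif A') C0) ≤ (MP z ^ s) ^ (d + 1) * (2 * MP z ^ C0) := by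
            have h9 : (rho W ^ s) ^ A'.card ≤ (MP z ^ s) ^ (d + 1) := by
              calc (rho W ^ s) ^ A'.card ≤ (MP z ^ s) ^ A'.card := by gcongr
                _ ≤ (MP z ^ s) ^ (d + 1) := pow_le_pow_right₀ (one_le_pow₀ hMP1) hc
            have h10 : 0 ≤ GG W (dif A') C0 := zero_le_one.trans (GG_ge_one W _ _ (Nat.cast_nonneg _))
            gcongr
        _ = 2 * MP z ^ (s * (d + 1) + C0) := by rw [← pow_mul, pow_add]; ring
    have hPA : PA H W v g A' * (fam H W g).card = ((fam H W g).filter (fun a => allp v a A')).card := by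
      unfold PA
      rcases Nat.eq_zero_or_pos (fam H W g).card with h6 | h6
      · have h7 : ((fam H W g).filter (fun a => allp v a A')).card = 0 := by
          have : ((fam H W g).filter (fun a => allp v a A')).card ≤ (fam H W g).card := card_filter_le _ _
          omega
        rw [h7, h6]
        simp
      · have h7 : ((fam H W g).card : ℝ) ≠ 0 := by exact_mod_cast h6.ne'
        rw [div_mul_cancel₀ _ h7]
    have h6 : ∑ a ∈ fam H W g, ∏ n ∈ A', Xn v a n ≤ ((2 * L) ^ s) ^ A'.card * (PA H W v g A' * (fam H W g).card) := by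
      rw [hPA]
      have h7 : ∀ a ∈ fam H W g, ∏ n ∈ A', Xn v a n ≤ if allp v a A' then ((2 * L) ^ s) ^ A'.card else 0 := by
        intro a ha
        split_ifs with h8
        · rw [← prod_const]
          exact prod_le_prod (fun _ _ => Xn_nonneg _ _ _) (fun n hn => hbd a ha n (hzn n (hA' hn)) (fun i => hv i n (hzn n (hA' hn))))
        · unfold allp at h8
          push Not at h8
          obtain ⟨i, n, hn, h9⟩ := h8
          apply le_of_eq
          apply prod_eq_zero hn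
          unfold Xn
          apply prod_eq_zero (mem_univ i)
          unfold th
          rw [if_neg]
          exact h9
      refine (sum_le_sum h7).trans ?_
      rw [← sum_filter, sum_const, nsmul_eq_mul]
      exact le_of_eq (mul_comm _ _)
    refine h6.trans ?_
    calc ((2 * L) ^ s) ^ A'.card * (PA H W v g A' * (fam H W g).card)
        = (2 ^ (s * A'.card)) * ((L ^ s) ^ A'.card * PA H W v g A') * (fam H W g).card := by
          rw [mul_pow, mul_pow, ← pow_mul]; ring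
      _ ≤ (2 ^ (s * (d + 1))) * (2 * MP z ^ (s * (d + 1) + C0)) * (fam H W g).card := by
          have h7 : (2 : ℝ) ^ (s * A'.card) ≤ 2 ^ (s * (d + 1)) := pow_le_pow_right₀ (by norm_num) (Nat.mul_le_mul_left _ hc)
          have h8 : 0 ≤ (L ^ s) ^ A'.card * PA H W v g A' := by
            unfold PA
            positivity
          gcongr
  have e : ∀ a : Fin s → Fin (d + 1) → ℤ, ∏ n ∈ A, (1 + Xn v a n) = ∑ A' ∈ A.powerset, ∏ n ∈ A', Xn v a n := by
    intro a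
    rw [Finset.prod_one_add]
  simp only [e]
  rw [sum_comm]
  refine (sum_le_sum hone).trans ?_
  rw [sum_const, card_powerset, nsmul_eq_mul, ← hC0]
  push_cast
  have h4 : (2 : ℝ) ^ A.card ≤ 2 ^ (d + 1) := pow_le_pow_right₀ (by norm_num) hA
  calc (2 : ℝ) ^ A.card * (2 ^ (s * (d + 1)) * (2 * MP z ^ (s * (d + 1) + C0)) * (fam H W g).card)
      ≤ 2 ^ (d + 1) * (2 ^ (s * (d + 1)) * (2 * MP z ^ (s * (d + 1) + C0)) * (fam H W g).card) := by
        gcongr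
    _ = _ := by
        rw [show d + 2 = (d + 1) + 1 by ring, pow_succ (2 : ℝ) (d + 1)]
        ring

open Classical in
/-- the average of the product of squares -/
theorem dsq (s d B : ℕ) (hs : 1 ≤ s) (η : ℝ) (hη : 0 < η) (hη1 : η ≤ 1) : ∃ H0 : ℕ, ∀ H : ℕ, H0 ≤ H → ∀ z W : ℕ,
    (z : ℝ) ≤ Real.log H ^ B → 1 ≤ W →
    (W : ℝ) ≤ Real.log H ^ B → (∀ p : ℕ, p.Prime → p ∣ W → p ≤ z) → ∀ v : Fin s → ℕ → ℤ,
    (∀ i, ∀ n : ℕ, (n : ℝ) ≤ Real.log H ^ B → |((v i n : ℤ) : ℝ)| ≤ H * Real.log H ^ B) →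
    ∀ g : Fin s → Fin (d + 1) → ℤ, ∀ A : Finset ℕ, A.card ≤ d + 1 → (∀ n ∈ A, n ≤ z) →
    |∑ a ∈ fam H W g, ∏ n ∈ A, Dn z v a n ^ 2 -
      (Real.log H ^ s) ^ A.card * (if ∀ n ∈ A, okn v g W n then (rho W ^ s) ^ A.card else 0) * (fam H W g).card| ≤
      (Real.log H ^ s) ^ A.card * ((rho W ^ s) ^ A.card * ((1 + η) * GG W (dif A) ((1 + 3 ^ (d + 1)) ^ (2 * s)) - 1)) *
        (fam H W g).card := by
  obtain ⟨δ, hδ⟩ : ∃ δ : ℝ, δ = η / 5 := ⟨_, rfl⟩
  have hδ0 : 0 < δ := by rw [hδ]; positivity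
  have hδ1 : δ ≤ 1 := by rw [hδ]; linarith
  obtain ⟨c, hc⟩ : ∃ c : ℝ, c = (d + 1) * (2 * 4 ^ (s * (d + 1))) * (2 ^ (d + 2) * 2 ^ (s * (d + 1))) := ⟨_, rfl⟩
  have hc0 : 0 < c := by rw [hc]; positivity
  obtain ⟨k, hk⟩ : ∃ k : ℕ, k = s * (2 * (d + 1)) + (s * (d + 1) + (1 + 3 ^ (d + 1)) ^ (2 * s)) := ⟨_, rfl⟩
  obtain ⟨H1, h1⟩ := famP s d B δ hδ0 hδ1
  obtain ⟨H2, h2⟩ := sq_count s d B (d + 1) 1 δ hδ0 hδ1
  obtain ⟨H3, h3⟩ := one_add s d B
  obtain ⟨H4, h4⟩ := MP_tiny B k (c / δ)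
  obtain ⟨H5, h5⟩ := Xn_bd s d B
  obtain ⟨H6, h6⟩ := evN _ (Real.tendsto_log_atTop.eventually_ge_atTop (max 1 (1 / δ)))
  refine ⟨max H1 (max H2 (max H3 (max H4 (max H5 H6)))), fun H hH z W hz hW1 hWB hWz v hv g A hA hAz => ?_⟩
  have hfam := h1 H (by omega) W hW1 hWB v hv g A hA (fun n hn => le_trans (by exact_mod_cast hAz n hn) hz)
  have hsq := h2 H (by omega) W hW1 hWB v hv g A hA (fun n hn => le_trans (by exact_mod_cast hAz n hn) hz)
  have hone := h3 H (by omega) z W hz hW1 hWB hWz v hv g A hA hAz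
  have hMP := h4 H (by omega) z hz
  have hbd := h5 H (by omega) W v g
  have hLL := h6 H (by omega)
  set L := Real.log H with hL
  have hL1 : 1 ≤ L := (le_max_left _ _).trans hLL
  have hLδ : 1 / δ ≤ L := (le_max_right _ _).trans hLL
  have hL0 : 0 < L := by linarith
  have hMP1 : 1 ≤ MP z := MP_ge_one z
  have hF0 : (0 : ℝ) ≤ (fam H W g).card := Nat.cast_nonneg _
  obtain ⟨F, hF⟩ : ∃ F : ℝ, F = (fam H W g).card := ⟨_, rfl⟩
  rw [← hF] at hsq hone hF0 ⊢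
  have hzn : ∀ n ∈ A, (n : ℝ) ≤ L ^ B := fun n hn => le_trans (by exact_mod_cast hAz n hn) hz
  obtain ⟨G, hG⟩ : ∃ G : ℝ, G = GG W (dif A) ((1 + 3 ^ (d + 1)) ^ (2 * s)) := ⟨_, rfl⟩
  have hG1 : 1 ≤ G := by rw [hG]; exact GG_ge_one W _ _ (by positivity)
  rw [← hG] at hfam ⊢
  obtain ⟨R, hR⟩ : ∃ R : ℝ, R = (rho W ^ s) ^ A.card := ⟨_, rfl⟩
  have hR1 : 1 ≤ R := by rw [hR]; exact one_le_pow₀ (one_le_pow₀ (rho_ge hW1))
  rw [← hR] at hfam ⊢
  obtain ⟨Q, hQ⟩ : ∃ Q : ℝ, Q = if ∀ n ∈ A, okn v g W n then R else 0 := ⟨_, rfl⟩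
  rw [← hQ] at hfam ⊢
  have hQR : Q ≤ R := by
    rw [hQ]
    split_ifs
    · exact le_rfl
    · linarith
  obtain ⟨V, hV⟩ : ∃ V : ℝ, V = (L ^ s) ^ A.card := ⟨_, rfl⟩
  have hV1 : 1 ≤ V := by rw [hV]; exact one_le_pow₀ (one_le_pow₀ hL1)
  obtain ⟨P, hP⟩ : ∃ P : ℝ, P = V * PA H W v g A := ⟨_, rfl⟩
  have hsqV : ((L ^ s) ^ 2) ^ A.card * (PA H W v g A * F) = V * P * F := by
    rw [hP, hV, ← pow_mul (L ^ s), mul_comm 2 A.card, pow_mul, pow_two]
    ring
  rw [hsqV] at hsq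
  rw [← hV, ← hP] at hfam
  rw [← hV]
  have hPR : P ≤ R * ((1 + δ) * G) := by
    have := (abs_le.1 hfam).2
    nlinarith
  have hP0 : 0 ≤ P := by
    rw [hP]
    unfold PA
    positivity
  -- the difference between `D ^ 2` and `X ^ 2`
  have hT1 : |∑ a ∈ fam H W g, ∏ n ∈ A, Dn z v a n ^ 2 - ∑ a ∈ fam H W g, ∏ n ∈ A, Xn v a n ^ 2| ≤ δ * V * F := by
    rcases Nat.eq_zero_or_pos A.card with hA0 | hA0
    · rw [card_eq_zero] at hA0
      subst hA0
      simp only [prod_empty, sub_self, abs_zero]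
      positivity
    rw [← sum_sub_distrib]
    refine (abs_sum_le_sum_abs _ _).trans ?_
    have hLs : L ≤ L ^ s := le_self_pow₀ hL1 (by omega)
    have hU : ∀ a ∈ fam H W g, ∀ n ∈ A, 1 + Xn v a n ≤ (4 * L) ^ s := by
      intro a ha n hn
      have h7 := hbd a ha n (hzn n hn) (fun i => hv i n (hzn n hn))
      have h8 : (1 : ℝ) ≤ (2 * L) ^ s := one_le_pow₀ (by linarith)
      calc 1 + Xn v a n ≤ 2 * (2 * L) ^ s := by linarith
        _ ≤ 2 ^ s * (2 * L) ^ s := by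
            gcongr
            exact le_self_pow₀ (by norm_num) (by omega)
        _ = (4 * L) ^ s := by rw [← mul_pow]; congr 1; ring
    have hterm : ∀ a ∈ fam H W g, |∏ n ∈ A, Dn z v a n ^ 2 - ∏ n ∈ A, Xn v a n ^ 2| ≤
        (((d : ℝ) + 1) * (2 * (MP z ^ s) ^ (2 * (d + 1)) * (4 ^ (s * (d + 1)) * (L ^ s) ^ (A.card - 1)))) * ∏ n ∈ A, (1 + Xn v a n) := by
      intro a ha
      refine (diff_prod (fun n => Xn v a n) (fun n => Yn z v a n) (MP z ^ s) ((4 * L) ^ s) (one_le_pow₀ hMP1)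
        (fun n => Xn_nonneg v a n) (fun n => Yn_nonneg z v a n) (fun n => Yn_le z v a n) A (hU a ha)).trans ?_
      apply mul_le_mul_of_nonneg_right _ (prod_nonneg fun n _ => by linarith [Xn_nonneg v a n])
      have h7 : (A.card : ℝ) ≤ d + 1 := by exact_mod_cast hA
      have h8 : (MP z ^ s) ^ (2 * A.card) ≤ (MP z ^ s) ^ (2 * (d + 1)) := pow_le_pow_right₀ (one_le_pow₀ hMP1) (by omega)
      have h9 : ((4 * L) ^ s) ^ (A.card - 1) ≤ 4 ^ (s * (d + 1)) * (L ^ s) ^ (A.card - 1) := by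
        rw [mul_pow, mul_pow, ← pow_mul]
        apply mul_le_mul_of_nonneg_right _ (by positivity)
        apply pow_le_pow_right₀ (by norm_num)
        apply Nat.mul_le_mul_left
        omega
      gcongr
    refine (sum_le_sum hterm).trans ?_
    rw [← mul_sum]
    have hVs : (L ^ s) ^ (A.card - 1) * L ≤ V := by
      rw [hV]
      calc (L ^ s) ^ (A.card - 1) * L ≤ (L ^ s) ^ (A.card - 1) * L ^ s := by gcongr
        _ = (L ^ s) ^ A.card := by rw [← pow_succ]; congr 1; omega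
    calc (((d : ℝ) + 1) * (2 * (MP z ^ s) ^ (2 * (d + 1)) * (4 ^ (s * (d + 1)) * (L ^ s) ^ (A.card - 1)))) *
          ∑ a ∈ fam H W g, ∏ n ∈ A, (1 + Xn v a n)
        ≤ (((d : ℝ) + 1) * (2 * (MP z ^ s) ^ (2 * (d + 1)) * (4 ^ (s * (d + 1)) * (L ^ s) ^ (A.card - 1)))) *
          ((2 ^ (d + 2) * 2 ^ (s * (d + 1)) * MP z ^ (s * (d + 1) + (1 + 3 ^ (d + 1)) ^ (2 * s))) * F) := by
          gcongr
      _ = (c * MP z ^ k) * (L ^ s) ^ (A.card - 1) * F := by
          have e : MP z ^ k = (MP z ^ s) ^ (2 * (d + 1)) * MP z ^ (s * (d + 1) + (1 + 3 ^ (d + 1)) ^ (2 * s)) := by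
            rw [hk, pow_add (MP z) (s * (2 * (d + 1))), pow_mul (MP z) s (2 * (d + 1))]
          rw [e, hc]
          ring
      _ ≤ (δ * L) * (L ^ s) ^ (A.card - 1) * F := by
          have h7 : c * MP z ^ k ≤ δ * L := by
            rw [div_mul_eq_mul_div, div_le_iff₀ hδ0] at hMP
            linarith
          exact mul_le_mul_of_nonneg_right (mul_le_mul_of_nonneg_right h7 (by positivity)) hF0
      _ = δ * ((L ^ s) ^ (A.card - 1) * L) * F := by ring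
      _ ≤ δ * V * F := by gcongr
  have hLF : F / L ^ 1 ≤ δ * V * F := by
    rw [pow_one, div_le_iff₀ hL0]
    have h7 : 1 ≤ δ * L := by
      rw [div_le_iff₀ hδ0] at hLδ
      linarith
    calc F = 1 * 1 * F := by ring
      _ ≤ (δ * L) * V * F := by gcongr
      _ = δ * V * F * L := by ring
  have hT3 : |V * P * F - V * Q * F| ≤ V * (R * ((1 + δ) * G - 1)) * F := by
    have e : V * P * F - V * Q * F = V * (P - Q) * F := by ring
    rw [e, abs_mul, abs_mul, abs_of_nonneg hF0, abs_of_pos (by linarith : 0 < V)]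
    gcongr
  have htot : |∑ a ∈ fam H W g, ∏ n ∈ A, Dn z v a n ^ 2 - V * Q * F| ≤
      δ * V * F + (δ * (V * P * F) + F / L ^ 1) + V * (R * ((1 + δ) * G - 1)) * F := by
    have e : ∑ a ∈ fam H W g, ∏ n ∈ A, Dn z v a n ^ 2 - V * Q * F =
        (∑ a ∈ fam H W g, ∏ n ∈ A, Dn z v a n ^ 2 - ∑ a ∈ fam H W g, ∏ n ∈ A, Xn v a n ^ 2) +
        (∑ a ∈ fam H W g, ∏ n ∈ A, Xn v a n ^ 2 - V * P * F) + (V * P * F - V * Q * F) := by ring
    rw [e]
    exact (abs_add_le _ _).trans (add_le_add ((abs_add_le _ _).trans (add_le_add hT1 hsq)) hT3)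
  refine htot.trans ?_
  have hfin : δ + δ * P + δ + R * ((1 + δ) * G - 1) ≤ R * ((1 + η) * G - 1) := by
    have h7 : δ * P ≤ δ * (R * ((1 + δ) * G)) := by gcongr
    have h8 : δ ≤ δ * (R * G) := by
      have : 1 ≤ R * G := by nlinarith
      nlinarith
    have h9 : δ * (R * ((1 + δ) * G)) ≤ δ * (R * (2 * G)) := by
      gcongr
      linarith
    have e : R * ((1 + η) * G - 1) = R * ((1 + δ) * G - 1) + 4 * δ * (R * G) := by
      rw [hδ]; ring
    rw [e]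
    nlinarith
  calc δ * V * F + (δ * (V * P * F) + F / L ^ 1) + V * (R * ((1 + δ) * G - 1)) * F
      ≤ δ * V * F + (δ * (V * P * F) + δ * V * F) + V * (R * ((1 + δ) * G - 1)) * F := by gcongr
    _ = V * (δ + δ * P + δ + R * ((1 + δ) * G - 1)) * F := by ring
    _ ≤ V * (R * ((1 + η) * G - 1)) * F := by gcongr

end Pool.Agent.H77.BV
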