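import Mathlib
import Pool.Agent.H77.BV.Md
import Pool.Graph.R_pool_sql_team_seeded_efc1946e.K1H89.PL.A10

/-! The sum over all subsets of an interval. -/

set_option autoImplicit false

namespace Pool.Agent.H77.BV

open Finset Polynomial
open Pool.Agent.K1H89.PL
open Pool.Agent.K1H89.Ev (evN ev_pow)

open Classical in
/-- the sum over all subsets with `r` elements of the averages of products of squares -/
theorem sumA (s d B : ℕ) (hs : 1 ≤ s) (hB : 1 ≤ B) : ∃ K : ℕ, ∀ w : ℕ, K ≤ w → ∃ H0 : ℕ, ∀ H : ℕ, H0 ≤ H → ∀ z : ℕ,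
    (z : ℝ) ≤ Real.log H ^ B → w ≤ z → ∀ v : Fin s → ℕ → ℤ,
    (∀ i, ∀ n : ℕ, (n : ℝ) ≤ Real.log H ^ B → |((v i n : ℤ) : ℝ)| ≤ H * Real.log H ^ B) →
    ∀ g : Fin s → Fin (d + 1) → ℤ, ∀ α β : ℕ, α ≤ β → β ≤ z → Real.log H ≤ (β : ℝ) - α → ∀ r : ℕ, r ≤ d + 1 →
    ∑ A ∈ powersetCard r (Ioc α β), |∑ a ∈ fam H (primorial w) g, ∏ n ∈ A, Dn z v a n ^ 2 -
      (Real.log H ^ s) ^ r * (if ∀ n ∈ A, okn v g (primorial w) n then (rho (primorial w) ^ s) ^ r else 0) *
        (fam H (primorial w) g).card| ≤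
      K / w * (Real.log H ^ s * rho (primorial w) ^ s * ((β : ℝ) - α)) ^ r * (fam H (primorial w) g).card := by
  obtain ⟨D, hD⟩ : ∃ D, D = d + 1 := ⟨_, rfl⟩
  obtain ⟨C0, hC0⟩ : ∃ C0 : ℕ, C0 = (1 + 3 ^ (d + 1)) ^ (2 * s) := ⟨_, rfl⟩
  obtain ⟨C, hC⟩ : ∃ C : ℕ, C = (1 + C0) ^ (D * D) := ⟨_, rfl⟩
  have hC1 : 1 ≤ C := by rw [hC]; exact Nat.one_le_pow _ _ (by omega)
  refine ⟨8 * C + 1, fun w hw => ?_⟩
  have hw1 : 1 ≤ w := by omega
  have hw1' : (1 : ℝ) ≤ w := by exact_mod_cast hw1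
  have hw0 : (0 : ℝ) < w := by linarith
  obtain ⟨W, hW⟩ : ∃ W, W = primorial w := ⟨_, rfl⟩
  have hW1 : 1 ≤ W := by rw [hW]; exact primorial_pos w
  have hW1' : (1 : ℝ) ≤ W := by exact_mod_cast hW1
  have hη1 : (1 : ℝ) / w ≤ 1 := by rw [div_le_one hw0]; exact hw1'
  obtain ⟨H1, h1⟩ := dsq s d B hs (1 / w) (by positivity) hη1
  obtain ⟨H2, h2⟩ := GG_avg C B hC1 w (by omega)
  obtain ⟨H3, h3⟩ := evN _ (Real.tendsto_log_atTop.eventually_ge_atTop (W : ℝ))
  refine ⟨max H1 (max H2 H3), fun H hH z hz hwz v hv g α β hαβ hβ hlen r hr => ?_⟩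
  have hc3 := h3 H (by omega)
  rw [← hW]
  have hLp : 1 ≤ Real.log H := hW1'.trans hc3
  have hWB : (W : ℝ) ≤ Real.log H ^ B := hc3.trans (le_self_pow₀ hLp (by omega))
  have hWz : ∀ p : ℕ, p.Prime → p ∣ W → p ≤ z := by
    intro p hp hpW
    rw [hW] at hpW
    exact ((Nat.Prime.dvd_primorial_iff hp).1 hpW).trans hwz
  have hfam := h1 H (by omega) z W hz hW1 hWB hWz v hv g
  have hgg := h2 H (by omega) W (fun p hp hpw => by rw [hW]; exact (Nat.Prime.dvd_primorial_iff hp).2 hpw)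
  set L := Real.log H with hL
  have hL0 : 0 < L := by linarith
  set X := Ioc α β with hX
  obtain ⟨N, hNdef⟩ : ∃ N : ℝ, N = (β : ℝ) - α := ⟨_, rfl⟩
  rw [← hNdef] at hlen ⊢
  have hNX : (X.card : ℝ) = N := by
    rw [hX, Nat.card_Ioc, Nat.cast_sub hαβ, hNdef]
  have hN0 : 0 < N := by linarith
  obtain ⟨F, hF⟩ : ∃ F : ℝ, F = (fam H W g).card := ⟨_, rfl⟩
  have hF0 : 0 ≤ F := by rw [hF]; exact Nat.cast_nonneg _
  rw [← hF] at hfam ⊢
  obtain ⟨R, hR⟩ : ∃ R : ℝ, R = L ^ s * rho W ^ s := ⟨_, rfl⟩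
  rw [← hR]
  have hR0 : 0 < R := by
    have := rho_ge hW1
    rw [hR]
    positivity
  have hGnn : ∀ h, 0 ≤ GG W h C - 1 := fun h => by
    have := GG_ge_one W h C (by positivity)
    linarith
  -- one subset
  have hone : ∀ A ∈ powersetCard r X, |∑ a ∈ fam H W g, ∏ n ∈ A, Dn z v a n ^ 2 -
      (L ^ s) ^ r * (if ∀ n ∈ A, okn v g W n then (rho W ^ s) ^ r else 0) * F| ≤
      R ^ r * F * (1 / w + 2 * ∑ b ∈ A, ∑ a ∈ A.filter (fun a => a < b), (GG W (b - a) C - 1)) := by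
    intro A hA
    rw [mem_powersetCard] at hA
    obtain ⟨hAX, hAk⟩ := hA
    have h4 := hfam A (by omega) (fun n hn => by
      have := mem_Ioc.1 (hAX hn)
      omega)
    rw [hAk] at h4
    refine h4.trans ?_
    have e0 : (L ^ s) ^ r * ((rho W ^ s) ^ r * ((1 + 1 / w) * GG W (dif A) ((1 + 3 ^ (d + 1)) ^ (2 * s)) - 1)) * F =
        R ^ r * F * ((1 + 1 / w) * GG W (dif A) ((1 + 3 ^ (d + 1)) ^ (2 * s)) - 1) := by
      rw [hR, mul_pow]
      ring
    rw [e0]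
    apply mul_le_mul_of_nonneg_left _ (by positivity)
    have h7 := GG_dif W A (D * D) (by rw [hAk]; exact Nat.mul_le_mul (by omega) (by omega)) ((1 + 3 ^ (d + 1)) ^ (2 * s)) (by positivity)
    have e2 : ((1 : ℝ) + (1 + 3 ^ (d + 1)) ^ (2 * s)) ^ (D * D) = (C : ℝ) := by
      rw [hC, hC0]
      push_cast
      ring
    rw [e2] at h7
    set T := ∑ b ∈ A, ∑ a ∈ A.filter (fun a => a < b), (GG W (b - a) C - 1) with hT
    have hT0 : 0 ≤ T := sum_nonneg fun b _ => sum_nonneg fun a _ => hGnn _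
    have hη0 : (0 : ℝ) ≤ 1 / w := by positivity
    nlinarith
  refine (sum_le_sum hone).trans ?_
  rw [← mul_sum, sum_add_distrib, sum_const, card_powersetCard, nsmul_eq_mul, ← mul_sum]
  have hp1 : ((X.card.choose r : ℕ) : ℝ) * (1 / w) ≤ N ^ r * (1 / w) := by
    have h4 : ((X.card.choose r : ℕ) : ℝ) ≤ N ^ r := by
      have := Nat.choose_le_pow X.card r
      rw [← hNX]
      exact_mod_cast this
    gcongr
  have hp2 : 2 * ∑ A ∈ powersetCard r X, ∑ b ∈ A, ∑ a ∈ A.filter (fun a => a < b), (GG W (b - a) C - 1) ≤ 8 * C / w * N ^ r := by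
    rcases lt_or_ge r 2 with hk2 | hk2
    · have : ∑ A ∈ powersetCard r X, ∑ b ∈ A, ∑ a ∈ A.filter (fun a => a < b), (GG W (b - a) C - 1) = 0 := by
        apply sum_eq_zero
        intro A hA
        rw [mem_powersetCard] at hA
        apply sum_eq_zero
        intro b hb
        apply sum_eq_zero
        intro a ha
        rw [mem_filter] at ha
        have : 1 < A.card := one_lt_card.2 ⟨a, ha.1, b, hb, ha.2.ne⟩
        omega
      rw [this]
      simp only [mul_zero]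
      positivity
    · have h4 := pair_sum X r (fun h => GG W h C - 1) hGnn
      have hXX : XX (fun _ : Fin 1 => α) (fun _ => β) = X := by
        unfold XX
        ext n
        simp [hX]
      have h5 := XX_pairs (J := 1) (fun _ => α) (fun _ => β) (fun _ => hαβ) (by
        intro i _ j _ hij
        exact absurd (Subsingleton.elim i j) hij) (fun h => GG W h C - 1) (2 * C / w) L (by positivity) hL0.le (by
        intro j γ δ' hγ hδ'
        apply hgg γ δ' hγ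
        have h6 : (δ' : ℝ) ≤ z := by exact_mod_cast hδ'.trans hβ
        exact h6.trans hz)
      rw [hXX, hNX] at h5
      have h6 : ∑ A ∈ powersetCard r X, ∑ b ∈ A, ∑ a ∈ A.filter (fun a => a < b), (GG W (b - a) C - 1) ≤
          N ^ (r - 2) * (2 * C / w * (N * (N + (1 : ℕ) * L))) := by
        refine h4.trans ?_
        rw [hNX]
        gcongr
      calc 2 * ∑ A ∈ powersetCard r X, ∑ b ∈ A, ∑ a ∈ A.filter (fun a => a < b), (GG W (b - a) C - 1)
          ≤ 2 * (N ^ (r - 2) * (2 * C / w * (N * (N + (1 : ℕ) * L)))) := by gcongr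
        _ ≤ 2 * (N ^ (r - 2) * (2 * C / w * (N * (N + N)))) := by
            have : ((1 : ℕ) : ℝ) * L ≤ N := by push_cast; linarith
            gcongr
        _ = 8 * C / w * N ^ r := by
            obtain ⟨m, rfl⟩ : ∃ m, r = m + 2 := ⟨r - 2, by omega⟩
            simp only [Nat.add_sub_cancel]
            ring
  calc R ^ r * F * ((X.card.choose r : ℕ) * (1 / w) + 2 * ∑ A ∈ powersetCard r X, ∑ b ∈ A, ∑ a ∈ A.filter (fun a => a < b), (GG W (b - a) C - 1))
      ≤ R ^ r * F * (N ^ r * (1 / w) + 8 * C / w * N ^ r) := by gcongr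
    _ = ((8 * C + 1 : ℕ) : ℝ) / w * (R * N) ^ r * F := by
        push_cast
        rw [mul_pow]
        ring

end Pool.Agent.H77.BV
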