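import Mathlib
import Pool.Agent.H77.BV.Sa
import Pool.Agent.H77.BV.Ex
import Pool.Agent.H77.BV.S2

/-! The terms with a single factor. -/

set_option autoImplicit false

namespace Pool.Agent.H77.BV

open Finset Polynomial
open Pool.Agent.K1H89.PL
open Pool.Agent.K1H89.Ev (evN ev_pow)

/-- the standing assumptions -/
structure Dat (s B H z w : ℕ) (v : Fin s → ℕ → ℤ) (α β : ℕ) (b : ℕ → ℝ) (V : ℝ) : Prop where
  hz : (z : ℝ) ≤ Real.log H ^ B
  hwz : w ≤ z
  hv : ∀ i, ∀ n : ℕ, (n : ℝ) ≤ Real.log H ^ B → |((v i n : ℤ) : ℝ)| ≤ H * Real.log H ^ B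
  pol : Pol v
  hαβ : α ≤ β
  hβ : β ≤ z
  hb : ∀ n, |b n| ≤ 1
  hV : TV b α β ≤ V

lemma Dn_inv {s d : ℕ} (z : ℕ) (v : Fin s → ℕ → ℤ) (a : Fin s → Fin (d + 1) → ℤ) (T : Finset ℕ) (hT : T.card ≤ d)
    (i : Fin s) (c : ℤ) (n : ℕ) (hn : n ∈ T) : Dn z v (a + shv T i c) n = Dn z v a n := by
  unfold Dn Xn Yn
  congr 1
  · apply prod_congr rfl
    intro i' _
    rw [val_shv_mem v a T hT i c i' n hn]
  · apply prod_congr rfl
    intro i' _
    rw [val_shv_mem v a T hT i c i' n hn]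

/-- the differences are bounded -/
lemma Dn_bd (s d B : ℕ) : ∃ H0 : ℕ, ∀ H : ℕ, H0 ≤ H → ∀ z : ℕ, (z : ℝ) ≤ Real.log H ^ B → ∀ W : ℕ, ∀ v : Fin s → ℕ → ℤ,
    ∀ g : Fin s → Fin (d + 1) → ℤ, ∀ a ∈ fam H W g, ∀ n : ℕ, n ≤ z →
    (∀ i, |((v i n : ℤ) : ℝ)| ≤ H * Real.log H ^ B) → |Dn z v a n| ≤ (2 * Real.log H) ^ s := by
  obtain ⟨H1, h1⟩ := Xn_bd s d B
  obtain ⟨H2, h2⟩ := MP_small B
  obtain ⟨H3, h3⟩ := evN _ (Real.tendsto_log_atTop.eventually_ge_atTop 1)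
  refine ⟨max H1 (max H2 H3), fun H hH z hz W v g a ha n hn hv => ?_⟩
  have h4 := h1 H (by omega) W v g a ha n (le_trans (by exact_mod_cast hn) hz) hv
  have h5 := h2 H (by omega) z hz
  have h6 := h3 H (by omega)
  have h7 := Xn_nonneg v a n
  have h8 := Yn_nonneg z v a n
  have h9 := Yn_le z v a n
  have h10 : MP z ^ s ≤ (2 * Real.log H) ^ s := by
    apply pow_le_pow_left₀ (zero_le_one.trans (MP_ge_one z))
    linarith
  unfold Dn
  rw [abs_le]
  constructor <;> linarith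

/-- the terms with a single factor are small -/
theorem P1_bound (s d B : ℕ) : ∃ H0 : ℕ, ∀ H : ℕ, H0 ≤ H → ∀ z w : ℕ, ∀ v : Fin s → ℕ → ℤ, ∀ α β : ℕ, ∀ b : ℕ → ℝ, ∀ V : ℝ,
    Dat s B H z w v α β b V → ((primorial w : ℕ) : ℝ) ≤ Real.log H ^ B → ∀ g : Fin s → Fin (d + 1) → ℤ, ∀ k : ℕ, k ≤ d + 1 →
    |∑ a ∈ fam H (primorial w) g, ∑ κ ∈ (piAntidiag (Ioc α β) k).filter (fun κ => ∃ n ∈ Ioc α β, κ n = 1),
      (Nat.multinomial (Ioc α β) κ : ℝ) * ∏ n ∈ Ioc α β, (b n * Dn z v a n) ^ κ n| ≤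
      (fam H (primorial w) g).card / Real.log H := by
  classical
  obtain ⟨B1, hB1⟩ : ∃ e, e = B + 2 * s * (d + 1) := ⟨_, rfl⟩
  obtain ⟨A1, hA1⟩ : ∃ e, e = B * (d + 1) + 1 := ⟨_, rfl⟩
  obtain ⟨H1, h1⟩ := singles s d A1 B1
  obtain ⟨H2, h2⟩ := Dn_bd s d B
  obtain ⟨H3, h3⟩ := evN _ (Real.tendsto_log_atTop.eventually_ge_atTop 2)
  refine ⟨max H1 (max H2 (max H3 1)), fun H hH z w v α β b V hD hWB g k hk => ?_⟩
  obtain ⟨hz, hwz, hv, hpol, hαβ, hβ, hb, hV⟩ := hD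
  have hsing := h1 H (by omega) z (primorial w)
  have hbd := h2 H (by omega) z hz (primorial w) v g
  have hL2 := h3 H (by omega)
  set L := Real.log H with hL
  have hL1 : 1 ≤ L := by linarith
  have hL0 : 0 < L := by linarith
  have hH0 : (0 : ℝ) ≤ H := Nat.cast_nonneg _
  set W := primorial w with hW
  have hW1 : 1 ≤ W := primorial_pos w
  have p0 : ∀ a : ℕ, 0 < L ^ a := fun a => by positivity
  have pw : ∀ {a b : ℕ}, a ≤ b → L ^ a ≤ L ^ b := fun h => pow_le_pow_right₀ hL1 h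
  have hBB : L ^ B ≤ L ^ B1 := pw (by omega)
  set I := Ioc α β with hI
  have hIz : ∀ n ∈ I, n ≤ z := by
    intro n hn
    rw [hI, mem_Ioc] at hn
    omega
  have hvz : ∀ i, ∀ n : ℕ, n ≤ z → |((v i n : ℤ) : ℝ)| ≤ H * L ^ B := by
    intro i n hn
    exact hv i n (le_trans (by exact_mod_cast hn) hz)
  obtain ⟨F, hF⟩ : ∃ F : ℝ, F = (fam H W g).card := ⟨_, rfl⟩
  have hF0 : 0 ≤ F := by rw [hF]; exact Nat.cast_nonneg _
  rw [← hF]
  have hone : ∀ κ ∈ (piAntidiag I k).filter (fun κ => ∃ n ∈ I, κ n = 1),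
      |∑ a ∈ fam H W g, (Nat.multinomial I κ : ℝ) * ∏ n ∈ I, (b n * Dn z v a n) ^ κ n| ≤
        (Nat.multinomial I κ : ℝ) * (F / L ^ A1) := by
    intro κ hκ
    rw [mem_filter] at hκ
    obtain ⟨hκ1, n0, hn0, hκn0⟩ := hκ
    rw [← mul_sum, abs_mul, Nat.abs_cast]
    apply mul_le_mul_of_nonneg_left _ (Nat.cast_nonneg _)
    obtain ⟨T, hT⟩ : ∃ T, T = (sp I κ).erase n0 := ⟨_, rfl⟩
    have hn0s : n0 ∈ sp I κ := by
      unfold sp
      rw [mem_filter]
      exact ⟨hn0, by omega⟩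
    have hspk : (sp I κ).card ≤ k := by
      rw [mem_piAntidiag] at hκ1
      have h4 : ∑ n ∈ I, κ n = k := hκ1.1
      rw [sum_sp] at h4
      calc (sp I κ).card = ∑ n ∈ sp I κ, 1 := by rw [card_eq_sum_ones]
        _ ≤ ∑ n ∈ sp I κ, κ n := by
            apply sum_le_sum
            intro n hn
            unfold sp at hn
            rw [mem_filter] at hn
            omega
        _ = k := h4
    have hTc : T.card ≤ d := by
      rw [hT, card_erase_of_mem hn0s]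
      omega
    have hTI : ∀ n ∈ T, n ∈ I := by
      intro n hn
      rw [hT] at hn
      exact sp_sub I κ (mem_of_mem_erase hn)
    have hnT : n0 ∉ T := by
      rw [hT]
      exact notMem_erase _ _
    obtain ⟨G, hG⟩ : ∃ G : (Fin s → Fin (d + 1) → ℤ) → ℝ, G = fun a => ∏ n ∈ T, (b n * Dn z v a n) ^ κ n := ⟨_, rfl⟩
    have hGinv : Inv W T G := by
      intro a i t
      rw [hG]
      simp only
      apply prod_congr rfl
      intro n hn
      rw [Dn_inv z v a T hTc i _ n hn]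
    have hxb : ∀ a ∈ fam H W g, ∀ n ∈ I, |b n * Dn z v a n| ≤ (2 * L) ^ s := by
      intro a ha n hn
      rw [abs_mul]
      have h4 := hbd a ha n (hIz n hn) (fun i => hvz i n (hIz n hn))
      calc |b n| * |Dn z v a n| ≤ 1 * (2 * L) ^ s := mul_le_mul (hb n) h4 (abs_nonneg _) zero_le_one
        _ = (2 * L) ^ s := one_mul _
    have hU1 : (1 : ℝ) ≤ (2 * L) ^ s := one_le_pow₀ (by linarith)
    have hGb : ∀ a ∈ fam H W g, |G a| ≤ L ^ B1 := by
      intro a ha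
      rw [hG]
      simp only
      rw [abs_prod]
      calc ∏ n ∈ T, |(b n * Dn z v a n) ^ κ n| ≤ ∏ n ∈ T, ((2 * L) ^ s) ^ κ n := by
            apply prod_le_prod (fun _ _ => abs_nonneg _)
            intro n hn
            rw [abs_pow]
            exact pow_le_pow_left₀ (abs_nonneg _) (hxb a ha n (hTI n hn)) _
        _ = ((2 * L) ^ s) ^ (∑ n ∈ T, κ n) := by rw [prod_pow_eq_pow_sum]
        _ ≤ ((2 * L) ^ s) ^ (d + 1) := by
            apply pow_le_pow_right₀ hU1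
            rw [mem_piAntidiag] at hκ1
            have h4 : ∑ n ∈ I, κ n = k := hκ1.1
            calc ∑ n ∈ T, κ n ≤ ∑ n ∈ I, κ n := sum_le_sum_of_subset hTI
              _ ≤ d + 1 := by omega
        _ ≤ ((L ^ 2) ^ s) ^ (d + 1) := by
            apply pow_le_pow_left₀ (by positivity)
            apply pow_le_pow_left₀ (by positivity)
            nlinarith
        _ = L ^ (2 * s * (d + 1)) := by rw [← pow_mul, ← pow_mul, mul_assoc]
        _ ≤ L ^ B1 := pw (by omega)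
    have hs' := hsing (hz.trans hBB) hW1 (hWB.trans hBB) (fun p hp hpW => by
      rw [hW] at hpW
      exact ((Nat.Prime.dvd_primorial_iff hp).1 hpW).trans hwz) v (fun i n hn => by
        refine (hvz i n hn).trans ?_
        gcongr) g T hTc (fun n hn => hIz n (hTI n hn)) n0 (hIz n0 hn0) hnT G hGinv hGb
    have e : ∑ a ∈ fam H W g, ∏ n ∈ I, (b n * Dn z v a n) ^ κ n =
        b n0 * ∑ a ∈ fam H W g, (Xn v a n0 - Yn z v a n0) * G a := by
      rw [mul_sum]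
      apply sum_congr rfl
      intro a _
      rw [prod_sp, ← mul_prod_erase _ _ hn0s, hκn0, pow_one, ← hT, hG]
      unfold Dn
      ring
    rw [e, abs_mul, hF]
    calc |b n0| * |∑ a ∈ fam H W g, (Xn v a n0 - Yn z v a n0) * G a| ≤ 1 * ((fam H W g).card / L ^ A1) :=
          mul_le_mul (hb n0) hs' (abs_nonneg _) zero_le_one
      _ = (fam H W g).card / L ^ A1 := one_mul _
  rw [sum_comm]
  refine (abs_sum_le_sum_abs _ _).trans ((sum_le_sum hone).trans ?_)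
  rw [← sum_mul]
  have h4 : ∑ κ ∈ (piAntidiag I k).filter (fun κ => ∃ n ∈ I, κ n = 1), (Nat.multinomial I κ : ℝ) ≤ L ^ (B * (d + 1)) := by
    have h5 := sum_pow_eq_sum_piAntidiag I (fun _ => (1 : ℝ)) k
    simp only [one_pow, prod_const_one, mul_one, sum_const, nsmul_eq_mul] at h5
    calc ∑ κ ∈ (piAntidiag I k).filter (fun κ => ∃ n ∈ I, κ n = 1), (Nat.multinomial I κ : ℝ)
        ≤ ∑ κ ∈ piAntidiag I k, (Nat.multinomial I κ : ℝ) :=
          sum_le_sum_of_subset_of_nonneg (filter_subset _ _) (fun _ _ _ => Nat.cast_nonneg _)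
      _ = (I.card : ℝ) ^ k := h5.symm
      _ ≤ (L ^ B) ^ k := by
          apply pow_le_pow_left₀ (Nat.cast_nonneg _)
          rw [hI, Nat.card_Ioc]
          have h6 : ((β - α : ℕ) : ℝ) ≤ z := by exact_mod_cast (by omega : β - α ≤ z)
          exact h6.trans hz
      _ ≤ L ^ (B * (d + 1)) := by
          rw [← pow_mul]
          exact pw (Nat.mul_le_mul_left _ hk)
  calc (∑ κ ∈ (piAntidiag I k).filter (fun κ => ∃ n ∈ I, κ n = 1), (Nat.multinomial I κ : ℝ)) * (F / L ^ A1)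
      ≤ L ^ (B * (d + 1)) * (F / L ^ A1) := by gcongr
    _ = F / L := by
        rw [hA1, pow_succ]
        field_simp

end Pool.Agent.H77.BV
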