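import Mathlib
import Pool.Agent.H77.BV.P1
import Pool.Graph.R_pool_sql_team_seeded_efc1946e.K1H89.PL.B16

/-! The admissible residue classes. -/

set_option autoImplicit false

namespace Pool.Agent.H77.BV

open Finset Polynomial
open Pool.Agent.K1H89.PL
open Pool.Agent.K1H89.Ev (evN ev_pow)

lemma okn_iff {s d : ℕ} (v : Fin s → ℕ → ℤ) (g : Fin s → Fin (d + 1) → ℤ) (w n : ℕ) :
    okn v g (primorial w) n ↔ ∀ p ∈ prN w, ¬ (p : ℤ) ∣ Fa v g n := by
  unfold okn Fa
  constructor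
  · intro hn p hp hd
    rw [mem_prN] at hp
    rw [(Nat.prime_iff_prime_int.1 hp.2).dvd_finsetProd_iff] at hd
    obtain ⟨i, _, hi⟩ := hd
    have h3 := hn i
    have h4 : (p : ℤ) ∣ (primorial w : ℤ) := by exact_mod_cast (Nat.Prime.dvd_primorial_iff hp.2).2 hp.1
    obtain ⟨x, y, hxy⟩ := h3
    have h5 : (p : ℤ) ∣ 1 := by
      rw [← hxy]
      exact dvd_add (dvd_mul_of_dvd_right hi _) (dvd_mul_of_dvd_right h4 _)
    exact (Nat.prime_iff_prime_int.1 hp.2).not_isUnit (isUnit_of_dvd_one h5)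
  · intro h i
    rw [Int.isCoprime_iff_gcd_eq_one]
    by_contra hg
    obtain ⟨p, hp, hpd⟩ := Nat.exists_prime_and_dvd hg
    have h1 : (p : ℤ) ∣ pv (v i) (g i) n := (Int.natCast_dvd_natCast.2 hpd).trans (Int.gcd_dvd_left _ _)
    have h2 : (p : ℤ) ∣ ((primorial w : ℕ) : ℤ) := (Int.natCast_dvd_natCast.2 hpd).trans (Int.gcd_dvd_right _ _)
    have h3 : p ∣ primorial w := by exact_mod_cast h2
    apply h p (mem_prN.2 ⟨(Nat.Prime.dvd_primorial_iff hp).1 h3, hp⟩)
    exact h1.trans (dvd_prod_of_mem _ (mem_univ i))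

lemma rho_pri (w : ℕ) : rho (primorial w) = MP w := by
  rw [rho_primorial]
  unfold MP
  apply prod_congr rfl
  intro p _
  rw [one_div]

lemma okn_per {s d : ℕ} {v : Fin s → ℕ → ℤ} (hv : Pol v) (g : Fin s → Fin (d + 1) → ℤ) (w : ℕ) :
    (∀ n, okn v g (primorial w) (n + primorial w) ↔ okn v g (primorial w) n) ∧
    (open Classical in
      (((range (primorial w)).filter (fun n => okn v g (primorial w) n)).card : ℝ) / (primorial w : ℕ) =
      ∏ p ∈ prN w, (1 - (om (Fa v g) p : ℝ) / p)) := by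
  classical
  have hP := Fa_per hv g
  obtain ⟨h1, h2⟩ := crt_prod (fun p x => ¬ (p : ℤ) ∣ Fa v g x) (prN w) (fun p hp => (mem_prN.1 hp).2)
    (fun p hp x => not_congr (hP p (mem_prN.1 hp).2 x))
  rw [← primorial_eq] at h1 h2
  constructor
  · intro n
    rw [okn_iff, okn_iff]
    exact h1 n
  · have e : (range (primorial w)).filter (fun n => okn v g (primorial w) n) =
        (range (primorial w)).filter (fun x => ∀ p ∈ prN w, ¬ (p : ℤ) ∣ Fa v g x) := by
      apply filter_congr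
      intro n _
      rw [okn_iff]
    rw [e]
    have h3 : (((range (primorial w)).filter (fun x => ∀ p ∈ prN w, ¬ (p : ℤ) ∣ Fa v g x)).card : ℝ) =
        ∏ p ∈ prN w, (((range p).filter (fun x => ¬ (p : ℤ) ∣ Fa v g x)).card : ℝ) := by
      have h4 : ((range (primorial w)).filter (fun x => ∀ p ∈ prN w, ¬ (p : ℤ) ∣ Fa v g x)).card =
          ∏ p ∈ prN w, ((range p).filter (fun x => ¬ (p : ℤ) ∣ Fa v g x)).card := by
        convert h2
      rw [h4]
      push_cast
      rfl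
    rw [h3]
    have h5 : ((primorial w : ℕ) : ℝ) = ∏ p ∈ prN w, (p : ℝ) := by
      rw [primorial_eq]
      push_cast
      rfl
    rw [h5, ← prod_div_distrib]
    apply prod_congr rfl
    intro p hp
    have hp0 : (p : ℝ) ≠ 0 := by
      have := (mem_prN.1 hp).2.pos
      positivity
    have h6 : ((range p).filter (fun x => ¬ (p : ℤ) ∣ Fa v g x)).card + om (Fa v g) p = p := by
      unfold om
      have := card_filter_add_card_filter_not (s := range p) (fun x : ℕ => (p : ℤ) ∣ Fa v g x)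
      rw [card_range] at this
      omega
    have h7 : (((range p).filter (fun x => ¬ (p : ℤ) ∣ Fa v g x)).card : ℝ) = p - om (Fa v g) p := by
      rw [eq_sub_iff_add_eq]
      exact_mod_cast h6
    rw [h7, sub_div, div_self hp0]

/-- the density of the admissible classes times the factor is the constant -/
lemma dens_eq {s d : ℕ} {v : Fin s → ℕ → ℤ} (hv : Pol v) (g : Fin s → Fin (d + 1) → ℤ) (w : ℕ) :
    open Classical in
    rho (primorial w) ^ s * ((((range (primorial w)).filter (fun n => okn v g (primorial w) n)).card : ℝ) / (primorial w : ℕ)) =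
      Cc w v g := by
  rw [(okn_per hv g w).2, rho_pri]
  rfl

lemma okn_mod {s d : ℕ} {v : Fin s → ℕ → ℤ} (hv : Pol v) (g : Fin s → Fin (d + 1) → ℤ) (w n : ℕ) :
    okn v g (primorial w) n ↔ okn v g (primorial w) (n % primorial w) := by
  have h := (okn_per hv g w).1
  have h2 : ∀ q r, okn v g (primorial w) (r + primorial w * q) ↔ okn v g (primorial w) r := by
    intro q
    induction q with
    | zero => intro r; simp
    | succ q ih =>
      intro r
      rw [show r + primorial w * (q + 1) = (r + primorial w * q) + primorial w by ring, h]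
      exact ih r
  conv_lhs => rw [← Nat.mod_add_div n (primorial w)]
  exact h2 _ _

/-- sums over the admissible classes -/
lemma sum_ok {s d : ℕ} {v : Fin s → ℕ → ℤ} (hv : Pol v) (g : Fin s → Fin (d + 1) → ℤ) (w : ℕ) (c : ℕ → ℝ) (α β : ℕ)
    (hαβ : α ≤ β) (hc : ∀ n, |c n| ≤ 1) :
    open Classical in
    |∑ n ∈ (Ioc α β).filter (fun n => okn v g (primorial w) n), c n -
      ((((range (primorial w)).filter (fun n => okn v g (primorial w) n)).card : ℝ) / (primorial w : ℕ)) * ∑ n ∈ Ioc α β, c n| ≤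
      (primorial w : ℕ) * (1 + TV c α β) := by
  classical
  set W := primorial w with hW
  have hW1 : 1 ≤ W := primorial_pos w
  set R := (range W).filter (fun n => okn v g W n) with hR
  have e1 : ∑ n ∈ (Ioc α β).filter (fun n => okn v g W n), c n =
      ∑ r ∈ R, ∑ n ∈ (Ioc α β).filter (fun n => n % W = r), c n := by
    have hmap : ∀ n ∈ (Ioc α β).filter (fun n => okn v g W n), n % W ∈ R := by
      intro n hn
      rw [mem_filter] at hn
      rw [hR, mem_filter, mem_range]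
      exact ⟨Nat.mod_lt _ hW1, (okn_mod hv g w n).1 hn.2⟩
    rw [← sum_fiberwise_of_maps_to hmap]
    apply sum_congr rfl
    intro r hr
    apply sum_congr _ (fun _ _ => rfl)
    ext n
    rw [mem_filter, mem_filter, mem_filter]
    constructor
    · rintro ⟨⟨h1, _⟩, h2⟩
      exact ⟨h1, h2⟩
    · rintro ⟨h1, h2⟩
      refine ⟨⟨h1, ?_⟩, h2⟩
      rw [hR, mem_filter] at hr
      rw [← h2] at hr
      exact (okn_mod hv g w n).2 hr.2
  have e2 : ∑ r ∈ R, ∑ n ∈ (Ioc α β).filter (fun n => n % W = r), c n - (R.card : ℝ) / W * ∑ n ∈ Ioc α β, c n =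
      ∑ r ∈ R, (∑ n ∈ (Ioc α β).filter (fun n => n % W = r), c n - (∑ n ∈ Ioc α β, c n) / W) := by
    rw [sum_sub_distrib, sum_const, nsmul_eq_mul]
    ring
  rw [e1, e2]
  refine (abs_sum_le_sum_abs _ _).trans ?_
  have h1 : ∀ r ∈ R, |∑ n ∈ (Ioc α β).filter (fun n => n % W = r), c n - (∑ n ∈ Ioc α β, c n) / W| ≤ 1 + TV c α β := by
    intro r hr
    rw [hR, mem_filter, mem_range] at hr
    exact res_abel c α β W r hW1 hαβ hr.1 hc
  refine (sum_le_sum h1).trans ?_
  rw [sum_const, nsmul_eq_mul]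
  have h2 : (R.card : ℝ) ≤ W := by
    have : R.card ≤ W := by
      calc R.card ≤ (range W).card := card_filter_le _ _
        _ = W := card_range W
    exact_mod_cast this
  have h3 := TV_nonneg c α β
  gcongr

lemma TV_sq (b : ℕ → ℝ) (α β : ℕ) (hb : ∀ n, |b n| ≤ 1) : TV (fun n => b n ^ 2) α β ≤ 2 * TV b α β := by
  unfold TV
  rw [mul_sum]
  apply sum_le_sum
  intro n _
  have e : b (n + 1) ^ 2 - b n ^ 2 = (b (n + 1) + b n) * (b (n + 1) - b n) := by ring
  rw [e, abs_mul]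
  apply mul_le_mul_of_nonneg_right _ (abs_nonneg _)
  have h1 := hb n
  have h2 := hb (n + 1)
  have h3 := abs_add_le (b (n + 1)) (b n)
  linarith

/-- the lower bound for the constant -/
lemma Cc_low (s k : ℕ) : ∃ c : ℝ, 0 < c ∧ ∀ w d : ℕ, ∀ v : Fin s → ℕ → ℤ, ∀ g : Fin s → Fin (d + 1) → ℤ,
    (∀ p : ℕ, p.Prime → om (Fa v g) p = p ∨ om (Fa v g) p ≤ k) → Cc w v g ≠ 0 → c ≤ Cc w v g * MP w ^ (2 * k) := by
  refine ⟨∏ p ∈ prN (2 * k), (1 / (p : ℝ)), prod_pos fun p hp => by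
    have := (mem_prN.1 hp).2.pos
    positivity, fun w d v g hom hC => ?_⟩
  unfold Cc at hC ⊢
  have hMP1 : 1 ≤ MP w := MP_ge_one w
  have hprod : ∀ p ∈ prN w, (1 - (om (Fa v g) p : ℝ) / p) ≠ 0 := by
    rw [← prod_ne_zero_iff]
    exact right_ne_zero_of_mul hC
  have hfac : ∀ p ∈ prN w, (if p ≤ 2 * k then 1 / (p : ℝ) else 1) * (1 - (p : ℝ)⁻¹) ^ (2 * k) ≤ 1 - (om (Fa v g) p : ℝ) / p := by
    intro p hp
    have hpp := (mem_prN.1 hp).2
    have hp0 : (0 : ℝ) < p := by exact_mod_cast hpp.pos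
    have hp1 : (1 : ℝ) < p := by exact_mod_cast hpp.one_lt
    have hinv0 : (0 : ℝ) ≤ (p : ℝ)⁻¹ := by positivity
    have hinv1 : (p : ℝ)⁻¹ ≤ 1 := inv_le_one_of_one_le₀ hp1.le
    split_ifs with h
    · have h1 : om (Fa v g) p ≠ p := by
        intro h2
        apply hprod p hp
        rw [h2, div_self hp0.ne', sub_self]
      have h2 := om_le (Fa v g) p
      have h3 : (om (Fa v g) p : ℝ) + 1 ≤ p := by exact_mod_cast (by omega : om (Fa v g) p + 1 ≤ p)
      have h4 : (1 - (p : ℝ)⁻¹) ^ (2 * k) ≤ 1 := pow_le_one₀ (by linarith) (by linarith)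
      calc 1 / (p : ℝ) * (1 - (p : ℝ)⁻¹) ^ (2 * k) ≤ 1 / (p : ℝ) * 1 := by gcongr
        _ ≤ 1 - (om (Fa v g) p : ℝ) / p := by
            rw [mul_one, le_sub_iff_add_le, ← add_div, div_le_one hp0]
            linarith
    · rw [one_mul]
      have h1 : om (Fa v g) p ≤ k := by
        rcases hom p hpp with h2 | h2
        · exfalso
          apply hprod p hp
          rw [h2, div_self hp0.ne', sub_self]
        · exact h2
      have h2 : (k : ℝ) / p ≤ 1 / 2 := by
        rw [div_le_div_iff₀ hp0 (by norm_num)]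
        have : 2 * k < p := by omega
        have : (2 * k : ℝ) < p := by exact_mod_cast this
        linarith
      have h3 : (om (Fa v g) p : ℝ) / p ≤ k / p := by
        gcongr
      have h4 : 1 - (p : ℝ)⁻¹ ≤ Real.exp (-(p : ℝ)⁻¹) := by
        have := Real.add_one_le_exp (-(p : ℝ)⁻¹)
        linarith
      have h5 : (1 - (p : ℝ)⁻¹) ^ (2 * k) ≤ Real.exp (-(2 * ((k : ℝ) / p))) := by
        calc (1 - (p : ℝ)⁻¹) ^ (2 * k) ≤ Real.exp (-(p : ℝ)⁻¹) ^ (2 * k) := pow_le_pow_left₀ (by linarith) h4 _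
          _ = Real.exp (-(2 * ((k : ℝ) / p))) := by
              rw [← Real.exp_nat_mul]
              congr 1
              push_cast
              ring
      have h6 : Real.exp (-(2 * ((k : ℝ) / p))) ≤ 1 - (k : ℝ) / p := by
        have hy0 : 0 ≤ (k : ℝ) / p := by positivity
        have h7 := Real.add_one_le_exp (2 * ((k : ℝ) / p))
        have h8 : Real.exp (-(2 * ((k : ℝ) / p))) * Real.exp (2 * ((k : ℝ) / p)) = 1 := by
          rw [← Real.exp_add]
          simp
        have h9 : 0 < Real.exp (-(2 * ((k : ℝ) / p))) := Real.exp_pos _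
        have h10 : 1 ≤ (1 - (k : ℝ) / p) * (2 * ((k : ℝ) / p) + 1) := by nlinarith
        have h11 : (1 - (k : ℝ) / p) * (2 * ((k : ℝ) / p) + 1) ≤ (1 - (k : ℝ) / p) * Real.exp (2 * ((k : ℝ) / p)) := by
          apply mul_le_mul_of_nonneg_left h7
          linarith
        calc Real.exp (-(2 * ((k : ℝ) / p))) = Real.exp (-(2 * ((k : ℝ) / p))) * 1 := (mul_one _).symm
          _ ≤ Real.exp (-(2 * ((k : ℝ) / p))) * ((1 - (k : ℝ) / p) * Real.exp (2 * ((k : ℝ) / p))) := by
              gcongr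
              linarith
          _ = (1 - (k : ℝ) / p) * (Real.exp (-(2 * ((k : ℝ) / p))) * Real.exp (2 * ((k : ℝ) / p))) := by ring
          _ = 1 - (k : ℝ) / p := by rw [h8, mul_one]
      linarith
  have h1 : ∏ p ∈ prN w, ((if p ≤ 2 * k then 1 / (p : ℝ) else 1) * (1 - (p : ℝ)⁻¹) ^ (2 * k)) ≤
      ∏ p ∈ prN w, (1 - (om (Fa v g) p : ℝ) / p) := by
    apply prod_le_prod _ hfac
    intro p hp
    have hpp := (mem_prN.1 hp).2
    have hp1 : (1 : ℝ) < p := by exact_mod_cast hpp.one_lt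
    have hinv1 : (p : ℝ)⁻¹ ≤ 1 := inv_le_one_of_one_le₀ hp1.le
    apply mul_nonneg
    · split_ifs <;> positivity
    · exact pow_nonneg (by linarith) _
  have h2 : (∏ p ∈ prN w, (1 - (p : ℝ)⁻¹) ^ (2 * k)) * MP w ^ (2 * k) = 1 := by
    rw [prod_pow, ← mul_pow]
    unfold MP
    rw [← prod_mul_distrib, prod_eq_one, one_pow]
    intro p hp
    have hpp := (mem_prN.1 hp).2
    have hp1 : (1 : ℝ) < p := by exact_mod_cast hpp.one_lt
    have hinv1 : (p : ℝ)⁻¹ < 1 := inv_lt_one_of_one_lt₀ hp1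
    exact mul_inv_cancel₀ (by linarith)
  have h3 : ∏ p ∈ prN (2 * k), (1 / (p : ℝ)) ≤ ∏ p ∈ prN w, (if p ≤ 2 * k then 1 / (p : ℝ) else 1) := by
    rw [← prod_filter]
    have hsub : (prN w).filter (fun p => p ≤ 2 * k) ⊆ prN (2 * k) := by
      intro p hp
      rw [mem_filter, mem_prN] at hp
      rw [mem_prN]
      exact ⟨hp.2, hp.1.2⟩
    rw [← prod_sdiff hsub]
    apply mul_le_of_le_one_left
    · apply prod_nonneg
      intro p _
      positivity
    · apply prod_le_one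
      · intro p _
        positivity
      · intro p hp
        have hpp := (mem_prN.1 (mem_sdiff.1 hp).1).2
        have hp1 : (1 : ℝ) < p := by exact_mod_cast hpp.one_lt
        rw [div_le_one (by linarith)]
        linarith
  rw [prod_mul_distrib] at h1
  have hMPs : 1 ≤ MP w ^ s := one_le_pow₀ hMP1
  have hP0 : 0 ≤ ∏ p ∈ prN w, (1 - (om (Fa v g) p : ℝ) / p) := by
    apply prod_nonneg
    intro p hp
    have hpp := (mem_prN.1 hp).2
    have hp0 : (0 : ℝ) < p := by exact_mod_cast hpp.pos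
    have := om_le (Fa v g) p
    have : (om (Fa v g) p : ℝ) / p ≤ 1 := by
      rw [div_le_one hp0]
      exact_mod_cast this
    linarith
  have hM0 : (0 : ℝ) < MP w ^ (2 * k) := by positivity
  calc ∏ p ∈ prN (2 * k), (1 / (p : ℝ)) ≤ ∏ p ∈ prN w, (if p ≤ 2 * k then 1 / (p : ℝ) else 1) := h3
    _ = (∏ p ∈ prN w, (if p ≤ 2 * k then 1 / (p : ℝ) else 1)) * ((∏ p ∈ prN w, (1 - (p : ℝ)⁻¹) ^ (2 * k)) * MP w ^ (2 * k)) := by
        rw [h2, mul_one]
    _ = ((∏ p ∈ prN w, (if p ≤ 2 * k then 1 / (p : ℝ) else 1)) * ∏ p ∈ prN w, (1 - (p : ℝ)⁻¹) ^ (2 * k)) * MP w ^ (2 * k) := by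
        ring
    _ ≤ (∏ p ∈ prN w, (1 - (om (Fa v g) p : ℝ) / p)) * MP w ^ (2 * k) := by gcongr
    _ ≤ (MP w ^ s * ∏ p ∈ prN w, (1 - (om (Fa v g) p : ℝ) / p)) * MP w ^ (2 * k) := by
        gcongr
        exact le_mul_of_one_le_left hP0 hMPs

/-- the choice of `w` -/
lemma w_large (m : ℕ) (c : ℝ) : ∃ w0 : ℕ, ∀ w : ℕ, w0 ≤ w → c * MP w ^ m ≤ w := by
  obtain ⟨K, hK1, hK⟩ := mert
  obtain ⟨w1, hw1⟩ := evN _ (ev_pow m (|c| * K ^ m) 1 one_pos)
  refine ⟨max w1 2, fun w hw => ?_⟩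
  have h1 := hw1 w (by omega)
  rw [Real.rpow_one] at h1
  have h2 := hK w (by omega)
  have hMP0 : 0 ≤ MP w := zero_le_one.trans (MP_ge_one w)
  calc c * MP w ^ m ≤ |c| * MP w ^ m := mul_le_mul_of_nonneg_right (le_abs_self c) (pow_nonneg hMP0 _)
    _ ≤ |c| * (K * Real.log w) ^ m := by gcongr
    _ = |c| * K ^ m * Real.log w ^ m := by rw [mul_pow]; ring
    _ ≤ w := h1

end Pool.Agent.H77.BV
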