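import Mathlib
import Pool.Agent.H77.BV.De

/-! The constant is close to its truncation, in mean square, in every class. -/

set_option autoImplicit false

namespace Pool.Agent.H77.BV

open Finset Polynomial
open Pool.Agent.K1H89.PL
open Pool.Agent.K1H89.Ev (evN ev_pow)

lemma hz_pri {w z : ℕ} (hwz : w ≤ z) : hz z ((primorial w : ℕ) : ℤ) = MP w := by
  unfold hz MP
  have e : (prN z).filter (fun p : ℕ => (p : ℤ) ∣ ((primorial w : ℕ) : ℤ)) = prN w := by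
    ext p
    rw [mem_filter, mem_prN, mem_prN]
    constructor
    · rintro ⟨⟨h1, h2⟩, h3⟩
      exact ⟨(Nat.Prime.dvd_primorial_iff h2).1 (by exact_mod_cast h3), h2⟩
    · rintro ⟨h1, h2⟩
      exact ⟨⟨by omega, h2⟩, by exact_mod_cast (Nat.Prime.dvd_primorial_iff h2).2 h1⟩
  rw [e]
  apply prod_congr rfl
  intro p _
  rw [one_div]

open Classical in
lemma yg_val {s d : ℕ} {w z : ℕ} (hwz : w ≤ z) (v : Fin s → ℕ → ℤ) (g : Fin s → Fin (d + 1) → ℤ) (n : ℕ) :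
    yg z (primorial w) v g n = if okn v g (primorial w) n then MP w ^ s else 0 := by
  unfold yg
  have hiff : okn v g (primorial w) n ↔ ∀ i, ∀ p ∈ prN z, (p : ℤ) ∣ ((primorial w : ℕ) : ℤ) → ¬ (p : ℤ) ∣ val v g i n := by
    rw [okn_iff]
    constructor
    · intro h i p hp hpW hd
      have h2 : p.Prime := (mem_prN.1 hp).2
      apply h p (mem_prN.2 ⟨(Nat.Prime.dvd_primorial_iff h2).1 (by exact_mod_cast hpW), h2⟩)
      unfold Fa
      exact hd.trans (dvd_prod_of_mem _ (mem_univ i))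
    · intro h p hp hd
      have h2 := mem_prN.1 hp
      unfold Fa at hd
      rw [(Nat.prime_iff_prime_int.1 h2.2).dvd_finsetProd_iff] at hd
      obtain ⟨i, _, hi⟩ := hd
      exact h i p (mem_prN.2 ⟨by omega, h2.2⟩) (by exact_mod_cast (Nat.Prime.dvd_primorial_iff h2.2).2 h2.1) hi
  by_cases h : okn v g (primorial w) n
  · rw [if_pos h]
    have h2 := hiff.1 h
    have e : ∀ i ∈ (univ : Finset (Fin s)), yw z ((primorial w : ℕ) : ℤ) (val v g i n) = MP w := by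
      intro i _
      unfold yw
      rw [if_pos (h2 i), hz_pri hwz]
    rw [prod_congr rfl e, prod_const, card_univ, Fintype.card_fin]
  · rw [if_neg h]
    have h2 := mt hiff.2 h
    push Not at h2
    obtain ⟨i, p, hp, hpW, hd⟩ := h2
    apply prod_eq_zero (mem_univ i)
    unfold yw
    rw [if_neg]
    push Not
    exact ⟨p, hp, hpW, hd⟩

lemma lam_le (s : ℕ) {p : ℕ} (hp : p.Prime) : lam s p ≤ 3 ^ s / p := by
  have h2 : (2 : ℝ) ≤ p := by exact_mod_cast hp.two_le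
  have hp0 : (0 : ℝ) < p := by linarith
  have hx0 : (0 : ℝ) ≤ 1 / p := by positivity
  have hx1 : 1 / (p : ℝ) ≤ 1 / 2 := one_div_le_one_div_of_le (by norm_num) h2
  have h3 : (1 - 1 / (p : ℝ))⁻¹ ≤ 1 + 2 * (1 / p) := by
    rw [inv_le_comm₀ (by linarith) (by linarith), inv_eq_one_div, div_le_iff₀ (by linarith)]
    nlinarith
  have h4 := pow_lin 2 (1 / (p : ℝ)) (by norm_num) hx0 (by linarith) s
  unfold lam
  calc ((1 - 1 / (p : ℝ))⁻¹) ^ s - 1 ≤ (1 + 2 * (1 / p)) ^ s - 1 := by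
        gcongr
        apply inv_nonneg.2
        linarith
    _ ≤ ((1 + 2) ^ s - 1) * (1 / p) := by linarith
    _ ≤ 3 ^ s / p := by
        rw [mul_one_div]
        gcongr
        norm_num

/-- the average of the correlation -/
lemma hh_avg (s z w N : ℕ) (hw : 3 ^ s ≤ w) :
    ∑ n ∈ Ioc 0 N, ∑ m ∈ Ioc 0 N, hh z (primorial w) ((n : ℤ) - m) ^ s ≤
      (N : ℝ) ^ 2 * (1 + 2 * 3 ^ s / w) + N * MP z ^ s := by
  classical
  have hw1 : 1 ≤ w := le_trans (Nat.one_le_pow _ _ (by norm_num)) hw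
  have hw0 : (0 : ℝ) < w := by exact_mod_cast (by omega : 0 < w)
  set W := primorial w with hW
  have hQpw : ∀ p ∈ Qp z W, w < p := by
    intro p hp
    unfold Qp at hp
    rw [mem_filter, mem_prN] at hp
    by_contra h
    push Not at h
    exact hp.2 ((Nat.Prime.dvd_primorial_iff hp.1.2).2 h)
  have h1 : ∑ n ∈ Ioc 0 N, ∑ m ∈ Ioc 0 N, hh z W ((n : ℤ) - m) ^ s =
      ∑ S ∈ (Qp z W).powerset, lamS s S * ∑ n ∈ Ioc 0 N, ∑ m ∈ Ioc 0 N, (if ((∏ p ∈ S, p : ℕ) : ℤ) ∣ (n : ℤ) - m then (1 : ℝ) else 0) := by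
    have e : ∀ n ∈ Ioc 0 N, ∑ m ∈ Ioc 0 N, hh z W ((n : ℤ) - m) ^ s =
        ∑ S ∈ (Qp z W).powerset, lamS s S * ∑ m ∈ Ioc 0 N, (if ((∏ p ∈ S, p : ℕ) : ℤ) ∣ (n : ℤ) - m then (1 : ℝ) else 0) := by
      intro n _
      have e0 : ∀ m ∈ Ioc 0 N, hh z W ((n : ℤ) - (m : ℤ)) ^ s =
          ∑ S ∈ (Qp z W).powerset, lamS s S * (if ((∏ p ∈ S, p : ℕ) : ℤ) ∣ ((n : ℤ) - (m : ℤ)) then 1 else 0) :=
        fun m _ => hh_expand s z W ((n : ℤ) - (m : ℤ))
      rw [sum_congr rfl e0, sum_comm]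
      apply sum_congr rfl
      intro S _
      rw [mul_sum]
    rw [sum_congr rfl e, sum_comm]
    apply sum_congr rfl
    intro S _
    rw [mul_sum]
  rw [h1]
  have h2 : ∀ S ∈ (Qp z W).powerset, ∑ n ∈ Ioc 0 N, ∑ m ∈ Ioc 0 N, (if ((∏ p ∈ S, p : ℕ) : ℤ) ∣ (n : ℤ) - m then (1 : ℝ) else 0) ≤
      (N : ℝ) ^ 2 * ∏ p ∈ S, (1 / (p : ℝ)) + N := by
    intro S hS
    rw [mem_powerset] at hS
    set q := ∏ p ∈ S, p with hq
    have hq1 : 1 ≤ q := by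
      rw [hq]
      apply Nat.one_le_iff_ne_zero.2
      rw [prod_ne_zero_iff]
      intro p hp
      exact (Qp_prime (hS hp)).ne_zero
    have hqr : ∏ p ∈ S, (1 / (p : ℝ)) = 1 / q := by
      rw [prod_div_distrib, prod_const_one, hq]
      push_cast
      rfl
    rw [hqr]
    have h3 : ∀ n ∈ Ioc 0 N, ∑ m ∈ Ioc 0 N, (if ((q : ℕ) : ℤ) ∣ (n : ℤ) - m then (1 : ℝ) else 0) ≤ N / q + 1 := by
      intro n _
      rw [← sum_filter, sum_const, nsmul_eq_mul, mul_one]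
      have e : (Ioc 0 N).filter (fun m : ℕ => ((q : ℕ) : ℤ) ∣ (n : ℤ) - m) = (Ioc 0 N).filter (fun m => m % q = n % q) := by
        apply filter_congr
        intro m _
        rw [← Nat.ModEq, ← Nat.modEq_iff_dvd]
      rw [e]
      have h4 := (abs_le.1 (card_res 0 N q (n % q) hq1 (Nat.zero_le _) (Nat.mod_lt _ hq1))).2
      push_cast at h4
      rw [sub_zero] at h4
      linarith
    refine (sum_le_sum h3).trans (le_of_eq ?_)
    rw [sum_const, Nat.card_Ioc, nsmul_eq_mul, Nat.sub_zero]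
    ring
  have h3 : ∑ S ∈ (Qp z W).powerset, lamS s S * ∑ n ∈ Ioc 0 N, ∑ m ∈ Ioc 0 N, (if ((∏ p ∈ S, p : ℕ) : ℤ) ∣ (n : ℤ) - m then (1 : ℝ) else 0) ≤
      (N : ℝ) ^ 2 * ∏ p ∈ Qp z W, (1 + lam s p * (1 / p)) + N * hh z W 0 ^ s := by
    have e : (N : ℝ) ^ 2 * ∏ p ∈ Qp z W, (1 + lam s p * (1 / p)) + N * hh z W 0 ^ s =
        ∑ S ∈ (Qp z W).powerset, lamS s S * ((N : ℝ) ^ 2 * ∏ p ∈ S, (1 / (p : ℝ)) + N) := by
      rw [Finset.prod_one_add, ← lam_sum, mul_sum, mul_sum, ← sum_add_distrib]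
      apply sum_congr rfl
      intro S _
      unfold lamS
      rw [prod_mul_distrib]
      ring
    rw [e]
    apply sum_le_sum
    intro S hS
    exact mul_le_mul_of_nonneg_left (h2 S hS) (lamS_nonneg s hS)
  refine h3.trans ?_
  have h4 : ∏ p ∈ Qp z W, (1 + lam s p * (1 / p)) ≤ 1 + 2 * 3 ^ s / w := by
    have h5 : ∏ p ∈ Qp z W, (1 + lam s p * (1 / (p : ℝ))) ≤
        ∏ p ∈ (prN z).filter (fun p => w < p), (1 + ((3 ^ s : ℕ) : ℝ) / (p : ℝ) ^ 2) := by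
      have e : Qp z W ⊆ (prN z).filter (fun p => w < p) := by
        intro p hp
        rw [mem_filter]
        refine ⟨?_, hQpw p hp⟩
        unfold Qp at hp
        exact (mem_filter.1 hp).1
      calc ∏ p ∈ Qp z W, (1 + lam s p * (1 / (p : ℝ))) ≤ ∏ p ∈ Qp z W, (1 + ((3 ^ s : ℕ) : ℝ) / (p : ℝ) ^ 2) := by
            apply prod_le_prod
            · intro p hp
              have := lam_nonneg s (Qp_prime hp)
              positivity
            · intro p hp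
              have h6 := lam_le s (Qp_prime hp)
              have h7 : (0 : ℝ) < p := by exact_mod_cast (Qp_prime hp).pos
              have h8 : lam s p * (1 / (p : ℝ)) ≤ ((3 ^ s : ℕ) : ℝ) / (p : ℝ) ^ 2 := by
                calc lam s p * (1 / (p : ℝ)) ≤ 3 ^ s / p * (1 / p) := by gcongr
                  _ = ((3 ^ s : ℕ) : ℝ) / (p : ℝ) ^ 2 := by
                      push_cast
                      field_simp
              linarith
        _ ≤ _ := by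
            apply pr_sub_le _ _ _ e
            intro p _
            have : (0 : ℝ) ≤ ((3 ^ s : ℕ) : ℝ) / (p : ℝ) ^ 2 := by positivity
            linarith
    refine h5.trans ((prod_sq_le w z (3 ^ s) hw1).trans ?_)
    have h6 : ((3 ^ s : ℕ) : ℝ) / w ≤ 1 := by
      rw [div_le_one hw0]
      exact_mod_cast hw
    have h7 : (0 : ℝ) ≤ ((3 ^ s : ℕ) : ℝ) / w := by positivity
    have h8 := Real.abs_exp_sub_one_le (x := ((3 ^ s : ℕ) : ℝ) / w) (by rw [abs_of_nonneg h7]; exact h6)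
    rw [abs_of_nonneg h7] at h8
    have h9 := (abs_le.1 h8).2
    have e : (2 : ℝ) * 3 ^ s / w = 2 * (((3 ^ s : ℕ) : ℝ) / w) := by push_cast; ring
    rw [e]
    linarith
  have h5 : hh z W 0 ^ s ≤ MP z ^ s := pow_le_pow_left₀ (zero_le_one.trans (hh_ge_one _ _ _)) (hh_le _ _ _) s
  have hN0 : (0 : ℝ) ≤ N := Nat.cast_nonneg _
  exact add_le_add (mul_le_mul_of_nonneg_left h4 (by positivity)) (mul_le_mul_of_nonneg_left h5 hN0)

/-- **the constant is close to its truncation** -/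
theorem close (s d D B : ℕ) (hd1 : 1 ≤ d) (hd : d ≤ D) (hB : 1 ≤ B) : ∃ K : ℕ, ∀ w : ℕ, K ≤ w → ∃ H0 : ℕ, ∀ H : ℕ, H0 ≤ H →
    ∀ z : ℕ, (z : ℝ) ≤ Real.log H ^ B → w ≤ z →
    ∀ h : Fin s → ℤ[X], (∀ i, (h i).natDegree ≤ D) → ∀ g : Fin s → Fin (d + 1) → ℤ,
    ∑ a ∈ fam H (primorial w) g, (Cc z (vh h) a - Cc w (vh h) g) ^ 2 ≤
      K / w * MP w ^ (2 * s) * (fam H (primorial w) g).card := by
  classical
  refine ⟨4 * 3 ^ s + 8, fun w hw => ?_⟩
  have hw3 : 3 ^ s ≤ w := by omega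
  have hw1 : 1 ≤ w := by omega
  have hw0 : (0 : ℝ) < w := by exact_mod_cast (by omega : 0 < w)
  have hw1' : (1 : ℝ) ≤ w := by exact_mod_cast hw1
  obtain ⟨W, hW⟩ : ∃ W, W = primorial w := ⟨_, rfl⟩
  have hW1 : 1 ≤ W := by rw [hW]; exact primorial_pos w
  have hW1' : (1 : ℝ) ≤ W := by exact_mod_cast hW1
  obtain ⟨ρ, hρ⟩ : ∃ ρ : ℝ, ρ = MP w ^ s := ⟨_, rfl⟩
  have hρ1 : 1 ≤ ρ := by rw [hρ]; exact one_le_pow₀ (MP_ge_one w)
  obtain ⟨H1, h1⟩ := quad s d 2 B hd1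
  obtain ⟨H2, h2⟩ := Cc_mean s d D 2 B hd
  obtain ⟨H3, h3⟩ := MP_small B
  obtain ⟨H4, h4⟩ := evN _ (Real.tendsto_log_atTop.eventually_ge_atTop (max (max 4 (W : ℝ)) (4 * (w : ℝ) + 4 * ρ)))
  obtain ⟨H5, h5⟩ := evN _ (ev_pow (s + 4) 2 (1 / 10) (by norm_num))
  obtain ⟨H6, h6⟩ := one_pt s d 2 B
  refine ⟨max (max H1 (max H2 H6)) (max (max H3 H4) (max H5 (2 ^ 20))), fun H hH z hz hwz h hD g => ?_⟩
  have hLL := h4 H (by omega)
  have hMP := h3 H (by omega) z hz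
  have hMP1 := MP_ge_one z
  have hN10 := h5 H (by omega)
  have hH1 : (1 : ℝ) ≤ H := by
    have : 1 ≤ H := by omega
    exact_mod_cast this
  have hH0 : (0 : ℝ) < H := by linarith
  obtain ⟨N, hN⟩ : ∃ N : ℕ, N = ⌊(H : ℝ) ^ (1 / 10 : ℝ)⌋₊ := ⟨_, rfl⟩
  have hNle : (N : ℝ) ≤ (H : ℝ) ^ (1 / 10 : ℝ) := by rw [hN]; exact Nat.floor_le (by positivity)
  have hNgt : (H : ℝ) ^ (1 / 10 : ℝ) < N + 1 := by rw [hN]; exact Nat.lt_floor_add_one _
  have hwB : (W : ℝ) ≤ Real.log H ^ B := by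
    have h7 : (W : ℝ) ≤ Real.log H := (le_max_right _ _).trans ((le_max_left _ _).trans hLL)
    exact h7.trans (le_self_pow₀ (hW1'.trans h7) (by omega))
  have hquad := h1 H (by omega) z W hz hW1 hwB (vh h) (pol_vh h) g (Ioc 0 N) (fun m hm => by
    rw [mem_Ioc] at hm
    exact le_trans (by exact_mod_cast hm.2) hNle) (fun _ => 1 / (N : ℝ))
  have hone := h6 H (by omega) z W hz hW1 hwB (vh h) g
  have hmean := fun a => h2 H (by omega) z hz h hD a N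
  set L := Real.log H with hL
  have hL4 : 4 ≤ L := (le_max_left _ _).trans ((le_max_left _ _).trans hLL)
  have hLw : 4 * (w : ℝ) + 4 * ρ ≤ L := (le_max_right _ _).trans hLL
  have hLW : (W : ℝ) ≤ L := (le_max_right _ _).trans ((le_max_left _ _).trans hLL)
  have hL1 : 1 ≤ L := by linarith
  have hL0 : 0 < L := by linarith
  have p0 : ∀ a : ℕ, 0 < L ^ a := fun a => by positivity
  have pw : ∀ {a b : ℕ}, a ≤ b → L ^ a ≤ L ^ b := fun h => pow_le_pow_right₀ hL1 h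
  have hN20 : (H : ℝ) ^ (1 / 20 : ℝ) ≤ N := by
    have h7 : (H : ℝ) ^ (1 / 10 : ℝ) = (H : ℝ) ^ (1 / 20 : ℝ) * (H : ℝ) ^ (1 / 20 : ℝ) := by
      rw [← Real.rpow_add hH0]
      norm_num
    have h8 : (2 : ℝ) ≤ (H : ℝ) ^ (1 / 20 : ℝ) := by
      have h9 : ((2 : ℝ) ^ 20) ≤ H := by
        have : 2 ^ 20 ≤ H := by omega
        exact_mod_cast this
      calc (2 : ℝ) = ((2 : ℝ) ^ 20) ^ (1 / 20 : ℝ) := by
            rw [← Real.rpow_natCast, ← Real.rpow_mul (by norm_num)]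
            norm_num
        _ ≤ (H : ℝ) ^ (1 / 20 : ℝ) := Real.rpow_le_rpow (by norm_num) h9 (by norm_num)
    have h10 : 2 * (H : ℝ) ^ (1 / 20 : ℝ) ≤ (H : ℝ) ^ (1 / 20 : ℝ) * (H : ℝ) ^ (1 / 20 : ℝ) :=
      mul_le_mul_of_nonneg_right h8 (by linarith only [h8])
    linarith only [h7, h8, h10, hNgt]
  have hN1 : (1 : ℝ) ≤ N := (Real.one_le_rpow hH1 (by norm_num)).trans hN20
  have hN0 : (0 : ℝ) < N := by linarith
  have hNL : L ^ (s + 4) ≤ N := by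
    have := p0 (s + 4)
    have h7 : (1 : ℝ) ≤ L ^ (s + 4) := one_le_pow₀ hL1
    linarith
  obtain ⟨F, hF⟩ : ∃ F : ℝ, F = (fam H W g).card := ⟨_, rfl⟩
  have hF0 : 0 ≤ F := by rw [hF]; exact Nat.cast_nonneg _
  rw [← hW]
  rw [← hF] at hquad hone ⊢
  set v := vh h with hv
  obtain ⟨C, hC⟩ : ∃ C : ℝ, C = Cc w v g := ⟨_, rfl⟩
  have hC0 : 0 ≤ C := by rw [hC]; exact Cc_nonneg _ _ _
  have hCρ : C ≤ ρ := by rw [hC, hρ]; exact Cc_le _ _ _
  rw [← hC]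
  -- the truncated means
  obtain ⟨M, hM⟩ : ∃ M : ℝ, M = 1 / (N : ℝ) * ∑ n ∈ Ioc 0 N, yg z W v g n := ⟨_, rfl⟩
  have hyg : ∀ n, yg z W v g n = if okn v g W n then ρ else 0 := by
    intro n
    rw [hW, hρ]
    exact yg_val hwz v g n
  have hyg0 : ∀ n, 0 ≤ yg z W v g n := fun n => yg_nonneg _ _ _ _ _
  have hyg1 : ∀ n, yg z W v g n ≤ ρ := by
    intro n
    rw [hyg n]
    split_ifs
    · exact le_rfl
    · linarith
  have hMC : |M - C| ≤ ρ / L ^ 2 := by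
    have h7 := sum_ok (pol_vh h) g w (fun _ => (1 : ℝ)) 0 N (Nat.zero_le _) (fun _ => by simp)
    have h8 := dens_eq (pol_vh h) g w
    rw [← hv, ← hW] at h7 h8
    rw [← hC, show rho W = MP w by rw [hW]; exact rho_pri w, ← hρ] at h8
    have h9 : TV (fun _ => (1 : ℝ)) 0 N = 0 := by
      unfold TV
      simp
    have h10 : ∑ n ∈ Ioc 0 N, yg z W v g n = ρ * ∑ n ∈ (Ioc 0 N).filter (fun n => okn v g W n), (1 : ℝ) := by
      rw [sum_filter, mul_sum]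
      apply sum_congr rfl
      intro n _
      rw [hyg n]
      split_ifs <;> simp
    have h11 : ∑ _n ∈ Ioc 0 N, (1 : ℝ) = N := by simp
    rw [h9, h11, add_zero, mul_one] at h7
    have e : M - C = ρ / N * (∑ n ∈ (Ioc 0 N).filter (fun n => okn v g W n), (1 : ℝ) -
        (((range W).filter (fun n => okn v g W n)).card : ℝ) / W * N) := by
      rw [hM, h10, ← h8]
      field_simp
    rw [e, abs_mul, abs_of_nonneg (by positivity)]
    calc ρ / N * |∑ n ∈ (Ioc 0 N).filter (fun n => okn v g W n), (1 : ℝ) -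
          (((range W).filter (fun n => okn v g W n)).card : ℝ) / W * N| ≤ ρ / N * W := by gcongr
      _ ≤ ρ / L ^ 2 := by
          rw [div_mul_eq_mul_div, div_le_div_iff₀ hN0 (p0 2), mul_assoc]
          apply mul_le_mul_of_nonneg_left _ (by linarith)
          calc (W : ℝ) * L ^ 2 ≤ L * L ^ 2 := by gcongr
            _ = L ^ 3 := by ring
            _ ≤ L ^ (s + 4) := pw (by omega)
            _ ≤ N := hNL
  have hM0 : 0 ≤ M := by
    rw [hM]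
    exact mul_nonneg (by positivity) (sum_nonneg fun n _ => hyg0 n)
  -- the quadratic form
  have hQF : QF s z W (Ioc 0 N) (fun n => 1 / (N : ℝ) * yg z W v g n) ≤ M ^ 2 + ρ ^ 2 * (2 * 3 ^ s / w + 1 / L ^ 2) := by
    rw [← QF_eq]
    have e1 : ∑ n ∈ Ioc 0 N, ∑ m ∈ Ioc 0 N, 1 / (N : ℝ) * yg z W v g n * (1 / (N : ℝ) * yg z W v g m) * hh z W ((n : ℤ) - m) ^ s ≤
        ∑ n ∈ Ioc 0 N, ∑ m ∈ Ioc 0 N, (1 / (N : ℝ) * yg z W v g n * (1 / (N : ℝ) * yg z W v g m) +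
          (ρ / N) ^ 2 * (hh z W ((n : ℤ) - m) ^ s - 1)) := by
      apply sum_le_sum
      intro n _
      apply sum_le_sum
      intro m _
      have h7 : (1 : ℝ) ≤ hh z W ((n : ℤ) - m) ^ s := one_le_pow₀ (hh_ge_one _ _ _)
      have h8 : 1 / (N : ℝ) * yg z W v g n * (1 / (N : ℝ) * yg z W v g m) ≤ (ρ / N) ^ 2 := by
        have h9 : 1 / (N : ℝ) * yg z W v g n ≤ ρ / N := by
          rw [one_div_mul_eq_div]
          have := hyg1 n
          gcongr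
        have h10 : 1 / (N : ℝ) * yg z W v g m ≤ ρ / N := by
          rw [one_div_mul_eq_div]
          have := hyg1 m
          gcongr
        have h11 : 0 ≤ 1 / (N : ℝ) * yg z W v g m := mul_nonneg (by positivity) (hyg0 m)
        calc 1 / (N : ℝ) * yg z W v g n * (1 / (N : ℝ) * yg z W v g m) ≤ ρ / N * (ρ / N) := by
              apply mul_le_mul h9 h10 h11 (by positivity)
          _ = (ρ / N) ^ 2 := by ring
      have h12 : 0 ≤ hh z W ((n : ℤ) - m) ^ s - 1 := sub_nonneg.2 h7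
      have h13 := mul_le_mul_of_nonneg_right h8 h12
      linarith only [h13]
    refine e1.trans ?_
    have e2 : ∑ n ∈ Ioc 0 N, ∑ m ∈ Ioc 0 N, (1 / (N : ℝ) * yg z W v g n * (1 / (N : ℝ) * yg z W v g m) +
          (ρ / N) ^ 2 * (hh z W ((n : ℤ) - m) ^ s - 1)) =
        M ^ 2 + (ρ / N) ^ 2 * (∑ n ∈ Ioc 0 N, ∑ m ∈ Ioc 0 N, hh z W ((n : ℤ) - m) ^ s - (N : ℝ) ^ 2) := by
      simp only [sum_add_distrib]
      congr 1
      · rw [hM, pow_two, mul_sum, sum_mul_sum]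
      · have e3 : ∀ n ∈ Ioc 0 N, ∑ m ∈ Ioc 0 N, (ρ / N) ^ 2 * (hh z W ((n : ℤ) - m) ^ s - 1) =
            (ρ / N) ^ 2 * (∑ m ∈ Ioc 0 N, hh z W ((n : ℤ) - m) ^ s - N) := by
          intro n _
          rw [← mul_sum, sum_sub_distrib]
          simp
        rw [sum_congr rfl e3, ← mul_sum, sum_sub_distrib]
        simp only [sum_const, Nat.card_Ioc, nsmul_eq_mul, Nat.sub_zero]
        ring
    rw [e2]
    have h7 := hh_avg s z w N hw3
    rw [← hW] at h7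
    have h8 : (ρ / N) ^ 2 * (∑ n ∈ Ioc 0 N, ∑ m ∈ Ioc 0 N, hh z W ((n : ℤ) - m) ^ s - (N : ℝ) ^ 2) ≤
        (ρ / N) ^ 2 * ((N : ℝ) ^ 2 * (2 * 3 ^ s / w) + N * MP z ^ s) := by
      apply mul_le_mul_of_nonneg_left _ (by positivity)
      linarith
    have h9 : (ρ / N) ^ 2 * ((N : ℝ) ^ 2 * (2 * 3 ^ s / w) + N * MP z ^ s) = ρ ^ 2 * (2 * 3 ^ s / w + MP z ^ s / N) := by
      field_simp
    have h10 : MP z ^ s / N ≤ 1 / L ^ 2 := by
      rw [div_le_div_iff₀ hN0 (p0 2), one_mul]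
      calc MP z ^ s * L ^ 2 ≤ L ^ s * L ^ 2 := by gcongr
        _ = L ^ (s + 2) := by rw [pow_add]
        _ ≤ L ^ (s + 4) := pw (by omega)
        _ ≤ N := hNL
    have h11 : ρ ^ 2 * (2 * 3 ^ s / w + MP z ^ s / N) ≤ ρ ^ 2 * (2 * 3 ^ s / w + 1 / L ^ 2) := by gcongr
    linarith
  -- the mean of the sieve weights
  obtain ⟨Y, hY⟩ : ∃ Y : (Fin s → Fin (d + 1) → ℤ) → ℝ, Y = fun a => ∑ n ∈ Ioc 0 N, 1 / (N : ℝ) * Yn z v a n := ⟨_, rfl⟩
  have hY1 : ∑ a ∈ fam H W g, Y a ^ 2 ≤ (M ^ 2 + ρ ^ 2 * (2 * 3 ^ s / w + 1 / L ^ 2)) * F + F / L ^ 2 := by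
    have h7 := (abs_le.1 hquad).2
    have h8 : (∑ _n ∈ Ioc 0 N, |1 / (N : ℝ)|) ^ 2 = 1 := by
      rw [sum_const, Nat.card_Ioc, nsmul_eq_mul, Nat.sub_zero, abs_of_nonneg (by positivity), mul_one_div, div_self hN0.ne', one_pow]
    rw [h8, one_mul] at h7
    have h9 : ∑ a ∈ fam H W g, Y a ^ 2 = ∑ a ∈ fam H W g, (∑ n ∈ Ioc 0 N, 1 / (N : ℝ) * Yn z v a n) ^ 2 := by rw [hY]
    rw [h9]
    have h10 : QF s z W (Ioc 0 N) (fun n => 1 / (N : ℝ) * yg z W v g n) * F ≤ (M ^ 2 + ρ ^ 2 * (2 * 3 ^ s / w + 1 / L ^ 2)) * F := by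
      gcongr
    linarith
  have hY2 : |∑ a ∈ fam H W g, Y a - M * F| ≤ F / L ^ 2 := by
    have e : ∑ a ∈ fam H W g, Y a - M * F = ∑ n ∈ Ioc 0 N, 1 / (N : ℝ) * (∑ a ∈ fam H W g, Yn z v a n - yg z W v g n * F) := by
      rw [hY]
      simp only
      rw [sum_comm, hM, mul_sum, sum_mul, ← sum_sub_distrib]
      apply sum_congr rfl
      intro n _
      rw [← mul_sum]
      ring
    rw [e]
    refine (abs_sum_le_sum_abs _ _).trans ?_
    calc ∑ n ∈ Ioc 0 N, |1 / (N : ℝ) * (∑ a ∈ fam H W g, Yn z v a n - yg z W v g n * F)|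
        ≤ ∑ _n ∈ Ioc 0 N, 1 / (N : ℝ) * (F / L ^ 2) := by
          apply sum_le_sum
          intro n _
          rw [abs_mul, abs_of_nonneg (by positivity)]
          exact mul_le_mul_of_nonneg_left (hone n) (by positivity)
      _ = F / L ^ 2 := by
          rw [sum_const, Nat.card_Ioc, nsmul_eq_mul, Nat.sub_zero]
          field_simp
  have hYC : ∀ a, |Y a - Cc z v a| ≤ 1 / L ^ 2 := by
    intro a
    have h7 := hmean a hN20
    have e : Y a - Cc z v a = 1 / (N : ℝ) * (∑ n ∈ Ioc 0 N, Yn z v a n - N * Cc z v a) := by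
      rw [hY]
      simp only
      rw [← mul_sum]
      field_simp
    rw [e, abs_mul, abs_of_nonneg (by positivity)]
    calc 1 / (N : ℝ) * |∑ n ∈ Ioc 0 N, Yn z v a n - N * Cc z v a| ≤ 1 / (N : ℝ) * (N / L ^ 2) := by gcongr
      _ = 1 / L ^ 2 := by field_simp
  -- the end
  have hterm : ∀ a ∈ fam H W g, (Cc z v a - C) ^ 2 ≤ 2 * (Y a ^ 2 - 2 * C * Y a + C ^ 2) + 2 * (1 / L ^ 2) ^ 2 := by
    intro a _
    have h7 := hYC a
    have h8 : (Y a - Cc z v a) ^ 2 ≤ (1 / L ^ 2) ^ 2 := by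
      rw [← sq_abs]
      exact pow_le_pow_left₀ (abs_nonneg _) h7 2
    have h9 := sq_nonneg ((Cc z v a - Y a) - (Y a - C))
    have e9 : ((Cc z v a - Y a) - (Y a - C)) ^ 2 = 2 * (Y a - Cc z v a) ^ 2 + 2 * (Y a ^ 2 - 2 * C * Y a + C ^ 2) - (Cc z v a - C) ^ 2 := by
      ring
    rw [e9] at h9
    linarith only [h8, h9]
  refine (sum_le_sum hterm).trans ?_
  rw [sum_add_distrib, ← mul_sum, sum_add_distrib, sum_sub_distrib, ← mul_sum, sum_const, sum_const, nsmul_eq_mul, nsmul_eq_mul, ← hF]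
  have h7 : -(2 * C * ∑ a ∈ fam H W g, Y a) ≤ -(2 * C * (M * F)) + 2 * C * (F / L ^ 2) := by
    have h8 := mul_le_mul_of_nonneg_left (abs_le.1 hY2).1 (by positivity : 0 ≤ 2 * C)
    linarith only [h8]
  have h8 : (M - C) ^ 2 ≤ (ρ / L ^ 2) ^ 2 := by
    rw [← sq_abs]
    exact pow_le_pow_left₀ (abs_nonneg _) hMC 2
  have hLi : 0 < 1 / L ^ 2 := by positivity
  have hLi1 : 1 / L ^ 2 ≤ 1 / (4 * w) := by
    apply one_div_le_one_div_of_le (by positivity)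
    have h9 : 4 * (w : ℝ) ≤ L := by linarith only [hLw, hρ1]
    calc 4 * (w : ℝ) ≤ L := h9
      _ = L ^ 1 := (pow_one L).symm
      _ ≤ L ^ 2 := pw (by norm_num)
  have hLi2 : 1 / L ^ 2 ≤ 1 := by
    rw [div_le_one (p0 2)]
    exact one_le_pow₀ hL1
  obtain ⟨e, he⟩ : ∃ e : ℝ, e = 1 / L ^ 2 := ⟨_, rfl⟩
  have he1 : ρ / L ^ 2 = ρ * e := by rw [he]; ring
  have he2 : F / L ^ 2 = F * e := by rw [he]; ring
  rw [he1] at h8
  rw [he2] at hY1 h7
  rw [← he] at hLi hLi1 hLi2 hY1 ⊢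
  have hρ2 : MP w ^ (2 * s) = ρ ^ 2 := by rw [hρ, ← pow_mul, mul_comm]
  rw [hρ2]
  push_cast
  have hbig : 2 * ((M - C) ^ 2 + ρ ^ 2 * (2 * 3 ^ s / w + e) + e + 2 * C * e) + 2 * e ^ 2 ≤ (4 * 3 ^ s + 8) / w * ρ ^ 2 := by
    have hρ3 : 1 ≤ ρ ^ 2 := one_le_pow₀ hρ1
    have h9 : (M - C) ^ 2 ≤ ρ ^ 2 * e := by
      calc (M - C) ^ 2 ≤ (ρ * e) ^ 2 := h8
        _ = ρ ^ 2 * (e * e) := by ring
        _ ≤ ρ ^ 2 * (e * 1) := by gcongr
        _ = ρ ^ 2 * e := by ring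
    have h10 : e ≤ ρ ^ 2 * e := le_mul_of_one_le_left hLi.le hρ3
    have h11 : C * e ≤ ρ ^ 2 * e := by
      have : C ≤ ρ ^ 2 := by
        calc C ≤ ρ := hCρ
          _ = ρ ^ 1 := (pow_one ρ).symm
          _ ≤ ρ ^ 2 := pow_le_pow_right₀ hρ1 (by norm_num)
      gcongr
    have h12 : e ^ 2 ≤ ρ ^ 2 * e := by
      calc e ^ 2 = e * e := by ring
        _ ≤ 1 * e := by gcongr
        _ ≤ ρ ^ 2 * e := by gcongr
    have h13 : ρ ^ 2 * e ≤ ρ ^ 2 * (1 / (4 * w)) := by gcongr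
    have e3 : (4 * 3 ^ s + 8) / w * ρ ^ 2 = 2 * (ρ ^ 2 * (2 * 3 ^ s / w)) + 32 * (ρ ^ 2 * (1 / (4 * w))) := by
      field_simp
      ring
    rw [e3]
    have h14 : 0 ≤ ρ ^ 2 * (1 / (4 * (w : ℝ))) := by positivity
    linarith only [h9, h10, h11, h12, h13, h14]
  calc 2 * (∑ a ∈ fam H W g, Y a ^ 2 - 2 * C * ∑ a ∈ fam H W g, Y a + F * C ^ 2) + F * (2 * e ^ 2)
      ≤ (2 * ((M - C) ^ 2 + ρ ^ 2 * (2 * 3 ^ s / w + e) + e + 2 * C * e) + 2 * e ^ 2) * F := by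
        linarith only [hY1, h7]
    _ ≤ ((4 * 3 ^ s + 8) / w * ρ ^ 2) * F := by gcongr

end Pool.Agent.H77.BV
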