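import Mathlib
import Pool.Agent.H77.BV.De

/-! The moments of the sum of the differences. -/

set_option autoImplicit false

namespace Pool.Agent.H77.BV

open Finset Polynomial
open Pool.Agent.K1H89.PL
open Pool.Agent.K1H89.Ev (evN ev_pow)

lemma pow_diff (x y M e : ℝ) (r : ℕ) (hx : |x| ≤ M) (hy : |y| ≤ M) (h : |x - y| ≤ e) :
    |x ^ r - y ^ r| ≤ r * M ^ (r - 1) * e := by
  have hM : 0 ≤ M := (abs_nonneg _).trans hx
  induction r with
  | zero => simp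
  | succ r ih =>
    have e1 : x ^ (r + 1) - y ^ (r + 1) = x ^ r * (x - y) + (x ^ r - y ^ r) * y := by ring
    rw [e1, Nat.add_sub_cancel]
    refine (abs_add_le _ _).trans ?_
    rw [abs_mul, abs_mul, abs_pow]
    have h1 : |x| ^ r ≤ M ^ r := pow_le_pow_left₀ (abs_nonneg _) hx r
    have he : 0 ≤ e := (abs_nonneg _).trans h
    calc |x| ^ r * |x - y| + |x ^ r - y ^ r| * |y| ≤ M ^ r * e + (r * M ^ (r - 1) * e) * M := by gcongr
      _ = M ^ r * e + (r * (M ^ (r - 1) * M)) * e := by ring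
      _ = M ^ r * e + r * M ^ r * e := by
          rcases Nat.eq_zero_or_pos r with h0 | h0
          · subst h0; simp
          · rw [← pow_succ, show r - 1 + 1 = r by omega]
      _ = ((r + 1 : ℕ) : ℝ) * M ^ r * e := by push_cast; ring

open Classical in
/-- **the moments of the sum of the differences** -/
theorem moment (s d B : ℕ) (hs : 1 ≤ s) (hB : 1 ≤ B) : ∃ K : ℕ, 1 ≤ K ∧ ∀ w : ℕ, K ≤ w → ∀ V δ : ℝ, 0 ≤ V → 0 < δ →
    δ ≤ 1 → ∃ H0 : ℕ, ∀ H : ℕ, H0 ≤ H → ∀ z : ℕ, ∀ v : Fin s → ℕ → ℤ, ∀ α β : ℕ, ∀ b : ℕ → ℝ,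
    Dat s B H z w v α β b V → Real.log H ^ s ≤ δ ^ 2 * ((β : ℝ) - α) →
    ∀ g : Fin s → Fin (d + 1) → ℤ, ∀ k : ℕ, k ≤ d + 1 →
    |∑ a ∈ fam H (primorial w) g, (∑ n ∈ Ioc α β, b n * Dn z v a n) ^ k -
      mm k * √(Real.log H ^ s * (Cc w v g * ∑ n ∈ Ioc α β, b n ^ 2)) ^ k * (fam H (primorial w) g).card| ≤
      K * MP w ^ (s * (d + 1)) * (1 / w + δ) * √(Real.log H ^ s * ((β : ℝ) - α)) ^ k * (fam H (primorial w) g).card := by
  obtain ⟨D, hD⟩ : ∃ D, D = d + 1 := ⟨_, rfl⟩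
  obtain ⟨K0, hK0⟩ := sumA s d B hs hB
  obtain ⟨c1, hc1⟩ : ∃ c : ℕ, c = D * D ^ D * 2 ^ (s * D) * 2 := ⟨_, rfl⟩
  obtain ⟨c2, hc2⟩ : ∃ c : ℕ, c = D.factorial * (K0 + D ^ D * D * 2 ^ D + D) := ⟨_, rfl⟩
  refine ⟨1 + c1 + c2 + K0, by omega, fun w hw V δ hV0 hδ0 hδ1 => ?_⟩
  obtain ⟨H1, h1⟩ := hK0 w (by omega)
  obtain ⟨H2, h2⟩ := P1_bound s d B
  obtain ⟨H3, h3⟩ := Dn_bd s d B
  obtain ⟨W, hW⟩ : ∃ W, W = primorial w := ⟨_, rfl⟩
  obtain ⟨H4, h4⟩ := evN _ (Real.tendsto_log_atTop.eventually_ge_atTop (max (max (W : ℝ) (1 / δ)) (max 1 (W * (1 + 2 * V) / δ))))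
  refine ⟨max (max H1 H2) (max H3 H4), fun H hH z v α β b hDat hN g k hk => ?_⟩
  have hsum := h1 H (by omega) z hDat.hz hDat.hwz v hDat.hv g α β hDat.hαβ hDat.hβ
  have hP1 := h2 H (by omega) z w v α β b V hDat
  have hbd := h3 H (by omega) z hDat.hz (primorial w) v g
  have hLL := h4 H (by omega)
  obtain ⟨hz, hwz, hv, hpol, hαβ, hβ, hb, hV⟩ := hDat
  have hρ := rho_pri w
  rw [← hW] at hsum hP1 hbd hρ ⊢
  rw [hρ] at hsum
  have hdens := dens_eq hpol g w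
  have hok := sum_ok hpol g w (fun n => b n ^ 2) α β hαβ (fun n => by
    rw [abs_pow]
    exact pow_le_one₀ (abs_nonneg _) (hb n))
  have hTV := TV_sq b α β hb
  rw [← hW] at hdens hok
  rw [hρ] at hdens
  set L := Real.log H with hL
  have hLW : (W : ℝ) ≤ L := (le_max_left _ _).trans ((le_max_left _ _).trans hLL)
  have hLδ : 1 / δ ≤ L := (le_max_right _ _).trans ((le_max_left _ _).trans hLL)
  have hL1 : 1 ≤ L := (le_max_left _ _).trans ((le_max_right _ _).trans hLL)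
  have hLV : W * (1 + 2 * V) / δ ≤ L := (le_max_right _ _).trans ((le_max_right _ _).trans hLL)
  have hL0 : 0 < L := by linarith
  have hWB : (W : ℝ) ≤ L ^ B := hLW.trans (le_self_pow₀ hL1 (by omega))
  have hP1' := hP1 hWB g k hk
  obtain ⟨N, hNdef⟩ : ∃ N : ℝ, N = (β : ℝ) - α := ⟨_, rfl⟩
  rw [← hNdef] at hN hsum ⊢
  have hLs : L ≤ L ^ s := le_self_pow₀ hL1 (by omega)
  have hLs1 : 1 ≤ L ^ s := hL1.trans hLs
  have hδ2 : δ ^ 2 ≤ 1 := pow_le_one₀ hδ0.le hδ1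
  have hN0 : 0 < N := by
    have h6 : 0 < δ ^ 2 * N := lt_of_lt_of_le (lt_of_lt_of_le one_pos hLs1) hN
    exact (mul_pos_iff_of_pos_left (by positivity)).1 h6
  have hLN : L ≤ δ * N := by
    have h6 : δ ^ 2 ≤ δ := by
      calc δ ^ 2 = δ * δ := pow_two δ
        _ ≤ δ * 1 := mul_le_mul_of_nonneg_left hδ1 hδ0.le
        _ = δ := mul_one δ
    exact hLs.trans (hN.trans (mul_le_mul_of_nonneg_right h6 hN0.le))
  have hLN' : L ≤ N := by
    calc L ≤ δ * N := hLN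
      _ ≤ 1 * N := mul_le_mul_of_nonneg_right hδ1 hN0.le
      _ = N := one_mul N
  have hN1 : 1 ≤ N := hL1.trans hLN'
  have hδN : 1 ≤ δ * N := hL1.trans hLN
  have hWV : W * (1 + 2 * V) ≤ δ * N := by
    rw [div_le_iff₀ hδ0] at hLV
    calc W * (1 + 2 * V) ≤ L * δ := hLV
      _ ≤ N * δ := mul_le_mul_of_nonneg_right hLN' hδ0.le
      _ = δ * N := mul_comm _ _
  set I := Ioc α β with hI
  have hIc : (I.card : ℝ) = N := by
    rw [hI, Nat.card_Ioc, Nat.cast_sub hαβ, hNdef]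
  obtain ⟨F, hF⟩ : ∃ F : ℝ, F = (fam H W g).card := ⟨_, rfl⟩
  have hF0 : 0 ≤ F := by rw [hF]; exact Nat.cast_nonneg _
  rw [← hF] at hsum hP1' ⊢
  obtain ⟨ρ, hρdef⟩ : ∃ ρ : ℝ, ρ = MP w := ⟨_, rfl⟩
  rw [← hρdef] at hsum hdens ⊢
  have hρ1 : 1 ≤ ρ := by rw [hρdef]; exact MP_ge_one w
  have hρs1 : 1 ≤ ρ ^ s := one_le_pow₀ hρ1
  obtain ⟨τ, hτ⟩ : ∃ τ : ℝ, τ = √(L ^ s * N) := ⟨_, rfl⟩
  have hτ2 : τ ^ 2 = L ^ s * N := by rw [hτ]; exact Real.sq_sqrt (by positivity)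
  have hτ0 : 0 ≤ τ := by rw [hτ]; exact Real.sqrt_nonneg _
  have hτ1 : 1 ≤ τ := by
    rw [hτ]
    exact Real.one_le_sqrt.2 (one_le_mul_of_one_le_of_one_le hLs1 hN1)
  rw [← hτ]
  have hLτ : L ^ s ≤ δ * τ := by
    have h5 : (L ^ s) ^ 2 ≤ (δ * τ) ^ 2 := by
      rw [mul_pow, hτ2]
      calc (L ^ s) ^ 2 = L ^ s * L ^ s := pow_two _
        _ ≤ L ^ s * (δ ^ 2 * N) := mul_le_mul_of_nonneg_left hN (by positivity)
        _ = δ ^ 2 * (L ^ s * N) := by ring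
    exact (pow_le_pow_iff_left₀ (by positivity) (by positivity) (by norm_num)).1 h5
  have hρsD : (ρ ^ s) ^ D = ρ ^ (s * (d + 1)) := by rw [← pow_mul, hD]
  have hkD : k ≤ D := by omega
  have hτk : 1 ≤ τ ^ k := one_le_pow₀ hτ1
  have hU0 : (0 : ℝ) ≤ (2 * L) ^ s := by positivity
  have hxb : ∀ a ∈ fam H W g, ∀ n ∈ I, |b n * Dn z v a n| ≤ (2 * L) ^ s := by
    intro a ha n hn
    have hnz : n ≤ z := by
      rw [hI, mem_Ioc] at hn
      omega
    rw [abs_mul]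
    have h5 := hbd a ha n hnz (fun i => hv i n (le_trans (by exact_mod_cast hnz) hz))
    calc |b n| * |Dn z v a n| ≤ 1 * (2 * L) ^ s := mul_le_mul (hb n) h5 (abs_nonneg _) zero_le_one
      _ = (2 * L) ^ s := one_mul _
  -- the expansion
  obtain ⟨mn, hmn⟩ : ∃ mn : (Fin s → Fin (d + 1) → ℤ) → ℝ, mn = fun a =>
    (if Even k then (k.factorial : ℝ) / 2 ^ (k / 2) * ∑ A ∈ powersetCard (k / 2) I, ∏ n ∈ A, (b n * Dn z v a n) ^ 2 else 0) :=
    ⟨_, rfl⟩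
  obtain ⟨p1, hp1⟩ : ∃ p1 : (Fin s → Fin (d + 1) → ℤ) → ℝ, p1 = fun a =>
    ∑ κ ∈ (piAntidiag I k).filter (fun κ => ∃ n ∈ I, κ n = 1), (Nat.multinomial I κ : ℝ) * ∏ n ∈ I, (b n * Dn z v a n) ^ κ n :=
    ⟨_, rfl⟩
  obtain ⟨e3, he3⟩ : ∃ e3 : (Fin s → Fin (d + 1) → ℤ) → ℝ, e3 = fun a =>
    ∑ r ∈ range ((k + 1) / 2), (k : ℝ) ^ k * ((2 * L) ^ s) ^ (k - 2 * r) * ∑ A ∈ powersetCard r I, ∏ n ∈ A, (b n * Dn z v a n) ^ 2 :=
    ⟨_, rfl⟩
  have hexp : ∀ a ∈ fam H W g, |(∑ n ∈ I, b n * Dn z v a n) ^ k - mn a - p1 a| ≤ e3 a := by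
    intro a ha
    have h5 := pow_exp I k (fun n => b n * Dn z v a n) ((2 * L) ^ s) hU0 (hxb a ha)
    rw [hmn, hp1, he3]
    exact h5
  have hexp2 : |∑ a ∈ fam H W g, (∑ n ∈ I, b n * Dn z v a n) ^ k - ∑ a ∈ fam H W g, mn a - ∑ a ∈ fam H W g, p1 a| ≤
      ∑ a ∈ fam H W g, e3 a := by
    rw [← sum_sub_distrib, ← sum_sub_distrib]
    exact (abs_sum_le_sum_abs _ _).trans (sum_le_sum hexp)
  have hp1b : |∑ a ∈ fam H W g, p1 a| ≤ δ * τ ^ k * F := by
    have h5 : |∑ a ∈ fam H W g, p1 a| ≤ F / L := by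
      rw [hp1]
      exact hP1'
    refine h5.trans ?_
    have h6 : 1 / L ≤ δ := by
      rw [div_le_iff₀ hL0]
      rw [div_le_iff₀ hδ0] at hLδ
      linarith only [hLδ]
    calc F / L = 1 / L * 1 * F := by ring
      _ ≤ δ * τ ^ k * F := mul_le_mul_of_nonneg_right (mul_le_mul h6 hτk zero_le_one hδ0.le) hF0
  -- sums over subsets
  obtain ⟨Q, hQ⟩ : ∃ Q : Finset ℕ → ℕ → ℝ, Q = fun A r => (if ∀ n ∈ A, okn v g W n then (ρ ^ s) ^ r else 0) := ⟨_, rfl⟩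
  have hQ0 : ∀ A r, 0 ≤ Q A r := by
    intro A r
    rw [hQ]
    simp only
    split_ifs
    · positivity
    · exact le_rfl
  have hQle : ∀ A r, Q A r ≤ (ρ ^ s) ^ r := by
    intro A r
    rw [hQ]
    simp only
    split_ifs
    · exact le_rfl
    · positivity
  have hsum' : ∀ r ≤ D, ∑ A ∈ powersetCard r I, |∑ a ∈ fam H W g, ∏ n ∈ A, Dn z v a n ^ 2 - (L ^ s) ^ r * Q A r * F| ≤
      K0 / w * (L ^ s * ρ ^ s * N) ^ r * F := by
    intro r hr
    rw [hQ]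
    exact hsum hLN' r (by omega)
  have hw0 : (0 : ℝ) < w := by exact_mod_cast (by omega : 0 < w)
  have hK0w : (K0 : ℝ) / w ≤ 1 := by
    rw [div_le_one hw0]
    exact_mod_cast (by omega : K0 ≤ w)
  have hsub2 : ∀ r ≤ D, ∑ A ∈ powersetCard r I, ∑ a ∈ fam H W g, ∏ n ∈ A, Dn z v a n ^ 2 ≤ 2 * (L ^ s * ρ ^ s * N) ^ r * F := by
    intro r hr
    have h5 : ∀ A ∈ powersetCard r I, ∑ a ∈ fam H W g, ∏ n ∈ A, Dn z v a n ^ 2 ≤
        |∑ a ∈ fam H W g, ∏ n ∈ A, Dn z v a n ^ 2 - (L ^ s) ^ r * Q A r * F| + (L ^ s) ^ r * (ρ ^ s) ^ r * F := by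
      intro A _
      have h6 := le_abs_self (∑ a ∈ fam H W g, ∏ n ∈ A, Dn z v a n ^ 2 - (L ^ s) ^ r * Q A r * F)
      have h7 : (L ^ s) ^ r * Q A r * F ≤ (L ^ s) ^ r * (ρ ^ s) ^ r * F := by
        have := hQle A r
        gcongr
      linarith
    refine (sum_le_sum h5).trans ?_
    rw [sum_add_distrib, sum_const, card_powersetCard, nsmul_eq_mul]
    have h6 : ((I.card.choose r : ℕ) : ℝ) ≤ N ^ r := by
      have := Nat.choose_le_pow I.card r
      rw [← hIc]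
      exact_mod_cast this
    calc ∑ A ∈ powersetCard r I, |∑ a ∈ fam H W g, ∏ n ∈ A, Dn z v a n ^ 2 - (L ^ s) ^ r * Q A r * F| +
          ((I.card.choose r : ℕ) : ℝ) * ((L ^ s) ^ r * (ρ ^ s) ^ r * F)
        ≤ 1 * (L ^ s * ρ ^ s * N) ^ r * F + N ^ r * ((L ^ s) ^ r * (ρ ^ s) ^ r * F) := by
          refine add_le_add ((hsum' r hr).trans ?_) ?_
          · gcongr
          · gcongr
      _ = 2 * (L ^ s * ρ ^ s * N) ^ r * F := by
          rw [mul_pow, mul_pow]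
          ring
  have hbsq : ∀ A : Finset ℕ, ∏ n ∈ A, b n ^ 2 ≤ 1 := by
    intro A
    apply prod_le_one (fun _ _ => sq_nonneg _)
    intro n _
    rw [← sq_abs]
    exact pow_le_one₀ (abs_nonneg _) (hb n)
  have hbsq0 : ∀ A : Finset ℕ, 0 ≤ ∏ n ∈ A, b n ^ 2 := fun A => prod_nonneg fun _ _ => sq_nonneg _
  have he3b : ∑ a ∈ fam H W g, e3 a ≤ c1 * ρ ^ (s * (d + 1)) * δ * τ ^ k * F := by
    have h5 : ∑ a ∈ fam H W g, e3 a = ∑ r ∈ range ((k + 1) / 2), (k : ℝ) ^ k * ((2 * L) ^ s) ^ (k - 2 * r) *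
        ∑ A ∈ powersetCard r I, ∑ a ∈ fam H W g, ∏ n ∈ A, (b n * Dn z v a n) ^ 2 := by
      rw [he3]
      simp only
      rw [sum_comm]
      apply sum_congr rfl
      intro r _
      rw [← mul_sum]
      congr 1
      rw [sum_comm]
    rw [h5]
    have h6 : ∀ r ∈ range ((k + 1) / 2), (k : ℝ) ^ k * ((2 * L) ^ s) ^ (k - 2 * r) *
        ∑ A ∈ powersetCard r I, ∑ a ∈ fam H W g, ∏ n ∈ A, (b n * Dn z v a n) ^ 2 ≤
        (D : ℝ) ^ D * 2 ^ (s * D) * 2 * ρ ^ (s * (d + 1)) * δ * τ ^ k * F := by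
      intro r hr
      rw [mem_range] at hr
      have hrD : r ≤ D := by omega
      have h2r : 2 * r < k := by omega
      have h7 : ∑ A ∈ powersetCard r I, ∑ a ∈ fam H W g, ∏ n ∈ A, (b n * Dn z v a n) ^ 2 ≤ 2 * (L ^ s * ρ ^ s * N) ^ r * F := by
        refine le_trans (sum_le_sum fun A _ => sum_le_sum fun a _ => ?_) (hsub2 r hrD)
        have e : ∏ n ∈ A, (b n * Dn z v a n) ^ 2 = (∏ n ∈ A, b n ^ 2) * ∏ n ∈ A, Dn z v a n ^ 2 := by
          rw [← prod_mul_distrib]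
          apply prod_congr rfl
          intro n _
          rw [mul_pow]
        rw [e]
        exact mul_le_of_le_one_left (prod_nonneg fun _ _ => sq_nonneg _) (hbsq A)
      have h8 : ((2 * L) ^ s) ^ (k - 2 * r) ≤ 2 ^ (s * D) * (δ * τ ^ (k - 2 * r)) := by
        rw [mul_pow, mul_pow]
        have h9 : ((2 : ℝ) ^ s) ^ (k - 2 * r) ≤ 2 ^ (s * D) := by
          rw [← pow_mul]
          exact pow_le_pow_right₀ (by norm_num) (Nat.mul_le_mul_left _ (by omega))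
        have h10 : (L ^ s) ^ (k - 2 * r) ≤ δ * τ ^ (k - 2 * r) := by
          calc (L ^ s) ^ (k - 2 * r) ≤ (δ * τ) ^ (k - 2 * r) := by gcongr
            _ = δ ^ (k - 2 * r) * τ ^ (k - 2 * r) := mul_pow _ _ _
            _ ≤ δ * τ ^ (k - 2 * r) := by
                gcongr
                calc δ ^ (k - 2 * r) ≤ δ ^ 1 := pow_le_pow_of_le_one hδ0.le hδ1 (by omega)
                  _ = δ := pow_one _
        gcongr
      have h9 : (k : ℝ) ^ k ≤ (D : ℝ) ^ D := by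
        have h10 : k ^ k ≤ D ^ D := by
          calc k ^ k ≤ D ^ k := Nat.pow_le_pow_left hkD k
            _ ≤ D ^ D := Nat.pow_le_pow_right (by omega) hkD
        exact_mod_cast h10
      have h10 : (L ^ s * ρ ^ s * N) ^ r ≤ ρ ^ (s * (d + 1)) * τ ^ (2 * r) := by
        calc (L ^ s * ρ ^ s * N) ^ r = (ρ ^ s) ^ r * (L ^ s * N) ^ r := by rw [← mul_pow]; ring
          _ ≤ (ρ ^ s) ^ D * (L ^ s * N) ^ r := by gcongr
          _ = ρ ^ (s * (d + 1)) * τ ^ (2 * r) := by rw [hρsD, ← hτ2, ← pow_mul]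
      calc (k : ℝ) ^ k * ((2 * L) ^ s) ^ (k - 2 * r) * ∑ A ∈ powersetCard r I, ∑ a ∈ fam H W g, ∏ n ∈ A, (b n * Dn z v a n) ^ 2
          ≤ (D : ℝ) ^ D * (2 ^ (s * D) * (δ * τ ^ (k - 2 * r))) * (2 * (ρ ^ (s * (d + 1)) * τ ^ (2 * r)) * F) := by
            have h11 : 0 ≤ ∑ A ∈ powersetCard r I, ∑ a ∈ fam H W g, ∏ n ∈ A, (b n * Dn z v a n) ^ 2 :=
              sum_nonneg fun A _ => sum_nonneg fun a _ => prod_nonneg fun _ _ => sq_nonneg _
            have h12 : 2 * (L ^ s * ρ ^ s * N) ^ r * F ≤ 2 * (ρ ^ (s * (d + 1)) * τ ^ (2 * r)) * F := by gcongr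
            refine mul_le_mul (mul_le_mul h9 h8 (by positivity) (by positivity)) (h7.trans h12) h11 (by positivity)
        _ = (D : ℝ) ^ D * 2 ^ (s * D) * 2 * ρ ^ (s * (d + 1)) * δ * (τ ^ (k - 2 * r) * τ ^ (2 * r)) * F := by ring
        _ = (D : ℝ) ^ D * 2 ^ (s * D) * 2 * ρ ^ (s * (d + 1)) * δ * τ ^ k * F := by
            rw [← pow_add, show k - 2 * r + 2 * r = k by omega]
    refine (sum_le_sum h6).trans ?_
    rw [sum_const, card_range, nsmul_eq_mul, hc1]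
    push_cast
    have h7 : (((k + 1) / 2 : ℕ) : ℝ) ≤ D := by exact_mod_cast (by omega : (k + 1) / 2 ≤ D)
    calc (((k + 1) / 2 : ℕ) : ℝ) * ((D : ℝ) ^ D * 2 ^ (s * D) * 2 * ρ ^ (s * (d + 1)) * δ * τ ^ k * F)
        ≤ (D : ℝ) * ((D : ℝ) ^ D * 2 ^ (s * D) * 2 * ρ ^ (s * (d + 1)) * δ * τ ^ k * F) := by gcongr
      _ = _ := by ring
  -- the main term
  have hmnb : |∑ a ∈ fam H W g, mn a - mm k * √(L ^ s * (Cc w v g * ∑ n ∈ I, b n ^ 2)) ^ k * F| ≤
      c2 * ρ ^ (s * (d + 1)) * (1 / w + δ) * τ ^ k * F := by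
    by_cases hke : Even k
    · have hke' := hke
      obtain ⟨r, hr⟩ := hke
      have hk2 : k = 2 * r := by omega
      have hk2' : k / 2 = r := by omega
      have hrD : r ≤ D := by omega
      obtain ⟨B2, hB2⟩ : ∃ B2 : ℝ, B2 = ∑ n ∈ I, b n ^ 2 := ⟨_, rfl⟩
      obtain ⟨C, hC⟩ : ∃ C : ℝ, C = Cc w v g := ⟨_, rfl⟩
      rw [← hB2, ← hC]
      have hB20 : 0 ≤ B2 := by rw [hB2]; exact sum_nonneg fun _ _ => sq_nonneg _
      have hb1 : ∀ n, b n ^ 2 ≤ 1 := fun n => by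
        rw [← sq_abs]
        exact pow_le_one₀ (abs_nonneg _) (hb n)
      have hB2N : B2 ≤ N := by
        rw [hB2, ← hIc]
        calc ∑ n ∈ I, b n ^ 2 ≤ ∑ _n ∈ I, (1 : ℝ) := sum_le_sum fun n _ => hb1 n
          _ = I.card := by rw [sum_const, nsmul_eq_mul, mul_one]
      have hC0 : 0 ≤ C := by rw [hC]; exact Cc_nonneg _ _ _
      have hCρ : C ≤ ρ ^ s := by rw [hC, hρdef]; exact Cc_le _ _ _
      have hσ : √(L ^ s * (C * B2)) ^ k = (L ^ s) ^ r * (C * B2) ^ r := by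
        rw [hk2, pow_mul, Real.sq_sqrt (by positivity), mul_pow]
      have hmm : mm k = (k.factorial : ℝ) / (2 ^ r * r.factorial) := by
        rw [hk2]
        exact mm_even r
      rw [hσ, hmm]
      -- the sum over `Z`
      obtain ⟨Z, hZ⟩ : ∃ Z, Z = I.filter (fun n => okn v g W n) := ⟨_, rfl⟩
      have hZc : (Z.card : ℝ) ≤ N := by
        rw [← hIc, hZ]
        exact_mod_cast card_filter_le _ _
      have hBZ0 : 0 ≤ ∑ n ∈ Z, b n ^ 2 := sum_nonneg fun _ _ => sq_nonneg _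
      have hBZ : ∑ n ∈ Z, b n ^ 2 ≤ N := by
        rw [← hIc]
        calc ∑ n ∈ Z, b n ^ 2 ≤ ∑ n ∈ I, b n ^ 2 := by
              rw [hZ]
              exact sum_le_sum_of_subset_of_nonneg (filter_subset _ _) (fun _ _ _ => sq_nonneg _)
          _ ≤ ∑ _n ∈ I, (1 : ℝ) := sum_le_sum fun n _ => hb1 n
          _ = I.card := by rw [sum_const, nsmul_eq_mul, mul_one]
      have hfilt : ∑ A ∈ powersetCard r I, (∏ n ∈ A, b n ^ 2) * Q A r = (ρ ^ s) ^ r * ∑ A ∈ powersetCard r Z, ∏ n ∈ A, b n ^ 2 := by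
        have e : powersetCard r Z = (powersetCard r I).filter (fun A => ∀ n ∈ A, okn v g W n) := by
          ext A
          rw [mem_filter, mem_powersetCard, mem_powersetCard, hZ]
          constructor
          · rintro ⟨h5, h6⟩
            exact ⟨⟨h5.trans (filter_subset _ _), h6⟩, fun n hn => (mem_filter.1 (h5 hn)).2⟩
          · rintro ⟨⟨h5, h6⟩, h7⟩
            exact ⟨fun n hn => mem_filter.2 ⟨h5 hn, h7 n hn⟩, h6⟩
        rw [e, sum_filter, mul_sum]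
        apply sum_congr rfl
        intro A _
        rw [hQ]
        simp only
        split_ifs
        · ring
        · ring
      have h5 : ∑ a ∈ fam H W g, mn a = (k.factorial : ℝ) / 2 ^ r *
          ∑ A ∈ powersetCard r I, (∏ n ∈ A, b n ^ 2) * ∑ a ∈ fam H W g, ∏ n ∈ A, Dn z v a n ^ 2 := by
        have hmn1 : ∀ a, mn a = (k.factorial : ℝ) / 2 ^ r * ∑ A ∈ powersetCard r I, ∏ n ∈ A, (b n * Dn z v a n) ^ 2 := by
          intro a
          rw [hmn]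
          dsimp only
          rw [if_pos hke', hk2']
        rw [sum_congr rfl (fun a _ => hmn1 a), ← mul_sum]
        congr 1
        rw [sum_comm]
        apply sum_congr rfl
        intro A _
        rw [mul_sum]
        apply sum_congr rfl
        intro a _
        rw [← prod_mul_distrib]
        apply prod_congr rfl
        intro n _
        rw [mul_pow]
      have hTa : |∑ A ∈ powersetCard r I, (∏ n ∈ A, b n ^ 2) * ∑ a ∈ fam H W g, ∏ n ∈ A, Dn z v a n ^ 2 -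
          (L ^ s) ^ r * ((ρ ^ s) ^ r * ∑ A ∈ powersetCard r Z, ∏ n ∈ A, b n ^ 2) * F| ≤ K0 / w * (L ^ s * ρ ^ s * N) ^ r * F := by
        rw [← hfilt, mul_sum, sum_mul, ← sum_sub_distrib]
        refine (abs_sum_le_sum_abs _ _).trans (le_trans (sum_le_sum fun A _ => ?_) (hsum' r hrD))
        have e : (∏ n ∈ A, b n ^ 2) * ∑ a ∈ fam H W g, ∏ n ∈ A, Dn z v a n ^ 2 - (L ^ s) ^ r * ((∏ n ∈ A, b n ^ 2) * Q A r) * F =
            (∏ n ∈ A, b n ^ 2) * (∑ a ∈ fam H W g, ∏ n ∈ A, Dn z v a n ^ 2 - (L ^ s) ^ r * Q A r * F) := by ring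
        rw [e, abs_mul, abs_of_nonneg (hbsq0 A)]
        exact mul_le_of_le_one_left (abs_nonneg _) (hbsq A)
      have hesy := esymm_near Z r (fun n => b n ^ 2) (fun n => sq_nonneg _) hb1
      have hrr : (r : ℝ) ^ r * (r * (1 + Z.card : ℝ) ^ (r - 1)) ≤ (D : ℝ) ^ D * D * 2 ^ D * (δ * N ^ r) := by
        rcases Nat.eq_zero_or_pos r with h0 | h0
        · subst h0
          simp only [CharP.cast_eq_zero, zero_mul, mul_zero]
          positivity
        have h6 : (r : ℝ) ^ r ≤ (D : ℝ) ^ D := by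
          have h10 : r ^ r ≤ D ^ D := by
            calc r ^ r ≤ D ^ r := Nat.pow_le_pow_left hrD r
              _ ≤ D ^ D := Nat.pow_le_pow_right (by omega) hrD
          exact_mod_cast h10
        have h7 : (r : ℝ) ≤ D := by exact_mod_cast hrD
        have h8 : (1 + Z.card : ℝ) ^ (r - 1) ≤ 2 ^ D * (δ * N ^ r) := by
          calc (1 + Z.card : ℝ) ^ (r - 1) ≤ (2 * N) ^ (r - 1) := by
                gcongr
                linarith
            _ = 2 ^ (r - 1) * N ^ (r - 1) := mul_pow _ _ _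
            _ ≤ 2 ^ D * (δ * N ^ r) := by
                have h9 : (2 : ℝ) ^ (r - 1) ≤ 2 ^ D := pow_le_pow_right₀ (by norm_num) (by omega)
                have h10 : N ^ (r - 1) ≤ δ * N ^ r := by
                  calc N ^ (r - 1) = 1 * N ^ (r - 1) := (one_mul _).symm
                    _ ≤ (δ * N) * N ^ (r - 1) := by gcongr
                    _ = δ * (N ^ (r - 1) * N) := by ring
                    _ = δ * N ^ r := by rw [← pow_succ, show r - 1 + 1 = r by omega]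
                gcongr
        calc (r : ℝ) ^ r * (r * (1 + Z.card : ℝ) ^ (r - 1)) ≤ (D : ℝ) ^ D * (D * (2 ^ D * (δ * N ^ r))) := by gcongr
          _ = _ := by ring
      have hZB : |ρ ^ s * ∑ n ∈ Z, b n ^ 2 - C * B2| ≤ ρ ^ s * (δ * N) := by
        have h6 : C * B2 = ρ ^ s * ((((range W).filter (fun n => okn v g W n)).card : ℝ) / W * B2) := by
          rw [hC, ← hdens]
          ring
        rw [h6, ← mul_sub, abs_mul, abs_of_nonneg (by positivity)]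
        apply mul_le_mul_of_nonneg_left _ (by positivity)
        rw [hZ, hB2]
        refine hok.trans (le_trans ?_ hWV)
        have h7 : TV (fun n => b n ^ 2) α β ≤ 2 * V := by linarith
        gcongr
      have hpow := pow_diff (ρ ^ s * ∑ n ∈ Z, b n ^ 2) (C * B2) (ρ ^ s * N) (ρ ^ s * (δ * N)) r
        (by rw [abs_of_nonneg (by positivity)]; gcongr) (by rw [abs_of_nonneg (by positivity)]; gcongr) hZB
      have hpow2 : |(ρ ^ s * ∑ n ∈ Z, b n ^ 2) ^ r - (C * B2) ^ r| ≤ D * (δ * (ρ ^ s * N) ^ r) := by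
        refine hpow.trans ?_
        rcases Nat.eq_zero_or_pos r with h0 | h0
        · subst h0
          simp only [CharP.cast_eq_zero, zero_mul]
          positivity
        have h7 : (r : ℝ) ≤ D := by exact_mod_cast hrD
        calc (r : ℝ) * (ρ ^ s * N) ^ (r - 1) * (ρ ^ s * (δ * N)) = r * (δ * ((ρ ^ s * N) ^ (r - 1) * (ρ ^ s * N))) := by ring
          _ = r * (δ * (ρ ^ s * N) ^ r) := by rw [← pow_succ, show r - 1 + 1 = r by omega]
          _ ≤ D * (δ * (ρ ^ s * N) ^ r) := by gcongr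
      -- assembling
      have hfr : (k.factorial : ℝ) / 2 ^ r ≤ D.factorial := by
        have h6 : (k.factorial : ℝ) ≤ D.factorial := by exact_mod_cast Nat.factorial_le hkD
        calc (k.factorial : ℝ) / 2 ^ r ≤ k.factorial / 1 := by
              gcongr
              exact one_le_pow₀ (by norm_num)
          _ ≤ D.factorial := by rw [div_one]; exact h6
      have hrf : (1 : ℝ) ≤ r.factorial := by exact_mod_cast Nat.factorial_pos r
      have hrf0 : (r.factorial : ℝ) ≠ 0 := by positivity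
      obtain ⟨E, hE⟩ : ∃ E : ℝ, E = ∑ A ∈ powersetCard r Z, ∏ n ∈ A, b n ^ 2 := ⟨_, rfl⟩
      rw [← hE] at hTa hesy
      obtain ⟨BZ, hBZd⟩ : ∃ BZ : ℝ, BZ = ∑ n ∈ Z, b n ^ 2 := ⟨_, rfl⟩
      rw [← hBZd] at hesy hpow2
      have hT1 : |(r.factorial : ℝ) * ((ρ ^ s) ^ r * E) - (C * B2) ^ r| ≤
          ((D : ℝ) ^ D * D * 2 ^ D + D) * δ * (ρ ^ s * N) ^ r := by
        have e : (r.factorial : ℝ) * ((ρ ^ s) ^ r * E) - (C * B2) ^ r =
            (ρ ^ s) ^ r * (r.factorial * E - BZ ^ r) + ((ρ ^ s * BZ) ^ r - (C * B2) ^ r) := by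
          rw [mul_pow]
          ring
        rw [e]
        refine (abs_add_le _ _).trans ?_
        rw [abs_mul, abs_of_nonneg (by positivity : 0 ≤ (ρ ^ s) ^ r)]
        calc (ρ ^ s) ^ r * |(r.factorial : ℝ) * E - BZ ^ r| + |(ρ ^ s * BZ) ^ r - (C * B2) ^ r|
            ≤ (ρ ^ s) ^ r * ((D : ℝ) ^ D * D * 2 ^ D * (δ * N ^ r)) + D * (δ * (ρ ^ s * N) ^ r) := by
              gcongr
              exact hesy.trans hrr
          _ = ((D : ℝ) ^ D * D * 2 ^ D + D) * δ * (ρ ^ s * N) ^ r := by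
              rw [mul_pow (ρ ^ s) N]
              ring
      rw [h5]
      have e : (k.factorial : ℝ) / 2 ^ r * ∑ A ∈ powersetCard r I, (∏ n ∈ A, b n ^ 2) * ∑ a ∈ fam H W g, ∏ n ∈ A, Dn z v a n ^ 2 -
          (k.factorial : ℝ) / (2 ^ r * r.factorial) * ((L ^ s) ^ r * (C * B2) ^ r) * F =
          (k.factorial : ℝ) / 2 ^ r * ((∑ A ∈ powersetCard r I, (∏ n ∈ A, b n ^ 2) * ∑ a ∈ fam H W g, ∏ n ∈ A, Dn z v a n ^ 2 -
            (L ^ s) ^ r * ((ρ ^ s) ^ r * E) * F) + (L ^ s) ^ r * F / r.factorial *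
              ((r.factorial : ℝ) * ((ρ ^ s) ^ r * E) - (C * B2) ^ r)) := by
        field_simp
        ring
      rw [e, abs_mul, abs_of_nonneg (by positivity : 0 ≤ (k.factorial : ℝ) / 2 ^ r)]
      have hLN3 : (L ^ s * ρ ^ s * N) ^ r = (L ^ s) ^ r * (ρ ^ s * N) ^ r := by rw [mul_assoc, mul_pow]
      have hLN4 : (L ^ s * ρ ^ s * N) ^ r ≤ ρ ^ (s * (d + 1)) * τ ^ k := by
        calc (L ^ s * ρ ^ s * N) ^ r = (ρ ^ s) ^ r * (L ^ s * N) ^ r := by rw [← mul_pow]; ring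
          _ ≤ (ρ ^ s) ^ D * (L ^ s * N) ^ r := by gcongr
          _ = ρ ^ (s * (d + 1)) * τ ^ k := by rw [hρsD, ← hτ2, ← pow_mul, hk2]
      have hbr : |(∑ A ∈ powersetCard r I, (∏ n ∈ A, b n ^ 2) * ∑ a ∈ fam H W g, ∏ n ∈ A, Dn z v a n ^ 2 -
            (L ^ s) ^ r * ((ρ ^ s) ^ r * E) * F) + (L ^ s) ^ r * F / r.factorial *
              ((r.factorial : ℝ) * ((ρ ^ s) ^ r * E) - (C * B2) ^ r)| ≤
          (K0 / w + ((D : ℝ) ^ D * D * 2 ^ D + D) * δ) * ((L ^ s * ρ ^ s * N) ^ r * F) := by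
        refine (abs_add_le _ _).trans ?_
        rw [abs_mul, abs_of_nonneg (by positivity : 0 ≤ (L ^ s) ^ r * F / r.factorial)]
        have h6 : (L ^ s) ^ r * F / r.factorial ≤ (L ^ s) ^ r * F := div_le_self (by positivity) hrf
        calc |∑ A ∈ powersetCard r I, (∏ n ∈ A, b n ^ 2) * ∑ a ∈ fam H W g, ∏ n ∈ A, Dn z v a n ^ 2 -
              (L ^ s) ^ r * ((ρ ^ s) ^ r * E) * F| + (L ^ s) ^ r * F / r.factorial * |(r.factorial : ℝ) * ((ρ ^ s) ^ r * E) - (C * B2) ^ r|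
            ≤ K0 / w * (L ^ s * ρ ^ s * N) ^ r * F + (L ^ s) ^ r * F * (((D : ℝ) ^ D * D * 2 ^ D + D) * δ * (ρ ^ s * N) ^ r) := by
              gcongr
          _ = _ := by rw [hLN3]; ring
      have hc2' : (K0 : ℝ) / w + ((D : ℝ) ^ D * D * 2 ^ D + D) * δ ≤ (K0 + D ^ D * D * 2 ^ D + D) * (1 / w + δ) := by
        have h6 : (0 : ℝ) ≤ K0 := Nat.cast_nonneg _
        have h7 : (0 : ℝ) ≤ (D : ℝ) ^ D * D * 2 ^ D + D := by positivity
        have h8 : (0 : ℝ) < 1 / w := by positivity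
        have e2 : (K0 : ℝ) / w = K0 * (1 / w) := by ring
        rw [e2]
        have h9 := mul_nonneg h6 hδ0.le
        have h10 := mul_nonneg h7 h8.le
        calc (K0 : ℝ) * (1 / w) + ((D : ℝ) ^ D * D * 2 ^ D + D) * δ
            ≤ (K0 : ℝ) * (1 / w) + ((D : ℝ) ^ D * D * 2 ^ D + D) * δ + (K0 * δ + ((D : ℝ) ^ D * D * 2 ^ D + D) * (1 / w)) :=
              le_add_of_nonneg_right (add_nonneg h9 h10)
          _ = (K0 + D ^ D * D * 2 ^ D + D) * (1 / w + δ) := by ring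
      calc (k.factorial : ℝ) / 2 ^ r * |(∑ A ∈ powersetCard r I, (∏ n ∈ A, b n ^ 2) * ∑ a ∈ fam H W g, ∏ n ∈ A, Dn z v a n ^ 2 -
            (L ^ s) ^ r * ((ρ ^ s) ^ r * E) * F) + (L ^ s) ^ r * F / r.factorial *
              ((r.factorial : ℝ) * ((ρ ^ s) ^ r * E) - (C * B2) ^ r)|
          ≤ D.factorial * ((K0 / w + ((D : ℝ) ^ D * D * 2 ^ D + D) * δ) * ((L ^ s * ρ ^ s * N) ^ r * F)) := by
            exact mul_le_mul hfr hbr (abs_nonneg _) (by positivity)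
        _ ≤ D.factorial * (((K0 + D ^ D * D * 2 ^ D + D) * (1 / w + δ)) * ((ρ ^ (s * (d + 1)) * τ ^ k) * F)) := by
            gcongr
        _ = c2 * ρ ^ (s * (d + 1)) * (1 / w + δ) * τ ^ k * F := by
            rw [hc2]
            push_cast
            ring
    · have h5 : mm k = 0 := by
        unfold mm
        rw [if_neg hke]
      have h6 : ∑ a ∈ fam H W g, mn a = 0 := by
        rw [hmn]
        simp only [if_neg hke, sum_const_zero]
      rw [h5, h6]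
      simp only [zero_mul, sub_zero, abs_zero]
      positivity
  -- the end
  have e : ∑ a ∈ fam H W g, (∑ n ∈ I, b n * Dn z v a n) ^ k - mm k * √(L ^ s * (Cc w v g * ∑ n ∈ I, b n ^ 2)) ^ k * F =
      (∑ a ∈ fam H W g, (∑ n ∈ I, b n * Dn z v a n) ^ k - ∑ a ∈ fam H W g, mn a - ∑ a ∈ fam H W g, p1 a) +
      ((∑ a ∈ fam H W g, mn a - mm k * √(L ^ s * (Cc w v g * ∑ n ∈ I, b n ^ 2)) ^ k * F) + ∑ a ∈ fam H W g, p1 a) := by ring
  rw [e]
  refine (abs_add_le _ _).trans ((add_le_add (hexp2.trans he3b) ((abs_add_le _ _).trans (add_le_add hmnb hp1b))).trans ?_)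
  have hρD1 : 1 ≤ ρ ^ (s * (d + 1)) := one_le_pow₀ hρ1
  have hw1 : (0 : ℝ) < 1 / w := by positivity
  obtain ⟨T, hT⟩ : ∃ T : ℝ, T = τ ^ k * F := ⟨_, rfl⟩
  have hT0 : 0 ≤ T := by rw [hT]; positivity
  obtain ⟨P, hP⟩ : ∃ P : ℝ, P = ρ ^ (s * (d + 1)) := ⟨_, rfl⟩
  rw [← hP] at hρD1 ⊢
  push_cast
  have hfin : (c1 : ℝ) * P * δ + (c2 * P * (1 / w + δ) + δ) ≤ (1 + c1 + c2 + K0) * P * (1 / w + δ) := by
    have h5 : (c1 : ℝ) * P * δ ≤ c1 * P * (1 / w + δ) := by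
      gcongr
      linarith
    have h6 : δ ≤ 1 * P * (1 / w + δ) := by
      calc δ ≤ 1 / w + δ := le_add_of_nonneg_left hw1.le
        _ = 1 * 1 * (1 / w + δ) := by ring
        _ ≤ 1 * P * (1 / w + δ) := by gcongr
    have h7 : (0 : ℝ) ≤ K0 * P * (1 / w + δ) := by positivity
    linarith
  calc (c1 : ℝ) * P * δ * τ ^ k * F + (c2 * P * (1 / w + δ) * τ ^ k * F + δ * τ ^ k * F)
      = (c1 * P * δ + (c2 * P * (1 / w + δ) + δ)) * T := by rw [hT]; ring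
    _ ≤ ((1 + c1 + c2 + K0) * P * (1 / w + δ)) * T := by gcongr
    _ = _ := by rw [hT]; ring

end Pool.Agent.H77.BV
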