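import Mathlib
import Pool.Agent.H77.BV.Mt
import Pool.Agent.H77.BV.Cl

/-! Preparations for the normal law in a class. -/

set_option autoImplicit false

namespace Pool.Agent.H77.BV

open Finset Polynomial ProbabilityTheory
open Pool.Agent.K1H89.PL
open Pool.Agent.K1H89.Ev (evN ev_pow)

lemma cls_ratio (H W : ℕ) (c c' : ℤ) (hW : 1 ≤ W) (hWH : W ≤ H) :
    ((cls H 1 c').card : ℝ) ≤ 3 * W * (cls H W c).card := by
  have h1 := cls_low H W c hW hWH
  have hW0 : (0 : ℝ) < W := by exact_mod_cast hW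
  have hH1 : (1 : ℝ) ≤ H := by exact_mod_cast hW.trans hWH
  rw [div_le_iff₀ hW0] at h1
  have h2 : ((cls H 1 c').card : ℝ) ≤ 2 * H + 1 := by
    have h3 : (cls H 1 c').card ≤ (Icc (-(H : ℤ)) H).card := card_filter_le _ _
    rw [Int.card_Icc] at h3
    have h4 : ((H : ℤ) + 1 - -(H : ℤ)).toNat = 2 * H + 1 := by omega
    rw [h4] at h3
    exact_mod_cast h3
  nlinarith

lemma fam_ratio {s d : ℕ} (H W : ℕ) (g : Fin s → Fin (d + 1) → ℤ) (hW : 1 ≤ W) (hWH : W ≤ H) :
    ((fam H 1 g).card : ℝ) ≤ (3 * (W : ℝ)) ^ (s * (d + 1)) * (fam H W g).card := by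
  have e : ∀ W', ((fam H W' g).card : ℝ) = ∏ i : Fin s, ∏ j : Fin (d + 1), ((cls H W' (g i j)).card : ℝ) := by
    intro W'
    unfold fam Pool.Agent.K1H89.PL.box
    rw [Fintype.card_piFinset]
    push_cast
    apply prod_congr rfl
    intro i _
    rw [Fintype.card_piFinset]
    push_cast
    rfl
  rw [e, e]
  have e2 : (3 * (W : ℝ)) ^ (s * (d + 1)) = ∏ _i : Fin s, ∏ _j : Fin (d + 1), (3 * (W : ℝ)) := by
    simp only [prod_const, card_univ, Fintype.card_fin]
    rw [← pow_mul]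
    congr 1
    ring
  rw [e2, ← prod_mul_distrib]
  apply prod_le_prod (fun i _ => prod_nonneg fun j _ => Nat.cast_nonneg _)
  intro i _
  rw [← prod_mul_distrib]
  apply prod_le_prod (fun j _ => Nat.cast_nonneg _)
  intro j _
  exact cls_ratio H W (g i j) (g i j) hW hWH

lemma fam_sub {s d : ℕ} (H W : ℕ) (g : Fin s → Fin (d + 1) → ℤ) : fam H W g ⊆ fam H 1 g := by
  intro a ha
  unfold fam Pool.Agent.K1H89.PL.box cls at ha ⊢
  rw [Fintype.mem_piFinset] at ha ⊢
  intro i
  have h1 := ha i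
  rw [Fintype.mem_piFinset] at h1 ⊢
  intro j
  have h2 := h1 j
  rw [mem_filter] at h2 ⊢
  refine ⟨h2.1, ?_⟩
  push_cast
  exact Int.modEq_one

lemma Cc_zero {s d : ℕ} {H w z : ℕ} (hwz : w ≤ z) (v : Fin s → ℕ → ℤ) {g a : Fin s → Fin (d + 1) → ℤ}
    (ha : a ∈ fam H (primorial w) g) (h : Cc w v g = 0) : Cc z v a = 0 := by
  unfold Cc at h ⊢
  have hMP : MP w ^ s ≠ 0 := by
    have := MP_ge_one w
    positivity
  rcases mul_eq_zero.1 h with h1 | h1
  · exact absurd h1 hMP
  rw [prod_eq_zero_iff] at h1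
  obtain ⟨p, hp, h2⟩ := h1
  have hpp := mem_prN.1 hp
  have hp0 : (p : ℝ) ≠ 0 := by
    have := hpp.2.pos
    positivity
  have h3 : om (Fa v a) p = om (Fa v g) p := by
    unfold om
    congr 1
    apply filter_congr
    intro n _
    have h4 : Fa v a n ≡ Fa v g n [ZMOD (p : ℤ)] := by
      unfold Fa
      apply Int.ModEq.prod
      intro i _
      have h5 := val_congr ha v i n
      apply h5.of_dvd
      exact_mod_cast (Nat.Prime.dvd_primorial_iff hpp.2).2 hpp.1
    exact Int.ModEq.dvd_iff h4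
  rw [prod_eq_zero (mem_prN.2 ⟨by omega, hpp.2⟩ : p ∈ prN z), mul_zero]
  rw [h3]
  exact h2

/-- the distribution function of the normal law -/
noncomputable def Phi (t : ℝ) : ℝ := (gaussianReal 0 1).real (Set.Iic t)

lemma Phi_nonneg (t : ℝ) : 0 ≤ Phi t := MeasureTheory.measureReal_nonneg

lemma Phi_le (t : ℝ) : Phi t ≤ 1 := MeasureTheory.measureReal_le_one

lemma Phi_cont (t : ℝ) : ContinuousAt Phi t := by
  have := nullSingletonClass_gaussianReal (μ := 0) (v := 1) one_ne_zero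
  have h : Phi = fun x => cdf (gaussianReal 0 1) x := by
    funext x
    rw [cdf_eq_real]
    rfl
  rw [h, (monotone_cdf (gaussianReal 0 1)).continuousAt_iff_leftLim_eq_rightLim, StieltjesFunction.rightLim_eq]
  have h1 := StieltjesFunction.measure_singleton (cdf (gaussianReal 0 1)) t
  rw [measure_cdf, MeasureTheory.measure_singleton, eq_comm, ENNReal.ofReal_eq_zero] at h1
  have h2 := (monotone_cdf (gaussianReal 0 1)).leftLim_le (le_refl t)
  linarith

end Pool.Agent.H77.BV
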