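import Mathlib
import Pool.Agent.H77.BV.Cg

/-! Numerical lemmas for the normal law in a class. -/

set_option autoImplicit false

namespace Pool.Agent.H77.BV

open Finset
open Pool.Agent.K1H89.PL

/-- a bound for the number of large values -/
lemma cheb {Ω : Type} (S : Finset Ω) (f : Ω → ℝ) (y : ℝ) (hy : 0 ≤ y) [DecidablePred fun a => y < |f a|] :
    ((S.filter (fun a => y < |f a|)).card : ℝ) * y ^ 2 ≤ ∑ a ∈ S, f a ^ 2 := by
  calc ((S.filter (fun a => y < |f a|)).card : ℝ) * y ^ 2 = ∑ _a ∈ S.filter (fun a => y < |f a|), y ^ 2 := by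
        rw [sum_const, nsmul_eq_mul]
    _ ≤ ∑ a ∈ S.filter (fun a => y < |f a|), f a ^ 2 := by
        apply sum_le_sum
        intro a ha
        rw [mem_filter] at ha
        rw [← sq_abs (f a)]
        exact pow_le_pow_left₀ hy ha.2.le 2
    _ ≤ ∑ a ∈ S, f a ^ 2 := sum_le_sum_of_subset_of_nonneg (filter_subset _ _) (fun _ _ _ => sq_nonneg _)

/-- the comparison of the counts -/
lemma counts (F a₀ m₀ ap am e P Pp Pm ε : ℝ) (hF : 0 ≤ F) (hP0 : 0 ≤ P) (hP1 : P ≤ 1) (hε : 0 ≤ ε)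
    (h1 : am ≤ a₀ + e) (h2 : a₀ ≤ ap + e) (h3 : F ≤ m₀ + e) (h4 : m₀ ≤ F) (he : e ≤ 2 * ε * F)
    (hap : ap ≤ (Pp + ε) * F) (ham : (Pm - ε) * F ≤ am) (hPp : Pp ≤ P + ε) (hPm : P - ε ≤ Pm) :
    |a₀ - P * m₀| ≤ 8 * ε * F := by
  have h5 : Pp * F ≤ (P + ε) * F := mul_le_mul_of_nonneg_right hPp hF
  have h6 : (P - ε) * F ≤ Pm * F := mul_le_mul_of_nonneg_right hPm hF
  have h7 : P * m₀ ≤ P * F := mul_le_mul_of_nonneg_left h4 hP0
  have h8 : P * (F - e) ≤ P * m₀ := mul_le_mul_of_nonneg_left (by linarith) hP0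
  have hεF : 0 ≤ ε * F := mul_nonneg hε hF
  have h9 : P * e ≤ 2 * ε * F := by
    rcases le_or_gt 0 e with h | h
    · calc P * e ≤ 1 * e := mul_le_mul_of_nonneg_right hP1 h
        _ ≤ 2 * ε * F := by linarith
    · have : P * e ≤ 0 := mul_nonpos_of_nonneg_of_nonpos hP0 h.le
      linarith
  rw [abs_le]
  constructor
  · linarith
  · linarith

/-- the choice of `w` and `δ` -/
lemma choice (K1 K2 : ℕ) (n1 n2 m e : ℕ) (c κ η ε δ1 : ℝ) (hK1 : 1 ≤ K1) (hc : 0 < c) (hκ : 0 < κ) (hη : 0 < η) (hε : 0 < ε)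
    (hδ1 : 0 < δ1) : ∃ w : ℕ, K1 ≤ w ∧ K2 ≤ w ∧ ∃ Λ : ℝ, 1 ≤ Λ ∧ MP w ^ m ≤ Λ * (c * κ) ∧ ∃ δ : ℝ, 0 < δ ∧ δ ≤ 1 ∧
      K1 * MP w ^ n1 * (1 / w + δ) * Λ ^ e ≤ δ1 ∧ K2 / w * MP w ^ n2 * MP w ^ (2 * m) ≤ c ^ 2 * η ^ 2 * ε := by
  obtain ⟨q, hq⟩ : ∃ q : ℝ, q = 1 / (min c 1 * min κ 1) := ⟨_, rfl⟩
  have hcm0 : 0 < min c 1 := lt_min hc one_pos
  have hκm0 : 0 < min κ 1 := lt_min hκ one_pos
  have hq1 : 1 ≤ q := by
    rw [hq, le_div_iff₀ (by positivity), one_mul]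
    have h1 : min c 1 ≤ 1 := min_le_right _ _
    have h2 : min κ 1 ≤ 1 := min_le_right _ _
    calc min c 1 * min κ 1 ≤ 1 * 1 := mul_le_mul h1 h2 hκm0.le zero_le_one
      _ = 1 := one_mul _
  have hq2 : 1 ≤ q * (c * κ) := by
    have h1 : min c 1 ≤ c := min_le_left _ _
    have h2 : min κ 1 ≤ κ := min_le_left _ _
    rw [hq, one_div_mul_eq_div, le_div_iff₀ (by positivity), one_mul]
    exact mul_le_mul h1 h2 hκm0.le hc.le
  obtain ⟨w1, hw1⟩ := w_large (n1 + m * e) (K1 * q ^ e * 2 / δ1)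
  obtain ⟨w2, hw2⟩ := w_large (n2 + 2 * m) (K2 / (c ^ 2 * η ^ 2 * ε))
  obtain ⟨w, hw⟩ : ∃ w, w = max (max K1 K2) (max (max w1 w2) 1) := ⟨_, rfl⟩
  have hw1' := hw1 w (by omega)
  have hw2' := hw2 w (by omega)
  obtain ⟨ρ, hρ⟩ : ∃ ρ : ℝ, ρ = MP w := ⟨_, rfl⟩
  have hρ1 : 1 ≤ ρ := by rw [hρ]; exact MP_ge_one w
  refine ⟨w, by omega, by omega, q * ρ ^ m, ?_, ?_, ?_⟩
  · have : 1 ≤ ρ ^ m := one_le_pow₀ hρ1
    calc (1 : ℝ) = 1 * 1 := (one_mul _).symm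
      _ ≤ q * ρ ^ m := mul_le_mul hq1 this zero_le_one (by linarith)
  · rw [← hρ]
    calc ρ ^ m = 1 * ρ ^ m := (one_mul _).symm
      _ ≤ (q * (c * κ)) * ρ ^ m := mul_le_mul_of_nonneg_right hq2 (by positivity)
      _ = q * ρ ^ m * (c * κ) := by ring
  rw [← hρ] at hw1' hw2' ⊢
  have hww : 1 ≤ w := by omega
  have hw0 : (0 : ℝ) < w := by exact_mod_cast (by omega : 0 < w)
  obtain ⟨Λ, hΛ⟩ : ∃ Λ : ℝ, Λ = q * ρ ^ m := ⟨_, rfl⟩
  rw [← hΛ]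
  have hq0 : 0 < q := by linarith
  have hρ0 : 0 < ρ := by linarith
  have hΛ0 : 0 < Λ := by rw [hΛ]; positivity
  have hK0 : (0 : ℝ) < K1 := by exact_mod_cast (by omega : 0 < K1)
  have hbd1 : K1 * ρ ^ n1 * (1 / w) * Λ ^ e ≤ δ1 / 2 := by
    have e1 : K1 * ρ ^ n1 * (1 / w) * Λ ^ e = (K1 * q ^ e * 2 / δ1 * ρ ^ (n1 + m * e)) * (δ1 / 2) / w := by
      rw [hΛ, mul_pow, ← pow_mul, pow_add]
      field_simp
    rw [e1, div_le_iff₀ hw0]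
    calc (K1 * q ^ e * 2 / δ1 * ρ ^ (n1 + m * e)) * (δ1 / 2) ≤ w * (δ1 / 2) := mul_le_mul_of_nonneg_right hw1' (by positivity)
      _ = δ1 / 2 * w := mul_comm _ _
  have hden : 0 < 2 * (K1 * ρ ^ n1 * Λ ^ e) := by positivity
  refine ⟨min 1 (δ1 / (2 * (K1 * ρ ^ n1 * Λ ^ e))), lt_min one_pos (by positivity), min_le_left _ _, ?_, ?_⟩
  · obtain ⟨δ, hδ⟩ : ∃ δ : ℝ, δ = min 1 (δ1 / (2 * (K1 * ρ ^ n1 * Λ ^ e))) := ⟨_, rfl⟩
    rw [← hδ]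
    have h1 : δ ≤ δ1 / (2 * (K1 * ρ ^ n1 * Λ ^ e)) := by rw [hδ]; exact min_le_right _ _
    rw [le_div_iff₀ hden] at h1
    have e2 : K1 * ρ ^ n1 * (1 / w + δ) * Λ ^ e = K1 * ρ ^ n1 * (1 / w) * Λ ^ e + δ * (2 * (K1 * ρ ^ n1 * Λ ^ e)) / 2 := by ring
    rw [e2]
    linarith
  · rw [div_mul_eq_mul_div, div_le_iff₀ (by positivity)] at hw2'
    have e2 : K2 / w * ρ ^ n2 * ρ ^ (2 * m) = K2 * ρ ^ (n2 + 2 * m) / w := by
      rw [pow_add]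
      ring
    rw [e2, div_le_iff₀ hw0]
    linarith

lemma tau_le (L N B2 C Λ c κ R : ℝ) (hL : 0 ≤ L) (hN : 0 ≤ N) (hB2 : 0 ≤ B2) (hC : 0 < C) (hΛ : 1 ≤ Λ) (hc : 0 < c) (hκ : 0 < κ)
    (hR : R ≤ Λ * (c * κ)) (hlow : c ≤ C * R) (hκB : κ * N ≤ B2) : √(L * N) ≤ Λ * √(L * (C * B2)) := by
  have hR0 : 0 < R := by
    by_contra hcon
    push Not at hcon
    have : C * R ≤ 0 := mul_nonpos_of_nonneg_of_nonpos hC.le hcon
    linarith
  have h1 : N ≤ Λ * (C * B2) := by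
    have h2 : c * κ * N ≤ (C * R) * B2 := by
      calc c * κ * N = c * (κ * N) := by ring
        _ ≤ (C * R) * B2 := mul_le_mul hlow hκB (by positivity) (by positivity)
    have h3 : (C * R) * B2 ≤ (C * (Λ * (c * κ))) * B2 := by gcongr
    have h4 : (c * κ) * N ≤ (c * κ) * (Λ * (C * B2)) := by
      calc (c * κ) * N ≤ (C * (Λ * (c * κ))) * B2 := h2.trans h3
        _ = (c * κ) * (Λ * (C * B2)) := by ring
    exact le_of_mul_le_mul_left h4 (by positivity)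
  have h5 : Λ * √(L * (C * B2)) = √(Λ ^ 2 * (L * (C * B2))) := by
    rw [Real.sqrt_mul (sq_nonneg Λ), Real.sqrt_sq (by linarith)]
  rw [h5]
  apply Real.sqrt_le_sqrt
  calc L * N ≤ L * (Λ * (C * B2)) := mul_le_mul_of_nonneg_left h1 hL
    _ = Λ * (L * (C * B2)) := by ring
    _ ≤ Λ ^ 2 * (L * (C * B2)) := by
        apply mul_le_mul_of_nonneg_right _ (by positivity)
        calc Λ = Λ ^ 1 := (pow_one _).symm
          _ ≤ Λ ^ 2 := pow_le_pow_right₀ hΛ (by norm_num)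

lemma exc1 (E F C c η ε R k : ℝ) (hF : 0 ≤ F) (hC : 0 < C) (hc : 0 < c) (hη : 0 < η) (hε : 0 < ε) (hR : 0 < R)
    (hlow : c ≤ C * R) (h1 : E * (η * C) ^ 2 ≤ k * F) (h2 : k * R ^ 2 ≤ c ^ 2 * η ^ 2 * ε) : E ≤ ε * F := by
  have h3 : k ≤ ε * (η * C) ^ 2 := by
    have h4 : k * R ^ 2 ≤ (ε * (η * C) ^ 2) * R ^ 2 := by
      calc k * R ^ 2 ≤ c ^ 2 * η ^ 2 * ε := h2
        _ ≤ (C * R) ^ 2 * η ^ 2 * ε := by gcongr
        _ = (ε * (η * C) ^ 2) * R ^ 2 := by ring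
    exact le_of_mul_le_mul_right h4 (by positivity)
  have h5 : E * (η * C) ^ 2 ≤ (ε * F) * (η * C) ^ 2 := by
    calc E * (η * C) ^ 2 ≤ k * F := h1
      _ ≤ (ε * (η * C) ^ 2) * F := mul_le_mul_of_nonneg_right h3 hF
      _ = (ε * F) * (η * C) ^ 2 := by ring
  exact le_of_mul_le_mul_right h5 (by positivity)

lemma exc2 (E F C c η ε κ R Q N B2 M G V : ℝ) (hF : 0 ≤ F) (hC : 0 < C) (hc : 0 < c) (hη : 0 < η) (hε : 0 < ε) (hκ : 0 < κ)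
    (hR : 0 < R) (hQ : 0 < Q) (hN : 1 ≤ N) (hB2 : 0 < B2) (hM : 1 ≤ M) (hG : 0 ≤ G) (hV : 0 ≤ V)
    (hlow : c ≤ C * R) (hκB : κ * N ≤ B2)
    (h1 : E * (η ^ 2 * (Q * (C * B2))) ≤ (4 * (V + 3) * M * N + 1) * (G * F))
    (h2 : (4 * (V + 3) + 1) * G * R / (ε * η ^ 2 * (c * κ)) * M ≤ Q) : E ≤ ε * F := by
  have h3 : 4 * (V + 3) * M * N + 1 ≤ (4 * (V + 3) + 1) * M * N := by
    have : 1 ≤ M * N := by
      calc (1 : ℝ) = 1 * 1 := (one_mul _).symm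
        _ ≤ M * N := mul_le_mul hM hN zero_le_one (by linarith)
    linarith
  rw [div_mul_eq_mul_div, div_le_iff₀ (by positivity)] at h2
  have h4 : c * κ * N ≤ (C * R) * B2 := by
    calc c * κ * N = c * (κ * N) := by ring
      _ ≤ (C * R) * B2 := mul_le_mul hlow hκB (by positivity) (by positivity)
  have h5 : ((4 * (V + 3) * M * N + 1) * (G * F)) * R ≤ ((ε * F) * (η ^ 2 * (Q * (C * B2)))) * R := by
    calc ((4 * (V + 3) * M * N + 1) * (G * F)) * R ≤ (((4 * (V + 3) + 1) * M * N) * (G * F)) * R := by gcongr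
      _ = ((4 * (V + 3) + 1) * G * R * M) * (N * F) := by ring
      _ ≤ (Q * (ε * η ^ 2 * (c * κ))) * (N * F) := by gcongr
      _ = (ε * F) * (η ^ 2 * Q) * (c * κ * N) := by ring
      _ ≤ (ε * F) * (η ^ 2 * Q) * ((C * R) * B2) := by gcongr
      _ = ((ε * F) * (η ^ 2 * (Q * (C * B2)))) * R := by ring
  have h6 : E * (η ^ 2 * (Q * (C * B2))) ≤ (ε * F) * (η ^ 2 * (Q * (C * B2))) :=
    h1.trans (le_of_mul_le_mul_right h5 hR)
  exact le_of_mul_le_mul_right h6 (by positivity)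

lemma root_close (x C A η : ℝ) (hC : 0 < C) (hA : 0 < A) (hη : 0 < η) (hη2 : η ≤ 1 / 2) (h : |x - C| ≤ η * C) :
    0 < x ∧ |√(x * A) - √(A * C)| ≤ η * √(A * C) := by
  have h7 := abs_le.1 h
  have h8 : 0 < x := by
    have : η * C ≤ 1 / 2 * C := mul_le_mul_of_nonneg_right hη2 hC.le
    linarith
  refine ⟨h8, ?_⟩
  obtain ⟨σ, hσ⟩ : ∃ σ : ℝ, σ = √(A * C) := ⟨_, rfl⟩
  obtain ⟨y, hy⟩ : ∃ y : ℝ, y = √(x * A) := ⟨_, rfl⟩
  rw [← hσ, ← hy]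
  have hσ2 : σ ^ 2 = A * C := by rw [hσ]; exact Real.sq_sqrt (by positivity)
  have hσ0 : 0 < σ := by rw [hσ]; exact Real.sqrt_pos.2 (by positivity)
  have hy0 : 0 ≤ y := by rw [hy]; exact Real.sqrt_nonneg _
  have hy2 : y ^ 2 = x * A := by rw [hy]; exact Real.sq_sqrt (by positivity)
  have h9 : |y ^ 2 - σ ^ 2| ≤ η * σ ^ 2 := by
    rw [hy2, hσ2]
    have e : x * A - A * C = (x - C) * A := by ring
    rw [e, abs_mul, abs_of_pos hA]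
    calc |x - C| * A ≤ (η * C) * A := by gcongr
      _ = η * (A * C) := by ring
  have h10 : |y - σ| * (y + σ) ≤ η * σ ^ 2 := by
    have e : y ^ 2 - σ ^ 2 = (y - σ) * (y + σ) := by ring
    rw [e, abs_mul, abs_of_pos (by linarith : 0 < y + σ)] at h9
    exact h9
  have h11 : |y - σ| * σ ≤ (η * σ) * σ := by
    calc |y - σ| * σ ≤ |y - σ| * (y + σ) := by
          apply mul_le_mul_of_nonneg_left _ (abs_nonneg _)
          linarith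
      _ ≤ (η * σ) * σ := by
          refine h10.trans (le_of_eq ?_)
          ring
  exact le_of_mul_le_mul_right h11 hσ0

lemma ty (t y σ η : ℝ) (hy : |y - σ| ≤ η * σ) : t * σ - |t| * (η * σ) ≤ t * y ∧ t * y ≤ t * σ + |t| * (η * σ) := by
  have h6 : |t * (y - σ)| ≤ |t| * (η * σ) := by
    rw [abs_mul]
    exact mul_le_mul_of_nonneg_left hy (abs_nonneg _)
  have h7 := abs_le.1 h6
  have e : t * (y - σ) = t * y - t * σ := by ring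
  rw [e] at h7
  constructor
  · linarith
  · linarith

lemma incl1 (S1 S2 t y σ η : ℝ) (hσ : 0 < σ) (hy : |y - σ| ≤ η * σ) (h2 : |S2| ≤ η * σ)
    (h : S1 / σ ≤ t - (|t| + 1) * η) : S1 + S2 ≤ t * y := by
  have h10 := (div_le_iff₀ hσ).1 h
  have h11 := (ty t y σ η hy).1
  have h12 := (abs_le.1 h2).2
  have e : (t - (|t| + 1) * η) * σ = t * σ - |t| * (η * σ) - η * σ := by ring
  rw [e] at h10
  linarith

lemma incl2 (S1 S2 t y σ η : ℝ) (hσ : 0 < σ) (hy : |y - σ| ≤ η * σ) (h2 : |S2| ≤ η * σ)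
    (h : S1 + S2 ≤ t * y) : S1 / σ ≤ t + (|t| + 1) * η := by
  rw [div_le_iff₀ hσ]
  have h11 := (ty t y σ η hy).2
  have h12 := (abs_le.1 h2).1
  have e : (t + (|t| + 1) * η) * σ = t * σ + |t| * (η * σ) + η * σ := by ring
  rw [e]
  linarith

open Classical in
lemma core {Ω : Type} (S : Finset Ω) (hS : S.Nonempty) (Cz S1 S2 : Ω → ℝ) (C A σ η ε t : ℝ) (hC : 0 < C) (hA : 0 < A)
    (hσ : σ = √(A * C)) (hη : 0 < η) (hη2 : η ≤ 1 / 2) (hε : 0 ≤ ε)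
    (h1 : ((S.filter (fun a => η * C < |Cz a - C|)).card : ℝ) ≤ ε * S.card)
    (h2 : ((S.filter (fun a => η * σ < |S2 a|)).card : ℝ) ≤ ε * S.card)
    (h3 : |((S.filter (fun a => S1 a / σ ≤ t + (|t| + 1) * η)).card : ℝ) / S.card - Phi (t + (|t| + 1) * η)| ≤ ε)
    (h4 : |((S.filter (fun a => S1 a / σ ≤ t - (|t| + 1) * η)).card : ℝ) / S.card - Phi (t - (|t| + 1) * η)| ≤ ε)
    (hPp : Phi (t + (|t| + 1) * η) ≤ Phi t + ε) (hPm : Phi t - ε ≤ Phi (t - (|t| + 1) * η)) :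
    |((S.filter (fun a => Cz a ≠ 0 ∧ S1 a + S2 a ≤ t * √(Cz a * A))).card : ℝ) - Phi t * (S.filter (fun a => Cz a ≠ 0)).card| ≤
      8 * ε * S.card := by
  have hF : (0 : ℝ) < S.card := by exact_mod_cast card_pos.2 hS
  have hσ0 : 0 < σ := by rw [hσ]; exact Real.sqrt_pos.2 (by positivity)
  obtain ⟨E1, hE1⟩ : ∃ E1, E1 = S.filter (fun a => η * C < |Cz a - C|) := ⟨_, rfl⟩
  obtain ⟨E2, hE2⟩ : ∃ E2, E2 = S.filter (fun a => η * σ < |S2 a|) := ⟨_, rfl⟩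
  rw [← hE1] at h1
  rw [← hE2] at h2
  obtain ⟨E, hE⟩ : ∃ E, E = E1 ∪ E2 := ⟨_, rfl⟩
  have hEc : (E.card : ℝ) ≤ 2 * ε * S.card := by
    have h6 : (E.card : ℝ) ≤ E1.card + E2.card := by
      rw [hE]
      exact_mod_cast card_union_le _ _
    linarith
  have hgood : ∀ a ∈ S, a ∉ E → |Cz a - C| ≤ η * C ∧ |S2 a| ≤ η * σ := by
    intro a ha haE
    rw [hE, mem_union, not_or, hE1, hE2, mem_filter, mem_filter] at haE
    constructor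
    · by_contra hcon
      push Not at hcon
      exact haE.1 ⟨ha, hcon⟩
    · by_contra hcon
      push Not at hcon
      exact haE.2 ⟨ha, hcon⟩
  have hroot : ∀ a ∈ S, a ∉ E → 0 < Cz a ∧ |√(Cz a * A) - σ| ≤ η * σ := by
    intro a ha haE
    rw [hσ]
    exact root_close (Cz a) C A η hC hA hη hη2 (hgood a ha haE).1
  obtain ⟨A0, hA0⟩ : ∃ A0, A0 = S.filter (fun a => Cz a ≠ 0 ∧ S1 a + S2 a ≤ t * √(Cz a * A)) := ⟨_, rfl⟩
  obtain ⟨M0, hM0⟩ : ∃ M0, M0 = S.filter (fun a => Cz a ≠ 0) := ⟨_, rfl⟩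
  obtain ⟨Ap, hAp⟩ : ∃ Ap, Ap = S.filter (fun a => S1 a / σ ≤ t + (|t| + 1) * η) := ⟨_, rfl⟩
  obtain ⟨Am, hAm⟩ : ∃ Am, Am = S.filter (fun a => S1 a / σ ≤ t - (|t| + 1) * η) := ⟨_, rfl⟩
  rw [← hA0, ← hM0]
  rw [← hAp] at h3
  rw [← hAm] at h4
  have hsub1 : Am ⊆ A0 ∪ E := by
    intro a ha
    rw [hAm, mem_filter] at ha
    by_cases haE : a ∈ E
    · exact mem_union_right _ haE
    apply mem_union_left
    obtain ⟨h6, h7⟩ := hgood a ha.1 haE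
    obtain ⟨h8, h9⟩ := hroot a ha.1 haE
    rw [hA0, mem_filter]
    exact ⟨ha.1, h8.ne', incl1 (S1 a) (S2 a) t _ σ η hσ0 h9 h7 ha.2⟩
  have hsub2 : A0 ⊆ Ap ∪ E := by
    intro a ha
    rw [hA0, mem_filter] at ha
    by_cases haE : a ∈ E
    · exact mem_union_right _ haE
    apply mem_union_left
    obtain ⟨h6, h7⟩ := hgood a ha.1 haE
    obtain ⟨h8, h9⟩ := hroot a ha.1 haE
    rw [hAp, mem_filter]
    exact ⟨ha.1, incl2 (S1 a) (S2 a) t _ σ η hσ0 h9 h7 ha.2.2⟩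
  have hsub3 : S ⊆ M0 ∪ E := by
    intro a ha
    by_cases haE : a ∈ E
    · exact mem_union_right _ haE
    apply mem_union_left
    rw [hM0, mem_filter]
    exact ⟨ha, (hroot a ha haE).1.ne'⟩
  have hcc : ∀ X Y : Finset Ω, X ⊆ Y ∪ E → (X.card : ℝ) ≤ Y.card + E.card := by
    intro X Y hXY
    exact_mod_cast (card_le_card hXY).trans (card_union_le _ _)
  exact counts S.card A0.card M0.card Ap.card Am.card E.card (Phi t) (Phi (t + (|t| + 1) * η)) (Phi (t - (|t| + 1) * η)) ε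
    hF.le (Phi_nonneg t) (Phi_le t) hε
    (hcc _ _ hsub1) (hcc _ _ hsub2) (hcc _ _ hsub3)
    (by rw [hM0]; exact_mod_cast card_filter_le _ _) hEc
    (by
      have h6 := (abs_le.1 h3).2
      have h7 : (Ap.card : ℝ) / S.card ≤ Phi (t + (|t| + 1) * η) + ε := by linarith
      exact (div_le_iff₀ hF).1 h7)
    (by
      have h6 := (abs_le.1 h4).1
      have h7 : Phi (t - (|t| + 1) * η) - ε ≤ (Am.card : ℝ) / S.card := by linarith
      exact (le_div_iff₀ hF).1 h7) hPp hPm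

/-- from moments with errors to moments of the normalized sum -/
lemma mom_norm {Ω : Type} (S : Finset Ω) (hS : S.Nonempty) (f : Ω → ℝ) (σ τ Λ X M δ1 : ℝ) (k e : ℕ) (hke : k ≤ e)
    (hσ : 0 < σ) (hτ : 0 ≤ τ) (hΛ : 1 ≤ Λ) (hτσ : τ ≤ Λ * σ) (hX : 0 ≤ X) (hXΛ : X * Λ ^ e ≤ δ1)
    (h : |∑ a ∈ S, f a ^ k - M * σ ^ k * S.card| ≤ X * τ ^ k * S.card) :
    |(∑ a ∈ S, (f a / σ) ^ k) / S.card - M| ≤ δ1 := by
  have hF : (0 : ℝ) < S.card := by exact_mod_cast card_pos.2 hS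
  have e1 : (∑ a ∈ S, (f a / σ) ^ k) / S.card - M = (∑ a ∈ S, f a ^ k - M * σ ^ k * S.card) / (σ ^ k * S.card) := by
    simp only [div_pow]
    rw [← sum_div]
    field_simp
  rw [e1, abs_div, abs_of_pos (by positivity : 0 < σ ^ k * (S.card : ℝ)), div_le_iff₀ (by positivity)]
  refine h.trans ?_
  have h7 : τ ^ k ≤ Λ ^ e * σ ^ k := by
    calc τ ^ k ≤ (Λ * σ) ^ k := pow_le_pow_left₀ hτ hτσ k
      _ = Λ ^ k * σ ^ k := mul_pow _ _ _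
      _ ≤ Λ ^ e * σ ^ k := mul_le_mul_of_nonneg_right (pow_le_pow_right₀ hΛ hke) (by positivity)
  calc X * τ ^ k * S.card ≤ X * (Λ ^ e * σ ^ k) * S.card := by gcongr
    _ = (X * Λ ^ e) * (σ ^ k * S.card) := by ring
    _ ≤ δ1 * (σ ^ k * S.card) := by gcongr

end Pool.Agent.H77.BV
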