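import Mathlib
import Pool.Agent.H77.BV.Cn

/-! The normal law in a class. -/

set_option autoImplicit false

namespace Pool.Agent.H77.BV

open Finset Polynomial ProbabilityTheory
open Pool.Agent.K1H89.PL
open Pool.Agent.K1H89.Ev (evN ev_pow)

/-- the weighted sum of the differences between the logarithmic weights and the constant -/
noncomputable def SS {s d : ℕ} (z : ℕ) (v : Fin s → ℕ → ℤ) (α β : ℕ) (b : ℕ → ℝ) (a : Fin s → Fin (d + 1) → ℤ) : ℝ :=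
  ∑ n ∈ Ioc α β, b n * (Xn v a n - Cc z v a)

lemma SS_eq {s d : ℕ} (z : ℕ) (v : Fin s → ℕ → ℤ) (α β : ℕ) (b : ℕ → ℝ) (a : Fin s → Fin (d + 1) → ℤ) :
    SS z v α β b a = ∑ n ∈ Ioc α β, b n * Dn z v a n +
      (∑ n ∈ Ioc α β, b n * Yn z v a n - (∑ n ∈ Ioc α β, b n) * Cc z v a) := by
  unfold SS Dn
  rw [sum_mul, ← sum_sub_distrib, ← sum_add_distrib]
  apply sum_congr rfl
  intro n _
  ring

open Classical in
/-- **the normal law in a class** -/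
theorem class_clt (s B : ℕ) (hs : 1 ≤ s) (hB : 1 ≤ B) (t ε : ℝ) (hε : 0 < ε) : ∃ d₀ : ℕ, ∀ d D : ℕ, d₀ ≤ d → d ≤ D →
    ∀ κ V : ℝ, 0 < κ → 0 ≤ V → ∃ w : ℕ, ∃ δ : ℝ, 0 < δ ∧ ∃ H0 : ℕ, ∀ H : ℕ, H0 ≤ H → ∀ z : ℕ,
    ∀ h : Fin s → ℤ[X], (∀ i, (h i).natDegree ≤ D) → ∀ α β : ℕ, ∀ b : ℕ → ℝ, Dat s B H z w (vh h) α β b V →
    Real.log H ^ s ≤ δ ^ 2 * ((β : ℝ) - α) → κ * ((β : ℝ) - α) ≤ ∑ n ∈ Ioc α β, b n ^ 2 →
    ∀ g : Fin s → Fin (d + 1) → ℤ,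
    |(((fam H (primorial w) g).filter (fun a => Cc z (vh h) a ≠ 0 ∧
        SS z (vh h) α β b a ≤ t * √(Cc z (vh h) a * (Real.log H ^ s * ∑ n ∈ Ioc α β, b n ^ 2)))).card : ℝ) -
      Phi t * ((fam H (primorial w) g).filter (fun a => Cc z (vh h) a ≠ 0)).card| ≤
      ε * (fam H (primorial w) g).card := by
  obtain ⟨ε1, hε1⟩ : ∃ e : ℝ, e = ε / 8 := ⟨_, rfl⟩
  have hε10 : 0 < ε1 := by rw [hε1]; positivity
  -- continuity
  obtain ⟨η₀, hη₀0, hη₀⟩ := Metric.continuousAt_iff.1 (Phi_cont t) ε1 hε10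
  obtain ⟨η, hη⟩ : ∃ η : ℝ, η = min (1 / 2) (η₀ / (2 * (|t| + 1))) := ⟨_, rfl⟩
  have ht0 : 0 ≤ |t| := abs_nonneg t
  have hη0 : 0 < η := by rw [hη]; exact lt_min (by norm_num) (by positivity)
  have hη2 : η ≤ 1 / 2 := by rw [hη]; exact min_le_left _ _
  have hη3 : (|t| + 1) * η < η₀ := by
    have h1 : η ≤ η₀ / (2 * (|t| + 1)) := by rw [hη]; exact min_le_right _ _
    calc (|t| + 1) * η ≤ (|t| + 1) * (η₀ / (2 * (|t| + 1))) := by gcongr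
      _ = η₀ / 2 := by field_simp
      _ < η₀ := by linarith
  obtain ⟨tp, htp⟩ : ∃ tp : ℝ, tp = t + (|t| + 1) * η := ⟨_, rfl⟩
  obtain ⟨tm, htm⟩ : ∃ tm : ℝ, tm = t - (|t| + 1) * η := ⟨_, rfl⟩
  have hPp : Phi tp ≤ Phi t + ε1 := by
    have h1 := hη₀ (x := tp) (by rw [Real.dist_eq, htp, add_sub_cancel_left, abs_of_nonneg (by positivity)]; exact hη3)
    rw [Real.dist_eq] at h1
    have := (abs_lt.1 h1).2
    linarith
  have hPm : Phi t - ε1 ≤ Phi tm := by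
    have h1 := hη₀ (x := tm) (by
      rw [Real.dist_eq, htm, sub_sub_cancel_left, abs_neg, abs_of_nonneg (by positivity)]; exact hη3)
    rw [Real.dist_eq] at h1
    have := (abs_lt.1 h1).1
    linarith
  obtain ⟨kp, δp, hδp0, hlp⟩ := mom_law tp hε10
  obtain ⟨km, δm, hδm0, hlm⟩ := mom_law tm hε10
  obtain ⟨δ1, hδ1⟩ : ∃ δ1 : ℝ, δ1 = min δp δm := ⟨_, rfl⟩
  have hδ10 : 0 < δ1 := by rw [hδ1]; exact lt_min hδp0 hδm0
  refine ⟨max (max kp km) 1, fun d D hd₀ hdD κ V hκ hV0 => ?_⟩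
  have hd1 : 1 ≤ d := by omega
  obtain ⟨c, hc0, hc⟩ := Cc_low s (s * D)
  obtain ⟨K1, hK11, hK1⟩ := moment s d B hs hB
  obtain ⟨K2, hK2⟩ := close s d D B hd1 hdD hB
  obtain ⟨m, hm⟩ : ∃ m : ℕ, m = 2 * (s * D) := ⟨_, rfl⟩
  obtain ⟨w, hwK1, hwK2, Λ, hΛ1, hΛ2, δ, hδ0, hδle, hbd, hbd2⟩ :=
    choice K1 K2 (s * (d + 1)) (2 * s) m (d + 1) c κ η ε1 δ1 hK11 hc0 hκ hη0 hε10 hδ10
  obtain ⟨ρ, hρ⟩ : ∃ ρ : ℝ, ρ = MP w := ⟨_, rfl⟩
  have hρ1 : 1 ≤ ρ := by rw [hρ]; exact MP_ge_one w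
  rw [← hρ] at hΛ2 hbd hbd2
  have hww : 1 ≤ w := by omega
  obtain ⟨H1, h1⟩ := hK1 w (by omega) V δ hV0 hδ0 hδle
  obtain ⟨H2, h2⟩ := hK2 w (by omega)
  obtain ⟨W, hW⟩ : ∃ W, W = primorial w := ⟨_, rfl⟩
  have hW1 : 1 ≤ W := by rw [hW]; exact primorial_pos w
  obtain ⟨H3, h3⟩ := MP_tiny B s ((4 * (V + 3) + 1) * (3 * (W : ℝ)) ^ (s * (d + 1)) * ρ ^ m / (ε1 * η ^ 2 * (c * κ)))
  obtain ⟨H4, h4⟩ := second s d D (2 * B + s) B hd1 hdD le_rfl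
  obtain ⟨H5, h5⟩ := evN _ (Real.tendsto_log_atTop.eventually_ge_atTop 1)
  refine ⟨w, δ, hδ0, max (max (max H1 H2) (max H3 H4)) (max H5 W), fun H hH z h hD α β b hDat hN hκB g => ?_⟩
  have hmom := h1 H (by omega) z (vh h) α β b hDat hN g
  have hcl := h2 H (by omega) z hDat.hz hDat.hwz h hD g
  have htiny := h3 H (by omega) z hDat.hz
  have hsec := h4 H (by omega) z hDat.hz h hD g α β hDat.hαβ hDat.hβ b hDat.hb
  have hL1 := h5 H (by omega)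
  have hWH : W ≤ H := by omega
  have hlow := hc w d (vh h) g (fun p hp => om_Fa h g D hD hdD p hp)
  have hVV := hDat.hV
  have hwz := hDat.hwz
  clear hDat h1 h2 h3 h4 h5 hK1 hK2 hc
  rw [← hW] at hmom hcl ⊢
  rw [← hρ, ← hm] at hlow
  rw [← hρ] at hmom hcl
  set L := Real.log H with hL
  set v := vh h with hv
  have hL0 : 0 < L := by linarith
  obtain ⟨N, hNdef⟩ : ∃ N : ℝ, N = (β : ℝ) - α := ⟨_, rfl⟩
  rw [← hNdef] at hN hκB hmom hsec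
  have hLs : L ≤ L ^ s := le_self_pow₀ hL1 (by omega)
  have hLs1 : 1 ≤ L ^ s := hL1.trans hLs
  have hLs0 : 0 < L ^ s := by linarith
  have hN0 : 0 < N := by
    have h6 : 0 < δ ^ 2 * N := by linarith
    exact (mul_pos_iff_of_pos_left (by positivity)).1 h6
  have hN1 : 1 ≤ N := by
    have h6 : δ ^ 2 ≤ 1 := pow_le_one₀ hδ0.le hδle
    have h7 : δ ^ 2 * N ≤ 1 * N := mul_le_mul_of_nonneg_right h6 hN0.le
    linarith
  obtain ⟨B2, hB2⟩ : ∃ B2 : ℝ, B2 = ∑ n ∈ Ioc α β, b n ^ 2 := ⟨_, rfl⟩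
  rw [← hB2] at hκB hmom ⊢
  have hB20 : 0 < B2 := lt_of_lt_of_le (mul_pos hκ hN0) hκB
  obtain ⟨C, hC⟩ : ∃ C : ℝ, C = Cc w v g := ⟨_, rfl⟩
  rw [← hC] at hmom hcl hlow
  have hC0 : 0 ≤ C := by rw [hC]; exact Cc_nonneg _ _ _
  -- the trivial cases
  rcases (fam H W g).eq_empty_or_nonempty with h6 | hne
  · rw [h6]
    simp
  rcases hC0.eq_or_lt with hCz | hCpos
  · have h6 : ∀ a ∈ fam H W g, Cc z v a = 0 := by
      intro a ha
      rw [hW] at ha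
      exact Cc_zero hwz v ha (by rw [← hC]; exact hCz.symm)
    have h7 : (fam H W g).filter (fun a => Cc z v a ≠ 0 ∧ SS z v α β b a ≤ t * √(Cc z v a * (L ^ s * B2))) = ∅ := by
      rw [filter_eq_empty_iff]
      rintro a ha ⟨h8, _⟩
      exact h8 (h6 a ha)
    have h8 : (fam H W g).filter (fun a => Cc z v a ≠ 0) = ∅ := by
      rw [filter_eq_empty_iff]
      intro a ha h8
      exact h8 (h6 a ha)
    rw [h7, h8]
    simp only [card_empty, CharP.cast_eq_zero, mul_zero, sub_zero, abs_zero]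
    positivity
  -- the main case
  have hF : (0 : ℝ) < (fam H W g).card := by exact_mod_cast card_pos.2 hne
  have hlow' := hlow hCpos.ne'
  obtain ⟨σ, hσ⟩ : ∃ σ : ℝ, σ = √(L ^ s * (C * B2)) := ⟨_, rfl⟩
  have hσ0 : 0 < σ := by rw [hσ]; exact Real.sqrt_pos.2 (by positivity)
  have hσ2 : σ ^ 2 = L ^ s * (C * B2) := by rw [hσ]; exact Real.sq_sqrt (by positivity)
  have hτσ := tau_le (L ^ s) N B2 C Λ c κ (ρ ^ m) hLs0.le hN0.le hB20.le hCpos hΛ1 hc0 hκ hΛ2 hlow' hκB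
  have hw0 : (0 : ℝ) < 1 / w := by
    have : (0 : ℝ) < w := by exact_mod_cast (by omega : 0 < w)
    positivity
  rw [← hσ] at hmom hτσ
  have hmoms : ∀ k ≤ d + 1, |(∑ a ∈ fam H W g, ((∑ n ∈ Ioc α β, b n * Dn z v a n) / σ) ^ k) / (fam H W g).card - mm k| ≤ δ1 := by
    intro k hk
    exact mom_norm (fam H W g) hne (fun a => ∑ n ∈ Ioc α β, b n * Dn z v a n) σ _ Λ (K1 * ρ ^ (s * (d + 1)) * (1 / w + δ)) (mm k) δ1 k
      (d + 1) hk hσ0 (Real.sqrt_nonneg _) hΛ1 hτσ (by positivity) hbd (hmom k hk)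
  have hlawp := hlp _ (fam H W g) hne (fun a => (∑ n ∈ Ioc α β, b n * Dn z v a n) / σ)
    (fun k hk => (hmoms k (by omega)).trans (by rw [hδ1]; exact min_le_left _ _))
  have hlawm := hlm _ (fam H W g) hne (fun a => (∑ n ∈ Ioc α β, b n * Dn z v a n) / σ)
    (fun k hk => (hmoms k (by omega)).trans (by rw [hδ1]; exact min_le_right _ _))
  -- the exceptional sets
  have hE1c : (((fam H W g).filter (fun a => η * C < |Cc z v a - C|)).card : ℝ) ≤ ε1 * (fam H W g).card := by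
    have h6 := cheb (fam H W g) (fun a => Cc z v a - C) (η * C) (by positivity)
    have h8 : K2 / w * ρ ^ (2 * s) * (ρ ^ m) ^ 2 ≤ c ^ 2 * η ^ 2 * ε1 := by
      rw [← pow_mul, mul_comm m 2]
      exact hbd2
    exact exc1 _ _ C c η ε1 (ρ ^ m) (K2 / w * ρ ^ (2 * s)) hF.le hCpos hc0 hη0 hε10 (by positivity) hlow' (h6.trans hcl) h8
  have hE2c : (((fam H W g).filter (fun a => η * σ <
      |∑ n ∈ Ioc α β, b n * Yn z v a n - (∑ n ∈ Ioc α β, b n) * Cc z v a|)).card : ℝ) ≤ ε1 * (fam H W g).card := by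
    have h6 := cheb (fam H W g) (fun a => ∑ n ∈ Ioc α β, b n * Yn z v a n - (∑ n ∈ Ioc α β, b n) * Cc z v a) (η * σ) (by positivity)
    have h7 : ∑ a ∈ fam H W g, (∑ n ∈ Ioc α β, b n * Yn z v a n - (∑ n ∈ Ioc α β, b n) * Cc z v a) ^ 2 ≤
        ∑ a ∈ fam H 1 g, (∑ n ∈ Ioc α β, b n * Yn z v a n - (∑ n ∈ Ioc α β, b n) * Cc z v a) ^ 2 :=
      sum_le_sum_of_subset_of_nonneg (fam_sub H W g) (fun _ _ _ => sq_nonneg _)
    have h8 := fam_ratio H W g hW1 hWH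
    have hMPz1 : 1 ≤ MP z ^ s := one_le_pow₀ (MP_ge_one z)
    have h9 : (4 * (TV b α β + 3) * MP z ^ s * N + 1) * ((fam H 1 g).card : ℝ) ≤
        (4 * (V + 3) * MP z ^ s * N + 1) * ((3 * (W : ℝ)) ^ (s * (d + 1)) * (fam H W g).card) := by
      have h10 : 0 ≤ TV b α β := TV_nonneg b α β
      apply mul_le_mul _ h8 (Nat.cast_nonneg _) (by positivity)
      have h11 : 4 * (TV b α β + 3) ≤ 4 * (V + 3) := by linarith
      have h12 : 4 * (TV b α β + 3) * MP z ^ s * N ≤ 4 * (V + 3) * MP z ^ s * N :=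
        mul_le_mul_of_nonneg_right (mul_le_mul_of_nonneg_right h11 (by linarith)) hN0.le
      linarith
    have h11 := ((h6.trans h7).trans hsec).trans h9
    rw [mul_pow, hσ2] at h11
    exact exc2 _ _ C c η ε1 κ (ρ ^ m) (L ^ s) N B2 (MP z ^ s) _ V hF.le hCpos hc0 hη0 hε10 hκ (by positivity) hLs0 hN1 hB20 hMPz1
      (by positivity) hV0 hlow' hκB h11 (htiny.trans hLs)
  have hσ' : σ = √(L ^ s * B2 * C) := by
    rw [hσ]
    congr 1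
    ring
  have hfin := core (fam H W g) hne (fun a => Cc z v a) (fun a => ∑ n ∈ Ioc α β, b n * Dn z v a n)
    (fun a => ∑ n ∈ Ioc α β, b n * Yn z v a n - (∑ n ∈ Ioc α β, b n) * Cc z v a) C (L ^ s * B2) σ η ε1 t hCpos (by positivity)
    hσ' hη0 hη2 hε10.le hE1c hE2c (by rw [← htp]; exact hlawp) (by rw [← htm]; exact hlawm) (by rw [← htp]; exact hPp)
    (by rw [← htm]; exact hPm)
  have e8 : 8 * ε1 = ε := by rw [hε1]; ring
  rw [e8] at hfin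
  simp only [SS_eq]
  exact hfin

end Pool.Agent.H77.BV
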