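import Mathlib
import Pool.Agent.H77.BV.Cg2

/-! The variance. -/

set_option autoImplicit false

namespace Pool.Agent.H77.BV

open Finset Polynomial ProbabilityTheory
open Pool.Agent.K1H89.PL
open Pool.Agent.K1H89.Ev (evN ev_pow)

lemma GG_one (C : ℝ) : GG 1 1 C = 1 := by
  unfold GG pf
  simp

lemma dif_single (n : ℕ) : dif {n} = 1 := by
  unfold dif
  rw [prod_singleton]
  apply prod_eq_one
  intro a ha
  rw [mem_filter, mem_singleton] at ha
  omega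

lemma rho_one : rho 1 = 1 := by
  unfold rho
  simp

/-- the second moment of the sum of the differences -/
theorem var1 (s d B : ℕ) (hs : 1 ≤ s) (hd : 1 ≤ d) (η : ℝ) (hη : 0 < η) (hη1 : η ≤ 1) : ∃ H0 : ℕ, ∀ H : ℕ, H0 ≤ H → ∀ z : ℕ,
    (z : ℝ) ≤ Real.log H ^ B → ∀ v : Fin s → ℕ → ℤ,
    (∀ i, ∀ n : ℕ, (n : ℝ) ≤ Real.log H ^ B → |((v i n : ℤ) : ℝ)| ≤ H * Real.log H ^ B) →
    ∀ g : Fin s → Fin (d + 1) → ℤ, ∀ α β : ℕ, β ≤ z → ∀ b : ℕ → ℝ, (∀ n, |b n| ≤ 1) →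
    |∑ a ∈ fam H 1 g, (∑ n ∈ Ioc α β, b n * Dn z v a n) ^ 2 - Real.log H ^ s * (∑ n ∈ Ioc α β, b n ^ 2) * (fam H 1 g).card| ≤
      (η * (Real.log H ^ s * ∑ n ∈ Ioc α β, b n ^ 2) + 1 / Real.log H) * (fam H 1 g).card := by
  classical
  obtain ⟨B1, hB1⟩ : ∃ e, e = B + 2 * s := ⟨_, rfl⟩
  obtain ⟨H1, h1⟩ := dsq s d B hs η hη hη1
  obtain ⟨H2, h2⟩ := singles s d (2 * B + 1) B1
  obtain ⟨H3, h3⟩ := Dn_bd s d B
  obtain ⟨H4, h4⟩ := evN _ (Real.tendsto_log_atTop.eventually_ge_atTop 2)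
  refine ⟨max (max H1 H2) (max H3 H4), fun H hH z hz v hv g α β hβ b hb => ?_⟩
  have hdsq := h1 H (by omega) z 1 hz le_rfl
  have hsing := h2 H (by omega) z 1
  have hbd := h3 H (by omega) z hz 1 v g
  have hL2 := h4 H (by omega)
  set L := Real.log H with hL
  have hL1 : 1 ≤ L := by linarith
  have hL0 : 0 < L := by linarith
  have hH0 : (0 : ℝ) ≤ H := Nat.cast_nonneg _
  have p0 : ∀ a : ℕ, 0 < L ^ a := fun a => by positivity
  have pw : ∀ {a b : ℕ}, a ≤ b → L ^ a ≤ L ^ b := fun h => pow_le_pow_right₀ hL1 h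
  have hp1 : ∀ p : ℕ, p.Prime → p ∣ 1 → p ≤ z := fun p hp h => absurd (Nat.dvd_one.1 h) hp.ne_one
  have hdsq' := hdsq (by push_cast; exact one_le_pow₀ hL1) hp1 v hv g
  have hBB : L ^ B ≤ L ^ B1 := pw (by omega)
  set I := Ioc α β with hI
  have hIz : ∀ n ∈ I, n ≤ z := by
    intro n hn
    rw [hI, mem_Ioc] at hn
    omega
  have hvz : ∀ i, ∀ n : ℕ, n ≤ z → |((v i n : ℤ) : ℝ)| ≤ H * L ^ B := by
    intro i n hn
    exact hv i n (le_trans (by exact_mod_cast hn) hz)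
  obtain ⟨F, hF⟩ : ∃ F : ℝ, F = (fam H 1 g).card := ⟨_, rfl⟩
  have hF0 : 0 ≤ F := by rw [hF]; exact Nat.cast_nonneg _
  rw [← hF] at hdsq' ⊢
  -- the diagonal
  have hdiag : ∀ n ∈ I, |∑ a ∈ fam H 1 g, Dn z v a n ^ 2 - L ^ s * F| ≤ η * (L ^ s * F) := by
    intro n hn
    have h5 := hdsq' {n} (by rw [card_singleton]; omega) (fun m hm => by
      rw [mem_singleton] at hm
      rw [hm]
      exact hIz n hn)
    rw [card_singleton, dif_single, GG_one, rho_one] at h5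
    have h6 : (if ∀ n' ∈ ({n} : Finset ℕ), okn v g 1 n' then ((1 : ℝ) ^ s) ^ 1 else 0) = 1 := by
      rw [if_pos]
      · simp
      · intro n' _ i
        push_cast
        exact isCoprime_one_right
    simp only [prod_singleton] at h5
    rw [h6] at h5
    refine le_trans (le_of_eq ?_) (h5.trans (le_of_eq ?_))
    · congr 1
      ring
    · ring
  -- off the diagonal
  have hoff : ∀ n ∈ I, ∀ m ∈ I, n ≠ m → |∑ a ∈ fam H 1 g, Dn z v a n * Dn z v a m| ≤ F / L ^ (2 * B + 1) := by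
    intro n hn m hm hnm
    have hT : ({m} : Finset ℕ).card ≤ d := by rw [card_singleton]; exact hd
    have h5 := hsing (hz.trans hBB) le_rfl (by push_cast; exact one_le_pow₀ hL1) hp1 v (fun i k hk => by
        refine (hvz i k hk).trans ?_
        gcongr) g {m} hT (fun k hk => by
          rw [mem_singleton] at hk
          rw [hk]
          exact hIz m hm) n (hIz n hn) (by rw [mem_singleton]; exact hnm) (fun a => Dn z v a m) (by
            intro a i t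
            exact Dn_inv z v a {m} hT i _ m (mem_singleton_self m)) (by
            intro a ha
            refine (hbd a ha m (hIz m hm) (fun i => hvz i m (hIz m hm))).trans ?_
            calc (2 * L) ^ s ≤ (L ^ 2) ^ s := by
                  apply pow_le_pow_left₀ (by positivity)
                  nlinarith
              _ = L ^ (2 * s) := by rw [← pow_mul]
              _ ≤ L ^ B1 := pw (by omega))
    rw [hF]
    exact h5
  have hsq : ∀ a : Fin s → Fin (d + 1) → ℤ, (∑ n ∈ I, b n * Dn z v a n) ^ 2 =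
      ∑ n ∈ I, b n ^ 2 * Dn z v a n ^ 2 + ∑ n ∈ I, ∑ m ∈ I.erase n, b n * b m * (Dn z v a n * Dn z v a m) := by
    intro a
    rw [pow_two, sum_mul_sum, ← sum_add_distrib]
    apply sum_congr rfl
    intro n hn
    rw [← add_sum_erase _ _ hn]
    congr 1
    · ring
    · apply sum_congr rfl
      intro m _
      ring
  have e1 : ∑ a ∈ fam H 1 g, (∑ n ∈ I, b n * Dn z v a n) ^ 2 = ∑ n ∈ I, b n ^ 2 * ∑ a ∈ fam H 1 g, Dn z v a n ^ 2 +
      ∑ n ∈ I, ∑ m ∈ I.erase n, b n * b m * ∑ a ∈ fam H 1 g, Dn z v a n * Dn z v a m := by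
    rw [sum_congr rfl (fun a _ => hsq a), sum_add_distrib, sum_comm]
    congr 1
    · apply sum_congr rfl
      intro n _
      rw [mul_sum]
    · rw [sum_comm]
      apply sum_congr rfl
      intro n _
      rw [sum_comm]
      apply sum_congr rfl
      intro m _
      rw [mul_sum]
  have h5 : |∑ n ∈ I, b n ^ 2 * ∑ a ∈ fam H 1 g, Dn z v a n ^ 2 - L ^ s * (∑ n ∈ I, b n ^ 2) * F| ≤
      η * (L ^ s * ∑ n ∈ I, b n ^ 2) * F := by
    have e2 : ∑ n ∈ I, b n ^ 2 * ∑ a ∈ fam H 1 g, Dn z v a n ^ 2 - L ^ s * (∑ n ∈ I, b n ^ 2) * F =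
        ∑ n ∈ I, b n ^ 2 * (∑ a ∈ fam H 1 g, Dn z v a n ^ 2 - L ^ s * F) := by
      rw [mul_sum, sum_mul, ← sum_sub_distrib]
      apply sum_congr rfl
      intro n _
      ring
    rw [e2]
    refine (abs_sum_le_sum_abs _ _).trans ?_
    calc ∑ n ∈ I, |b n ^ 2 * (∑ a ∈ fam H 1 g, Dn z v a n ^ 2 - L ^ s * F)| ≤ ∑ n ∈ I, b n ^ 2 * (η * (L ^ s * F)) := by
          apply sum_le_sum
          intro n hn
          rw [abs_mul, abs_of_nonneg (sq_nonneg _)]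
          exact mul_le_mul_of_nonneg_left (hdiag n hn) (sq_nonneg _)
      _ = η * (L ^ s * ∑ n ∈ I, b n ^ 2) * F := by
          rw [← sum_mul]
          ring
  have hIc : (I.card : ℝ) ≤ L ^ B := by
    rw [hI, Nat.card_Ioc]
    have h6 : ((β - α : ℕ) : ℝ) ≤ z := by exact_mod_cast (by omega : β - α ≤ z)
    exact h6.trans hz
  have h6 : |∑ n ∈ I, ∑ m ∈ I.erase n, b n * b m * ∑ a ∈ fam H 1 g, Dn z v a n * Dn z v a m| ≤ 1 / L * F := by
    refine (abs_sum_le_sum_abs _ _).trans ?_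
    calc ∑ n ∈ I, |∑ m ∈ I.erase n, b n * b m * ∑ a ∈ fam H 1 g, Dn z v a n * Dn z v a m|
        ≤ ∑ _n ∈ I, ∑ _m ∈ I, F / L ^ (2 * B + 1) := by
          apply sum_le_sum
          intro n hn
          refine (abs_sum_le_sum_abs _ _).trans ?_
          calc ∑ m ∈ I.erase n, |b n * b m * ∑ a ∈ fam H 1 g, Dn z v a n * Dn z v a m| ≤ ∑ _m ∈ I.erase n, F / L ^ (2 * B + 1) := by
                apply sum_le_sum
                intro m hm
                rw [mem_erase] at hm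
                rw [abs_mul, abs_mul]
                have h7 := hoff n hn m hm.2 (Ne.symm hm.1)
                have h8 : |b n| * |b m| ≤ 1 := by
                  calc |b n| * |b m| ≤ 1 * 1 := mul_le_mul (hb n) (hb m) (abs_nonneg _) zero_le_one
                    _ = 1 := one_mul _
                calc |b n| * |b m| * |∑ a ∈ fam H 1 g, Dn z v a n * Dn z v a m| ≤ 1 * (F / L ^ (2 * B + 1)) :=
                      mul_le_mul h8 h7 (abs_nonneg _) zero_le_one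
                  _ = F / L ^ (2 * B + 1) := one_mul _
            _ ≤ ∑ _m ∈ I, F / L ^ (2 * B + 1) :=
                sum_le_sum_of_subset_of_nonneg (erase_subset _ _) (fun _ _ _ => by positivity)
      _ = (I.card : ℝ) * (I.card * (F / L ^ (2 * B + 1))) := by
          simp only [sum_const, nsmul_eq_mul]
      _ ≤ L ^ B * (L ^ B * (F / L ^ (2 * B + 1))) := by gcongr
      _ = 1 / L * F := by
          rw [pow_succ, two_mul, pow_add]
          field_simp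
  rw [e1]
  have e3 : ∑ n ∈ I, b n ^ 2 * ∑ a ∈ fam H 1 g, Dn z v a n ^ 2 +
      ∑ n ∈ I, ∑ m ∈ I.erase n, b n * b m * ∑ a ∈ fam H 1 g, Dn z v a n * Dn z v a m - L ^ s * (∑ n ∈ I, b n ^ 2) * F =
      (∑ n ∈ I, b n ^ 2 * ∑ a ∈ fam H 1 g, Dn z v a n ^ 2 - L ^ s * (∑ n ∈ I, b n ^ 2) * F) +
      ∑ n ∈ I, ∑ m ∈ I.erase n, b n * b m * ∑ a ∈ fam H 1 g, Dn z v a n * Dn z v a m := by ring
  rw [e3, add_mul]
  exact (abs_add_le _ _).trans (add_le_add h5 h6)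

/-- the combination of the two parts -/
lemma comb {Ω : Type} (S : Finset Ω) (f1 f2 : Ω → ℝ) (M e1 e2 θ : ℝ) (hθ : 0 < θ)
    (h1 : |∑ a ∈ S, f1 a ^ 2 - M| ≤ e1) (h2 : ∑ a ∈ S, f2 a ^ 2 ≤ e2) :
    |∑ a ∈ S, (f1 a + f2 a) ^ 2 - M| ≤ e1 + θ * (M + e1) + (1 + 1 / θ) * e2 := by
  have h3 := abs_le.1 h1
  have hterm : ∀ a ∈ S, |(f1 a + f2 a) ^ 2 - f1 a ^ 2| ≤ θ * f1 a ^ 2 + (1 + 1 / θ) * f2 a ^ 2 := by
    intro a _
    have e : (f1 a + f2 a) ^ 2 - f1 a ^ 2 = 2 * f1 a * f2 a + f2 a ^ 2 := by ring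
    rw [e]
    have h4 : |2 * f1 a * f2 a| ≤ θ * f1 a ^ 2 + 1 / θ * f2 a ^ 2 := by
      have h5 : 0 ≤ (θ * f1 a - f2 a) ^ 2 / θ := by positivity
      have h6 : 0 ≤ (θ * f1 a + f2 a) ^ 2 / θ := by positivity
      have e5 : (θ * f1 a - f2 a) ^ 2 / θ = θ * f1 a ^ 2 + 1 / θ * f2 a ^ 2 - 2 * f1 a * f2 a := by field_simp; ring
      have e6 : (θ * f1 a + f2 a) ^ 2 / θ = θ * f1 a ^ 2 + 1 / θ * f2 a ^ 2 + 2 * f1 a * f2 a := by field_simp; ring
      rw [abs_le]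
      constructor <;> linarith
    refine (abs_add_le _ _).trans ?_
    rw [abs_of_nonneg (sq_nonneg (f2 a))]
    linarith
  have h4 : |∑ a ∈ S, (f1 a + f2 a) ^ 2 - ∑ a ∈ S, f1 a ^ 2| ≤ θ * ∑ a ∈ S, f1 a ^ 2 + (1 + 1 / θ) * ∑ a ∈ S, f2 a ^ 2 := by
    rw [← sum_sub_distrib, mul_sum, mul_sum, ← sum_add_distrib]
    exact (abs_sum_le_sum_abs _ _).trans (sum_le_sum hterm)
  have h5 : θ * ∑ a ∈ S, f1 a ^ 2 ≤ θ * (M + e1) := mul_le_mul_of_nonneg_left (by linarith) hθ.le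
  have h6 : (1 + 1 / θ) * ∑ a ∈ S, f2 a ^ 2 ≤ (1 + 1 / θ) * e2 := mul_le_mul_of_nonneg_left h2 (by positivity)
  have e : ∑ a ∈ S, (f1 a + f2 a) ^ 2 - M = (∑ a ∈ S, (f1 a + f2 a) ^ 2 - ∑ a ∈ S, f1 a ^ 2) + (∑ a ∈ S, f1 a ^ 2 - M) := by ring
  rw [e]
  refine (abs_add_le _ _).trans ?_
  linarith

/-- **the variance** -/
theorem variance (s d D B : ℕ) (hs : 1 ≤ s) (hd : 1 ≤ d) (hdD : d ≤ D) (ε : ℝ) (hε : 0 < ε) : ∃ H0 : ℕ, ∀ H : ℕ, H0 ≤ H →
    ∀ z : ℕ, (z : ℝ) ≤ Real.log H ^ B → ∀ h : Fin s → ℤ[X], (∀ i, (h i).natDegree ≤ D) →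
    (∀ i, ∀ n : ℕ, (n : ℝ) ≤ Real.log H ^ B → |((vh h i n : ℤ) : ℝ)| ≤ H * Real.log H ^ B) →
    ∀ g : Fin s → Fin (d + 1) → ℤ, ∀ α β : ℕ, α < β → β ≤ z → ∀ b : ℕ → ℝ, (∀ n, |b n| ≤ 1) →
    (TV b α β + 1) * ((β : ℝ) - α) * √(Real.log H) ≤ Real.log H ^ s * ∑ n ∈ Ioc α β, b n ^ 2 →
    |∑ a ∈ fam H 1 g, SS z (vh h) α β b a ^ 2 - Real.log H ^ s * (∑ n ∈ Ioc α β, b n ^ 2) * (fam H 1 g).card| ≤
      ε * (Real.log H ^ s * ∑ n ∈ Ioc α β, b n ^ 2) * (fam H 1 g).card := by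
  obtain ⟨η, hη⟩ : ∃ η : ℝ, η = min 1 (ε / 8) := ⟨_, rfl⟩
  have hη0 : 0 < η := by rw [hη]; exact lt_min one_pos (by positivity)
  have hη1 : η ≤ 1 := by rw [hη]; exact min_le_left _ _
  have hη2 : η ≤ ε / 8 := by rw [hη]; exact min_le_right _ _
  obtain ⟨H1, h1⟩ := var1 s d B hs hd η hη0 hη1
  obtain ⟨H2, h2⟩ := second s d D (2 * B + s) B hd hdD le_rfl
  obtain ⟨c, hc⟩ : ∃ c : ℝ, c = 13 * (1 + 1 / η) / η := ⟨_, rfl⟩
  have hc0 : 0 < c := by rw [hc]; positivity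
  obtain ⟨H3, h3⟩ := MP_tiny B (s * 2) (c ^ 2)
  obtain ⟨H4, h4⟩ := evN _ (Real.tendsto_log_atTop.eventually_ge_atTop (max 1 (1 / η ^ 2)))
  refine ⟨max (max H1 H2) (max H3 H4), fun H hH z hz h hD hv g α β hαβ hβ b hb hcond => ?_⟩
  have hvar := h1 H (by omega) z hz (vh h) hv g α β hβ b hb
  have hsec := h2 H (by omega) z hz h hD g α β hαβ.le hβ b hb
  have htiny := h3 H (by omega) z hz
  have hLL := h4 H (by omega)
  set L := Real.log H with hL
  have hL1 : 1 ≤ L := (le_max_left _ _).trans hLL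
  have hLη : 1 / η ^ 2 ≤ L := (le_max_right _ _).trans hLL
  have hL0 : 0 < L := by linarith
  obtain ⟨F, hF⟩ : ∃ F : ℝ, F = (fam H 1 g).card := ⟨_, rfl⟩
  have hF0 : 0 ≤ F := by rw [hF]; exact Nat.cast_nonneg _
  rw [← hF] at hvar hsec ⊢
  obtain ⟨M, hM⟩ : ∃ M : ℝ, M = L ^ s * ∑ n ∈ Ioc α β, b n ^ 2 := ⟨_, rfl⟩
  rw [← hM] at hvar hcond ⊢
  obtain ⟨N, hN⟩ : ∃ N : ℝ, N = (β : ℝ) - α := ⟨_, rfl⟩
  rw [← hN] at hsec hcond
  have hN1 : 1 ≤ N := by
    have h5 : α + 1 ≤ β := hαβ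
    have h6 : (α : ℝ) + 1 ≤ β := by exact_mod_cast h5
    rw [hN]
    linarith
  have hTV := TV_nonneg b α β
  have hsq : √L * √L = L := Real.mul_self_sqrt hL0.le
  have hsq1 : 1 ≤ √L := Real.one_le_sqrt.2 hL1
  have hMPs : 1 ≤ MP z ^ s := one_le_pow₀ (MP_ge_one z)
  have hcMP : c * MP z ^ s ≤ √L := by
    apply Real.le_sqrt_of_sq_le
    calc (c * MP z ^ s) ^ 2 = c ^ 2 * MP z ^ (s * 2) := by rw [mul_pow, ← pow_mul]
      _ ≤ L := htiny
  have hTN : 1 ≤ (TV b α β + 1) * N := by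
    calc (1 : ℝ) = 1 * 1 := (one_mul _).symm
      _ ≤ (TV b α β + 1) * N := mul_le_mul (by linarith) hN1 zero_le_one (by linarith)
  have hM1 : √L ≤ M := by
    calc √L = 1 * √L := (one_mul _).symm
      _ ≤ (TV b α β + 1) * N * √L := mul_le_mul_of_nonneg_right hTN (by linarith)
      _ ≤ M := hcond
  have hM0 : 0 < M := by linarith
  -- the first error
  have h1L : 1 / L ≤ η * M := by
    have h5 : 1 ≤ η * √L := by
      have h6 : 1 / η ≤ √L := by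
        apply Real.le_sqrt_of_sq_le
        rw [div_pow, one_pow]
        exact hLη
      rw [div_le_iff₀ hη0] at h6
      linarith
    have h7 : 1 / L ≤ 1 := by rw [div_le_one hL0]; exact hL1
    have h8 : η * √L ≤ η * M := mul_le_mul_of_nonneg_left hM1 hη0.le
    linarith
  -- the second error
  have hsec' : 4 * (TV b α β + 3) * MP z ^ s * N + 1 ≤ 13 * MP z ^ s * ((TV b α β + 1) * N) := by
    have h5 : 1 ≤ MP z ^ s * ((TV b α β + 1) * N) := by
      calc (1 : ℝ) = 1 * 1 := (one_mul _).symm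
        _ ≤ MP z ^ s * ((TV b α β + 1) * N) := mul_le_mul hMPs hTN zero_le_one (by linarith)
    have h6 : 4 * (TV b α β + 3) * MP z ^ s * N ≤ 12 * (MP z ^ s * ((TV b α β + 1) * N)) := by
      have h7 : 4 * (TV b α β + 3) ≤ 12 * (TV b α β + 1) := by linarith
      calc 4 * (TV b α β + 3) * MP z ^ s * N ≤ 12 * (TV b α β + 1) * MP z ^ s * N := by gcongr
        _ = _ := by ring
    linarith
  have hsec2 : (1 + 1 / η) * (4 * (TV b α β + 3) * MP z ^ s * N + 1) ≤ η * M := by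
    calc (1 + 1 / η) * (4 * (TV b α β + 3) * MP z ^ s * N + 1) ≤ (1 + 1 / η) * (13 * MP z ^ s * ((TV b α β + 1) * N)) := by
          gcongr
      _ = η * ((c * MP z ^ s) * ((TV b α β + 1) * N)) := by
          rw [hc]
          field_simp
      _ ≤ η * (√L * ((TV b α β + 1) * N)) := by gcongr
      _ = η * ((TV b α β + 1) * N * √L) := by ring
      _ ≤ η * M := mul_le_mul_of_nonneg_left hcond hη0.le
  have hcomb := comb (fam H 1 g) (fun a => ∑ n ∈ Ioc α β, b n * Dn z (vh h) a n)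
    (fun a => ∑ n ∈ Ioc α β, b n * Yn z (vh h) a n - (∑ n ∈ Ioc α β, b n) * Cc z (vh h) a) (M * F) ((η * M + 1 / L) * F)
    ((4 * (TV b α β + 3) * MP z ^ s * N + 1) * F) η hη0 hvar hsec
  have e : ∀ a : Fin s → Fin (d + 1) → ℤ, SS z (vh h) α β b a ^ 2 = (∑ n ∈ Ioc α β, b n * Dn z (vh h) a n +
      (∑ n ∈ Ioc α β, b n * Yn z (vh h) a n - (∑ n ∈ Ioc α β, b n) * Cc z (vh h) a)) ^ 2 := fun a => by rw [SS_eq]
  rw [sum_congr rfl (fun a _ => e a)]
  refine hcomb.trans ?_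
  have h5 : (η * M + 1 / L) * F ≤ (2 * η * M) * F := mul_le_mul_of_nonneg_right (by linarith) hF0
  have h6 : η * (M * F + (η * M + 1 / L) * F) ≤ 3 * η * M * F := by
    have h7 : (η * M + 1 / L) * F ≤ 2 * M * F := by
      refine h5.trans ?_
      gcongr
      linarith
    calc η * (M * F + (η * M + 1 / L) * F) ≤ η * (M * F + 2 * M * F) := by gcongr
      _ = 3 * η * M * F := by ring
  have h8 : (1 + 1 / η) * ((4 * (TV b α β + 3) * MP z ^ s * N + 1) * F) ≤ η * M * F := by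
    rw [← mul_assoc]
    exact mul_le_mul_of_nonneg_right hsec2 hF0
  calc (η * M + 1 / L) * F + η * (M * F + (η * M + 1 / L) * F) + (1 + 1 / η) * ((4 * (TV b α β + 3) * MP z ^ s * N + 1) * F)
      ≤ (2 * η * M) * F + 3 * η * M * F + η * M * F := by gcongr
    _ = 6 * (η * (M * F)) := by ring
    _ ≤ 6 * (ε / 8 * (M * F)) := by gcongr
    _ ≤ ε * M * F := by
        have : 0 ≤ ε * M * F := by positivity
        linarith

end Pool.Agent.H77.BV
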