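import Mathlib
import Pool.Agent.H77.BV.Va

/-! The normal law for the whole family. -/

set_option autoImplicit false

namespace Pool.Agent.H77.BV

open Finset Polynomial ProbabilityTheory
open Pool.Agent.K1H89.PL
open Pool.Agent.K1H89.Ev (evN ev_pow)

/-- the residue classes -/
noncomputable def reps (s d W : ℕ) : Finset (Fin s → Fin (d + 1) → ℤ) :=
  Fintype.piFinset (fun _ => Fintype.piFinset (fun _ => Finset.Ico (0 : ℤ) W))

lemma mem_fam {s d H W : ℕ} {g a : Fin s → Fin (d + 1) → ℤ} :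
    a ∈ fam H W g ↔ ∀ i j, (-(H : ℤ) ≤ a i j ∧ a i j ≤ H) ∧ a i j ≡ g i j [ZMOD W] := by
  unfold fam Pool.Agent.K1H89.PL.box cls
  rw [Fintype.mem_piFinset]
  apply forall_congr'
  intro i
  rw [Fintype.mem_piFinset]
  apply forall_congr'
  intro j
  rw [mem_filter, Finset.mem_Icc]

lemma class_sum {s d : ℕ} (H W : ℕ) (hW : 1 ≤ W) (g : Fin s → Fin (d + 1) → ℤ) (P : (Fin s → Fin (d + 1) → ℤ) → Prop)
    [DecidablePred P] : ((fam H 1 g).filter P).card = ∑ g' ∈ reps s d W, ((fam H W g').filter P).card := by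
  classical
  have hW0 : (0 : ℤ) < W := by exact_mod_cast hW
  rw [card_eq_sum_card_fiberwise (f := fun (a : Fin s → Fin (d + 1) → ℤ) i j => a i j % (W : ℤ)) (t := reps s d W)]
  · apply sum_congr rfl
    intro g' hg'
    congr 1
    ext a
    rw [mem_filter, mem_filter, mem_filter, mem_fam, mem_fam]
    unfold reps at hg'
    rw [Fintype.mem_piFinset] at hg'
    have hg2 : ∀ i j, 0 ≤ g' i j ∧ g' i j < W := by
      intro i j
      have h1 := hg' i
      rw [Fintype.mem_piFinset] at h1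
      exact Finset.mem_Ico.1 (h1 j)
    constructor
    · rintro ⟨⟨h1, h2⟩, h3⟩
      refine ⟨fun i j => ⟨(h1 i j).1, ?_⟩, h2⟩
      have h4 : a i j % (W : ℤ) = g' i j := congrFun (congrFun h3 i) j
      unfold Int.ModEq
      rw [h4]
      exact (Int.emod_eq_of_lt (hg2 i j).1 (hg2 i j).2).symm
    · rintro ⟨h1, h2⟩
      refine ⟨⟨fun i j => ⟨(h1 i j).1, ?_⟩, h2⟩, ?_⟩
      · push_cast
        exact Int.modEq_one
      · funext i j
        have h4 := (h1 i j).2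
        unfold Int.ModEq at h4
        rw [h4]
        exact Int.emod_eq_of_lt (hg2 i j).1 (hg2 i j).2
  · intro a _
    unfold reps
    rw [Finset.mem_coe, Fintype.mem_piFinset]
    intro i
    rw [Fintype.mem_piFinset]
    intro j
    rw [Finset.mem_Ico]
    exact ⟨Int.emod_nonneg _ hW0.ne', Int.emod_lt_of_pos _ hW0⟩

open Classical in
/-- the normal law for a fixed `t` -/
theorem clt_fixed (s B : ℕ) (hs : 1 ≤ s) (hB : 1 ≤ B) (t ε : ℝ) (hε : 0 < ε) : ∃ d₀ : ℕ, ∀ d D : ℕ, d₀ ≤ d → d ≤ D →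
    ∀ κ V : ℝ, 0 < κ → 0 ≤ V → ∃ K : ℝ, ∃ H0 : ℕ, ∀ H : ℕ, H0 ≤ H → ∀ z : ℕ, (z : ℝ) ≤ Real.log H ^ B →
    ∀ h : Fin s → ℤ[X], (∀ i, (h i).natDegree ≤ D) →
    (∀ i, ∀ n : ℕ, (n : ℝ) ≤ Real.log H ^ B → |((vh h i n : ℤ) : ℝ)| ≤ H * Real.log H ^ B) →
    ∀ α β : ℕ, α ≤ β → β ≤ z → ∀ b : ℕ → ℝ, (∀ n, |b n| ≤ 1) → TV b α β ≤ V →
    K * Real.log H ^ s ≤ (β : ℝ) - α → κ * ((β : ℝ) - α) ≤ ∑ n ∈ Ioc α β, b n ^ 2 →
    ∀ g : Fin s → Fin (d + 1) → ℤ,
    |(((fam H 1 g).filter (fun a => Cc z (vh h) a ≠ 0 ∧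
        SS z (vh h) α β b a ≤ t * √(Cc z (vh h) a * (Real.log H ^ s * ∑ n ∈ Ioc α β, b n ^ 2)))).card : ℝ) -
      Phi t * ((fam H 1 g).filter (fun a => Cc z (vh h) a ≠ 0)).card| ≤
      ε * (fam H 1 g).card := by
  obtain ⟨d₀, hd₀⟩ := class_clt s B hs hB t ε hε
  refine ⟨d₀, fun d D hd hdD κ V hκ hV => ?_⟩
  obtain ⟨w, δ, hδ, H1, h1⟩ := hd₀ d D hd hdD κ V hκ hV
  obtain ⟨H2, h2⟩ := evN _ (Real.tendsto_log_atTop.eventually_ge_atTop (max 1 (w : ℝ)))
  refine ⟨max 1 (1 / δ ^ 2), max H1 H2, fun H hH z hz h hD hv α β hαβ hβ b hb hTV hK hκB g => ?_⟩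
  have hLL := h2 H (by omega)
  have hL1 : 1 ≤ Real.log H := (le_max_left _ _).trans hLL
  have hLw : (w : ℝ) ≤ Real.log H := (le_max_right _ _).trans hLL
  have hLs : Real.log H ≤ Real.log H ^ s := le_self_pow₀ hL1 (by omega)
  have hLs0 : 0 ≤ Real.log H ^ s := by linarith
  have hwz : w ≤ z := by
    have h3 : Real.log H ^ s ≤ max 1 (1 / δ ^ 2) * Real.log H ^ s := le_mul_of_one_le_left hLs0 (le_max_left _ _)
    have h4 : (0 : ℝ) ≤ α := Nat.cast_nonneg _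
    have h5 : (β : ℝ) ≤ z := by exact_mod_cast hβ
    have h6 : (w : ℝ) ≤ z := by linarith
    exact_mod_cast h6
  have hcond : Real.log H ^ s ≤ δ ^ 2 * ((β : ℝ) - α) := by
    have h3 : 1 / δ ^ 2 * Real.log H ^ s ≤ (β : ℝ) - α :=
      (mul_le_mul_of_nonneg_right (le_max_right _ _) hLs0).trans hK
    rw [one_div_mul_eq_div, div_le_iff₀ (by positivity)] at h3
    linarith
  have hmain := h1 H (by omega) z h hD α β b ⟨hz, hwz, hv, pol_vh h, hαβ, hβ, hb, hTV⟩ hcond hκB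
  have hW1 : 1 ≤ primorial w := primorial_pos w
  obtain ⟨B2, hB2⟩ : ∃ B2 : ℝ, B2 = ∑ n ∈ Ioc α β, b n ^ 2 := ⟨_, rfl⟩
  rw [← hB2] at hmain ⊢
  rw [class_sum H (primorial w) hW1 g, class_sum H (primorial w) hW1 g]
  have e : ((fam H 1 g).card : ℝ) = ∑ g' ∈ reps s d (primorial w), ((fam H (primorial w) g').card : ℝ) := by
    have h3 := class_sum H (primorial w) hW1 g (fun _ => True)
    simp only [filter_true] at h3
    exact_mod_cast h3
  rw [e]
  push_cast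
  rw [mul_sum, mul_sum, ← sum_sub_distrib]
  exact (abs_sum_le_sum_abs _ _).trans (sum_le_sum fun g' _ => hmain g')

lemma Phi_mono : Monotone Phi := by
  intro x y hxy
  unfold Phi
  exact MeasureTheory.measureReal_mono (Set.Iic_subset_Iic.2 hxy)

lemma Phi_top : Filter.Tendsto Phi Filter.atTop (nhds 1) := by
  have h : Phi = fun x => cdf (gaussianReal 0 1) x := by
    funext x
    rw [cdf_eq_real]
    rfl
  rw [h]
  exact tendsto_cdf_atTop _

lemma Phi_bot : Filter.Tendsto Phi Filter.atBot (nhds 0) := by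
  have h : Phi = fun x => cdf (gaussianReal 0 1) x := by
    funext x
    rw [cdf_eq_real]
    rfl
  rw [h]
  exact tendsto_cdf_atBot _

/-- a grid -/
lemma grid (ε : ℝ) (hε : 0 < ε) : ∃ T : Finset ℝ, T.Nonempty ∧ ∀ t : ℝ,
    ((∃ u ∈ T, u ≤ t ∧ Phi t ≤ Phi u + ε) ∨ Phi t ≤ ε) ∧ ((∃ u ∈ T, t ≤ u ∧ Phi u ≤ Phi t + ε) ∨ 1 - ε ≤ Phi t) := by
  classical
  -- values
  obtain ⟨m, hm⟩ := exists_nat_gt (2 / ε)
  have hm0 : (0 : ℝ) < m := lt_trans (by positivity) hm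
  have hmε : 2 / (m : ℝ) < ε := by
    rw [div_lt_iff₀ hm0]
    rw [div_lt_iff₀ hε] at hm
    linarith
  have hcont : Continuous Phi := continuous_iff_continuousAt.2 Phi_cont
  have hsurj : ∀ y : ℝ, 0 < y → y < 1 → ∃ x, Phi x = y := by
    intro y hy0 hy1
    have h1 : ∃ x1, Phi x1 < y := by
      have := Phi_bot.eventually (gt_mem_nhds hy0)
      exact this.exists
    have h2 : ∃ x2, y < Phi x2 := by
      have := Phi_top.eventually (lt_mem_nhds hy1)
      exact this.exists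
    obtain ⟨x1, hx1⟩ := h1
    obtain ⟨x2, hx2⟩ := h2
    have h3 : y ∈ Set.range Phi := by
      apply mem_range_of_exists_le_of_exists_ge hcont
      · exact ⟨x1, hx1.le⟩
      · exact ⟨x2, hx2.le⟩
    exact h3
  choose! f hf using hsurj
  obtain ⟨T, hT⟩ : ∃ T : Finset ℝ, T = insert 0 ((Finset.Ioo 0 m).image (fun j : ℕ => f ((j : ℝ) / m))) := ⟨_, rfl⟩
  have hTf : ∀ j : ℕ, 0 < j → j < m → f ((j : ℝ) / m) ∈ T ∧ Phi (f ((j : ℝ) / m)) = (j : ℝ) / m := by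
    intro j hj0 hjm
    constructor
    · rw [hT]
      apply mem_insert_of_mem
      rw [mem_image]
      exact ⟨j, Finset.mem_Ioo.2 ⟨hj0, hjm⟩, rfl⟩
    · apply hf
      · have : (0 : ℝ) < j := by exact_mod_cast hj0
        positivity
      · rw [div_lt_one hm0]
        exact_mod_cast hjm
  refine ⟨T, ⟨0, by rw [hT]; exact mem_insert_self _ _⟩, fun t => ?_⟩
  obtain ⟨k, hk⟩ : ∃ k : ℕ, k = ⌊(m : ℝ) * Phi t⌋₊ := ⟨_, rfl⟩
  have hP0 := Phi_nonneg t
  have hP1 := Phi_le t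
  have hk1 : (k : ℝ) ≤ m * Phi t := by rw [hk]; exact Nat.floor_le (by positivity)
  have hk2 : (m : ℝ) * Phi t < k + 1 := by rw [hk]; exact Nat.lt_floor_add_one _
  have hk3 : Phi t < (k + 1) / m := by
    rw [lt_div_iff₀ hm0]
    linarith
  have hk4 : (k : ℝ) / m ≤ Phi t := by
    rw [div_le_iff₀ hm0]
    linarith
  have hkm : k ≤ m := by
    have : (k : ℝ) ≤ m := by nlinarith
    exact_mod_cast this
  constructor
  · by_cases h : 2 ≤ k
    · left
      obtain ⟨j, rfl⟩ : ∃ j, k = j + 1 := ⟨k - 1, by omega⟩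
      obtain ⟨h1, h2⟩ := hTf j (by omega) (by omega)
      push_cast at hk3 hk4
      refine ⟨_, h1, ?_, ?_⟩
      · by_contra hcon
        push Not at hcon
        have h3 := Phi_mono hcon.le
        rw [h2] at h3
        have h4 : (j : ℝ) / m < (j + 1) / m := by
          apply div_lt_div_of_pos_right _ hm0
          linarith
        linarith
      · rw [h2]
        have h3 : ((j : ℝ) + 1 + 1) / m = j / m + 2 / m := by ring
        linarith
    · right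
      have h1 : (k : ℝ) ≤ 1 := by exact_mod_cast (by omega : k ≤ 1)
      have h2 : ((k : ℝ) + 1) / m ≤ 2 / m := by
        apply div_le_div_of_nonneg_right _ hm0.le
        linarith
      linarith
  · by_cases h : k + 1 < m
    · left
      obtain ⟨h1, h2⟩ := hTf (k + 1) (by omega) h
      push_cast at h1 h2
      refine ⟨_, h1, ?_, ?_⟩
      · by_contra hcon
        push Not at hcon
        have h3 := Phi_mono hcon.le
        rw [h2] at h3
        linarith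
      · rw [h2]
        have h3 : ((k : ℝ) + 1) / m = k / m + 1 / m := by ring
        have h4 : 1 / (m : ℝ) ≤ 2 / m := by
          apply div_le_div_of_nonneg_right _ hm0.le
          norm_num
        linarith
    · right
      have h1 : (m : ℝ) ≤ k + 1 := by exact_mod_cast (by omega : m ≤ k + 1)
      have h2 : 1 - 1 / (m : ℝ) ≤ k / m := by
        rw [le_div_iff₀ hm0, sub_mul, one_mul, one_div_mul_cancel hm0.ne']
        linarith
      have h4 : 1 / (m : ℝ) ≤ 2 / m := by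
        apply div_le_div_of_nonneg_right _ hm0.le
        norm_num
      linarith

open Classical in
/-- **the normal law, uniformly in `t`** -/
theorem clt (s B : ℕ) (hs : 1 ≤ s) (hB : 1 ≤ B) (ε : ℝ) (hε : 0 < ε) : ∃ d₀ : ℕ, ∀ d D : ℕ, d₀ ≤ d → d ≤ D →
    ∀ κ V : ℝ, 0 < κ → 0 ≤ V → ∃ K : ℝ, ∃ H0 : ℕ, ∀ H : ℕ, H0 ≤ H → ∀ z : ℕ, (z : ℝ) ≤ Real.log H ^ B →
    ∀ h : Fin s → ℤ[X], (∀ i, (h i).natDegree ≤ D) →
    (∀ i, ∀ n : ℕ, (n : ℝ) ≤ Real.log H ^ B → |((vh h i n : ℤ) : ℝ)| ≤ H * Real.log H ^ B) →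
    ∀ α β : ℕ, α ≤ β → β ≤ z → ∀ b : ℕ → ℝ, (∀ n, |b n| ≤ 1) → TV b α β ≤ V →
    K * Real.log H ^ s ≤ (β : ℝ) - α → κ * ((β : ℝ) - α) ≤ ∑ n ∈ Ioc α β, b n ^ 2 →
    ∀ g : Fin s → Fin (d + 1) → ℤ, ∀ t : ℝ,
    |(((fam H 1 g).filter (fun a => Cc z (vh h) a ≠ 0 ∧
        SS z (vh h) α β b a ≤ t * √(Cc z (vh h) a * (Real.log H ^ s * ∑ n ∈ Ioc α β, b n ^ 2)))).card : ℝ) -
      Phi t * ((fam H 1 g).filter (fun a => Cc z (vh h) a ≠ 0)).card| ≤
      ε * (fam H 1 g).card := by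
  obtain ⟨T, hTn, hT⟩ := grid (ε / 2) (by positivity)
  have hfix := fun t => clt_fixed s B hs hB t (ε / 2) (by positivity)
  choose d₀ hd₀ using hfix
  refine ⟨T.sup d₀, fun d D hd hdD κ V hκ hV => ?_⟩
  have h1 : ∀ t ∈ T, d₀ t ≤ d := fun t ht => (Finset.le_sup ht).trans hd
  have hfix2 := fun (t : ℝ) (ht : t ∈ T) => hd₀ t d D (h1 t ht) hdD κ V hκ hV
  choose! K H0 hH0 using hfix2
  obtain ⟨K', hK'⟩ : ∃ K' : ℝ, K' = ∑ t ∈ T, |K t| := ⟨_, rfl⟩
  have hKle : ∀ t ∈ T, K t ≤ K' := by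
    intro t ht
    rw [hK']
    exact (le_abs_self _).trans (single_le_sum (f := fun t => |K t|) (fun _ _ => abs_nonneg _) ht)
  refine ⟨K', max (T.sup H0) 1, fun H hH z hz h hD hv α β hαβ hβ b hb hTV hK hκB g t => ?_⟩
  have hH1 : 1 ≤ H := by omega
  have hL0 : 0 ≤ Real.log H := Real.log_natCast_nonneg H
  have hmain : ∀ u ∈ T, |(((fam H 1 g).filter (fun a => Cc z (vh h) a ≠ 0 ∧
        SS z (vh h) α β b a ≤ u * √(Cc z (vh h) a * (Real.log H ^ s * ∑ n ∈ Ioc α β, b n ^ 2)))).card : ℝ) -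
      Phi u * ((fam H 1 g).filter (fun a => Cc z (vh h) a ≠ 0)).card| ≤ ε / 2 * (fam H 1 g).card := by
    intro u hu
    have h2 : H0 u ≤ H := (Finset.le_sup hu).trans (by omega)
    refine hH0 u hu H h2 z hz h hD hv α β hαβ hβ b hb hTV (le_trans ?_ hK) hκB g
    exact mul_le_mul_of_nonneg_right (hKle u hu) (by positivity)
  obtain ⟨Nt, hNt⟩ : ∃ Nt : ℝ → ℝ, Nt = fun u => (((fam H 1 g).filter (fun a => Cc z (vh h) a ≠ 0 ∧
        SS z (vh h) α β b a ≤ u * √(Cc z (vh h) a * (Real.log H ^ s * ∑ n ∈ Ioc α β, b n ^ 2)))).card : ℝ) := ⟨_, rfl⟩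
  obtain ⟨M, hM⟩ : ∃ M : ℝ, M = ((fam H 1 g).filter (fun a => Cc z (vh h) a ≠ 0)).card := ⟨_, rfl⟩
  obtain ⟨F, hF⟩ : ∃ F : ℝ, F = (fam H 1 g).card := ⟨_, rfl⟩
  have hmain' : ∀ u ∈ T, |Nt u - Phi u * M| ≤ ε / 2 * F := by
    intro u hu
    rw [hNt, hM, hF]
    exact hmain u hu
  have hMF : M ≤ F := by
    rw [hM, hF]
    exact_mod_cast card_filter_le _ _
  have hM0 : 0 ≤ M := by rw [hM]; exact Nat.cast_nonneg _
  have hNmono : ∀ u v : ℝ, u ≤ v → Nt u ≤ Nt v := by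
    intro u v huv
    rw [hNt]
    simp only
    have h3 : ((fam H 1 g).filter (fun a => Cc z (vh h) a ≠ 0 ∧
        SS z (vh h) α β b a ≤ u * √(Cc z (vh h) a * (Real.log H ^ s * ∑ n ∈ Ioc α β, b n ^ 2)))) ⊆
        ((fam H 1 g).filter (fun a => Cc z (vh h) a ≠ 0 ∧
        SS z (vh h) α β b a ≤ v * √(Cc z (vh h) a * (Real.log H ^ s * ∑ n ∈ Ioc α β, b n ^ 2)))) := by
      intro a ha
      rw [mem_filter] at ha ⊢
      exact ⟨ha.1, ha.2.1, ha.2.2.trans (mul_le_mul_of_nonneg_right huv (Real.sqrt_nonneg _))⟩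
    exact_mod_cast card_le_card h3
  have hN0 : ∀ u, 0 ≤ Nt u := fun u => by rw [hNt]; exact Nat.cast_nonneg _
  have hNM : ∀ u, Nt u ≤ M := by
    intro u
    rw [hNt, hM]
    simp only
    have h3 : ((fam H 1 g).filter (fun a => Cc z (vh h) a ≠ 0 ∧
        SS z (vh h) α β b a ≤ u * √(Cc z (vh h) a * (Real.log H ^ s * ∑ n ∈ Ioc α β, b n ^ 2)))) ⊆
        (fam H 1 g).filter (fun a => Cc z (vh h) a ≠ 0) := by
      intro a ha
      rw [mem_filter] at ha ⊢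
      exact ⟨ha.1, ha.2.1⟩
    exact_mod_cast card_le_card h3
  have hgoal : |Nt t - Phi t * M| ≤ ε * F := by
    obtain ⟨hlo, hhi⟩ := hT t
    have hF0 : 0 ≤ F := hM0.trans hMF
    have hεM : ε / 2 * M ≤ ε / 2 * F := mul_le_mul_of_nonneg_left hMF (by positivity)
    have hεF : 0 ≤ ε / 2 * F := by positivity
    have hεM0 : 0 ≤ ε / 2 * M := by positivity
    rw [abs_le]
    constructor
    · rcases hlo with ⟨u, hu, hut, hPu⟩ | hPt
      · have h3 := (abs_le.1 (hmain' u hu)).1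
        have h4 := hNmono u t hut
        have h5 : Phi t * M ≤ (Phi u + ε / 2) * M := mul_le_mul_of_nonneg_right hPu hM0
        linarith
      · have h3 := hN0 t
        have h4 : Phi t * M ≤ ε / 2 * M := mul_le_mul_of_nonneg_right hPt hM0
        linarith
    · rcases hhi with ⟨u, hu, hut, hPu⟩ | hPt
      · have h3 := (abs_le.1 (hmain' u hu)).2
        have h4 := hNmono t u hut
        have h5 : Phi u * M ≤ (Phi t + ε / 2) * M := mul_le_mul_of_nonneg_right hPu hM0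
        linarith
      · have h3 := hNM t
        have h4 : (1 - ε / 2) * M ≤ Phi t * M := mul_le_mul_of_nonneg_right hPt hM0
        linarith
  rw [hNt, hM, hF] at hgoal
  exact hgoal

end Pool.Agent.H77.BV
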