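import Mathlib
import Pool.Agent.H77.BV.Fi

/-! The definitions used in the final statements, and the link with the notions of the proof. -/

set_option autoImplicit false

namespace Pool.Agent.H77.BV

open Finset Polynomial ProbabilityTheory
open Pool.Agent.K1H89.PL
open Pool.Agent.K1H89.Ev (evN ev_pow)

/-- the system of polynomials `f_i = h_i + ∑_{j ≤ d} a_{ij} X^j`, `i < s` -/
noncomputable def randPoly {s d : ℕ} (h : Fin s → ℤ[X]) (a : Fin s → Fin (d + 1) → ℤ) (i : Fin s) : ℤ[X] :=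
  h i + ∑ j : Fin (d + 1), C (a i j) * X ^ (j : ℕ)

/-- the set of all integral coefficient vectors `(a_{ij})`, `i < s`, `j ≤ d`, with `|a_{ij}| ≤ H` -/
noncomputable def coeffBox (s d H : ℕ) : Finset (Fin s → Fin (d + 1) → ℤ) :=
  Fintype.piFinset fun _ => Fintype.piFinset fun _ => Finset.Icc (-(H : ℤ)) H

open Classical in
/-- `∏_i log |f_i(n)|` if all the `|f_i(n)|` are primes, and `0` otherwise -/
noncomputable def logWeight {s : ℕ} (f : Fin s → ℤ[X]) (n : ℕ) : ℝ :=
  if ∀ i, ((f i).eval (n : ℤ)).natAbs.Prime then ∏ i, Real.log (((f i).eval (n : ℤ)).natAbs : ℝ) else 0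

/-- `ω_F(p)`, the number of `n ∈ {1, ..., p}` with `f_1(n) ... f_s(n) ≡ 0 (mod p)` -/
noncomputable def omegaF {s : ℕ} (f : Fin s → ℤ[X]) (p : ℕ) : ℕ :=
  ((Finset.Icc 1 p).filter (fun n : ℕ => (p : ℤ) ∣ ∏ i, (f i).eval (n : ℤ))).card

/-- the constant `C_F` of Bateman and Horn, with its product restricted to the primes `p ≤ z` -/
noncomputable def constF {s : ℕ} (f : Fin s → ℤ[X]) (z : ℕ) : ℝ :=
  ∏ p ∈ (Finset.Icc 1 z).filter Nat.Prime, (1 - (omegaF f p : ℝ) / p) / (1 - 1 / (p : ℝ)) ^ s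

/-- the weighted error term `∑_{α < n ≤ β} b_n (∏_i log |f_i(n)| · 1[all |f_i(n)| prime] - C_F(z))` -/
noncomputable def errorSum {s : ℕ} (f : Fin s → ℤ[X]) (z α β : ℕ) (b : ℕ → ℝ) : ℝ :=
  ∑ n ∈ Finset.Ioc α β, b n * (logWeight f n - constF f z)

lemma coeffBox_eq (s d H : ℕ) : coeffBox s d H = fam H 1 0 := by
  ext a
  rw [mem_fam]
  unfold coeffBox
  rw [Fintype.mem_piFinset]
  apply forall_congr'
  intro i
  rw [Fintype.mem_piFinset]
  apply forall_congr'
  intro j
  rw [Finset.mem_Icc]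
  constructor
  · intro h
    refine ⟨h, ?_⟩
    push_cast
    exact Int.modEq_one
  · intro h
    exact h.1

lemma logWeight_eq {s d : ℕ} (h : Fin s → ℤ[X]) (a : Fin s → Fin (d + 1) → ℤ) (n : ℕ) :
    logWeight (randPoly h a) n = Xn (vh h) a n := by
  have e : ∀ i, (randPoly h a i).eval (n : ℤ) = val (vh h) a i n := fun i => fp_eval h a i n
  unfold logWeight Xn
  simp only [e]
  split_ifs with h1
  · apply prod_congr rfl
    intro i _
    unfold th
    rw [if_pos (h1 i)]
  · push Not at h1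
    obtain ⟨i, hi⟩ := h1
    symm
    apply prod_eq_zero (mem_univ i)
    unfold th
    rw [if_neg hi]

lemma omegaF_eq {s d : ℕ} (h : Fin s → ℤ[X]) (a : Fin s → Fin (d + 1) → ℤ) (p : ℕ) (hp : p.Prime) :
    omegaF (randPoly h a) p = om (Fa (vh h) a) p := by
  have e : ∀ n : ℕ, ∏ i, (randPoly h a i).eval (n : ℤ) = Fa (vh h) a n := by
    intro n
    unfold Fa
    apply prod_congr rfl
    intro i _
    exact fp_eval h a i n
  unfold omegaF om
  simp only [e]
  have hper := Fa_per (pol_vh h) a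
  have h0 := hper p hp 0
  rw [Nat.zero_add] at h0
  have h1 : Finset.Icc 1 p = insert p (Finset.Ioo 0 p) := by
    ext n
    rw [Finset.mem_Icc, mem_insert, Finset.mem_Ioo]
    have := hp.pos
    omega
  have h2 : range p = insert 0 (Finset.Ioo 0 p) := by
    ext n
    rw [mem_range, mem_insert, Finset.mem_Ioo]
    have := hp.pos
    omega
  rw [h1, h2, filter_insert, filter_insert]
  by_cases h3 : (p : ℤ) ∣ Fa (vh h) a p
  · rw [if_pos h3, if_pos (h0.1 h3), card_insert_of_notMem, card_insert_of_notMem]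
    · rw [mem_filter, Finset.mem_Ioo]; omega
    · rw [mem_filter, Finset.mem_Ioo]; omega
  · rw [if_neg h3, if_neg (fun h4 => h3 (h0.2 h4))]

lemma constF_eq {s d : ℕ} (h : Fin s → ℤ[X]) (a : Fin s → Fin (d + 1) → ℤ) (z : ℕ) :
    constF (randPoly h a) z = Cc z (vh h) a := by
  unfold constF Cc MP
  have e : (Finset.Icc 1 z).filter Nat.Prime = prN z := rfl
  rw [e, ← prod_pow, ← prod_mul_distrib]
  apply prod_congr rfl
  intro p hp
  have hpp := (mem_prN.1 hp).2
  rw [omegaF_eq h a p hpp, one_div, inv_pow, div_eq_mul_inv, mul_comm]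

lemma errorSum_eq {s d : ℕ} (h : Fin s → ℤ[X]) (a : Fin s → Fin (d + 1) → ℤ) (z α β : ℕ) (b : ℕ → ℝ) :
    errorSum (randPoly h a) z α β b = SS z (vh h) α β b a := by
  unfold errorSum SS
  apply sum_congr rfl
  intro n _
  rw [logWeight_eq, constF_eq]

end Pool.Agent.H77.BV
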